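import Pool.Agent.H38.BB.RdOf

/-!
# [H48 KV RDX] reciprocity data with exactly given `S0`, 60-110 lines (a copy). File Pool/Agent/H48/KV/Rdx.lean

Copy the proof of `exists_RD0_of` and `exists_RD_of` in Pool/Agent/H38/BB/RdOf.lean. There `S0 = S1 ∪ (T1 ∪ {v | Above p v})`, `T1` from `exists_clone K`. Take `T = T1 ∪ {v | Above p v}`; if `T ⊆ S1` put
`S0 = S1` (`clone_mono hT1` gives `ClOne S1`), the rest of the proof is the same.
-/

set_option autoImplicit false

open scoped NumberField
open IsDedekindDomain H63.MA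

noncomputable section

namespace H48.KV

open H38.BB

private theorem rdx0 (K : Type) [Field K] [NumberField K] {p : ℕ} (hp : p.Prime) (hp2 : MOne p K) {ζ : K}
    (hζ : IsPrimitiveRoot ζ p) (S0 : Finset (Pl K)) (hcl : ClOne S0)
    (hS : ∀ v, Above p v → v ∈ S0) : ∃ D : RD0 K p ζ, D.S0 = S0 ∧
      ∀ (x : Kˣ) (a : 𝓞 K), (x : K) = algebraMap (𝓞 K) K a → a - 1 ∈ D.M0 → PS p ζ D.S0 x := by
  classical
  have : Fact p.Prime := ⟨hp⟩
  have hpK : (p : K) ≠ 0 := by exact_mod_cast hp.ne_zero
  obtain ⟨n0, hn0⟩ := wa_small_finset S0 (fun _ => 1) (fun v => v.valuation K ((p : K) ^ 2)) (by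
    intro v _
    rw [Valuation.ne_zero_iff]
    exact pow_ne_zero 2 hpK)
  obtain ⟨n, hnn⟩ : ∃ n : ℕ, n = n0 + 1 := ⟨_, rfl⟩
  have hn1 : 1 ≤ n := by omega
  have hn : ∀ v ∈ S0, WithZero.exp (-(n : ℤ)) < v.valuation K ((p : K) ^ 2) := by
    intro v hv
    refine lt_of_le_of_lt ?_ (hn0 v hv)
    rw [mul_one, WithZero.exp_le_exp]
    omega
  have hfin := RMkA_fin hp hp2 hζ S0 hS n hn1 hn
  have hgex : ∀ v : Pl K, ∃ x : Kˣ, v ∉ S0 → ord v x = 1 ∧ ∀ w, w ∉ S0 → w ≠ v → ord w x = 0 := by
    intro v
    by_cases hv : v ∈ S0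
    · exact ⟨1, fun h => absurd hv h⟩
    · obtain ⟨x, hx⟩ := hcl v hv
      exact ⟨x, fun _ => hx⟩
  choose g hg using hgex
  have hgen : ∀ x : Kˣ, ∃ (m : Pl K →₀ ℤ) (w : Kˣ), w ∈ UT S0 ∧ (∀ i ∈ m.support, i ∉ S0) ∧
      x = (m.prod fun v n => g v ^ n) * w := by
    intro x
    obtain ⟨m, hm⟩ : ∃ m : Pl K →₀ ℤ, ∀ v, m v = if v ∈ S0 then 0 else ord v x := by
      refine ⟨Finsupp.ofSupportFinite (fun v => if v ∈ S0 then 0 else ord v x) ?_, fun v => rfl⟩
      refine (finite_ord x).subset ?_
      intro v hv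
      rw [Function.mem_support] at hv
      intro h0
      apply hv
      split_ifs
      · rfl
      · exact h0
    have hmS : ∀ i ∈ m.support, i ∉ S0 := by
      intro i hi his
      apply Finsupp.mem_support_iff.1 hi
      rw [hm, if_pos his]
    refine ⟨m, (m.prod fun v n => g v ^ n)⁻¹ * x, ?_, hmS, ?_⟩
    · intro v hv
      rw [ord_mul, ord_inv, Finsupp.prod, ord_prod]
      have h1 : ∑ i ∈ m.support, ord v (g i ^ m i) = ord v x := by
        rw [Finset.sum_eq_single v]
        · rw [ord_zpow, (hg v hv).1, mul_one, hm, if_neg hv]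
        · intro i hi hiv
          rw [ord_zpow, (hg i (hmS i hi)).2 v hv (Ne.symm hiv), mul_zero]
        · intro h
          rw [Finsupp.notMem_support_iff.1 h, zpow_zero, ord_one]
      rw [h1, neg_add_cancel]
    · rw [mul_inv_cancel_left]
  obtain ⟨u, r, q, hu, hA, hB, hnon⟩ := RMkA_lin hp (RMkA_G hp hp2 hζ S0) (UT S0)
    (fun y => RMkA_pow hp hp2 hζ S0 y) hfin g (fun v => v ∉ S0) hgen
  have hM0 : ∀ v : Pl K, v ∈ S0 → (∏ w ∈ S0, w.asIdeal ^ n) ≤ v.asIdeal ^ n := fun v hv =>
    Ideal.le_of_dvd (Finset.dvd_prod_of_mem _ hv)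
  have hray : ∀ (x : Kˣ) (a : 𝓞 K), (x : K) = algebraMap (𝓞 K) K a →
      a - 1 ∈ (∏ w ∈ S0, w.asIdeal ^ n) → PS p ζ S0 x := by
    intro x a hxa ha
    apply RMkA_near hp hζ S0 hS n hn1 hn
    intro v hv
    have h1 : (x : K) - 1 = algebraMap (𝓞 K) K (a - 1) := by rw [hxa, map_sub, map_one]
    rw [h1, HeightOneSpectrum.valuation_of_algebraMap,
      HeightOneSpectrum.intValuation_le_pow_iff_mem]
    exact hM0 v hv ha
  refine ⟨{ S0 := S0
            above := hS
            pi := fun v => g v * u v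
            pi_self := ?_
            pi_ne := ?_
            r := r
            q := fun v => if v ∈ S0 then 0 else q v
            q_zero := ?_
            prim_of := ?_
            M0 := ∏ w ∈ S0, w.asIdeal ^ n
            M0_ne := ?_
            M0_dvd := ?_
            ray_q := ?_
            unit := ?_
            q_non := ?_ }, rfl, hray⟩
  · intro v hv
    rw [ord_mul, (hg v hv).1, hu v v hv, add_zero]
  · intro v w hv hw hwv
    rw [ord_mul, (hg v hv).2 w hw hwv, hu v w hw, add_zero]
  · intro v hv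
    exact if_pos hv
  · intro m hm hsum
    apply hA m
    rw [← hsum]
    apply Finset.sum_congr rfl
    intro v hv
    have hvS : v ∉ S0 := fun h => (Finsupp.mem_support_iff.1 hv) (hm v h)
    simp only [if_neg hvS]
  · rw [← Ideal.zero_eq_bot]
    exact Finset.prod_ne_zero_iff.2 fun w _ => pow_ne_zero _ w.ne_bot
  · intro v
    constructor
    · intro h
      obtain ⟨w, hw, h1⟩ := (HeightOneSpectrum.prime v).exists_mem_finset_dvd h
      have h2 : v.asIdeal ∣ w.asIdeal := (HeightOneSpectrum.prime v).dvd_of_dvd_pow h1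
      have h3 : w.asIdeal ≤ v.asIdeal := Ideal.le_of_dvd h2
      have h4 : w = v := HeightOneSpectrum.ext (w.isMaximal.eq_of_le v.isPrime.ne_top h3)
      rw [← h4]
      exact hw
    · intro h
      exact (dvd_pow_self _ (by omega)).trans (Finset.dvd_prod_of_mem _ h)
  · intro κ
    constructor
    · intro v hv
      have hvS : v ∈ S0 := by
        obtain ⟨w, hw, h1⟩ := (HeightOneSpectrum.prime v).exists_mem_finset_dvd hv
        have h2 : v.asIdeal ∣ w.asIdeal := (HeightOneSpectrum.prime v).dvd_of_dvd_pow h1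
        have h3 : w.asIdeal ≤ v.asIdeal := Ideal.le_of_dvd h2
        have h4 : w = v := HeightOneSpectrum.ext (w.isMaximal.eq_of_le v.isPrime.ne_top h3)
        rw [← h4]
        exact hw
      simp only [if_pos hvS, Pi.zero_apply, mul_zero, Finset.sum_const_zero]
    · intro x a hxa ha
      have hPS := hray x a hxa ha
      let m : Pl K →₀ ℤ := Finsupp.ofSupportFinite (fun v => if v ∈ S0 then 0 else ord v x)
        ((finite_ord x).subset (by
          intro v hv
          rw [Function.mem_support] at hv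
          by_cases hvS : v ∈ S0
          · exact absurd (if_pos hvS) hv
          · rw [if_neg hvS] at hv
            exact hv))
      have hm : ∀ v, m v = if v ∈ S0 then 0 else ord v x := fun v => rfl
      have hmS : ∀ v ∈ m.support, v ∉ S0 := by
        intro v hv hvS
        rw [Finsupp.mem_support_iff, hm, if_pos hvS] at hv
        exact hv rfl
      have hw : x * (m.prod fun v n => g v ^ n)⁻¹ ∈ UT S0 := by
        rw [mem_UT]
        intro w hwS
        rw [ord_mul, ord_inv, Finsupp.prod, ord_prod]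
        have h4 : ∀ v ∈ m.support, v ≠ w → ord w (g v ^ m v) = 0 := by
          intro v hv hvw
          rw [ord_zpow, (hg v (hmS v hv)).2 w hwS (Ne.symm hvw), mul_zero]
        by_cases hwm : w ∈ m.support
        · rw [Finset.sum_eq_single w h4 (fun h => absurd hwm h), ord_zpow, (hg w hwS).1, hm,
            if_neg hwS]
          ring
        · rw [Finset.sum_eq_zero (fun v hv => h4 v hv (fun h => hwm (h ▸ hv)))]
          rw [Finsupp.notMem_support_iff, hm, if_neg hwS] at hwm
          rw [hwm]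
          ring
      have h1 := hB m _ hw (by
        rw [mul_comm, mul_assoc, inv_mul_cancel, mul_one]
        exact hPS)
      have hsupp : (Function.support fun v : Pl K =>
          (∑ i, κ i * (if v ∈ S0 then (0 : Fin r → ZMod p) else q v) i) * (ord v x : ZMod p)) ⊆
          ((m.support : Finset (Pl K)) : Set (Pl K)) := by
        intro v hv
        rw [Function.mem_support] at hv
        rw [Finset.mem_coe, Finsupp.mem_support_iff, hm]
        by_cases hvS : v ∈ S0
        · exfalso
          apply hv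
          simp only [if_pos hvS, Pi.zero_apply, mul_zero, Finset.sum_const_zero, zero_mul]
        · rw [if_neg hvS]
          intro h0
          apply hv
          rw [h0, Int.cast_zero, mul_zero]
      rw [finsum_eq_sum_of_support_subset _ hsupp]
      have h2 : ∀ v ∈ m.support,
          (∑ i, κ i * (if v ∈ S0 then (0 : Fin r → ZMod p) else q v) i) * (ord v x : ZMod p) =
          ∑ i, κ i * (((m v : ZMod p) • q v) i) := by
        intro v hv
        have hvS := hmS v hv
        rw [hm, if_neg hvS, if_neg hvS, Finset.sum_mul]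
        apply Finset.sum_congr rfl
        intro i _
        rw [Pi.smul_apply, smul_eq_mul]
        ring
      rw [Finset.sum_congr rfl h2, Finset.sum_comm]
      have h3 : ∀ i, ∑ v ∈ m.support, κ i * (((m v : ZMod p) • q v) i) = 0 := by
        intro i
        rw [← Finset.mul_sum]
        have h5 := congrFun h1 i
        rw [Finsupp.sum, Finset.sum_apply, Pi.zero_apply] at h5
        rw [h5, mul_zero]
      exact Finset.sum_eq_zero fun i _ => h3 i
  · intro w hw hPS
    exact unit_pow hp hp2 hζ S0 hcl hS w hw hPS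
  · intro κ hκ
    obtain ⟨v, hv, h1⟩ := hnon κ hκ
    exact ⟨v, by simpa only [if_neg hv] using h1⟩

theorem rdx (K : Type) [Field K] [NumberField K] {p : ℕ} (hp : p.Prime) (hp2 : MOne p K)
    {ζ : K} (hζ : IsPrimitiveRoot ζ p) : ∃ T : Finset (Pl K), ClOne T ∧
      (∀ v, Above p v → v ∈ T) ∧ ∀ S1 : Finset (Pl K), (∀ v ∈ T, v ∈ S1) →
        ∃ D : RD K p ζ, D.S0 = S1 := by
  classical
  obtain ⟨T1, hT1⟩ := exists_clone K
  have hcl : ClOne (T1 ∪ (finite_above (K := K) hp.ne_zero).toFinset) :=
    clone_mono hT1 Finset.subset_union_left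
  have hab : ∀ v : Pl K, Above p v → v ∈ T1 ∪ (finite_above (K := K) hp.ne_zero).toFinset := by
    intro v hv
    rw [Finset.mem_union, Set.Finite.mem_toFinset]
    exact Or.inr hv
  refine ⟨T1 ∪ (finite_above (K := K) hp.ne_zero).toFinset, hcl, hab, ?_⟩
  intro S1 hS1
  have hcl1 : ClOne S1 := clone_mono hcl (fun v hv => hS1 v hv)
  obtain ⟨D, hDS, hM⟩ := rdx0 K hp hp2 hζ S1 hcl1 (fun v hv => hS1 v (hab v hv))
  obtain ⟨lam, hlam, hone⟩ := exists_rec_one K hp hp2 hζ
  have hone' : ∀ v, D.Gd v → lam v = 1 := fun v hv =>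
    hone v (fun h => hv.1 (D.above v h)) hv.2
  obtain ⟨eta, heta⟩ := rmkC_rec2 hp hζ D hlam hone'
  exact ⟨{ D with
    ray_L := fun w hw => ray_LL hp hζ D hM hw
    lam := lam
    rec1 := fun b => rmkC_rec1 hp hζ D hlam hone' b
    eta := eta
    rec2 := fun v w hv hw _ => heta v w hv hw
    lam_one := hone'
    non := fun b hb F => rmkC_non hp hζ D b hb F }, hDS⟩

end H48.KV
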