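import Pool.Agent.H48.KV.Defs
import Pool.Agent.H38.AS.DFo
import Pool.Agent.H38.BG.DLo

/-!
# [H48 KV DSC] the discriminant, in terms of `Q : DP K QBar`, 100-150 lines. File Pool/Agent/H48/KV/Dsc.lean

* `dsc_conj`: the local exponent at `v` does not change if `φ` is replaced by a homomorphism which is conjugate to it on the decomposition group: apply `ldc3` (H38/AS/QLdc.lean) to `δ φ' δ⁻¹` and `φ`; the fields
  `fieldOf i₀ (δ φ' δ⁻¹)` and `fieldOf i₀ φ'` are isomorphic over `K`: `fieldOf i₀ (δ φ' δ⁻¹) = fieldOf (δ⁻¹ i₀) φ'` (`qn_mem` in H38/AS/QNk.lean) and `qld_iso` (H38/AS/QLd.lean); `ldx` is invariant under isomorphism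
  (see `qla_iso` in H38/AS/QLa.lean and its use in QLd/QLdc).
* `dsc_form`: copy of `dfo_out`, `dfo` in H38/AS/DFo.lean (imported) with `Q.P v` in the place of `(L.ld v hv).P` and `(Q.P v).inertia Gal(QBar/K)` in the place of `inr L v`; `d φ = ∏_{v ∈ S} nm v ^ ldx K (fieldOf i₀ φ) v`;
  the last clause by `dsc_conj`.
* `dsc_low`: copy of `dsm_lo` (H38/BG/DLo.lean).
-/

set_option autoImplicit false

open scoped NumberField
open IsDedekindDomain H38.ML H63.MA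

noncomputable section

namespace H48.KV

open H38.AS H38.BG

theorem dsc_conj {n : ℕ} (hn : 2 ≤ n) (G : Subgroup (Equiv.Perm (Fin n)))
    (hG : MulAction.IsPretransitive G (Fin n)) (K : IntermediateField ℚ QBar) [NumberField K]
    (Q : DP K QBar) (i₀ : Fin n) (φ φ' : Gal(QBar/K) →* G) (hφ : Function.Surjective φ)
    (hft : FT φ) (hφ' : Function.Surjective φ') (hft' : FT φ')
    [NumberField (fieldOf i₀ φ)] [NumberField (fieldOf i₀ φ')] (v : Pl K) (δ : G)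
    (h : ∀ σ ∈ dec (K := K) (Q.P v), φ σ = δ * φ' σ * δ⁻¹) :
    ldx K (fieldOf i₀ φ) v = ldx K (fieldOf i₀ φ') v := by
  obtain ⟨ψ, hψ⟩ : ∃ ψ : Gal(QBar/K) →* G, ∀ σ, ψ σ = δ * φ' σ * δ⁻¹ :=
    ⟨(MulAut.conj δ).toMonoidHom.comp φ', fun σ => rfl⟩
  have hψs : Function.Surjective ψ := by
    intro g
    obtain ⟨σ, hσ⟩ := hφ' (δ⁻¹ * g * δ)
    refine ⟨σ, ?_⟩
    rw [hψ, hσ]
    group
  have hψf : FT ψ := by
    obtain ⟨E, hE, hle⟩ := id hft'
    refine ⟨E, hE, fun σ hσ => ?_⟩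
    have h1 : φ' σ = 1 := hle hσ
    rw [MonoidHom.mem_ker, hψ, h1, mul_one, mul_inv_cancel]
  have hF : fieldOf (δ⁻¹ • i₀) φ' = fieldOf i₀ ψ := by
    ext x
    rw [qn_mem, qn_mem]
    have h1 : ∀ σ, ψ σ • i₀ = i₀ ↔ φ' σ • δ⁻¹ • i₀ = δ⁻¹ • i₀ := by
      intro σ
      rw [hψ, mul_smul, mul_smul]
      constructor
      · intro h2
        rw [eq_inv_smul_iff]
        exact h2
      · intro h2
        rw [h2, smul_inv_smul]
    constructor
    · intro h2 σ hσ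
      exact h2 σ ((h1 σ).1 hσ)
    · intro h2 σ hσ
      exact h2 σ ((h1 σ).2 hσ)
  obtain ⟨e⟩ := qld_iso G hG K i₀ (δ⁻¹ • i₀) φ' hφ'
  rw [hF] at e
  obtain ⟨hfd, -, -, -⟩ := small_field G hG K i₀ ψ hψs hψf
  have hnf : NumberField (fieldOf i₀ ψ) := NumberField.of_module_finite K (fieldOf i₀ ψ)
  rw [qla_iso K (fieldOf i₀ φ') (fieldOf i₀ ψ) e v]
  exact ldc3 hn G hG K Q i₀ φ ψ hφ hft hψs hψf v fun σ hσ => by rw [h σ hσ, hψ]

theorem dsc_out {n : ℕ} (G : Subgroup (Equiv.Perm (Fin n)))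
    (hG : MulAction.IsPretransitive G (Fin n)) (K : IntermediateField ℚ QBar) [NumberField K]
    (S : Finset (Pl K)) (hS : ∀ v : Pl K, ((n.factorial : ℕ) : 𝓞 K) ∈ v.asIdeal → v ∈ S)
    (Q : DP K QBar) (i₀ : Fin n) (φ : Gal(QBar/K) →* G) (hφ : Function.Surjective φ) (hft : FT φ)
    (htm : ∀ v, v ∉ S → v ∈ H38.WM.Rm Q φ →
      n - orbs ((((Q.P v).inertia Gal(QBar/K)).map φ).map G.subtype) = H38.ML.indG G)
    [NumberField (fieldOf i₀ φ)] (v : Pl K) (hv : v ∉ S) :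
    (v ∈ H38.WM.Rm Q φ → ldx K (fieldOf i₀ φ) v = H38.ML.indG G) ∧
      (v ∉ H38.WM.Rm Q φ → ldx K (fieldOf i₀ φ) v = 0) := by
  classical
  obtain ⟨hfd, hdeg, -, hemb⟩ := small_field G hG K i₀ φ hφ hft
  have hvm : v.asIdeal.IsMaximal := v.isMaximal
  have : Fintype (v.asIdeal.primesOver (𝓞 (fieldOf i₀ φ))) :=
    Set.Finite.fintype (IsDedekindDomain.primesOver_finite v.asIdeal (𝓞 (fieldOf i₀ φ)))
  have h1 := cdb_ldx_add K (fieldOf i₀ φ) v (by
    rw [hdeg]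
    exact fun h => hv (hS v h))
  rw [hdeg] at h1
  have h2 := embOrb_le (fieldOf i₀ φ) v.asIdeal v.isPrime v.ne_bot (Q.P v) (Q.prime v) (Q.under v)
  have h2' := embOrb_ge (fieldOf i₀ φ) v.asIdeal v.isPrime v.ne_bot (Q.P v) (Q.prime v) (Q.under v)
  rw [hemb] at h2 h2'
  constructor
  · intro hR
    have h4 := htm v hv hR
    omega
  · intro hno
    have hJ : ((Q.P v).inertia Gal(QBar/K)).map φ = ⊥ := by
      rw [eq_bot_iff]
      rintro _ ⟨σ, hσ, rfl⟩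
      rw [Subgroup.mem_bot]
      by_contra h
      exact hno ⟨σ, hσ, h⟩
    rw [hJ, Subgroup.map_bot, orbs_bot] at h2
    omega

theorem dsc_form {n : ℕ} (hn : 2 ≤ n) (G : Subgroup (Equiv.Perm (Fin n)))
    (hG : MulAction.IsPretransitive G (Fin n)) (K : IntermediateField ℚ QBar) [NumberField K]
    (S : Finset (Pl K)) (hS : ∀ v : Pl K, ((n.factorial : ℕ) : 𝓞 K) ∈ v.asIdeal → v ∈ S)
    (Q : DP K QBar) (i₀ : Fin n) :
    ∃ d : (Gal(QBar/K) →* G) → ℕ,
      (∀ φ : Gal(QBar/K) →* G, Function.Surjective φ → FT φ →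
        (∀ v, v ∉ S → v ∈ H38.WM.Rm Q φ → n - orbs ((((Q.P v).inertia Gal(QBar/K)).map φ).map
          G.subtype) = H38.ML.indG G) →
        0 < d φ ∧ ∀ T : Finset (Pl K), (∀ v, v ∈ T ↔ v ∉ S ∧ v ∈ H38.WM.Rm Q φ) →
        H38.ML.relDisc K (fieldOf i₀ φ) = d φ * (∏ v ∈ T, nm v) ^ H38.ML.indG G) ∧
      ∀ φ φ' : Gal(QBar/K) →* G, Function.Surjective φ → FT φ → Function.Surjective φ' → FT φ' →
        (∀ v ∈ S, ∃ δ : G, ∀ σ ∈ dec (K := K) (Q.P v), φ σ = δ * φ' σ * δ⁻¹) → d φ = d φ' := by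
  classical
  refine ⟨fun φ => if h : NumberField (fieldOf i₀ φ) then
    ∏ v ∈ S, nm v ^ ldx K (fieldOf i₀ φ) v else 1, ?_, ?_⟩
  · intro φ hφ hft htm
    obtain ⟨hfd, hdeg, -, -⟩ := small_field G hG K i₀ φ hφ hft
    have hnf : NumberField (fieldOf i₀ φ) := NumberField.of_module_finite K (fieldOf i₀ φ)
    have hout := fun v hv =>
      dsc_out G hG K S hS Q i₀ φ hφ hft htm v hv
    simp only [dif_pos hnf]
    refine ⟨Finset.prod_pos fun v _ => Nat.pow_pos (by have := one_lt_nm v; omega), ?_⟩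
    intro T hT
    have hrel : H38.ML.relDisc K (fieldOf i₀ φ) =
        Ideal.absNorm (differentIdeal (𝓞 K) (𝓞 (fieldOf i₀ φ))) := by
      unfold H38.ML.relDisc
      rw [dif_pos hnf]
    have hdisj : Disjoint S T := by
      rw [Finset.disjoint_left]
      intro v hv hvT
      exact ((hT v).1 hvT).1 hv
    rw [hrel, (ldx_prod K (fieldOf i₀ φ)).2 (S ∪ T) ?_, Finset.prod_union hdisj,
      ← Finset.prod_pow]
    · congr 1
      refine Finset.prod_congr rfl fun v hv => ?_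
      have hvR := (hT v).1 hv
      rw [(hout v hvR.1).1 hvR.2]
    · intro v hv
      rw [Finset.mem_union]
      by_cases hv0 : v ∈ S
      · exact Or.inl hv0
      · refine Or.inr ((hT v).2 ⟨hv0, ?_⟩)
        by_contra h1
        exact hv ((hout v hv0).2 h1)
  · intro φ φ' hφ hft hφ' hft' hT
    obtain ⟨hfd, hdeg, -, -⟩ := small_field G hG K i₀ φ hφ hft
    obtain ⟨hfd', hdeg', -, -⟩ := small_field G hG K i₀ φ' hφ' hft'
    have hnf : NumberField (fieldOf i₀ φ) := NumberField.of_module_finite K (fieldOf i₀ φ)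
    have hnf' : NumberField (fieldOf i₀ φ') := NumberField.of_module_finite K (fieldOf i₀ φ')
    simp only [dif_pos hnf, dif_pos hnf']
    refine Finset.prod_congr rfl fun v hv => ?_
    congr 1
    obtain ⟨δ, hδ⟩ := hT v hv
    exact dsc_conj hn G hG K Q i₀ φ φ' hφ hft hφ' hft' v δ hδ

theorem dsc_low {n : ℕ} (hn : 2 ≤ n) (G : Subgroup (Equiv.Perm (Fin n)))
    (hG : MulAction.IsPretransitive G (Fin n)) (K : IntermediateField ℚ QBar) [NumberField K]
    (Q : DP K QBar) (i₀ : Fin n) (φ : Gal(QBar/K) →* G) (hφ : Function.Surjective φ)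
    (hft : FT φ) (T : Finset (Pl K)) :
    ∏ v ∈ T, (nm v : ℝ) ^ (n - orbs ((((Q.P v).inertia Gal(QBar/K)).map φ).map G.subtype)) ≤
      (H38.ML.relDisc K (fieldOf i₀ φ) : ℝ) := by
  classical
  obtain ⟨hfd, hdeg, -, hemb⟩ := small_field G hG K i₀ φ hφ hft
  have hnf : NumberField (fieldOf i₀ φ) := NumberField.of_module_finite K (fieldOf i₀ φ)
  have h1 := dlow (fieldOf i₀ φ) T (fun v : Pl K => Q.P v) fun v _ => ⟨Q.prime v, Q.under v⟩
  have hrel : H38.ML.relDisc K (fieldOf i₀ φ) =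
      Ideal.absNorm (differentIdeal (𝓞 K) (𝓞 (fieldOf i₀ φ))) := by
    unfold H38.ML.relDisc
    rw [dif_pos hnf]
  have h2 : ∏ v ∈ T, nm v ^ (n - orbs ((((Q.P v).inertia Gal(QBar/K)).map φ).map G.subtype)) =
      ∏ v ∈ T, nm v ^ (Module.finrank K (fieldOf i₀ φ) - embOrb (fieldOf i₀ φ)
        ((Q.P v).inertia Gal(QBar/K))) := by
    refine Finset.prod_congr rfl fun v hv => ?_
    rw [hdeg, hemb]
  rw [hrel]
  rw [← h2] at h1
  exact_mod_cast h1

end H48.KV
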