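import Pool.Agent.H48.KV.GrpB
import Pool.Agent.H38.BG.PIdx
import Pool.Agent.H38.BG.TTam
import Pool.Agent.H63.BU.UOrd

/-!
# [H48 KV IDX] indices, 90-140 lines. File Pool/Agent/H48/KV/Idx.lean

`hI`: all elements of least index are in `V`. Use `pidx_pos` (H38/BG/PIdx.lean; see how it is used at the beginning of `fin_lim` in H38/AS/Fin.lean) and the lemmas there on `orbs` (monotonicity: more permutations, fewer
orbits: `H38.BG.dup_orbs_anti`, H38/BG/DUp.lean or `H36.QA.l2c_orbs_anti`; conjugate elements have the same index).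
* `idx_pos`: `0 < indG G`. `idx_V`: there is an element of least index (`indG` is an infimum that is attained, `G ≠ 1`), it is in `V`, not 1, and all elements `≠ 1` of `V` are conjugate to `w` (`kv_psi`).
* `idx_out`: `g ∉ V` has `ind g ≠ indG G` and `ind g ≥ indG G`, so `≥ indG G + 1`, and `n - orbs J ≥ ind g` for `g ∈ J`.
* `idx_in`: for `g ∈ J`, `g ≠ 1`: `n - orbs J ≥ ind g ≥ indG G`.
* `idx_zp`: for `x ∈ V`, `x ≠ 1`: `n - orbs (zpowers x) = indG G` (`MonoidHom.map_zpowers`, see `esp_exp` in H38/AS/ESp.lean).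
* `ine_cyc`: tame inertia with values in `V`: choose `π : Kˣ` with `ord v π = 1` (`exists_unif`), `L : LD 2 (-1) QBar v π` with `L.P = Q.P v` (`H63.BU.uord_at`), `tm` (H38/BG/TTam.lean) for `p = 2` (`kv_sq`): the image of the inertia group is
  generated by `x = φ L.t`, and `x ≠ 1` if `φ` is ramified.
-/

set_option autoImplicit false

open scoped NumberField
open IsDedekindDomain H38.ML H63.MA

noncomputable section

namespace H48.KV

open H38.BG

variable {n : ℕ} {G : Subgroup (Equiv.Perm (Fin n))} (k : KV G)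

/-- fewer permutations have more orbits -/
private theorem orbs_anti {n : ℕ} {H H' : Subgroup (Equiv.Perm (Fin n))} (h : H ≤ H') :
    orbs H' ≤ orbs H := by
  unfold orbs
  have hfin : Finite (MulAction.orbitRel.Quotient H (Fin n)) := Quotient.finite _
  refine Nat.card_le_card_of_surjective
    (f := fun q : MulAction.orbitRel.Quotient H (Fin n) =>
      (Quotient.map' (s₁ := MulAction.orbitRel H (Fin n)) (s₂ := MulAction.orbitRel H' (Fin n)) id
        (by
          intro i j hij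
          have h1 : i ∈ MulAction.orbit H j := hij
          obtain ⟨⟨m, hm⟩, h2⟩ := MulAction.mem_orbit_iff.1 h1
          exact MulAction.mem_orbit_iff.2 ⟨⟨m, h hm⟩, h2⟩) q :
        MulAction.orbitRel.Quotient H' (Fin n))) ?_
  intro q
  induction q using Quotient.inductionOn' with
  | h i => exact ⟨Quotient.mk'' i, rfl⟩

theorem idx_pos (hn : 2 ≤ n) (hG : MulAction.IsPretransitive G (Fin n)) : 0 < indG G := by
  exact (pidx_pos hn G hG).1

theorem idx_V (hn : 2 ≤ n) (hG : MulAction.IsPretransitive G (Fin n))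
    (hI : ∀ g : G, g ≠ 1 → ind (g : Equiv.Perm (Fin n)) = indG G → g ∈ k.V) (g : G)
    (hg : g ∈ k.V) (h1 : g ≠ 1) : ind (g : Equiv.Perm (Fin n)) = indG G := by
  obtain ⟨_, ⟨g0, hg0, hi0⟩, _, hc, _⟩ := pidx_pos hn G hG
  obtain ⟨a, ha⟩ := kv_psi k (hI g0 hg0 hi0) hg0
  obtain ⟨b, hb⟩ := kv_psi k hg h1
  have h : g = (b⁻¹ * a) * g0 * (b⁻¹ * a)⁻¹ := by
    have h2 : (b⁻¹ * a) * g0 * (b⁻¹ * a)⁻¹ = b⁻¹ * (a * g0 * a⁻¹) * b := by group
    rw [h2, ha, ← hb]
    group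
  rw [h]
  exact hc g0 (b⁻¹ * a) hg0 hi0

theorem idx_zp (hn : 2 ≤ n) (hG : MulAction.IsPretransitive G (Fin n))
    (hI : ∀ g : G, g ≠ 1 → ind (g : Equiv.Perm (Fin n)) = indG G → g ∈ k.V) (g : G)
    (hg : g ∈ k.V) (h1 : g ≠ 1) :
    n - orbs ((Subgroup.zpowers g).map G.subtype) = indG G := by
  rw [← idx_V k hn hG hI g hg h1, MonoidHom.map_zpowers]
  rfl

theorem idx_in (hn : 2 ≤ n) (hG : MulAction.IsPretransitive G (Fin n)) (J : Subgroup G)
    (hJ : J ≠ ⊥) : indG G ≤ n - orbs (J.map G.subtype) := by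
  obtain ⟨_, _, _, _, h⟩ := pidx_pos hn G hG
  have h2 := h J hJ
  omega

theorem idx_out (hn : 2 ≤ n) (hG : MulAction.IsPretransitive G (Fin n))
    (hI : ∀ g : G, g ≠ 1 → ind (g : Equiv.Perm (Fin n)) = indG G → g ∈ k.V) (J : Subgroup G)
    (g : G) (hg : g ∈ J) (h1 : g ∉ k.V) : indG G + 1 ≤ n - orbs (J.map G.subtype) := by
  obtain ⟨_, _, h3, _, _⟩ := pidx_pos hn G hG
  have hg1 : g ≠ 1 := by
    rintro rfl
    exact h1 k.V.one_mem
  have h4 := h3 g hg1
  have h5 : ind (g : Equiv.Perm (Fin n)) ≠ indG G := fun h => h1 (hI g hg1 h)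
  have h6 : orbs (J.map G.subtype) ≤ orbs (Subgroup.zpowers (g : Equiv.Perm (Fin n))) := by
    refine orbs_anti ?_
    rw [Subgroup.zpowers_le]
    exact ⟨g, hg, rfl⟩
  have h7 : ind (g : Equiv.Perm (Fin n)) = n - orbs (Subgroup.zpowers (g : Equiv.Perm (Fin n))) :=
    rfl
  omega

theorem ine_cyc {G : Type} [Group G] [Finite G] (k : KV G) {K : IntermediateField ℚ QBar}
    [NumberField K] (Q : DP K QBar) (v : Pl K) (h2 : ¬ Above 2 v) (φ : Gal(QBar/K) →* G)
    (hft : FT φ) (hV : ∀ σ ∈ (Q.P v).inertia Gal(QBar/K), φ σ ∈ k.V)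
    (hr : ∃ σ ∈ (Q.P v).inertia Gal(QBar/K), φ σ ≠ 1) :
    ∃ x ∈ k.V, x ≠ 1 ∧ ((Q.P v).inertia Gal(QBar/K)).map φ = Subgroup.zpowers x := by
  have hm1 : IsPrimitiveRoot (-1 : K) 2 := IsPrimitiveRoot.neg_one 0 (by norm_num)
  obtain ⟨π, hπ⟩ := H63.MA.exists_unif v
  obtain ⟨L, hL⟩ := H63.BU.uord_at QBar Nat.prime_two hm1 h2 hπ (Q.P v) (Q.prime v) (Q.under v)
  have he : ∀ τ ∈ L.P.inertia Gal(QBar/K), φ τ ^ 2 = 1 := by
    intro τ hτ
    rw [hL] at hτ
    exact kv_sq k (hV τ hτ)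
  have ht : L.t ∈ (Q.P v).inertia Gal(QBar/K) := by
    rw [← hL]
    exact L.ht
  have hz : ∀ τ ∈ (Q.P v).inertia Gal(QBar/K), φ τ ∈ Subgroup.zpowers (φ L.t) := by
    intro τ hτ
    rw [tm Nat.prime_two hm1 h2 hπ L φ hft he τ (by rw [hL]; exact hτ)]
    exact Subgroup.npow_mem_zpowers _ _
  refine ⟨φ L.t, hV _ ht, ?_, ?_⟩
  · intro h
    obtain ⟨σ, hσ, hσ1⟩ := hr
    apply hσ1
    have h3 := hz σ hσ
    rw [h, Subgroup.zpowers_one_eq_bot, Subgroup.mem_bot] at h3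
    exact h3
  · apply le_antisymm
    · rintro _ ⟨τ, hτ, rfl⟩
      exact hz τ hτ
    · rw [Subgroup.zpowers_le]
      exact ⟨L.t, ht, rfl⟩

end H48.KV
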