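import Pool.Agent.H48.KV.UbC
import Pool.Agent.H48.KV.Dsc
import Pool.Agent.H48.KV.Idx
import Pool.Agent.H38.WM.RmF

/-!
# [H48 KV UBE] the data of a lift of bounded discriminant, 110-170 lines. File Pool/Agent/H48/KV/UbE.lean

`a = indG G`.
* `ub_t`: for `v` not above 2 choose `π` with `ord v π = 1` (`exists_unif`), `L : LD 2 (-1) QBar v π` with `L.P = Q.P v` (`uord_at`), `t v = L.t`, `c v s = (kk 2 (-1) π s).val`; `tm` (H38/BG/TTam.lean) for `φ` (`φ s ^ 2 = 1` by `kv_sq`).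
* `ub_fin`: `TV k Q S φ` and `RV k Q S φ` are contained in `Rm Q φ`, finite by `H38.WM.rmF`.
* `ub_dsc`: `dsc_low` (Dsc.lean) for `R ∪ T` (disjoint: at `l ∈ R` some element of the inertia group is not mapped to `V`, at `l ∈ T` all are): the exponent is `≥ a + 1` for `l ∈ R` (`idx_out`, Idx.lean, `J` = image of the inertia group), `≥ a` for `l ∈ T` (`idx_in`); `nm l ≥ 1`.
* `ub_T`: `T` from `ub_fin`. `RV k Q S φ = RV k Q S φ₀` (`φ σ ∈ V ↔ φ₀ σ ∈ V` by `Eqv`). `ub_dsc` gives `nr R ^ (a+1) * nr T ^ a ≤ B`, take the power `1 / a` (`Real.rpow_natCast`, `Real.mul_rpow`, `Real.rpow_mul`; `a ≥ 1` by `idx_pos`). Disjoint from `E`: at `v ∈ E` some element of the inertia group has `k.pi (φ₀ σ) ≠ 1`, so `φ σ ∉ V`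
  (`eqv_pi`, `k.piV`). `LL v y = 0` by `ubc_LL` (UbC.lean): `v ∉ S = D.S0`, `v ∉ E` so `ord v y = 0`.
* `ub_eq`: `l ∈ S ∪ R` is excluded, so the inertia group at `l` is mapped to `V` by `φ` and `φ'`; if `l ∉ T` both are trivial on it; if `l ∈ T` use `ht`.
-/

set_option autoImplicit false

open scoped NumberField Classical
open IsDedekindDomain H38.ML H63.MA

noncomputable section

namespace H48.KV

theorem ub_t {G : Type} [Group G] [Finite G] (k : KV G) (K : IntermediateField ℚ QBar)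
    [NumberField K] (Q : DP K QBar) : ∃ (t : Pl K → Gal(QBar/K)) (c : Pl K → Gal(QBar/K) → ℕ),
      ∀ v, ¬ Above 2 v → t v ∈ (Q.P v).inertia Gal(QBar/K) ∧ ∀ φ : Gal(QBar/K) →* G, FT φ →
        (∀ σ ∈ (Q.P v).inertia Gal(QBar/K), φ σ ∈ k.V) →
        ∀ s ∈ (Q.P v).inertia Gal(QBar/K), φ s = φ (t v) ^ c v s := by
  have key : ∀ v : Pl K, ∃ (t : Gal(QBar/K)) (c : Gal(QBar/K) → ℕ), ¬ Above 2 v →
      t ∈ (Q.P v).inertia Gal(QBar/K) ∧ ∀ φ : Gal(QBar/K) →* G, FT φ →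
        (∀ σ ∈ (Q.P v).inertia Gal(QBar/K), φ σ ∈ k.V) →
        ∀ s ∈ (Q.P v).inertia Gal(QBar/K), φ s = φ t ^ c s := by
    intro v
    by_cases h2 : Above 2 v
    · exact ⟨1, fun _ => 0, fun h => absurd h2 h⟩
    have hm1 : IsPrimitiveRoot (-1 : K) 2 := IsPrimitiveRoot.neg_one 0 (by norm_num)
    obtain ⟨π, hπ⟩ := H63.MA.exists_unif v
    obtain ⟨L, hL⟩ := H63.BU.uord_at QBar Nat.prime_two hm1 h2 hπ (Q.P v) (Q.prime v) (Q.under v)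
    refine ⟨L.t, fun s => (kk 2 (-1 : K) π s).val, fun _ => ⟨?_, ?_⟩⟩
    · rw [← hL]
      exact L.ht
    · intro φ hft hV s hs
      have he : ∀ τ ∈ L.P.inertia Gal(QBar/K), φ τ ^ 2 = 1 := by
        intro τ hτ
        rw [hL] at hτ
        exact kv_sq k (hV τ hτ)
      exact H38.BG.tm Nat.prime_two hm1 h2 hπ L φ hft he s (by rw [hL]; exact hs)
  choose t c h using key
  exact ⟨t, c, h⟩

variable {n : ℕ} {G : Subgroup (Equiv.Perm (Fin n))} {K : IntermediateField ℚ QBar}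
  [NumberField K] {k : KV G} {ω : K}

theorem ub_fin (Q : DP K QBar) (S : Finset (Pl K)) (φ : Gal(QBar/K) →* G) (hft : FT φ) :
    (TV k Q S φ).Finite ∧ (RV k Q S φ).Finite := by
  have h := H38.WM.rmF Q φ hft
  constructor
  · refine h.subset ?_
    rintro l ⟨-, h1, -⟩
    exact h1
  · refine h.subset ?_
    rintro l ⟨-, σ, hσ, h1⟩
    refine ⟨σ, hσ, fun h2 => h1 ?_⟩
    rw [h2]
    exact k.V.one_mem

theorem ub_dsc (hn : 2 ≤ n) (hG : MulAction.IsPretransitive G (Fin n))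
    (hI : ∀ g : G, g ≠ 1 → ind (g : Equiv.Perm (Fin n)) = indG G → g ∈ k.V)
    (Q : DP K QBar) (S : Finset (Pl K)) (i₀ : Fin n) (φ : Gal(QBar/K) →* G)
    (hs : Function.Surjective φ) (hft : FT φ) (R T : Finset (Pl K))
    (hR : ∀ l ∈ R, l ∈ RV k Q S φ) (hT : ∀ l ∈ T, l ∈ TV k Q S φ) :
    nr R ^ (indG G + 1) * nr T ^ indG G ≤ (H38.ML.relDisc K (fieldOf i₀ φ) : ℝ) := by
  have hdis : Disjoint R T := by
    rw [Finset.disjoint_left]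
    intro l hl hl'
    obtain ⟨-, σ, hσ, h1⟩ := hR l hl
    exact h1 ((hT l hl').2.2 σ hσ)
  refine le_trans ?_ (dsc_low hn G hG K Q i₀ φ hs hft (R ∪ T))
  rw [Finset.prod_union hdis]
  unfold nr
  rw [← Finset.prod_pow, ← Finset.prod_pow]
  have h1 : ∀ v : Pl K, (1 : ℝ) ≤ (nm v : ℝ) := fun v => by exact_mod_cast (one_lt_nm v).le
  refine mul_le_mul ?_ ?_ (Finset.prod_nonneg fun v _ => by positivity)
    (Finset.prod_nonneg fun v _ => by positivity)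
  · refine Finset.prod_le_prod (fun v _ => by positivity) fun v hv => ?_
    obtain ⟨-, σ, hσ, h2⟩ := hR v hv
    exact pow_le_pow_right₀ (h1 v) (idx_out k hn hG hI _ (φ σ) ⟨σ, hσ, rfl⟩ h2)
  · refine Finset.prod_le_prod (fun v _ => by positivity) fun v hv => ?_
    obtain ⟨-, ⟨σ, hσ, h2⟩, -⟩ := hT v hv
    refine pow_le_pow_right₀ (h1 v) (idx_in hn hG _ fun h3 => h2 ?_)
    have h4 : φ σ ∈ ((Q.P v).inertia Gal(QBar/K)).map φ := ⟨σ, hσ, rfl⟩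
    rw [h3, Subgroup.mem_bot] at h4
    exact h4

private theorem ube_V {Γ : Type} [Group Γ] {φ φ' : Γ →* G} (he : Eqv k φ φ') (σ : Γ) :
    φ σ ∈ k.V ↔ φ' σ ∈ k.V := by
  have h1 := he σ
  constructor
  · intro h
    have h2 := k.V.mul_mem (k.V.inv_mem h1) h
    have h3 : (φ σ * (φ' σ)⁻¹)⁻¹ * φ σ = φ' σ := by group
    rwa [h3] at h2
  · intro h
    have h2 := k.V.mul_mem h1 h
    have h3 : φ σ * (φ' σ)⁻¹ * φ' σ = φ σ := by group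
    rwa [h3] at h2

theorem ub_T (hn : 2 ≤ n) (hG : MulAction.IsPretransitive G (Fin n))
    (hI : ∀ g : G, g ≠ 1 → ind (g : Equiv.Perm (Fin n)) = indG G → g ∈ k.V)
    (hω : IsPrimitiveRoot ω 3) (D : RD0 K 3 ω) (h2 : ∀ v : Pl K, Above 2 v → v ∈ D.S0)
    (Q : DP K QBar) (i₀ : Fin n) (φ₀ φ : Gal(QBar/K) →* G) (B : ℝ) (hB : 1 ≤ B)
    (hφ : φ ∈ XB k i₀ φ₀ B) (R E : Finset (Pl K)) (hR : ∀ l, l ∈ R ↔ l ∈ RV k Q D.S0 φ₀) (y : Kˣ)
    (hy : ∀ σ : Gal(QBar/K), kk 3 ω y σ = Multiplicative.toAdd (k.pi (φ₀ σ)))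
    (hE : ∀ v, v ∈ E ↔ v ∉ D.S0 ∧ ord v y ≠ 0)
    (hy2 : ∀ v ∈ E, ∃ σ ∈ (Q.P v).inertia Gal(QBar/K), k.pi (φ₀ σ) ≠ 1) :
    ∃ T : Finset (Pl K), (∀ l, l ∈ T ↔ l ∈ TV k Q D.S0 φ) ∧ (∀ v ∈ T, v ∉ D.S0) ∧
      Disjoint T E ∧ (∀ v ∈ T, D.LL v y = 0) ∧
      nr R ^ (1 + 1 / (indG G : ℝ)) * nr T ≤ B ^ (1 / (indG G : ℝ)) := by
  obtain ⟨hft, hsur, he, hd⟩ := hφ
  have hTV := (ub_fin (k := k) Q D.S0 φ hft).1
  have hT : ∀ l, l ∈ hTV.toFinset ↔ l ∈ TV k Q D.S0 φ := fun l => hTV.mem_toFinset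
  have hdis : Disjoint hTV.toFinset E := by
    rw [Finset.disjoint_left]
    intro v hv hv'
    obtain ⟨-, -, h3⟩ := (hT v).1 hv
    obtain ⟨σ, hσ, h4⟩ := hy2 v hv'
    apply h4
    rw [← eqv_pi k he σ]
    exact k.piV _ (h3 σ hσ)
  refine ⟨hTV.toFinset, hT, fun v hv => ((hT v).1 hv).1, hdis, ?_, ?_⟩
  · intro v hv
    obtain ⟨h3, h4, h5⟩ := (hT v).1 hv
    refine ubc_LL hω D Q φ₀ φ he hft y hy v h3 ?_ (fun h => h3 (h2 v h)) h5 h4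
    by_contra h6
    exact Finset.disjoint_left.1 hdis hv ((hE v).2 ⟨h3, h6⟩)
  · have hle := ub_dsc hn hG hI Q D.S0 i₀ φ hsur hft R hTV.toFinset (k := k)
      (fun l hl => by
        obtain ⟨h3, σ, hσ, h4⟩ := (hR l).1 hl
        exact ⟨h3, σ, hσ, fun h5 => h4 ((ube_V he σ).1 h5)⟩)
      (fun l hl => (hT l).1 hl)
    have ha : 0 < indG G := idx_pos hn hG
    have ha' : (0 : ℝ) < (indG G : ℝ) := by exact_mod_cast ha
    have h0 : 0 ≤ nr R := zero_le_one.trans (one_le_nr R)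
    have h0' : 0 ≤ nr hTV.toFinset := zero_le_one.trans (one_le_nr _)
    have h3 := Real.rpow_le_rpow (by positivity) (hle.trans hd)
      (one_div_nonneg.2 ha'.le)
    rw [Real.mul_rpow (by positivity) (by positivity), ← Real.rpow_natCast,
      ← Real.rpow_natCast (nr hTV.toFinset), ← Real.rpow_mul h0, ← Real.rpow_mul h0'] at h3
    have e1 : ((indG G + 1 : ℕ) : ℝ) * (1 / (indG G : ℝ)) = 1 + 1 / (indG G : ℝ) := by
      push_cast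
      field_simp
    have e2 : ((indG G : ℕ) : ℝ) * (1 / (indG G : ℝ)) = 1 := by
      field_simp
    rw [e1, e2, Real.rpow_one] at h3
    exact h3

theorem ub_eq (Q : DP K QBar) (S : Finset (Pl K)) (φ₀ φ φ' : Gal(QBar/K) →* G)
    (he : Eqv k φ φ₀) (he' : Eqv k φ' φ₀) (R T : Finset (Pl K))
    (hR : ∀ l, l ∈ R ↔ l ∈ RV k Q S φ₀) (hT : ∀ l, l ∈ T ↔ l ∈ TV k Q S φ)
    (hT' : ∀ l, l ∈ T ↔ l ∈ TV k Q S φ')
    (ht : ∀ l ∈ T, ∀ s ∈ (Q.P l).inertia Gal(QBar/K), φ s = φ' s) (l : Pl K)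
    (hl : l ∉ S ∪ R) (σ : Gal(QBar/K)) (hσ : σ ∈ (Q.P l).inertia Gal(QBar/K)) :
    φ σ = φ' σ := by
  rw [Finset.mem_union, not_or] at hl
  obtain ⟨hlS, hlR⟩ := hl
  have hV : ∀ τ ∈ (Q.P l).inertia Gal(QBar/K), φ₀ τ ∈ k.V := by
    intro τ hτ
    by_contra h
    exact hlR ((hR l).2 ⟨hlS, τ, hτ, h⟩)
  by_cases hlT : l ∈ T
  · exact ht l hlT σ hσ
  · have h1 : ∀ ψ : Gal(QBar/K) →* G, Eqv k ψ φ₀ → (∀ l, l ∈ T ↔ l ∈ TV k Q S ψ) →
        ψ σ = 1 := by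
      intro ψ hψ hTψ
      by_contra h
      exact hlT ((hTψ l).2 ⟨hlS, ⟨σ, hσ, h⟩, fun τ hτ => (ube_V hψ τ).2 (hV τ hτ)⟩)
    rw [h1 φ he hT, h1 φ' he' hT']

end H48.KV
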