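import Pool.Agent.H48.KV.GrpA

/-!
# [H48 KV GRPB] conjugation by `V`, surjectivity, 80-130 lines, pure group theory (uses GrpA). File Pool/Agent/H48/KV/GrpB.lean

* `kv_conj`: put `c σ = ρ σ (ρ' σ)⁻¹ ∈ V`. `pi (ρ σ) = pi (ρ' σ)`. If `pi (ρ σ) = 1` for all `σ` take `δ = 1`. Otherwise choose `γ` with `pi (ρ γ) ≠ 1` and
  `δ = c γ * c (γ²)`. `c (σ τ) = c σ * (ρ' σ) (c τ) (ρ' σ)⁻¹`, and `c σ = 1` if `pi (ρ σ) = 1`, so `c (σ ν) = c σ` for `ν` in the kernel of `pi ∘ ρ`. Claim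
  `δ ρ' σ δ⁻¹ = ρ σ`, i.e. `c σ = δ (ρ' σ) δ⁻¹ (ρ' σ)⁻¹`: both sides only depend on `pi (ρ σ)` (for the right side: `kv_act`), so it is enough to
  take `σ = 1, γ, γ²` (`pi (ρ σ) ∈ {1, pi (ρ γ), pi (ρ γ)²}`). In additive notation with `t = ρ' γ` acting on `V`: `c(γ²) = c γ + t c γ`,
  `c(γ³) = 0 = c γ + t c γ + t² c γ` as `γ³` is in the kernel, `δ = c γ + c γ² = t c γ` and `δ + t δ = t c γ + t² c γ = c γ`. Everything commutes (`kv_comm`) and has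
  order 2 (`kv_sq`).
* `kv_conj_inj`: `δ (φ σ) δ⁻¹ = δ' (φ σ) δ'⁻¹` for all `σ`, `φ` surjective: `z = δ'⁻¹ δ ∈ V` commutes with all of `G`, so `z = 1` by `kv_fix`.
* `kv_surj`: let `H` be the range of `φ`. `H` maps onto `G / V` (`φ₀` surjective, `Eqv`): every `g` is `v h` with `v ∈ V`, `h ∈ H`. `H ∩ V` is normalised by `H` and by `V`
  (commutative), so all conjugates of `x = φ σ₀ ∈ H ∩ V` are in `H`; by `kv_psi`/`kv_one` the conjugates of `x` are all elements `≠ 1` of `V` (any two elements `≠ 1` of `V`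
  are conjugate to `w`), so `V ≤ H` and `H = ⊤`.
-/

set_option autoImplicit false

noncomputable section

namespace H48.KV

variable {G : Type} [Group G] (k : KV G)

private theorem z3 (a b : Multiplicative (ZMod 3)) (h : a ≠ 1) : b = 1 ∨ b = a ∨ b = a ^ 2 := by
  revert a b
  decide

private theorem z3c (a : Multiplicative (ZMod 3)) : a * a * a = 1 := by
  revert a
  decide

private theorem nV_conj {x : G} (hx : x ∈ k.V) (g : G) : g * x * g⁻¹ ∈ k.V :=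
  k.nV.conj_mem x hx g

theorem eqv_pi {H : Type} [Group H] {φ φ' : H →* G} (h : Eqv k φ φ') (σ : H) :
    k.pi (φ σ) = k.pi (φ' σ) := by
  have h1 := k.piV _ (h σ)
  rw [map_mul, map_inv] at h1
  exact mul_inv_eq_one.1 h1

theorem kv_conj {H : Type} [Group H] (ρ ρ' : H →* G) (h : ∀ σ, ρ σ * (ρ' σ)⁻¹ ∈ k.V)
    (hN : ∀ σ, k.pi (ρ σ) = 1 → ρ σ = ρ' σ) : ∃ δ ∈ k.V, ∀ σ, ρ σ = δ * ρ' σ * δ⁻¹ := by
  by_cases hall : ∀ σ, k.pi (ρ σ) = 1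
  · refine ⟨1, k.V.one_mem, fun σ => ?_⟩
    rw [one_mul, inv_one, mul_one]
    exact hN σ (hall σ)
  push Not at hall
  obtain ⟨γ, hγ⟩ := hall
  have hpi : ∀ σ, k.pi (ρ σ) = k.pi (ρ' σ) := fun σ => eqv_pi k h σ
  obtain ⟨t, ht⟩ : ∃ t, t = ρ' γ := ⟨_, rfl⟩
  obtain ⟨c, hc⟩ : ∃ c, c = ρ γ * (ρ' γ)⁻¹ := ⟨_, rfl⟩
  have hcV : c ∈ k.V := hc ▸ h γ
  have hρ : ρ γ = c * t := by
    rw [hc, ht]
    group
  have hTc : t * c * t⁻¹ ∈ k.V := nV_conj k hcV t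
  have hT2c : t * (t * c * t⁻¹) * t⁻¹ ∈ k.V := nV_conj k hTc t
  have hsq : ∀ x ∈ k.V, x * x = 1 := by
    intro x hx
    rw [← pow_two]
    exact kv_sq k hx
  have hinv : ∀ x ∈ k.V, x⁻¹ = x := fun x hx => inv_eq_of_mul_eq_one_left (hsq x hx)
  have h3 : c * (t * c * t⁻¹) * (t * (t * c * t⁻¹) * t⁻¹) = 1 := by
    have e1 : k.pi (ρ (γ * γ * γ)) = 1 := by
      rw [map_mul, map_mul, map_mul, map_mul]
      exact z3c _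
    have e2 := hN _ e1
    rw [map_mul, map_mul, map_mul, map_mul, hρ, ← ht] at e2
    have e3 : c * (t * c * t⁻¹) * (t * (t * c * t⁻¹) * t⁻¹) =
        c * t * (c * t) * (c * t) * (t * t * t)⁻¹ := by group
    rw [e3, e2, mul_inv_cancel]
  have h4 : (t * c * t⁻¹) * (t * (t * c * t⁻¹) * t⁻¹) = c := by
    have e : (t * c * t⁻¹) * (t * (t * c * t⁻¹) * t⁻¹) =
        c⁻¹ * (c * (t * c * t⁻¹) * (t * (t * c * t⁻¹) * t⁻¹)) := by group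
    rw [e, h3, mul_one, hinv c hcV]
  refine ⟨t * c * t⁻¹, hTc, ?_⟩
  have hker : ∀ ν, k.pi (ρ ν) = 1 → ρ ν = t * c * t⁻¹ * ρ' ν * (t * c * t⁻¹)⁻¹ := by
    intro ν hν
    have e1 := k.cen (ρ' ν) (by rw [← hpi]; exact hν) _ hTc
    have e2 : ρ' ν * (t * c * t⁻¹) = t * c * t⁻¹ * ρ' ν := by
      calc ρ' ν * (t * c * t⁻¹) = ρ' ν * (t * c * t⁻¹) * (ρ' ν)⁻¹ * ρ' ν := by group
        _ = t * c * t⁻¹ * ρ' ν := by rw [e1]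
    rw [hN ν hν, ← e2]
    group
  have hg : ρ γ = t * c * t⁻¹ * ρ' γ * (t * c * t⁻¹)⁻¹ := by
    rw [hρ, ← ht]
    have e : t * c * t⁻¹ * t * (t * c * t⁻¹)⁻¹ =
        (t * c * t⁻¹) * (t * (t * c * t⁻¹)⁻¹ * t⁻¹) * t := by group
    rw [e, hinv _ hTc, h4]
  have hmul : ∀ σ τ, ρ σ = t * c * t⁻¹ * ρ' σ * (t * c * t⁻¹)⁻¹ →
      ρ τ = t * c * t⁻¹ * ρ' τ * (t * c * t⁻¹)⁻¹ →
      ρ (σ * τ) = t * c * t⁻¹ * ρ' (σ * τ) * (t * c * t⁻¹)⁻¹ := by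
    intro σ τ h1 h2
    rw [map_mul, map_mul, h1, h2]
    group
  intro σ
  rcases z3 _ (k.pi (ρ σ)) hγ with hs | hs | hs
  · exact hker σ hs
  · have e : σ = γ * (γ⁻¹ * σ) := by group
    rw [e]
    refine hmul _ _ hg (hker _ ?_)
    rw [map_mul, map_mul, map_inv, map_inv, hs, inv_mul_cancel]
  · have e : σ = γ * (γ * (γ⁻¹ * γ⁻¹ * σ)) := by group
    rw [e]
    refine hmul _ _ hg (hmul _ _ hg (hker _ ?_))
    rw [map_mul, map_mul, map_mul, map_mul, map_inv, map_inv, hs, pow_two]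
    group

theorem kv_conj_inj {H : Type} [Group H] (φ : H →* G) (hs : Function.Surjective φ) {δ δ' : G}
    (hδ : δ ∈ k.V) (hδ' : δ' ∈ k.V) (h : ∀ σ, δ * φ σ * δ⁻¹ = δ' * φ σ * δ'⁻¹) : δ = δ' := by
  obtain ⟨g, hg⟩ := k.sj (Multiplicative.ofAdd 1)
  have hg1 : k.pi g ≠ 1 := by
    rw [hg]
    decide
  obtain ⟨σ, rfl⟩ := hs g
  have h1 := h σ
  have h2 : φ σ * (δ'⁻¹ * δ) * (φ σ)⁻¹ = δ'⁻¹ * δ := by
    calc φ σ * (δ'⁻¹ * δ) * (φ σ)⁻¹ = δ'⁻¹ * (δ' * φ σ * δ'⁻¹) * δ * (φ σ)⁻¹ := by group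
      _ = δ'⁻¹ * (δ * φ σ * δ⁻¹) * δ * (φ σ)⁻¹ := by rw [h1]
      _ = δ'⁻¹ * δ := by group
  have h3 := kv_fix k hg1 (k.V.mul_mem (k.V.inv_mem hδ') hδ) h2
  calc δ = δ' * (δ'⁻¹ * δ) := by group
    _ = δ' := by rw [h3, mul_one]

theorem kv_surj {H : Type} [Group H] (φ φ₀ : H →* G) (hs : Function.Surjective φ₀)
    (he : Eqv k φ φ₀) {σ₀ : H} (h1 : φ σ₀ ∈ k.V) (h2 : φ σ₀ ≠ 1) : Function.Surjective φ := by
  have hdec : ∀ g : G, ∃ v ∈ k.V, ∃ τ, g = v * φ τ := by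
    intro g
    obtain ⟨τ, hτ⟩ := hs g
    refine ⟨(φ τ * (φ₀ τ)⁻¹)⁻¹, k.V.inv_mem (he τ), τ, ?_⟩
    rw [hτ]
    group
  have hV : ∀ x ∈ k.V, ∃ τ, φ τ = x := by
    intro x hx
    by_cases hx1 : x = 1
    · exact ⟨1, by rw [map_one, hx1]⟩
    obtain ⟨g₁, hg₁⟩ := kv_psi k hx hx1
    obtain ⟨g₀, hg₀⟩ := kv_psi k h1 h2
    obtain ⟨v, hv, τ, hτ⟩ := hdec (g₁⁻¹ * g₀)
    have e1 : x = (g₁⁻¹ * g₀) * φ σ₀ * (g₁⁻¹ * g₀)⁻¹ := by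
      calc x = g₁⁻¹ * (g₁ * x * g₁⁻¹) * g₁ := by group
        _ = g₁⁻¹ * (g₀ * φ σ₀ * g₀⁻¹) * g₁ := by rw [hg₁, hg₀]
        _ = (g₁⁻¹ * g₀) * φ σ₀ * (g₁⁻¹ * g₀)⁻¹ := by group
    have hm : φ τ * φ σ₀ * (φ τ)⁻¹ ∈ k.V := nV_conj k h1 _
    refine ⟨τ * σ₀ * τ⁻¹, ?_⟩
    rw [map_mul, map_mul, map_inv, e1, hτ]
    have e2 : v * φ τ * φ σ₀ * (v * φ τ)⁻¹ = v * (φ τ * φ σ₀ * (φ τ)⁻¹) * v⁻¹ := by group
    rw [e2, kv_comm k hv hm]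
    group
  intro g
  obtain ⟨v, hv, τ, hτ⟩ := hdec g
  obtain ⟨τ', hτ'⟩ := hV v hv
  exact ⟨τ' * τ, by rw [map_mul, hτ', hτ]⟩

theorem eqv_refl {H : Type} [Group H] (φ : H →* G) : Eqv k φ φ := by
  intro σ
  rw [mul_inv_cancel]
  exact k.V.one_mem

theorem eqv_symm {H : Type} [Group H] {φ φ' : H →* G} (h : Eqv k φ φ') : Eqv k φ' φ := by
  intro σ
  have h1 := k.V.inv_mem (h σ)
  rwa [mul_inv_rev, inv_inv] at h1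

theorem eqv_trans {H : Type} [Group H] {φ φ' φ'' : H →* G} (h : Eqv k φ φ')
    (h' : Eqv k φ' φ'') : Eqv k φ φ'' := by
  intro σ
  have h1 := k.V.mul_mem (h σ) (h' σ)
  have e : φ σ * (φ' σ)⁻¹ * (φ' σ * (φ'' σ)⁻¹) = φ σ * (φ'' σ)⁻¹ := by group
  rwa [e] at h1

theorem eqv_conj {H : Type} [Group H] {φ φ' : H →* G} (h : Eqv k φ φ') {δ : G} (hδ : δ ∈ k.V) :
    Eqv k ((MulAut.conj δ).toMonoidHom.comp φ) φ' := by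
  intro σ
  have e : ((MulAut.conj δ).toMonoidHom.comp φ) σ * (φ' σ)⁻¹ =
      δ * (φ σ * δ⁻¹ * (φ σ)⁻¹) * (φ σ * (φ' σ)⁻¹) := by
    show δ * φ σ * δ⁻¹ * (φ' σ)⁻¹ = _
    group
  rw [e]
  exact k.V.mul_mem (k.V.mul_mem hδ (nV_conj k (k.V.inv_mem hδ) _)) (h σ)

end H48.KV
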