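import Pool.Agent.H48.KV.FldB
import Pool.Agent.H63.MA.KumB
import Pool.Agent.H63.MC.CDa

/-!
# [H48 KV FLDC] the action of `τ` on the primes of `F`, 110-170 lines. File Pool/Agent/H48/KV/FldC.lean

`tp τ P` is the ideal `{x | τ⁻¹ x ∈ P}` (Defs.lean).
* `tp_ord`: the valuation at `tp τ P` of `τ x` is the valuation at `P` of `x` (see `ord_conj`-type lemmas in Pool/Agent/H38/TD/Val.lean, `H38.TD.ordAt_smul`, H38/WM/EvR.lean where this is proved for
  `s • P`; or: compare `HeightOneSpectrum.valuation` through the multiplicities of ideals: `mapRingEquiv τ` maps `P^n` onto `(tp τ P)^n`; `ord` is `-log` of the valuation).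
* `tp_nm`: the ring isomorphism `𝓞 F → 𝓞 F` induces a bijection of the residue rings (`Ideal.absNorm` = cardinality, or `Ideal.absNorm_comap`/`map` of a ring equivalence).
* `tp_over`: `τ` fixes `K`. `tp_cube`: `fd_cube`.
* `tp_tr`: the Galois group acts transitively on the primes over `l` (`Ideal.exists_smul_eq_of_isGaloisGroup`, see EvR.lean) and consists of `1, τ, τ²` (as in `fd_norm`).
* `tp_deg`: if `tp τ P ≠ P` then `P, tp τ P, tp τ (tp τ P)` are three different primes over `l` (`tp_cube`), so by `Ideal.sum_ramification_inertia` (sum `e f = 3`) `f = 1` and `nm P = nm l`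
  (`Ideal.absNorm_eq_pow_inertiaDeg`).
* `tp_fix`: if `tp τ P = P` then `P` is the only prime over `l` (`tp_tr`), so `e f = 3`. If moreover all elements of the inertia group of the prime `Q.P l` fix `F` then `e = 1`: the
  inertia group of `P` in `Gal(F/K)` is trivial (lift an element `g` of it to an element of the inertia group of a prime of `𝓞 QBar` over `P`: `H63.MA.CDa_lift` in H63/MC/CDa.lean, used in
  H38/AS/QLb.lean; the primes of `𝓞 QBar` over `l` are conjugate, and `F/K` is normal), `Ideal.card_inertia_eq_ramificationIdxIn`. So `f = 3`, `nm P = nm l ^ 3` is not a prime number.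
  (Other possibility: `H38.ML.Unr`, H38/ML/UnrFin.lean; or `Pool/Agent/H38/ML/Coset.lean`: in `coset_unique`/`ord_conj` the same facts are proved.)
* `tp_pow`: the number of primes over `l` is at most 3 (H38/WM/Lab.lean).
-/

set_option autoImplicit false
set_option linter.unusedSectionVars false

open scoped NumberField
open IsDedekindDomain H38.ML H63.MA

noncomputable section

namespace H48.KV

variable {K : IntermediateField ℚ QBar} [NumberField K] {G : Type} [Group G] {k : KV G}
  {φ₀ : Gal(QBar/K) →* G} {F : IntermediateField K QBar} [NumberField F] {γ : Gal(QBar/K)}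
  {τ : F ≃ₐ[K] F}

theorem tp_mem (τ : F ≃ₐ[K] F) (P : Pl F) (x : 𝓞 F) :
    x ∈ (tp τ P).asIdeal ↔ NumberField.RingOfIntegers.mapRingEquiv
      (τ.symm : F ≃ₐ[K] F).toRingEquiv x ∈ P.asIdeal := Iff.rfl

section aux

open scoped Pointwise

private theorem tp_smul (τ : F ≃ₐ[K] F) (P : Pl F) : τ • P.asIdeal = (tp τ P).asIdeal := by
  ext x
  rw [tp_mem, Ideal.mem_pointwise_smul_iff_inv_smul_mem]
  exact Iff.rfl

private theorem fc_int (s : F ≃ₐ[K] F) {w w' : Pl F} (h : s • w.asIdeal = w'.asIdeal)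
    (a : 𝓞 F) : w'.intValuation (s • a) = w.intValuation a := by
  have key : ∀ n : ℕ, w'.intValuation (s • a) ≤ WithZero.exp (-(n : ℤ)) ↔
      w.intValuation a ≤ WithZero.exp (-(n : ℤ)) := by
    intro n
    rw [HeightOneSpectrum.intValuation_le_pow_iff_mem, HeightOneSpectrum.intValuation_le_pow_iff_mem,
      ← h, ← smul_pow', Ideal.smul_mem_pointwise_smul_iff]
  rcases eq_or_ne a 0 with rfl | ha
  · simp
  have hsa : s • a ≠ 0 := by
    rwa [Ne, smul_eq_zero_iff_eq]
  apply le_antisymm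
  · rw [HeightOneSpectrum.intValuation_eq_exp_neg_multiplicity w ha, key,
      HeightOneSpectrum.intValuation_eq_exp_neg_multiplicity w ha]
  · rw [HeightOneSpectrum.intValuation_eq_exp_neg_multiplicity w' hsa, ← key,
      HeightOneSpectrum.intValuation_eq_exp_neg_multiplicity w' hsa]

private theorem fc_val (s : F ≃ₐ[K] F) {w w' : Pl F} (h : s • w.asIdeal = w'.asIdeal)
    (y : F) : w'.valuation F (s y) = w.valuation F y := by
  obtain ⟨a, b, hb, rfl⟩ := IsFractionRing.div_surjective (A := 𝓞 F) y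
  have e : ∀ a : 𝓞 F, s (algebraMap (𝓞 F) F a) = algebraMap (𝓞 F) F (s • a) := fun a => rfl
  rw [map_div₀, map_div₀, map_div₀, e, e, HeightOneSpectrum.valuation_of_algebraMap,
    HeightOneSpectrum.valuation_of_algebraMap, HeightOneSpectrum.valuation_of_algebraMap,
    HeightOneSpectrum.valuation_of_algebraMap, fc_int s h, fc_int s h]

end aux

theorem tp_ord (τ : F ≃ₐ[K] F) (P : Pl F) (x : Fˣ) : ord (tp τ P) (tu τ x) = ord P x := by
  unfold ord tu
  rw [Units.coe_map]
  congr 2
  exact fc_val τ (tp_smul τ P) x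

theorem tp_nm (τ : F ≃ₐ[K] F) (P : Pl F) : nm (tp τ P) = nm P := by
  unfold nm
  rw [Ideal.absNorm_apply, Ideal.absNorm_apply, Submodule.cardQuot_apply,
    Submodule.cardQuot_apply]
  refine Nat.card_congr (Ideal.quotientEquiv _ _ (NumberField.RingOfIntegers.mapRingEquiv
      (τ.symm : F ≃ₐ[K] F).toRingEquiv) ?_).toEquiv
  exact (Ideal.map_comap_of_surjective (NumberField.RingOfIntegers.mapRingEquiv
      (τ.symm : F ≃ₐ[K] F).toRingEquiv : 𝓞 F →+* 𝓞 F) (RingEquiv.surjective _) P.asIdeal).symm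

theorem tp_over (τ : F ≃ₐ[K] F) (P : Pl F) (l : Pl K) : Over (tp τ P) l ↔ Over P l := by
  have h1 : (tp τ P).asIdeal.comap (algebraMap (𝓞 K) (𝓞 F)) =
      P.asIdeal.comap (algebraMap (𝓞 K) (𝓞 F)) := by
    ext x
    rw [Ideal.mem_comap, Ideal.mem_comap, tp_mem]
    have h2 : NumberField.RingOfIntegers.mapRingEquiv
      (τ.symm : F ≃ₐ[K] F).toRingEquiv (algebraMap (𝓞 K) (𝓞 F) x) = algebraMap (𝓞 K) (𝓞 F) x := by
      apply NumberField.RingOfIntegers.ext
      exact (τ.symm : F ≃ₐ[K] F).commutes (x : K)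
    rw [h2]
  unfold Over
  rw [h1]

theorem tp_cube (h : FD k φ₀ F γ τ) (P : Pl F) : tp τ (tp τ (tp τ P)) = P := by
  apply HeightOneSpectrum.ext
  ext x
  rw [tp_mem, tp_mem, tp_mem]
  have h1 : ∀ y : F, τ.symm (τ.symm (τ.symm y)) = y := by
    intro y
    have h2 := fd_cube h (τ.symm (τ.symm (τ.symm y)))
    rw [AlgEquiv.apply_symm_apply, AlgEquiv.apply_symm_apply, AlgEquiv.apply_symm_apply] at h2
    exact h2.symm
  have h2 : NumberField.RingOfIntegers.mapRingEquiv (τ.symm : F ≃ₐ[K] F).toRingEquiv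
      (NumberField.RingOfIntegers.mapRingEquiv (τ.symm : F ≃ₐ[K] F).toRingEquiv
      (NumberField.RingOfIntegers.mapRingEquiv (τ.symm : F ≃ₐ[K] F).toRingEquiv x)) = x := by
    apply NumberField.RingOfIntegers.ext
    exact h1 (x : F)
  rw [h2]

private theorem fc_tau (h : FD k φ₀ F γ τ) : τ ≠ 1 := by
  rintro rfl
  apply h.ga
  rw [← h.fix γ, IntermediateField.mem_fixingSubgroup_iff]
  intro x hx
  exact h.res ⟨x, hx⟩

private theorem fc_card (h : FD k φ₀ F γ τ) : Nat.card Gal(F/K) = 3 := by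
  have : IsGalois K F := h.gal
  have : FiniteDimensional K F := FiniteDimensional.of_finrank_pos (by rw [h.deg]; norm_num)
  rw [IsGalois.card_aut_eq_finrank, h.deg]

open scoped Pointwise in
theorem tp_tr (h : FD k φ₀ F γ τ) (P P' : Pl F) (l : Pl K) (hP : Over P l) (hP' : Over P' l) :
    P' = P ∨ P' = tp τ P ∨ P' = tp τ (tp τ P) := by
  have : IsGalois K F := h.gal
  have : FiniteDimensional K F := FiniteDimensional.of_finrank_pos (by rw [h.deg]; norm_num)
  have : P.asIdeal.LiesOver l.asIdeal := ⟨hP.symm⟩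
  have : P'.asIdeal.LiesOver l.asIdeal := ⟨hP'.symm⟩
  have : Fact (Nat.Prime 3) := ⟨Nat.prime_three⟩
  obtain ⟨g, hg⟩ := Ideal.exists_smul_eq_of_isGaloisGroup l.asIdeal P.asIdeal P'.asIdeal Gal(F/K)
  have h1 : g ∈ Submonoid.powers τ := mem_powers_of_prime_card (fc_card h) (fc_tau h)
  obtain ⟨n, rfl⟩ := h1
  have h3 : τ ^ 3 = 1 := by
    have h4 := pow_card_eq_one' (x := (τ : Gal(F/K)))
    rwa [fc_card h] at h4
  have h4 : τ ^ n = τ ^ (n % 3) := by
    conv_lhs => rw [← Nat.mod_add_div n 3, pow_add, pow_mul, h3, one_pow, mul_one]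
  have h5 : n % 3 < 3 := Nat.mod_lt _ (by norm_num)
  have hg' : τ ^ (n % 3) • P.asIdeal = P'.asIdeal := by
    rw [← h4]
    exact hg
  interval_cases n % 3
  · left
    rw [pow_zero, one_smul] at hg'
    exact HeightOneSpectrum.ext hg'.symm
  · right
    left
    rw [pow_one, tp_smul] at hg'
    exact HeightOneSpectrum.ext hg'.symm
  · right
    right
    rw [pow_two, mul_smul, tp_smul, tp_smul] at hg'
    exact HeightOneSpectrum.ext hg'.symm

private theorem fc_fund (h : FD k φ₀ F γ τ) (v : Pl K) {w : Pl F} (hw : Over w v) :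
    {w : Pl F | Over w v}.ncard *
      (v.asIdeal.ramificationIdxIn (𝓞 F) * w.asIdeal.inertiaDeg (𝓞 K)) = 3 := by
  have : w.asIdeal.LiesOver v.asIdeal := ⟨hw.symm⟩
  have : IsGalois K F := h.gal
  have : FiniteDimensional K F := FiniteDimensional.of_finrank_pos (by rw [h.deg]; norm_num)
  have hinj : Function.Injective (fun w : Pl F => w.asIdeal) :=
    fun _ _ hh => HeightOneSpectrum.ext hh
  have himg : (fun w : Pl F => w.asIdeal) '' {w : Pl F | Over w v} =
      v.asIdeal.primesOver (𝓞 F) := by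
    ext Q
    constructor
    · rintro ⟨w, hw, rfl⟩
      exact ⟨w.isPrime, ⟨Eq.symm hw⟩⟩
    · rintro ⟨h1, h2⟩
      exact ⟨⟨Q, h1, Ideal.ne_bot_of_liesOver_of_ne_bot v.ne_bot Q⟩, h2.over.symm, rfl⟩
  have hcard : {w : Pl F | Over w v}.ncard = (v.asIdeal.primesOver (𝓞 F)).ncard := by
    rw [← himg, Set.ncard_image_of_injective _ hinj]
  have h1 := Ideal.ncard_primesOver_mul_ramificationIdxIn_mul_inertiaDegIn v.asIdeal (𝓞 F)
    Gal(F/K)
  rw [Ideal.inertiaDegIn_eq_inertiaDeg v.asIdeal w.asIdeal Gal(F/K), ← hcard, fc_card h] at h1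
  exact h1

private theorem fc_nm {w : Pl F} {v : Pl K} (h : Over w v) :
    nm w = nm v ^ w.asIdeal.inertiaDeg (𝓞 K) := by
  have : w.asIdeal.LiesOver v.asIdeal := ⟨h.symm⟩
  exact (Ideal.absNorm_pow_inertiaDeg v.asIdeal w.asIdeal).symm

theorem tp_deg (h : FD k φ₀ F γ τ) (P : Pl F) (l : Pl K) (hP : Over P l) (hne : tp τ P ≠ P) :
    nm P = nm l := by
  have h1 := fc_fund h l hP
  have hc := tp_cube h P
  have hne2 : tp τ (tp τ P) ≠ P := by
    intro h2
    apply hne
    rw [h2] at hc
    exact hc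
  have hne3 : tp τ (tp τ P) ≠ tp τ P := by
    intro h2
    rw [h2, h2] at hc
    exact hne hc
  have h2 : {w : Pl F | Over w l}.ncard = 3 := by
    have h3 : {w : Pl F | Over w l} = {P, tp τ P, tp τ (tp τ P)} := by
      ext w
      simp only [Set.mem_ofPred_eq, Set.mem_insert_iff, Set.mem_singleton_iff]
      constructor
      · exact fun hw => tp_tr h P w l hP hw
      · rintro (rfl | rfl | rfl)
        · exact hP
        · exact (tp_over τ P l).2 hP
        · exact (tp_over τ _ l).2 ((tp_over τ P l).2 hP)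
    rw [h3]
    exact Set.ncard_eq_three.2 ⟨P, tp τ P, tp τ (tp τ P), Ne.symm hne, Ne.symm hne2,
      Ne.symm hne3, rfl⟩
  rw [h2] at h1
  have h4 : l.asIdeal.ramificationIdxIn (𝓞 F) * P.asIdeal.inertiaDeg (𝓞 K) = 1 := by omega
  rw [fc_nm hP, Nat.eq_one_of_mul_eq_one_left h4, pow_one]

open scoped Pointwise in
theorem tp_fix (h : FD k φ₀ F γ τ) (Q : DP K QBar) (P : Pl F) (l : Pl K) (hP : Over P l)
    (hun : ∀ σ ∈ (Q.P l).inertia Gal(QBar/K), k.pi (φ₀ σ) = 1) (he : tp τ P = P) :
    ¬ (nm P).Prime := by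
  have h1 := fc_fund h l hP
  have : IsGalois K F := h.gal
  have : FiniteDimensional K F := FiniteDimensional.of_finrank_pos (by rw [h.deg]; norm_num)
  have : P.asIdeal.LiesOver l.asIdeal := ⟨hP.symm⟩
  have h2 : {w : Pl F | Over w l}.ncard = 1 := by
    rw [Set.ncard_eq_one]
    refine ⟨P, ?_⟩
    ext w
    simp only [Set.mem_ofPred_eq, Set.mem_singleton_iff]
    constructor
    · intro hw
      rcases tp_tr h P w l hP hw with h3 | h3 | h3
      · exact h3
      · rw [h3, he]
      · rw [h3, he, he]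
    · rintro rfl
      exact hP
  have hin : P.asIdeal.inertia Gal(F/K) = ⊥ := by
    rw [Subgroup.eq_bot_iff_forall]
    intro d hd
    have hnb : NumberField (⊥ : IntermediateField K QBar) :=
      NumberField.of_module_finite K (⊥ : IntermediateField K QBar)
    refine CDa_inertia (⊥ : IntermediateField K QBar) F bot_le l (Q.P l) (Q.prime l) (Q.under l)
      ?_ P.asIdeal P.isPrime hP d hd ?_
    · intro σ hσ _
      exact (h.fix σ).2 (hun σ hσ)
    · intro m hm
      obtain ⟨c, hc⟩ := IntermediateField.mem_bot.1 hm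
      have h3 : m = algebraMap K F c := Subtype.ext hc.symm
      rw [h3]
      exact AlgEquiv.commutes d c
  have he1 : l.asIdeal.ramificationIdxIn (𝓞 F) = 1 := by
    rw [← Ideal.card_inertia_eq_ramificationIdxIn (G := Gal(F/K)) l.asIdeal P.asIdeal, hin,
      Subgroup.card_bot]
  rw [h2, he1, one_mul, one_mul] at h1
  rw [fc_nm hP, h1]
  intro hpr
  have h3 := (Nat.Prime.eq_one_of_pow hpr)
  omega

end H48.KV
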