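import Pool.Agent.H48.KV.KumC
import Pool.Agent.H48.KV.FldC
import Pool.Agent.H63.BU.UOrd
import Pool.Agent.H63.MC.CDef

/-!
# [H48 KV LOCA] inertia groups and the parity of the Kummer class, 110-170 lines. File Pool/Agent/H48/KV/LocA.lean

See the proof of `evu` in H38/WM/EvU.lean (almost the same). Let `Over P l`, `𝔓` a prime of `𝓞 QBar` with `𝔓.under (𝓞 F) = P` (`H63.MA.gloc_over F QBar`); it lies over `l`, so `𝔓 = g • Q.P l` for some
`g : Gal(QBar/K)`, and for `t ∈ 𝔓.inertia Gal(QBar/F)` the element `g⁻¹ t g` is in `(Q.P l).inertia Gal(QBar/K)`.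
* `loc_even`: choose `π : Fˣ` with `ord P π = 1` (`exists_unif`) and `L : LD 2 (-1) QBar P π` with `L.P = 𝔓` (`H63.BU.uord_at`). `ld_kk_t`: `(ord P a : ZMod 2) = kk 2 (-1) a L.t = lam (φ t (φ' t)⁻¹)`. By `kc_equi`
  (with `g`, `σ = L.t`) `φ φ'⁻¹ (g⁻¹ t g)` is a conjugate of `φ t (φ' t)⁻¹`, and it is `1` by `hI`, so `φ t (φ' t)⁻¹ = 1` and `lam 1 = 0` (`kv_lam_one`).
* `loc_odd`: let `σ ∈ (Q.P l).inertia` with `φ σ ≠ 1 = φ' σ`. `φ σ ∈ V` (`Eqv φ φ'`: `eqv_trans`, `eqv_symm`), so `k.pi (φ σ) = 1` and `σ` fixes `F` (`fd_eqv`, `h.fix`). By `k.sep` there is `x = φ₀ g` with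
  `lam (x (φ σ) x⁻¹) ≠ 0`, which is `kk 2 (-1) a s`, `s` = the automorphism `g σ g⁻¹` of `QBar/F` (`kc_equi` with `g⁻¹`, `kc_conj_ex`). `s` is in the inertia group of `𝔓 = g • Q.P l`,
  `P = 𝔓.under (𝓞 F)` lies over `l`; `ld_kk` (H63/MA/GLoc.lean): `kk 2 (-1) a s = ord P a * kk 2 (-1) π s`, so `ord P a` is odd.
-/

set_option autoImplicit false

open scoped NumberField Pointwise
open IsDedekindDomain H38.ML H63.MA

noncomputable section

namespace H48.KV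

private theorem loc_trans {K : Type} [Field K] [NumberField K] {Ω : Type} [Field Ω] [Algebra K Ω]
    [IsAlgClosure K Ω] (P P' : Ideal (𝓞 Ω)) (hP : P.IsPrime) (hP' : P'.IsPrime)
    (h : P.under (𝓞 K) = P'.under (𝓞 K)) : ∃ g : Gal(Ω/K), P' = g • P := by
  have : IsGalois K Ω := IsAlgClosure.isGalois K Ω
  let _ : TopologicalSpace (𝓞 Ω) := ⊥
  have : DiscreteTopology (𝓞 Ω) := ⟨rfl⟩
  have : ContinuousSMul Gal(Ω/K) (𝓞 Ω) := by
    rw [continuousSMul_iff_stabilizer_isOpen]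
    intro x
    have h1 := stabilizer_isOpen_of_isIntegral (K := K) (L := Ω) (x : Ω)
    have h2 : (MulAction.stabilizer Gal(Ω/K) x : Set Gal(Ω/K)) =
        (MulAction.stabilizer Gal(Ω/K) (x : Ω) : Set Gal(Ω/K)) := by
      ext g
      simp only [SetLike.mem_coe, MulAction.mem_stabilizer_iff]
      constructor
      · intro hg
        exact congrArg (fun z : 𝓞 Ω => (z : Ω)) hg
      · intro hg
        exact NumberField.RingOfIntegers.ext hg
    rw [h2]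
    exact h1
  have : Algebra.IsInvariant (𝓞 K) (𝓞 Ω) Gal(Ω/K) := ⟨fun b hb => by
    have h1 : (b : Ω) ∈ (⊥ : IntermediateField K Ω) := by
      rw [← InfiniteGalois.fixedField_bot (k := K) (K := Ω), IntermediateField.mem_fixedField_iff]
      intro g _
      exact congrArg (fun z : 𝓞 Ω => (z : Ω)) (hb g)
    obtain ⟨a, ha⟩ := IntermediateField.mem_bot.1 h1
    have h2 : IsIntegral ℤ a := by
      have h3 : IsIntegral ℤ (algebraMap K Ω a) := by
        rw [ha]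
        exact b.2
      exact (isIntegral_algebraMap_iff (algebraMap K Ω).injective).1 h3
    refine ⟨⟨a, h2⟩, NumberField.RingOfIntegers.ext ?_⟩
    exact ha⟩
  exact Algebra.IsInvariant.exists_smul_of_under_eq_of_profinite (A := 𝓞 K) (G := Gal(Ω/K)) P P' h

private theorem loc_inr {K : Type} [Field K] [NumberField K] {Ω : Type} [Field Ω] [Algebra K Ω]
    (P : Ideal (𝓞 Ω)) (g τ : Gal(Ω/K)) (h : τ ∈ (g • P).inertia Gal(Ω/K)) :
    g⁻¹ * τ * g ∈ P.inertia Gal(Ω/K) := by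
  intro x
  have h1 := h (g • x)
  have h2 : (g⁻¹ * τ * g) • x - x = g⁻¹ • (τ • (g • x) - g • x) := by
    rw [smul_sub, inv_smul_smul, mul_smul, mul_smul]
  change (g⁻¹ * τ * g) • x - x ∈ P
  rw [h2]
  have h3 : τ • (g • x) - g • x ∈ g • P := h1
  rwa [Ideal.mem_pointwise_smul_iff_inv_smul_mem] at h3

private theorem loc_inr' {K : Type} [Field K] [NumberField K] {Ω : Type} [Field Ω] [Algebra K Ω]
    (P : Ideal (𝓞 Ω)) (g τ : Gal(Ω/K)) (h : τ ∈ P.inertia Gal(Ω/K)) :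
    g * τ * g⁻¹ ∈ (g • P).inertia Gal(Ω/K) := by
  intro x
  have h1 := h (g⁻¹ • x)
  change (g * τ * g⁻¹) • x - x ∈ g • P
  rw [Ideal.mem_pointwise_smul_iff_inv_smul_mem]
  have h2 : g⁻¹ • ((g * τ * g⁻¹) • x - x) = τ • (g⁻¹ • x) - g⁻¹ • x := by
    rw [smul_sub, mul_smul, mul_smul, inv_smul_smul]
  rw [h2]
  exact h1

variable {K : IntermediateField ℚ QBar} [NumberField K] {G : Type} [Group G] {k : KV G}
  {φ₀ : Gal(QBar/K) →* G} {F : IntermediateField K QBar} [NumberField F] {γ : Gal(QBar/K)}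
  {τ : F ≃ₐ[K] F}

omit [NumberField F] [NumberField K] in
private theorem loc_clo : IsAlgClosure F QBar :=
  { isAlgClosed := inferInstance
    isAlgebraic := by
      have h0 : Algebra.IsAlgebraic K QBar := inferInstance
      exact Algebra.IsAlgebraic.tower_top (K := K) F }

private theorem loc_above (P : Pl F) (l : Pl K) (hPl : Over P l) (h2 : ¬ Above 2 l) :
    ¬ Above 2 P := by
  intro h4
  apply h2
  have h5 : ((2 : ℕ) : 𝓞 F) ∈ P.asIdeal := h4
  change ((2 : ℕ) : 𝓞 K) ∈ l.asIdeal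
  rw [← hPl, Ideal.mem_comap, map_natCast]
  exact h5

theorem loc_even (h : FD k φ₀ F γ τ) {φ φ' : Gal(QBar/K) →* G}
    (hφ : Eqv k φ φ₀) (hφ' : Eqv k φ' φ₀) {a : Fˣ} (ha : Kc k F φ φ' a) (Q : DP K QBar)
    (P : Pl F) (l : Pl K) (hPl : Over P l) (h2 : ¬ Above 2 l)
    (hI : ∀ σ ∈ (Q.P l).inertia Gal(QBar/K), φ σ = φ' σ) : Even (ord P a) := by
  have hcl : IsAlgClosure F QBar := loc_clo
  obtain ⟨B, hB, hBP⟩ := gloc_over F QBar P.asIdeal P.isPrime
  have hBl : B.under (𝓞 K) = l.asIdeal := by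
    rw [← hPl, ← hBP]
    ext x
    exact Iff.rfl
  have hQ := Q.under l
  obtain ⟨g, hg⟩ := loc_trans (K := K) (Q.P l) B (Q.prime l) hB (hQ.trans hBl.symm)
  obtain ⟨π, hπ⟩ := exists_unif P
  have hab : ¬ Above 2 P := loc_above P l hPl h2
  have hprim : IsPrimitiveRoot (-1 : F) 2 := IsPrimitiveRoot.neg_one (R := F) 0 (by norm_num)
  obtain ⟨L', hL'⟩ := H63.BU.uord_at QBar Nat.prime_two hprim hab hπ B hB hBP
  have h6 := ld_kk_t Nat.prime_two hprim hab hπ L' a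
  rw [ha L'.t] at h6
  have h7 : (L'.t.restrictScalars K) ∈ (g • Q.P l).inertia Gal(QBar/K) := by
    rw [← hg]
    intro x
    have h8 := L'.ht
    rw [hL'] at h8
    exact h8 x
  have h8 := loc_inr (Q.P l) g _ h7
  have h9 := kc_equi h hφ hφ' g L'.t
  rw [hI _ h8, mul_inv_cancel] at h9
  have h10 : φ (L'.t.restrictScalars K) * (φ' (L'.t.restrictScalars K))⁻¹ = 1 := by
    have h11 : φ (L'.t.restrictScalars K) * (φ' (L'.t.restrictScalars K))⁻¹ =
        φ₀ g * ((φ₀ g)⁻¹ * (φ (L'.t.restrictScalars K) * (φ' (L'.t.restrictScalars K))⁻¹) *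
          φ₀ g) * (φ₀ g)⁻¹ := by group
    rw [h11, ← h9, mul_one, mul_inv_cancel]
  rw [h10, kv_lam_one] at h6
  exact even_iff_two_dvd.2 ((ZMod.intCast_zmod_eq_zero_iff_dvd _ 2).1 h6.symm)

theorem loc_odd (hs : Function.Surjective φ₀) (h : FD k φ₀ F γ τ) {φ φ' : Gal(QBar/K) →* G}
    (hφ : Eqv k φ φ₀) (hφ' : Eqv k φ' φ₀) {a : Fˣ} (ha : Kc k F φ φ' a) (Q : DP K QBar)
    (l : Pl K) (h2 : ¬ Above 2 l) (hI : ∀ σ ∈ (Q.P l).inertia Gal(QBar/K), φ' σ = 1)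
    (hr : ∃ σ ∈ (Q.P l).inertia Gal(QBar/K), φ σ ≠ 1) : ∃ P : Pl F, Over P l ∧ Odd (ord P a) := by
  obtain ⟨σ, hσ, hne⟩ := hr
  have hcl : IsAlgClosure F QBar := loc_clo
  have hV : φ σ ∈ k.V := by
    have h3 := eqv_trans k hφ (eqv_symm k hφ') σ
    rw [hI σ hσ, inv_one, mul_one] at h3
    exact h3
  have hfix : σ ∈ F.fixingSubgroup := ((fd_eqv h hφ).fix σ).2 (k.piV _ hV)
  let σ' : Gal(QBar/F) := F.fixingSubgroupEquiv ⟨σ, hfix⟩
  have hσ' : σ'.restrictScalars K = σ := by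
    ext x
    rfl
  obtain ⟨x, hx⟩ : ∃ x : G, k.lam (x * φ σ * x⁻¹) ≠ 0 := by
    by_contra hcon
    push Not at hcon
    exact hne (k.sep _ hV hcon)
  obtain ⟨g, rfl⟩ := hs x
  obtain ⟨s, hs'⟩ := kc_conj_ex h g⁻¹ σ'
  have h9 := kc_equi h hφ hφ' g⁻¹ σ'
  rw [← hs', hσ', hI σ hσ, inv_one, mul_one, map_inv, inv_inv] at h9
  rw [hσ', inv_inv] at hs'
  have h10 : kk 2 (-1 : F) a s ≠ 0 := by
    rw [ha s, h9]
    exact hx
  have hQp := Q.prime l
  have hB : (g • Q.P l).IsPrime := by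
    infer_instance
  have hBK : (g • Q.P l).under (𝓞 K) = l.asIdeal := by
    rw [Ideal.under_smul]
    exact Q.under l
  have hBF : ((g • Q.P l).under (𝓞 F)).comap (algebraMap (𝓞 K) (𝓞 F)) = l.asIdeal := by
    rw [← hBK]
    ext x
    exact Iff.rfl
  let P : Pl F :=
    { asIdeal := (g • Q.P l).under (𝓞 F)
      isPrime := Ideal.IsPrime.under _ _
      ne_bot := by
        intro h0
        apply l.ne_bot
        rw [← hBF, h0]
        exact Ideal.comap_bot_of_injective _ (FaithfulSMul.algebraMap_injective (𝓞 K) (𝓞 F)) }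
  have hPl : Over P l := hBF
  obtain ⟨π, hπ⟩ := exists_unif P
  have hab : ¬ Above 2 P := loc_above P l hPl h2
  have hprim : IsPrimitiveRoot (-1 : F) 2 := IsPrimitiveRoot.neg_one (R := F) 0 (by norm_num)
  obtain ⟨L', hL'⟩ := H63.BU.uord_at QBar Nat.prime_two hprim hab hπ (g • Q.P l) hB rfl
  have h11 : s ∈ L'.P.inertia Gal(QBar/F) := by
    rw [hL']
    have h12 := loc_inr' (Q.P l) g σ hσ
    rw [← hs'] at h12
    intro x
    exact h12 x
  have h13 := ld_kk Nat.prime_two hprim hab hπ L' s h11 a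
  refine ⟨P, hPl, ?_⟩
  rw [← Int.not_even_iff_odd]
  intro hev
  have h14 : ((ord P a : ℤ) : ZMod 2) = 0 :=
    (ZMod.intCast_zmod_eq_zero_iff_dvd _ 2).2 (even_iff_two_dvd.1 hev)
  rw [h14, zero_mul] at h13
  exact h10 h13

end H48.KV
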