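import Pool.Agent.H48.KV.KumC
import Pool.Agent.H48.KV.LocA
import Pool.Agent.H48.KV.Rdx
import Pool.Agent.H38.WM.Lab
import Pool.Agent.H63.MA.GUpA

/-!
# [H48 KV UBD] the lifts with given inertia: at most `4 * 8 ^ #S * selc K F`, 110-170 lines. File Pool/Agent/H48/KV/UbD.lean

* `sel_fin`: `rdx F Nat.prime_two hi` (Rdx.lean; `-1` is a primitive square root of unity in `F`) for `S1 = T` gives `D`; `unit_of_ord`, `unit_reps` (H63/MA/GUpA.lean): every `a` with all orders even is `u * y ^ 2`, `u` in a finite set `U`; the map class `↦ u` (choice) is injective (`Quot.sound`): if `a = u y²`, `b = u z²` then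
  `a = b (y / z)²`. The relation is an equivalence.
* `ub_fib`: `X` nonempty, `φ₁ ∈ X`. For `φ ∈ X` let `a φ` be a Kummer class of `(φ, φ₁)` (`kc_ex`), `kc_nrm`: its norm is a square. For `P` over `l ∉ S` the order of `a φ` is even (`loc_even`, `hI`). The parities of `ord P (a φ)` for the `P` over `S`: at most `8 ^ #S` possibilities (`lab`, H38/WM/Lab.lean: at most three primes over
  every `l`: encode by the function `S × Fin 3 → ZMod 2`). For `φ, φ'` with the same parities `a φ / a φ' = a φ * a φ' * (a φ')^{-2}` is in `Sel K F`; choose in every parity class a `φ'`; the class of `a φ / a φ'` in the `Quot` has `selc K F` possible values (`sel_fin`: `Nat.card` of a finite type); if `φ, φ''` have the same parities and the same class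
  then `a φ = a φ'' * c²`, so `(φ, φ'')` has the class `c²` up to squares (`kc_mul`, `kc_symm`, `kc_sqr`) and `φ = δ φ'' δ⁻¹` with `δ ∈ V` (`kc_glo`): at most `4` possibilities (`kv_card`). (`Finset.card_le_mul_card_image` three times, or one injection-type count.)
-/

set_option autoImplicit false

open scoped NumberField Classical
open IsDedekindDomain H38.ML H63.MA

noncomputable section

namespace H48.KV

variable {K : IntermediateField ℚ QBar} [NumberField K] {G : Type} [Group G] {k : KV G}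
  {φ₀ : Gal(QBar/K) →* G} {F : IntermediateField K QBar} [NumberField F] {γ : Gal(QBar/K)}
  {τ : F ≃ₐ[K] F}

private theorem ub_rel (K : IntermediateField ℚ QBar) [NumberField K] (F : IntermediateField K QBar)
    [NumberField F] : Equivalence fun a b : {a : Fˣ // H38.WM.Sel K F a} => ∃ c : Fˣ, a.1 = b.1 * c ^ 2 := by
  refine ⟨fun a => ⟨1, by rw [one_pow, mul_one]⟩, ?_, ?_⟩
  · rintro a b ⟨c, hc⟩
    refine ⟨c⁻¹, ?_⟩
    rw [hc, mul_assoc, ← mul_pow, mul_inv_cancel, one_pow, mul_one]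
  · rintro a b c ⟨x, hx⟩ ⟨y, hy⟩
    refine ⟨y * x, ?_⟩
    rw [hx, hy, mul_assoc, mul_pow]

theorem sel_fin (K : IntermediateField ℚ QBar) [NumberField K] (F : IntermediateField K QBar)
    [NumberField F] (hi : MOne 2 F) :
    Finite (Quot fun a b : {a : Fˣ // H38.WM.Sel K F a} => ∃ c : Fˣ, a.1 = b.1 * c ^ 2) := by
  have hm1 : IsPrimitiveRoot (-1 : F) 2 := IsPrimitiveRoot.neg_one 0 (by norm_num)
  obtain ⟨T, -, -, hD⟩ := rdx F Nat.prime_two hi hm1
  obtain ⟨D, -⟩ := hD T fun v hv => hv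
  obtain ⟨U, -, hU⟩ := unit_reps (K := F) Nat.prime_two D.S0
  have hex : ∀ a : {a : Fˣ // H38.WM.Sel K F a}, ∃ u : U, ∃ y : Fˣ, a.1 = u.1 * y ^ 2 := by
    rintro ⟨a, ha⟩
    obtain ⟨u, y, hu, hx⟩ := unit_of_ord Nat.prime_two D.toRD0 a fun v _ => by
      have h1 := ha.even v
      rw [even_iff_two_dvd] at h1
      exact_mod_cast h1
    obtain ⟨u', hu', y', hy'⟩ := hU u hu
    refine ⟨⟨u', hu'⟩, y' * y, ?_⟩
    change a = u' * (y' * y) ^ 2
    rw [hx, hy', mul_assoc, mul_pow]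
  choose f y hf using hex
  refine Finite.of_injective (fun q : Quot fun a b : {a : Fˣ // H38.WM.Sel K F a} =>
    ∃ c : Fˣ, a.1 = b.1 * c ^ 2 => f q.out) ?_
  intro q q' hqq
  have hqq' : f q.out = f q'.out := hqq
  rw [← Quot.out_eq q, ← Quot.out_eq q']
  refine Quot.sound ⟨y q.out * (y q'.out)⁻¹, ?_⟩
  rw [hf q.out, hf q'.out, hqq', mul_assoc, ← mul_pow, mul_comm (y q.out), mul_inv_cancel_left]

theorem ub_fib (hs : Function.Surjective φ₀) (h : FD k φ₀ F γ τ) (hi : MOne 2 F)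
    (Q : DP K QBar) (S : Finset (Pl K)) (h2 : ∀ v : Pl K, Above 2 v → v ∈ S)
    (X : Finset (Gal(QBar/K) →* G)) (hX : ∀ φ ∈ X, φ ∈ LV k φ₀)
    (hI : ∀ φ ∈ X, ∀ φ' ∈ X, ∀ l, l ∉ S → ∀ σ ∈ (Q.P l).inertia Gal(QBar/K), φ σ = φ' σ) :
    X.card ≤ 4 * 8 ^ S.card * selc K F := by
  rcases X.eq_empty_or_nonempty with hX0 | ⟨φ₁, hφ₁⟩
  · rw [hX0, Finset.card_empty]
    exact Nat.zero_le _
  have hne : Nonempty X := ⟨⟨φ₁, hφ₁⟩⟩
  obtain ⟨e, he⟩ := H38.WM.lab F h.deg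
  -- the Kummer classes
  have hex : ∀ φ : X, ∃ a : Fˣ, Kc k F φ.1 φ₁ a := fun φ => kc_ex h (hX φ.1 φ.2) (hX φ₁ hφ₁)
  choose a ha using hex
  -- the parities over `S`
  let ρ : X → (S → Fin 3 → ZMod 2) := fun φ l i =>
    if hl : ∃ P : Pl F, Over P l.1 ∧ e P = i then ((ord hl.choose (a φ) : ℤ) : ZMod 2) else 0
  have hρ : ∀ (φ : X) (P : Pl F) (l : S), Over P l.1 → ρ φ l (e P) = ((ord P (a φ) : ℤ) : ZMod 2) := by
    intro φ P l hP
    have hl : ∃ P' : Pl F, Over P' l.1 ∧ e P' = e P := ⟨P, hP, rfl⟩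
    have h3 : hl.choose = P := he _ _ l.1 hl.choose_spec.1 hP hl.choose_spec.2
    change (if hl : ∃ P' : Pl F, Over P' l.1 ∧ e P' = e P then ((ord hl.choose (a φ) : ℤ) : ZMod 2) else 0) = _
    rw [dif_pos hl, h3]
  have hpar : ∀ φ φ' : X, ρ φ = ρ φ' → ∀ P : Pl F, Even (ord P (a φ * (a φ')⁻¹)) := by
    intro φ φ' hh P
    obtain ⟨l, hl⟩ := exists_below (K := K) P
    rw [ord_mul, ord_inv]
    by_cases hlS : l ∈ S
    · have h3 := hρ φ P ⟨l, hlS⟩ hl
      have h4 := hρ φ' P ⟨l, hlS⟩ hl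
      rw [hh, h4] at h3
      have h5 : ((ord P (a φ) - ord P (a φ') : ℤ) : ZMod 2) = 0 := by
        rw [Int.cast_sub, h3, sub_self]
      rw [ZMod.intCast_zmod_eq_zero_iff_dvd] at h5
      rw [← sub_eq_add_neg, even_iff_two_dvd]
      exact_mod_cast h5
    · have h2l : ¬ Above 2 l := fun h3 => hlS (h2 l h3)
      have h3 := loc_even h (hX φ.1 φ.2).2 (hX φ₁ hφ₁).2 (ha φ) Q P l hl h2l
        (hI φ.1 φ.2 φ₁ hφ₁ l hlS)
      have h4 := loc_even h (hX φ'.1 φ'.2).2 (hX φ₁ hφ₁).2 (ha φ') Q P l hl h2l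
        (hI φ'.1 φ'.2 φ₁ hφ₁ l hlS)
      exact h3.add h4.neg
  let β : X → X := fun φ => Function.invFun ρ (ρ φ)
  have hβ : ∀ φ, ρ (β φ) = ρ φ := fun φ => Function.invFun_eq ⟨φ, rfl⟩
  have hβ' : ∀ φ φ', ρ φ = ρ φ' → β φ = β φ' := fun φ φ' hh => congrArg (Function.invFun ρ) hh
  have hsel : ∀ φ : X, H38.WM.Sel K F (a φ * (a (β φ))⁻¹) := by
    intro φ
    refine ⟨?_, hpar φ (β φ) (hβ φ).symm⟩
    have hn : Algebra.norm K (((a (β φ))⁻¹ : Fˣ) : F) = (Algebra.norm K ((a (β φ) : Fˣ) : F))⁻¹ := by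
      refine eq_inv_of_mul_eq_one_left ?_
      rw [← map_mul, ← Units.val_mul, inv_mul_cancel, Units.val_one, map_one]
    rw [Units.val_mul, map_mul, hn]
    exact (kc_nrm h (hX φ.1 φ.2).2 (hX φ₁ hφ₁).2 (ha φ)).mul
      (kc_nrm h (hX (β φ).1 (β φ).2).2 (hX φ₁ hφ₁).2 (ha (β φ))).inv
  let κ : X → Quot fun a b : {a : Fˣ // H38.WM.Sel K F a} => ∃ c : Fˣ, a.1 = b.1 * c ^ 2 :=
    fun φ => Quot.mk _ ⟨a φ * (a (β φ))⁻¹, hsel φ⟩
  have hκ : ∀ φ φ' : X, ρ φ = ρ φ' → κ φ = κ φ' → ∃ c : Fˣ, a φ = a φ' * c ^ 2 := by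
    intro φ φ' hh hk
    have h3 := Quot.eqvGen_exact hk
    rw [(ub_rel K F).eqvGen_iff] at h3
    obtain ⟨c, hc⟩ := h3
    have hc' : a φ * (a (β φ))⁻¹ = a φ' * (a (β φ'))⁻¹ * c ^ 2 := hc
    refine ⟨c, ?_⟩
    rw [hβ' φ φ' hh] at hc'
    have h4 : a φ = (a φ * (a (β φ'))⁻¹) * a (β φ') := (inv_mul_cancel_right _ _).symm
    rw [h4, hc', mul_right_comm, mul_assoc (a φ'), inv_mul_cancel, mul_one]
  let μ : X → (S → Fin 3 → ZMod 2) × (Quot fun a b : {a : Fˣ // H38.WM.Sel K F a} =>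
    ∃ c : Fˣ, a.1 = b.1 * c ^ 2) := fun φ => (ρ φ, κ φ)
  let β' : X → X := fun φ => Function.invFun μ (μ φ)
  have hμ : ∀ φ, μ (β' φ) = μ φ := fun φ => Function.invFun_eq ⟨φ, rfl⟩
  have hδ : ∀ φ : X, ∃ δ : k.V, φ.1 = (MulAut.conj (δ : G)).toMonoidHom.comp (β' φ).1 := by
    intro φ
    obtain ⟨c, hc⟩ := hκ φ (β' φ) (congrArg Prod.fst (hμ φ)).symm (congrArg Prod.snd (hμ φ)).symm
    have h3 := kc_symm h (hX (β' φ).1 (β' φ).2).2 (hX φ₁ hφ₁).2 (ha (β' φ))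
    have h4 := kc_mul h (hX φ.1 φ.2).2 (hX φ₁ hφ₁).2 (hX (β' φ).1 (β' φ).2).2 (ha φ) h3
    have h5 : a φ * a (β' φ) = (a (β' φ) * c) ^ 2 := by
      rw [hc, mul_pow, pow_two (a (β' φ)), mul_right_comm]
    rw [h5] at h4
    obtain ⟨δ, hδV, hδ⟩ := kc_glo hs h (hX φ.1 φ.2).2 (hX (β' φ).1 (β' φ).2).2 h4
    exact ⟨⟨δ, hδV⟩, hδ⟩
  choose δ hδ using hδ
  have hinj : Function.Injective fun φ : X => (μ φ, δ φ) := by
    intro φ φ' hh
    have h3 : μ φ = μ φ' := congrArg Prod.fst hh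
    have h4 : δ φ = δ φ' := congrArg Prod.snd hh
    have h5 : β' φ = β' φ' := congrArg (Function.invFun μ) h3
    apply Subtype.ext
    rw [hδ φ, hδ φ', h4, h5]
  have hfin1 := sel_fin K F hi
  have hfin2 : Finite k.V := Nat.finite_of_card_ne_zero (by rw [kv_card k]; norm_num)
  have h6 := Nat.card_le_card_of_injective _ hinj
  rw [Nat.card_prod, Nat.card_prod, kv_card k, Nat.card_fun, Nat.card_fun, Nat.card_zmod, Nat.card_fin,
    Nat.card_eq_fintype_card (α := X), Fintype.card_coe, Nat.card_eq_fintype_card (α := S), Fintype.card_coe] at h6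
  have h7 : (2 : ℕ) ^ 3 = 8 := by norm_num
  rw [h7] at h6
  calc X.card ≤ 8 ^ S.card * selc K F * 4 := h6
    _ = 4 * 8 ^ S.card * selc K F := by ring

end H48.KV
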