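import Pool.Agent.H48.KV.SDef
import Pool.Agent.H48.KV.UbD
import Pool.Agent.H38.WM.Kch
import Pool.Agent.H38.WM.Nrb
import Pool.Agent.H38.WM.Rml
import Pool.Agent.H38.WM.Fdp

/-!
# [H48 KV SMB] the sum of `#Sel` over the cyclic cubic fields (uses the core theorem `CoreBound K`), 120-180 lines. File Pool/Agent/H48/KV/SmB.lean

* `fx_eq`: `FX χ` and `Fd K u v` have the same fixing subgroup: `σ` fixes `rt K u v`, a cube root of `y`, iff `kk 3 ω y σ = 0` (`fd_fix` in H38/WM/Fdp.lean or Eqv.lean; `kk_root`), that is `χ σ = 1`; `(FX χ).fixingSubgroup = χ.ker` (`H38.ML.fixing_fixedField`, H38/ML/Factor.lean, `FT χ`); `InfiniteGalois.fixedField_fixingSubgroup`.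
* `sm_core`: `M, C₀` from `kch ω hω` (H38/WM/Kch.lean); for every `χ ∈ Y` it gives `u, v, y` with `Adm K M C₀ u v`, `y = u v²`, `χ = kc 3 ω QBar y`; different `χ` have different `y`, so different pairs `(u, v)`. `T` = the primes `l` with `M ∉ l`, `u v ∈ l` (finite); all are ramified in `χ` (`rml`), so `nr (T \ S) ≤ X` and `nr T ≤ nr S * X`; `nrb`: `|N(u v)| ≤ C₁ nr T ≤ C₁ nr S X =: R`
  (take `max` with 1). `finrank K (Fd K u v) = 3` (`fd_deg`-type lemma in H38/WM/Fdp.lean; `χ` is surjective). For every `χ` choose representatives of the classes of the `Quot` in the definition of `selc K (Fd K u v)` (`Quot.out`; finite by `sel_fin`, UbD.lean, `MOne 2 (Fd K u v)` by `mone_map`), mapped to `QBar`: a finite set `A χ` of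
  `selc K (Fd K u v) = selg (FX χ)` elements (`fx_eq`; the map `Fd → QBar` is injective). `S' = ` the set of the `(u, v, a)`, `a ∈ A χ`, `χ ∈ Y` (`Finset.card_biUnion`: disjoint for different `χ`). It satisfies the two hypotheses of `hcb M C₀ ε` for `R`: `Dat`; if `(u, v, a), (u, v, b) ∈ S'` and `a = b c²` with `c ∈ Fd K u v` then `a` and `b` are in the same class (`c ≠ 0`), so they are
  equal. So `∑ selg (FX χ) = #S' ≤ C R^{1+ε}`.
-/

set_option autoImplicit false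

open scoped NumberField Classical
open IsDedekindDomain H38.ML H63.MA

noncomputable section

namespace H48.KV

open H38.WM in
theorem fx_eq {K : IntermediateField ℚ QBar} [NumberField K] {ω : K} (hω : IsPrimitiveRoot ω 3)
    (χ : Gal(QBar/K) →* Multiplicative (ZMod 3)) (hft : FT χ) (u v : 𝓞 K) (y : Kˣ)
    (hy : (y : K) = (u : K) * (v : K) ^ 2) (hχ : χ = kc 3 ω QBar y) : FX χ = Fd K u v := by
  have hgal : IsGalois K QBar := IsAlgClosure.isGalois K QBar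
  have h1 : χ.ker = (Fd K u v).fixingSubgroup := by
    ext σ
    rw [MonoidHom.mem_ker, fd_fix K ω hω u v y hy σ, hχ]
    exact ⟨fun h => congrArg Multiplicative.toAdd h, fun h => Multiplicative.toAdd.injective h⟩
  unfold FX
  rw [h1]
  exact InfiniteGalois.fixedField_fixingSubgroup (Fd K u v)

private theorem sb_kk {K : IntermediateField ℚ QBar} [NumberField K] {ω : K} {y : Kˣ}
    {χ : Gal(QBar/K) →* Multiplicative (ZMod 3)} (hχ : χ = kc 3 ω QBar y) {σ : Gal(QBar/K)}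
    (h : kk 3 ω y σ ≠ 0) : χ σ ≠ 1 := by
  intro h1
  apply h
  rw [hχ] at h1
  exact congrArg Multiplicative.toAdd h1

private theorem sb_kk' {K : IntermediateField ℚ QBar} [NumberField K] {ω : K} {y : Kˣ}
    {χ : Gal(QBar/K) →* Multiplicative (ZMod 3)} (hχ : χ = kc 3 ω QBar y)
    (hs : Function.Surjective χ) : ∃ σ : Gal(QBar/K), kk 3 ω y σ ≠ 0 := by
  obtain ⟨σ, hσ⟩ := hs (Multiplicative.ofAdd 1)
  refine ⟨σ, fun h => ?_⟩
  have h1 : χ σ = 1 := by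
    rw [hχ]
    exact Multiplicative.toAdd.injective h
  rw [hσ] at h1
  revert h1
  decide

private theorem sb_fin {K : IntermediateField ℚ QBar} [NumberField K] (M : ℕ) (w : 𝓞 K) (hw : w ≠ 0) :
    ∃ T : Finset (Pl K), ∀ l : Pl K, l ∈ T ↔ ((M : 𝓞 K) ∉ l.asIdeal ∧ w ∈ l.asIdeal) := by
  have hw0 : (Ideal.span {w}) ≠ 0 := by
    rwa [Ne, Ideal.zero_eq_bot, Ideal.span_singleton_eq_bot]
  have hfin := Ideal.finite_factors hw0
  have h1 : ({l : Pl K | (M : 𝓞 K) ∉ l.asIdeal ∧ w ∈ l.asIdeal}).Finite := by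
    refine hfin.subset ?_
    rintro l ⟨-, hl⟩
    exact Ideal.dvd_span_singleton.2 hl
  refine ⟨h1.toFinset, fun l => ?_⟩
  rw [Set.Finite.mem_toFinset]
  rfl

theorem sm_core {K : IntermediateField ℚ QBar} [NumberField K] {ω : K}
    (hω : IsPrimitiveRoot ω 3) (hi : MOne 2 K) (hcb : H38.WM.CoreBound K) (Q : DP K QBar)
    (S : Finset (Pl K)) (ε : ℝ) (hε : 0 < ε) :
    ∃ C : ℝ, ∀ X : ℝ, 1 ≤ X → ∀ Y : Finset (Gal(QBar/K) →* Multiplicative (ZMod 3)),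
      (∀ χ ∈ Y, FT χ ∧ Function.Surjective χ ∧
        ∀ T : Finset (Pl K), (∀ l ∈ T, l ∈ RC Q S χ) → nr T ≤ X) →
      ∑ χ ∈ Y, (selg (FX χ) : ℝ) ≤ C * X ^ (1 + ε) := by
  obtain ⟨M, C₀, hM, h6, hk⟩ := H38.WM.kch K ω hω
  obtain ⟨C₁, hC₁, hn⟩ := H38.WM.nrb K M C₀ hM
  obtain ⟨C₂, hc⟩ := hcb M C₀ ε hM h6 hε
  obtain ⟨C₃, hC₃, hC₃'⟩ : ∃ C₃ : ℝ, 1 ≤ C₃ ∧ C₁ * nr S ≤ C₃ := ⟨max 1 (C₁ * nr S), le_max_left _ _, le_max_right _ _⟩
  refine ⟨C₂ * C₃ ^ (1 + ε), fun X hX Y hY => ?_⟩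
  have hex : ∀ χ : Y, ∃ (u v : 𝓞 K) (y : Kˣ), H38.WM.Adm K M C₀ u v ∧
      (y : K) = (u : K) * (v : K) ^ 2 ∧ χ.1 = kc 3 ω QBar y := fun χ => hk χ.1 (hY χ.1 χ.2).1
  choose u v y hA hy hχ using hex
  -- the norm bound
  have hR : ∀ χ : Y, (|(Algebra.norm ℤ (u χ * v χ) : ℤ)| : ℝ) ≤ C₃ * X := by
    intro χ
    obtain ⟨T, hT⟩ := sb_fin M (u χ * v χ) (mul_ne_zero (hA χ).u0 (hA χ).v0)
    have h1 := hn (u χ) (v χ) (hA χ) T fun l hl hl' => (hT l).2 ⟨hl, hl'⟩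
    have h2 : nr (T \ S) ≤ X := by
      refine (hY χ.1 χ.2).2.2 (T \ S) fun l hl => ?_
      rw [Finset.mem_sdiff] at hl
      obtain ⟨hl1, hl2⟩ := (hT l).1 hl.1
      obtain ⟨τ, hτ, hne⟩ := H38.WM.rml K ω hω Q M C₀ h6 (u χ) (v χ) (hA χ) (y χ) (hy χ) l hl1 hl2
      exact ⟨hl.2, τ, hτ, sb_kk (hχ χ) hne⟩
    have h3 : nr T ≤ nr S * X := by
      have h4 : T ⊆ S ∪ (T \ S) := by
        intro l hl
        rw [Finset.mem_union, Finset.mem_sdiff]
        by_cases h5 : l ∈ S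
        · exact Or.inl h5
        · exact Or.inr ⟨hl, h5⟩
      calc nr T ≤ nr (S ∪ (T \ S)) := nr_mono h4
        _ = nr S * nr (T \ S) := nr_union Finset.disjoint_sdiff
        _ ≤ nr S * X := mul_le_mul_of_nonneg_left h2 (by linarith [one_le_nr S])
    calc (|(Algebra.norm ℤ (u χ * v χ) : ℤ)| : ℝ) ≤ C₁ * nr T := h1
      _ ≤ C₁ * (nr S * X) := mul_le_mul_of_nonneg_left h3 hC₁.le
      _ = C₁ * nr S * X := by ring
      _ ≤ C₃ * X := mul_le_mul_of_nonneg_right hC₃' (by linarith)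
  have hR1 : 1 ≤ C₃ * X := by nlinarith
  -- the index type
  have hfinq : ∀ χ : Y, Finite (Quot fun a b : {a : (H38.WM.Fd K (u χ) (v χ))ˣ //
      H38.WM.Sel K (H38.WM.Fd K (u χ) (v χ)) a} => ∃ c : (H38.WM.Fd K (u χ) (v χ))ˣ, a.1 = b.1 * c ^ 2) :=
    fun χ => sel_fin K (H38.WM.Fd K (u χ) (v χ)) (mone_map hi (H38.WM.Fd K (u χ) (v χ)))
  let I : Type := Σ χ : Y, Quot fun a b : {a : (H38.WM.Fd K (u χ) (v χ))ˣ //
      H38.WM.Sel K (H38.WM.Fd K (u χ) (v χ)) a} => ∃ c : (H38.WM.Fd K (u χ) (v χ))ˣ, a.1 = b.1 * c ^ 2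
  have hfinI : Finite I := inferInstance
  have hftI : Fintype I := Fintype.ofFinite I
  let f : I → 𝓞 K × 𝓞 K × QBar := fun i =>
    (u i.1, v i.1, (((Quot.out i.2).1 : H38.WM.Fd K (u i.1) (v i.1)) : QBar))
  have hchi : ∀ χ χ' : Y, u χ = u χ' → v χ = v χ' → χ = χ' := by
    intro χ χ' h1 h2
    have h3 : y χ = y χ' := Units.ext (by rw [hy, hy, h1, h2])
    exact Subtype.ext (by rw [hχ, hχ, h3])
  have hkey : ∀ i j : I, u i.1 = u j.1 → v i.1 = v j.1 →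
      (∃ c ∈ H38.WM.Fd K (u i.1) (v i.1), (f i).2.2 = (f j).2.2 * c ^ 2) → i = j := by
    rintro ⟨χ, q⟩ ⟨χ', q'⟩ h1 h2 h3
    obtain rfl := hchi χ χ' h1 h2
    obtain ⟨c, hcF, hcc⟩ := h3
    have h4 : (((Quot.out q).1 : H38.WM.Fd K (u χ) (v χ)) : QBar) =
        (((Quot.out q').1 : H38.WM.Fd K (u χ) (v χ)) : QBar) * c ^ 2 := hcc
    have hc0 : c ≠ 0 := by
      rintro rfl
      rw [zero_pow (by norm_num), mul_zero] at h4
      exact (Quot.out q).1.ne_zero (Subtype.ext h4)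
    have hc0' : (⟨c, hcF⟩ : H38.WM.Fd K (u χ) (v χ)) ≠ 0 := fun h => hc0 (congrArg Subtype.val h)
    have h5 : (Quot.out q).1 = (Quot.out q').1 * (Units.mk0 (⟨c, hcF⟩ : H38.WM.Fd K (u χ) (v χ)) hc0') ^ 2 := by
      apply Units.ext
      apply Subtype.ext
      rw [Units.val_mul, Units.val_pow_eq_pow_val, Units.val_mk0]
      exact h4
    have h6 : q = q' := by
      rw [← Quot.out_eq q, ← Quot.out_eq q']
      exact Quot.sound ⟨_, h5⟩
    rw [h6]
  have hinj : Function.Injective f := by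
    intro i j hij
    have h1 : u i.1 = u j.1 := congrArg Prod.fst hij
    have h2 : v i.1 = v j.1 := congrArg (fun x => x.2.1) hij
    have h3 : (f i).2.2 = (f j).2.2 := congrArg (fun x => x.2.2) hij
    exact hkey i j h1 h2 ⟨1, one_mem _, by rw [h3, one_pow, mul_one]⟩
  have hbd := hc (C₃ * X) hR1 (Finset.univ.image f) (by
    intro x hx
    obtain ⟨i, -, rfl⟩ := Finset.mem_image.1 hx
    exact ⟨hA i.1, hR i.1, H38.WM.fd_deg K ω hω (u i.1) (v i.1) (y i.1) (hy i.1)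
      (sb_kk' (hχ i.1) (hY i.1.1 i.1.2).2.1), (Quot.out i.2).1, rfl, (Quot.out i.2).2⟩) (by
    intro u' v' a b ha hb hab
    obtain ⟨i, -, hi'⟩ := Finset.mem_image.1 ha
    obtain ⟨j, -, hj'⟩ := Finset.mem_image.1 hb
    have hiu : u i.1 = u' := congrArg Prod.fst hi'
    have hiv : v i.1 = v' := congrArg (fun x => x.2.1) hi'
    have hia : (f i).2.2 = a := congrArg (fun x => x.2.2) hi'
    have hju : u j.1 = u' := congrArg Prod.fst hj'
    have hjv : v j.1 = v' := congrArg (fun x => x.2.1) hj'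
    have hjb : (f j).2.2 = b := congrArg (fun x => x.2.2) hj'
    have h1 : i = j := hkey i j (by rw [hiu, hju]) (by rw [hiv, hjv]) (by
      rw [hiu, hiv, hia, hjb]
      exact hab)
    rw [← hia, ← hjb, h1])
  rw [Finset.card_image_of_injective _ hinj, Finset.card_univ, ← Nat.card_eq_fintype_card] at hbd
  have hcardI : Nat.card I = ∑ χ : Y, selg (FX χ.1) := by
    have h1 : Nat.card I = ∑ χ : Y, Nat.card (Quot fun a b : {a : (H38.WM.Fd K (u χ) (v χ))ˣ //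
      H38.WM.Sel K (H38.WM.Fd K (u χ) (v χ)) a} => ∃ c : (H38.WM.Fd K (u χ) (v χ))ˣ, a.1 = b.1 * c ^ 2) :=
      Nat.card_sigma
    rw [h1]
    refine Finset.sum_congr rfl fun χ _ => ?_
    rw [fx_eq hω χ.1 (hY χ.1 χ.2).1 (u χ) (v χ) (y χ) (hy χ) (hχ χ)]
    unfold selg
    rw [dif_pos (inferInstance : NumberField (H38.WM.Fd K (u χ) (v χ)))]
    rfl
  have hsum : ∑ χ ∈ Y, (selg (FX χ) : ℝ) = (Nat.card I : ℝ) := by
    rw [hcardI, Nat.cast_sum]
    exact (Finset.sum_coe_sort Y fun χ => (selg (FX χ) : ℝ)).symm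
  rw [hsum]
  calc (Nat.card I : ℝ) ≤ C₂ * (C₃ * X) ^ (1 + ε) := hbd
    _ = C₂ * C₃ ^ (1 + ε) * X ^ (1 + ε) := by
      rw [Real.mul_rpow (by linarith) (by linarith), mul_assoc]

end H48.KV
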