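import Pool.Agent.H51.TC.Dya

/-!
# [H48 KV SMC] dyadic summation over an index set, 80-120 lines (a copy). File Pool/Agent/H48/KV/SmC.lean

* `dyi`: copy of the proof of `dya` in H51/TC/Dya.lean (imported) with `R i` in the place of `R`, sums over a finite set `I` of indices satisfying `P`.
* `dy_one`: `dya` for `h = 1`: `∑_{R ∈ Rs} 1 = #Rs ≤ #AF K Y ≤ C Y ≤ C Y^(1+ε)` (`af_card`, `mem_AF`).
-/

set_option autoImplicit false

open scoped NumberField Classical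
open IsDedekindDomain H63.MA

noncomputable section

namespace H48.KV

theorem dyi {K : Type} [Field K] [NumberField K] {ι : Type} (P : ι → Prop)
    (R : ι → Finset (Pl K)) (h : ι → ℝ) (h0 : ∀ i, 0 ≤ h i)
    (H : ∀ ε : ℝ, 0 < ε → ∃ C : ℝ, ∀ Y : ℝ, 1 ≤ Y → ∀ I : Finset ι,
      (∀ i ∈ I, P i ∧ nr (R i) ≤ Y) → ∑ i ∈ I, h i ≤ C * Y ^ (1 + ε)) (q δ : ℝ) (hq : 0 ≤ q)
    (hδ : 0 < δ) :
    ∃ C : ℝ, ∀ I : Finset ι, (∀ i ∈ I, P i) →
      ∑ i ∈ I, h i * (q ^ (R i).card * nr (R i) ^ (-1 - δ)) ≤ C := by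
  set ε : ℝ := δ / 4 with hε
  have hε0 : 0 < ε := by positivity
  obtain ⟨C₁, hC₁, h1⟩ := H51.TC.pow_card_nr (K := K) q ε hq hε0
  obtain ⟨C₂, h2⟩ := H ε hε0
  have hC₂ : 0 ≤ C₂ := by
    have := h2 1 le_rfl ∅ (by simp)
    rw [Finset.sum_empty, Real.one_rpow, mul_one] at this
    exact this
  set r : ℝ := (2 : ℝ) ^ (-(δ / 2)) with hr
  have hr0 : 0 < r := Real.rpow_pos_of_pos (by norm_num) _
  have hr1 : r < 1 := Real.rpow_lt_one_of_one_lt_of_neg (by norm_num) (by linarith)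
  have hr1' : 0 < 1 - r := by linarith
  refine ⟨C₁ * C₂ * 2 ^ (1 + ε) * (1 - r)⁻¹, fun Rs hRs => ?_⟩
  set k : ι → ℕ := fun i => Nat.log 2 ⌊nr (R i)⌋₊ with hk
  have hklo : ∀ i, (2 : ℝ) ^ k i ≤ nr (R i) := by
    intro i
    have h3 : 1 ≤ ⌊nr (R i)⌋₊ := Nat.one_le_floor_iff (nr (R i)) |>.2 (one_le_nr (R i))
    have h4 : 2 ^ k i ≤ ⌊nr (R i)⌋₊ := Nat.pow_log_le_self 2 (by omega)
    calc (2 : ℝ) ^ k i = ((2 ^ k i : ℕ) : ℝ) := by push_cast; rfl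
      _ ≤ (⌊nr (R i)⌋₊ : ℝ) := by exact_mod_cast h4
      _ ≤ nr (R i) := Nat.floor_le (by linarith [one_le_nr (R i)])
  have hkhi : ∀ i, nr (R i) ≤ (2 : ℝ) ^ (k i + 1) := by
    intro i
    have h4 : ⌊nr (R i)⌋₊ < 2 ^ (k i + 1) := Nat.lt_pow_succ_log_self (by norm_num) _
    have h5 : ⌊nr (R i)⌋₊ + 1 ≤ 2 ^ (k i + 1) := h4
    calc nr (R i) ≤ (⌊nr (R i)⌋₊ : ℝ) + 1 := (Nat.lt_floor_add_one _).le
      _ = ((⌊nr (R i)⌋₊ + 1 : ℕ) : ℝ) := by push_cast; rfl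
      _ ≤ ((2 ^ (k i + 1) : ℕ) : ℝ) := by exact_mod_cast h5
      _ = (2 : ℝ) ^ (k i + 1) := by push_cast; rfl
  have hterm : ∀ i, h i * (q ^ (R i).card * nr (R i) ^ (-1 - δ)) ≤
      C₁ * ((2 : ℝ) ^ k i) ^ (-1 - δ + ε) * h i := by
    intro i
    have h3 : 0 < nr (R i) := lt_of_lt_of_le one_pos (one_le_nr (R i))
    have h4 : q ^ (R i).card * nr (R i) ^ (-1 - δ) ≤ C₁ * nr (R i) ^ (-1 - δ + ε) := by
      calc q ^ (R i).card * nr (R i) ^ (-1 - δ) ≤ C₁ * nr (R i) ^ ε * nr (R i) ^ (-1 - δ) :=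
            mul_le_mul_of_nonneg_right (h1 (R i)) (Real.rpow_nonneg h3.le _)
        _ = C₁ * nr (R i) ^ (-1 - δ + ε) := by
            rw [mul_assoc, ← Real.rpow_add h3]
            ring_nf
    have h5 : nr (R i) ^ (-1 - δ + ε) ≤ ((2 : ℝ) ^ k i) ^ (-1 - δ + ε) :=
      Real.rpow_le_rpow_of_nonpos (by positivity) (hklo i) (by rw [hε]; linarith)
    calc h i * (q ^ (R i).card * nr (R i) ^ (-1 - δ)) ≤ h i * (C₁ * nr (R i) ^ (-1 - δ + ε)) :=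
          mul_le_mul_of_nonneg_left h4 (h0 i)
      _ ≤ h i * (C₁ * ((2 : ℝ) ^ k i) ^ (-1 - δ + ε)) :=
          mul_le_mul_of_nonneg_left (mul_le_mul_of_nonneg_left h5 hC₁.le) (h0 i)
      _ = _ := by ring
  have hlayer : ∀ j : ℕ, ∑ i ∈ Rs.filter (fun i => k i = j),
      C₁ * ((2 : ℝ) ^ k i) ^ (-1 - δ + ε) * h i ≤ C₁ * C₂ * 2 ^ (1 + ε) * r ^ j := by
    intro j
    have e1 : ∑ i ∈ Rs.filter (fun i => k i = j), C₁ * ((2 : ℝ) ^ k i) ^ (-1 - δ + ε) * h i =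
        C₁ * ((2 : ℝ) ^ j) ^ (-1 - δ + ε) * ∑ i ∈ Rs.filter (fun i => k i = j), h i := by
      rw [Finset.mul_sum]
      refine Finset.sum_congr rfl fun i hi => ?_
      rw [(Finset.mem_filter.1 hi).2]
    have h3 := h2 ((2 : ℝ) ^ (j + 1)) (one_le_pow₀ (by norm_num))
      (Rs.filter fun i => k i = j) (by
        intro i hi
        have := hkhi i
        rw [(Finset.mem_filter.1 hi).2] at this
        exact ⟨hRs i (Finset.mem_filter.1 hi).1, this⟩)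
    rw [e1]
    have e2 : ((2 : ℝ) ^ j) ^ (-1 - δ + ε) * ((2 : ℝ) ^ (j + 1)) ^ (1 + ε) = 2 ^ (1 + ε) * r ^ j := by
      rw [hr, ← Real.rpow_natCast, ← Real.rpow_natCast, ← Real.rpow_natCast,
        ← Real.rpow_mul (by norm_num), ← Real.rpow_mul (by norm_num),
        ← Real.rpow_mul (by norm_num), ← Real.rpow_add (by norm_num),
        ← Real.rpow_add (by norm_num)]
      congr 1
      rw [hε]
      push_cast
      ring
    calc C₁ * ((2 : ℝ) ^ j) ^ (-1 - δ + ε) * ∑ i ∈ Rs.filter (fun i => k i = j), h i ≤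
        C₁ * ((2 : ℝ) ^ j) ^ (-1 - δ + ε) * (C₂ * ((2 : ℝ) ^ (j + 1)) ^ (1 + ε)) :=
          mul_le_mul_of_nonneg_left h3 (by positivity)
      _ = C₁ * C₂ * (((2 : ℝ) ^ j) ^ (-1 - δ + ε) * ((2 : ℝ) ^ (j + 1)) ^ (1 + ε)) := by ring
      _ = _ := by rw [e2]; ring
  calc ∑ i ∈ Rs, h i * (q ^ (R i).card * nr (R i) ^ (-1 - δ)) ≤
      ∑ i ∈ Rs, C₁ * ((2 : ℝ) ^ k i) ^ (-1 - δ + ε) * h i :=
        Finset.sum_le_sum fun i _ => hterm i
    _ = ∑ j ∈ Rs.image k, ∑ i ∈ Rs.filter (fun i => k i = j),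
        C₁ * ((2 : ℝ) ^ k i) ^ (-1 - δ + ε) * h i :=
        (Finset.sum_fiberwise_of_maps_to (fun i hi => Finset.mem_image_of_mem k hi) _).symm
    _ ≤ ∑ j ∈ Rs.image k, C₁ * C₂ * 2 ^ (1 + ε) * r ^ j := Finset.sum_le_sum fun j _ => hlayer j
    _ = C₁ * C₂ * 2 ^ (1 + ε) * ∑ j ∈ Rs.image k, r ^ j := by rw [Finset.mul_sum]
    _ ≤ C₁ * C₂ * 2 ^ (1 + ε) * (1 - r)⁻¹ := by
        refine mul_le_mul_of_nonneg_left ?_ (by positivity)
        rw [← tsum_geometric_of_lt_one hr0.le hr1]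
        exact (summable_geometric_of_lt_one hr0.le hr1).sum_le_tsum _ fun j _ => by positivity

theorem dy_one (K : Type) [Field K] [NumberField K] (q δ : ℝ) (hq : 0 ≤ q) (hδ : 0 < δ) :
    ∃ C : ℝ, ∀ Rs : Finset (Finset (Pl K)),
      ∑ R ∈ Rs, q ^ R.card * nr R ^ (-1 - δ) ≤ C := by
  obtain ⟨C, hC, hcard⟩ := af_card K
  obtain ⟨D, hD⟩ := H51.TC.dya (K := K) (fun _ => 1) (fun _ => zero_le_one) (by
    intro ε hε
    refine ⟨C, fun Y hY Rs hRs => ?_⟩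
    have h1 : Rs ⊆ AF K Y := fun R hR => mem_AF.2 (hRs R hR)
    have h2 : (Rs.card : ℝ) ≤ ((AF K Y).card : ℝ) := by exact_mod_cast Finset.card_le_card h1
    have h3 : Y ≤ Y ^ (1 + ε) := by
      conv_lhs => rw [← Real.rpow_one Y]
      exact Real.rpow_le_rpow_of_exponent_le hY (by linarith)
    rw [Finset.sum_const, nsmul_eq_mul, mul_one]
    exact h2.trans ((hcard Y hY).trans (mul_le_mul_of_nonneg_left h3 hC.le))) q δ hq hδ
  refine ⟨D, fun Rs => ?_⟩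
  have h := hD Rs
  simpa only [one_mul] using h

end H48.KV
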