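import Pool.Agent.H48.KV.SmA
import Pool.Agent.H48.KV.SmB
import Pool.Agent.H48.KV.SmC
import Pool.Agent.H48.KV.GrpB
import Pool.Agent.H38.WM.RmF

/-!
# [H48 KV SMD] the sum over the homomorphisms modulo `V`, 110-170 lines. File Pool/Agent/H48/KV/SmD.lean

* `rc_sub`: `RC Q S (k.pi.comp φ) ⊆ RV k Q S φ` (`k.piV`).
* `sm_psi`: `H = G ⧸ k.V` (a group: `k.nV`), `ψ φ = (QuotientGroup.mk' k.V).comp φ`: of finite type (`H38.ML.ft_comp`), `ψ φ = ψ φ'` iff `(φ σ)⁻¹ φ' σ ∈ V` for all `σ` iff `Eqv k φ φ'` (`V` normal), so `ψ` is injective on `Y`; `ψ φ` is trivial on the inertia groups outside `S0 ∪ R`. `sm_nil`.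
* `sm_sum`: for `φ ∈ Y` put `χ = k.pi.comp φ` (of finite type and surjective), `R₁` = the finite set of the primes in `RC Q S0 χ` (finite: `H38.WM.rmF`), `R₂ = Rf φ \ R₁`; `Rf φ = R₁ ∪ R₂` disjoint. The number of `φ ∈ Y` with given `(χ, R₂)` is at most `C₁ m^{#R₁ + #R₂}`, `m = #(G ⧸ V)` (`sm_psi` for `R = R₁ ∪ R₂`), and the term of `φ` is
  `selg (FX χ) q^{#R₁} q^{#R₂} (nr R₁)^{-1-δ} (nr R₂)^{-1-δ}` (`nr_union`, `Real.mul_rpow`). So the sum is at most `C₁ (∑_χ selg (FX χ) (q m)^{#R₁ χ} nr (R₁ χ)^{-1-δ}) (∑_{R₂} (q m)^{#R₂} nr R₂^{-1-δ})` over the images of `Y` (`Finset.sum_product`, fibrewise), bounded by `dyi` (index set: characters, `P χ`: finite type and surjective,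
  `h χ = selg (FX χ)`, hypothesis from `sm_core`: for `T ⊆ RC`, `nr T ≤ nr (R₁ χ) ≤ Y`) and `dy_one` (SmC.lean). If `Y = ∅` the sum is `0`; take `max C 0`.
-/

set_option autoImplicit false

open scoped NumberField Classical
open IsDedekindDomain H38.ML H63.MA

noncomputable section

namespace H48.KV

variable {G : Type} [Group G] [Finite G] {K : IntermediateField ℚ QBar} [NumberField K]

theorem rc_sub (k : KV G) (Q : DP K QBar) (S : Finset (Pl K)) (φ : Gal(QBar/K) →* G) :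
    RC Q S (k.pi.comp φ) ⊆ RV k Q S φ := by
  rintro l ⟨hl, σ, hσ, hne⟩
  refine ⟨hl, σ, hσ, fun hV => hne ?_⟩
  rw [MonoidHom.comp_apply]
  exact k.piV _ hV

theorem sm_psi (k : KV G) (hnil : ∀ _ : k.V.Normal, Group.IsNilpotent (G ⧸ k.V)) {p : ℕ}
    (hp : p.Prime) {ζ : K} (hζ : IsPrimitiveRoot ζ p) (D : RD0 K p ζ) (z : K)
    (hz : IsPrimitiveRoot z (Nat.card G))
    (hS : ∀ v : Pl K, ((Nat.card G : ℕ) : 𝓞 K) ∈ v.asIdeal → v ∈ D.S0) (Q : DP K QBar) :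
    ∃ C : ℕ, ∀ (R : Finset (Pl K)) (Y : Finset (Gal(QBar/K) →* G)),
      (∀ φ ∈ Y, FT φ ∧ ∀ l, l ∈ RV k Q D.S0 φ → l ∈ R) →
      (∀ φ ∈ Y, ∀ φ' ∈ Y, Eqv k φ φ' → φ = φ') →
        Y.card ≤ C * Nat.card (G ⧸ k.V) ^ R.card := by
  have hnV : k.V.Normal := k.nV
  obtain ⟨C, hC⟩ := sm_nil hp hζ D (Nat.card G) Nat.card_pos z hz hS Q (G ⧸ k.V) (hnil hnV)
    (Subgroup.card_quotient_dvd_card k.V)
  refine ⟨C, fun R Y hY hE => ?_⟩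
  have hinj : Set.InjOn (fun φ : Gal(QBar/K) →* G => (QuotientGroup.mk' k.V).comp φ) Y := by
    intro φ hφ φ' hφ' h
    refine hE φ hφ φ' hφ' fun σ => ?_
    have h1 : (QuotientGroup.mk' k.V) (φ σ) = (QuotientGroup.mk' k.V) (φ' σ) :=
      DFunLike.congr_fun h σ
    have h2 : (QuotientGroup.mk' k.V) (φ σ * (φ' σ)⁻¹) = 1 := by
      rw [map_mul, map_inv, h1, mul_inv_cancel]
    exact (QuotientGroup.eq_one_iff _).1 h2
  have h1 := hC R (Y.image fun φ : Gal(QBar/K) →* G => (QuotientGroup.mk' k.V).comp φ) (by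
    intro ψ hψ
    obtain ⟨φ, hφ, rfl⟩ := Finset.mem_image.1 hψ
    refine ⟨H38.ML.ft_comp _ _ (hY φ hφ).1, fun v hv hvR σ hσ => ?_⟩
    rw [MonoidHom.comp_apply]
    refine (QuotientGroup.eq_one_iff _).2 ?_
    by_contra hne
    exact hvR ((hY φ hφ).2 v ⟨hv, σ, hσ, hne⟩))
  rw [Finset.card_image_of_injOn hinj] at h1
  exact h1

theorem sm_sum (k : KV G) (hnil : ∀ _ : k.V.Normal, Group.IsNilpotent (G ⧸ k.V)) {ω : K}
    (hω : IsPrimitiveRoot ω 3) (hi : MOne 2 K) (hcb : H38.WM.CoreBound K) (D : RD0 K 3 ω)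
    (z : K) (hz : IsPrimitiveRoot z (Nat.card G))
    (hS : ∀ v : Pl K, ((Nat.card G : ℕ) : 𝓞 K) ∈ v.asIdeal → v ∈ D.S0) (Q : DP K QBar)
    (q δ : ℝ) (hq : 0 ≤ q) (hδ : 0 < δ) :
    ∃ C : ℝ, ∀ (Rf : (Gal(QBar/K) →* G) → Finset (Pl K)) (Y : Finset (Gal(QBar/K) →* G)),
      (∀ φ ∈ Y, FT φ ∧ Function.Surjective φ ∧ ∀ l, l ∈ Rf φ ↔ l ∈ RV k Q D.S0 φ) →
      (∀ φ ∈ Y, ∀ φ' ∈ Y, Eqv k φ φ' → φ = φ') →
        ∑ φ ∈ Y, q ^ (Rf φ).card * (selg (FX (k.pi.comp φ)) : ℝ) *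
          nr (Rf φ) ^ (-1 - δ) ≤ C := by
  obtain ⟨C₁, hC₁⟩ := sm_psi k hnil Nat.prime_three hω D z hz hS Q
  obtain ⟨m, hm⟩ : ∃ m : ℕ, m = Nat.card (G ⧸ k.V) := ⟨_, rfl⟩
  have hm1 : 1 ≤ m := by
    rw [hm]
    exact Nat.card_pos
  rw [← hm] at hC₁
  -- the ramified primes of a character
  obtain ⟨R₁, hR₁⟩ : ∃ R₁ : (Gal(QBar/K) →* Multiplicative (ZMod 3)) → Finset (Pl K),
      ∀ χ, FT χ → ∀ l, l ∈ R₁ χ ↔ l ∈ RC Q D.S0 χ := by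
    have hfin : ∀ χ : Gal(QBar/K) →* Multiplicative (ZMod 3), FT χ → (RC Q D.S0 χ).Finite :=
      fun χ hχ => (H38.WM.rmF Q χ hχ).subset fun l hl => hl.2
    refine ⟨fun χ => if h : FT χ then (hfin χ h).toFinset else ∅, fun χ hχ l => ?_⟩
    simp only
    rw [dif_pos hχ, Set.Finite.mem_toFinset]
  obtain ⟨C₂, hC₂⟩ := dyi (K := K) (fun χ : Gal(QBar/K) →* Multiplicative (ZMod 3) => FT χ ∧ Function.Surjective χ)
    R₁ (fun χ => (selg (FX χ) : ℝ)) (fun χ => Nat.cast_nonneg _) (fun ε hε => by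
      obtain ⟨C, hC⟩ := sm_core hω hi hcb Q D.S0 ε hε
      refine ⟨C, fun Y hY I hI => hC Y hY I fun χ hχ => ⟨(hI χ hχ).1.1, (hI χ hχ).1.2, fun T hT => ?_⟩⟩
      exact (nr_mono fun l hl => (hR₁ χ (hI χ hχ).1.1 l).2 (hT l hl)).trans (hI χ hχ).2) (q * m) δ
    (mul_nonneg hq (Nat.cast_nonneg _)) hδ
  obtain ⟨C₃, hC₃⟩ := dy_one K (q * m) δ (mul_nonneg hq (Nat.cast_nonneg _)) hδ
  have hC₃0 : 0 ≤ C₃ := by
    have := hC₃ ∅
    rwa [Finset.sum_empty] at this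
  refine ⟨C₁ * (C₂ * C₃), fun Rf Y hY hE => ?_⟩
  let κ : (Gal(QBar/K) →* G) → (Gal(QBar/K) →* Multiplicative (ZMod 3)) × Finset (Pl K) :=
    fun φ => (k.pi.comp φ, Rf φ \ R₁ (k.pi.comp φ))
  let F : (Gal(QBar/K) →* Multiplicative (ZMod 3)) × Finset (Pl K) → ℝ := fun x =>
    ((selg (FX x.1) : ℝ) * (q ^ (R₁ x.1).card * nr (R₁ x.1) ^ (-1 - δ))) *
      (q ^ x.2.card * nr x.2 ^ (-1 - δ))
  have hnr0 : ∀ R : Finset (Pl K), 0 ≤ nr R := fun R => by linarith [one_le_nr R]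
  have hF0 : ∀ x, 0 ≤ F x := fun x => mul_nonneg (mul_nonneg (Nat.cast_nonneg _)
    (mul_nonneg (pow_nonneg hq _) (Real.rpow_nonneg (hnr0 _) _)))
    (mul_nonneg (pow_nonneg hq _) (Real.rpow_nonneg (hnr0 _) _))
  have hft : ∀ φ ∈ Y, FT (k.pi.comp φ) := fun φ hφ => H38.ML.ft_comp _ _ (hY φ hφ).1
  have hsub : ∀ φ ∈ Y, R₁ (k.pi.comp φ) ⊆ Rf φ := by
    intro φ hφ l hl
    exact ((hY φ hφ).2.2 l).2 (rc_sub k Q D.S0 φ ((hR₁ _ (hft φ hφ) l).1 hl))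
  have hterm : ∀ φ ∈ Y, q ^ (Rf φ).card * (selg (FX (k.pi.comp φ)) : ℝ) *
      nr (Rf φ) ^ (-1 - δ) = F (κ φ) := by
    intro φ hφ
    have h1 : Rf φ = R₁ (k.pi.comp φ) ∪ (Rf φ \ R₁ (k.pi.comp φ)) :=
      (Finset.union_sdiff_of_subset (hsub φ hφ)).symm
    have h2 : (Rf φ).card = (R₁ (k.pi.comp φ)).card + (Rf φ \ R₁ (k.pi.comp φ)).card := by
      conv_lhs => rw [h1]
      exact Finset.card_union_of_disjoint Finset.disjoint_sdiff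
    have h3 : nr (Rf φ) = nr (R₁ (k.pi.comp φ)) * nr (Rf φ \ R₁ (k.pi.comp φ)) := by
      conv_lhs => rw [h1]
      exact nr_union Finset.disjoint_sdiff
    change _ = ((selg (FX (k.pi.comp φ)) : ℝ) * (q ^ (R₁ (k.pi.comp φ)).card *
      nr (R₁ (k.pi.comp φ)) ^ (-1 - δ))) * (q ^ (Rf φ \ R₁ (k.pi.comp φ)).card *
        nr (Rf φ \ R₁ (k.pi.comp φ)) ^ (-1 - δ))
    rw [h2, h3, pow_add, Real.mul_rpow (hnr0 _) (hnr0 _)]
    ring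
  rw [Finset.sum_congr rfl hterm, Finset.sum_comp F κ]
  have hfib : ∀ x ∈ Y.image κ, ((Y.filter fun φ => κ φ = x).card : ℝ) ≤
      C₁ * ((m : ℝ) ^ (R₁ x.1).card * (m : ℝ) ^ x.2.card) := by
    intro x _
    have h1 := hC₁ (R₁ x.1 ∪ x.2) (Y.filter fun φ => κ φ = x) (by
      intro φ hφ
      obtain ⟨hφY, hφx⟩ := Finset.mem_filter.1 hφ
      refine ⟨(hY φ hφY).1, fun l hl => ?_⟩
      have h2 : k.pi.comp φ = x.1 := congrArg Prod.fst hφx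
      have h3 : Rf φ \ R₁ (k.pi.comp φ) = x.2 := congrArg Prod.snd hφx
      have h4 := ((hY φ hφY).2.2 l).2 hl
      rw [← h3, ← h2, Finset.union_sdiff_of_subset (hsub φ hφY)]
      exact h4) (fun φ hφ φ' hφ' h => hE φ (Finset.mem_filter.1 hφ).1 φ' (Finset.mem_filter.1 hφ').1 h)
    have h2 : m ^ (R₁ x.1 ∪ x.2).card ≤ m ^ ((R₁ x.1).card + x.2.card) :=
      Nat.pow_le_pow_right hm1 (Finset.card_union_le _ _)
    have h3 : (Y.filter fun φ => κ φ = x).card ≤ C₁ * m ^ ((R₁ x.1).card + x.2.card) :=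
      h1.trans (Nat.mul_le_mul_left _ h2)
    rw [← pow_add]
    exact_mod_cast h3
  obtain ⟨A, hA⟩ : ∃ A : (Gal(QBar/K) →* Multiplicative (ZMod 3)) → ℝ, ∀ χ, A χ =
      (selg (FX χ) : ℝ) * ((q * m) ^ (R₁ χ).card * nr (R₁ χ) ^ (-1 - δ)) := ⟨_, fun _ => rfl⟩
  obtain ⟨A', hA'⟩ : ∃ A' : Finset (Pl K) → ℝ, ∀ R, A' R = (q * m) ^ R.card * nr R ^ (-1 - δ) :=
    ⟨_, fun _ => rfl⟩
  have hqm : 0 ≤ q * m := mul_nonneg hq (Nat.cast_nonneg _)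
  have hA0 : ∀ χ, 0 ≤ A χ := fun χ => by
    rw [hA]
    exact mul_nonneg (Nat.cast_nonneg _) (mul_nonneg (pow_nonneg hqm _) (Real.rpow_nonneg (hnr0 _) _))
  have hA'0 : ∀ R, 0 ≤ A' R := fun R => by
    rw [hA']
    exact mul_nonneg (pow_nonneg hqm _) (Real.rpow_nonneg (hnr0 _) _)
  have hAA : ∀ x : (Gal(QBar/K) →* Multiplicative (ZMod 3)) × Finset (Pl K),
      C₁ * ((m : ℝ) ^ (R₁ x.1).card * (m : ℝ) ^ x.2.card) * F x = C₁ * (A x.1 * A' x.2) := by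
    intro x
    rw [hA, hA', mul_pow, mul_pow]
    simp only [F]
    ring
  have hI : Y.image κ ⊆ (Y.image fun φ => k.pi.comp φ) ×ˢ (Y.image fun φ => Rf φ \ R₁ (k.pi.comp φ)) := by
    intro x hx
    obtain ⟨φ, hφ, rfl⟩ := Finset.mem_image.1 hx
    exact Finset.mem_product.2 ⟨Finset.mem_image.2 ⟨φ, hφ, rfl⟩, Finset.mem_image.2 ⟨φ, hφ, rfl⟩⟩
  have hs1 : ∑ χ ∈ Y.image (fun φ => k.pi.comp φ), A χ ≤ C₂ := by
    rw [Finset.sum_congr rfl fun χ _ => hA χ]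
    refine hC₂ _ fun χ hχ => ?_
    obtain ⟨φ, hφ, rfl⟩ := Finset.mem_image.1 hχ
    exact ⟨hft φ hφ, k.sj.comp (hY φ hφ).2.1⟩
  have hs2 : ∑ R ∈ Y.image (fun φ => Rf φ \ R₁ (k.pi.comp φ)), A' R ≤ C₃ := by
    rw [Finset.sum_congr rfl fun R _ => hA' R]
    exact hC₃ _
  calc ∑ x ∈ Y.image κ, (Y.filter fun φ => κ φ = x).card • F x
      ≤ ∑ x ∈ Y.image κ, C₁ * (A x.1 * A' x.2) := by
        refine Finset.sum_le_sum fun x hx => ?_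
        rw [nsmul_eq_mul, ← hAA]
        exact mul_le_mul_of_nonneg_right (hfib x hx) (hF0 x)
    _ ≤ ∑ x ∈ (Y.image fun φ => k.pi.comp φ) ×ˢ (Y.image fun φ => Rf φ \ R₁ (k.pi.comp φ)),
        C₁ * (A x.1 * A' x.2) :=
        Finset.sum_le_sum_of_subset_of_nonneg hI fun x _ _ =>
          mul_nonneg (Nat.cast_nonneg _) (mul_nonneg (hA0 _) (hA'0 _))
    _ = C₁ * ((∑ χ ∈ Y.image (fun φ => k.pi.comp φ), A χ) *
        ∑ R ∈ Y.image (fun φ => Rf φ \ R₁ (k.pi.comp φ)), A' R) := by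
        rw [← Finset.mul_sum, Finset.sum_mul_sum, Finset.sum_product]
    _ ≤ C₁ * (C₂ * C₃) := by
        refine mul_le_mul_of_nonneg_left ?_ (Nat.cast_nonneg _)
        have h0 : 0 ≤ C₂ := (Finset.sum_nonneg fun χ _ => hA0 χ).trans hs1
        exact mul_le_mul hs1 hs2 (Finset.sum_nonneg fun R _ => hA'0 R) h0

end H48.KV
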