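import Pool.Agent.H48.KV.UbB
import Pool.Agent.H48.KV.UbD
import Pool.Agent.H48.KV.UbE

/-!
# [H48 KV UBF] the uniform bound for the lifts of one `φ₀`, 120-180 lines. File Pool/Agent/H48/KV/UbF.lean

`a = indG G`, `S = D.S0`, `C = 4 * 8^{#S} * C₁`, `C₁` from `ub_all hω D η hη` (UbB.lean). Given `φ₀, F, R, B, X`: `y` from `ubc_y` (UbC.lean), `E` the finite set of the `v ∉ S` with `ord v y ≠ 0`; `E ⊆ R` (`k.piV`: `k.pi (φ₀ σ) ≠ 1` implies `φ₀ σ ∉ V`), so `nr E ≤ nr R` (`nr_mono`). `Z = B^(1/a) * nr R^(-(1+1/a)) ≥ 0`. For `φ ∈ X` let `T φ` be the set of `ub_T`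
(UbE.lean): `T φ` is in the index set `N` of `ub_all` for `Y = Z` (`nr (T φ) ≤ Z`: divide by `nr R^(1+1/a) > 0`), so `∑_{n ∈ N} 3^{#n} ≤ C₁ nr E^η Z`. With `t, c` from `ub_t` let `x φ : Pl K → G`, `x φ l = φ (t l)` for `l ∈ T φ` and `1` otherwise. For `l ∈ T φ`: `x φ l ∈ V`, `≠ 1` (otherwise `φ` is trivial on the inertia group).
For given `n ∈ N` the functions `x φ` with `T φ = n` take at most `3^{#n}` values: they are determined by the restriction to `n` with values in the set of the three elements `≠ 1` of `V` (`kv_card`; `Fintype.card_fun`/`Finset.card_pi`). If `T φ = T φ'` and `x φ = x φ'` then `φ` and `φ'` agree on the inertia groups at the `l ∈ T φ` (`ub_t`) and so at all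
`l ∉ S ∪ R` (`ub_eq`), and `ub_fib` for `S ∪ R` says that the `φ ∈ X` with given `(T, x)` are at most `4 * 8^{#(S ∪ R)} * selc K F` in number, `#(S ∪ R) ≤ #S + #R` (`h2`, `MOne 2 F` from `mone_map`; `XB ⊆ LV`). So `#X ≤ ∑_{n ∈ N} 3^{#n} * (4 * 8^{#S} * 8^{#R} * selc K F)` (`Finset.card_le_mul_card_image`, `Finset.card_eq_sum_card_fiberwise`).
Exponents: `nr E^η * nr R^(-(1+1/a)) ≤ nr R^(η - (1+1/a))` (`Real.rpow_add`).
-/

set_option autoImplicit false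

open scoped NumberField Classical
open IsDedekindDomain H38.ML H63.MA

noncomputable section

namespace H48.KV

theorem ub_one {n : ℕ} {G : Subgroup (Equiv.Perm (Fin n))} {K : IntermediateField ℚ QBar}
    [NumberField K] (k : KV G) {ω : K} (hn : 2 ≤ n) (hG : MulAction.IsPretransitive G (Fin n))
    (hI : ∀ g : G, g ≠ 1 → ind (g : Equiv.Perm (Fin n)) = indG G → g ∈ k.V)
    (hω : IsPrimitiveRoot ω 3) (hi : MOne 2 K) (D : RD K 3 ω)
    (h2 : ∀ v : Pl K, Above 2 v → v ∈ D.S0) (Q : DP K QBar) (i₀ : Fin n) (η : ℝ)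
    (hη : 0 < η) :
    ∃ C : ℝ, 0 < C ∧ ∀ (φ₀ : Gal(QBar/K) →* G), FT φ₀ → Function.Surjective φ₀ →
      ∀ (F : IntermediateField K QBar) [NumberField F] (γ : Gal(QBar/K)) (τ : F ≃ₐ[K] F),
        FD k φ₀ F γ τ → ∀ R : Finset (Pl K), (∀ l, l ∈ R ↔ l ∈ RV k Q D.S0 φ₀) →
          ∀ B : ℝ, 1 ≤ B → ∀ X : Finset (Gal(QBar/K) →* G), (∀ φ ∈ X, φ ∈ XB k i₀ φ₀ B) →
            (X.card : ℝ) ≤ C * 8 ^ R.card * (selc K F : ℝ) *
              nr R ^ (η - (1 + 1 / (indG G : ℝ))) * B ^ (1 / (indG G : ℝ)) := by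
  have hG1 : Finite G := inferInstance
  obtain ⟨C₁, hC₁, hall⟩ := ub_all hω D η hη
  obtain ⟨t, c, htc⟩ := ub_t k K Q
  refine ⟨4 * 8 ^ D.S0.card * C₁, by positivity, ?_⟩
  intro φ₀ hft hs F _ γ τ hFD R hR B hB X hX
  obtain ⟨y, hy0, hy, hfin, hy2⟩ := ubc_y (k := k) hω D.toRD0 Q φ₀ hft hs
  obtain ⟨E, hE⟩ : ∃ E : Finset (Pl K), ∀ v, v ∈ E ↔ v ∉ D.S0 ∧ ord v y ≠ 0 :=
    ⟨hfin.toFinset, fun v => by rw [Set.Finite.mem_toFinset]; rfl⟩
  have hER : E ⊆ R := by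
    intro v hv
    rw [hE] at hv
    rw [hR]
    obtain ⟨σ, hσ, h1⟩ := hy2 v hv.1 hv.2
    exact ⟨hv.1, σ, hσ, fun h => h1 (k.piV _ h)⟩
  obtain ⟨α, hα⟩ : ∃ α : ℝ, α = 1 / (indG G : ℝ) := ⟨_, rfl⟩
  have hT : ∀ φ : Gal(QBar/K) →* G, φ ∈ X → ∃ T : Finset (Pl K), (∀ l, l ∈ T ↔ l ∈ TV k Q D.S0 φ) ∧
      (∀ v ∈ T, v ∉ D.S0) ∧ Disjoint T E ∧ (∀ v ∈ T, D.LL v y = 0) ∧
      nr R ^ (1 + 1 / (indG G : ℝ)) * nr T ≤ B ^ (1 / (indG G : ℝ)) := fun φ hφ =>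
    ub_T hn hG hI hω D.toRD0 h2 Q i₀ φ₀ φ B hB (hX φ hφ) R E hR y hy hE
      (fun v hv => hy2 v ((hE v).1 hv).1 ((hE v).1 hv).2)
  choose! T hT1 hT2 hT3 hT4 hT5 using hT
  have hnrR : 0 < nr R := lt_of_lt_of_le one_pos (one_le_nr R)
  have hnrE : 0 < nr E := lt_of_lt_of_le one_pos (one_le_nr E)
  obtain ⟨Z, hZ⟩ : ∃ Z : ℝ, Z = B ^ α * nr R ^ (-(1 + α)) := ⟨_, rfl⟩
  have hZ0 : 0 ≤ Z := by
    rw [hZ]
    positivity
  have hTZ : ∀ φ ∈ X, nr (T φ) ≤ Z := by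
    intro φ hφ
    have h1 := hT5 φ hφ
    rw [← hα] at h1
    rw [hZ, Real.rpow_neg hnrR.le, ← div_eq_mul_inv, le_div_iff₀ (Real.rpow_pos_of_pos hnrR _)]
    rw [mul_comm]
    exact h1
  have hsum := hall y E (fun v hv => ((hE v).1 hv).1)
    (fun v hv1 hv2 => by
      by_contra h
      exact hv2 ((hE v).2 ⟨hv1, h⟩)) hy0 Z hZ0
  obtain ⟨N, hN⟩ : ∃ N : Finset (Finset (Pl K)), N = (AF K Z).filter (fun n => (∀ v ∈ n, v ∉ D.S0) ∧
    Disjoint n E ∧ ∀ v ∈ n, D.LL v y = 0) := ⟨_, rfl⟩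
  rw [← hN] at hsum
  have hTN : ∀ φ ∈ X, T φ ∈ N := by
    intro φ hφ
    rw [hN, Finset.mem_filter, mem_AF]
    exact ⟨hTZ φ hφ, hT2 φ hφ, hT3 φ hφ, hT4 φ hφ⟩
  have hFG : Fintype G := Fintype.ofFinite G
  obtain ⟨V3, hV3⟩ : ∃ V3 : Finset G, V3 = Finset.univ.filter (fun g : G => g ∈ k.V ∧ g ≠ 1) := ⟨_, rfl⟩
  have hV3c : V3.card ≤ 3 := by
    have h1 : V3 = (Finset.univ.filter (fun g : G => g ∈ k.V)).erase 1 := by
      rw [hV3]
      ext g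
      simp only [Finset.mem_filter, Finset.mem_univ, true_and, Finset.mem_erase]
      exact and_comm
    have h2 : (Finset.univ.filter (fun g : G => g ∈ k.V)).card = 4 := by
      rw [← kv_card k, Nat.card_eq_fintype_card, Fintype.card_subtype]
    rw [h1, Finset.card_erase_of_mem (by
      rw [Finset.mem_filter]
      exact ⟨Finset.mem_univ _, k.V.one_mem⟩), h2]
  have htV3 : ∀ φ ∈ X, ∀ l ∈ T φ, φ (t l) ∈ V3 := by
    intro φ hφ l hl
    have h1 := (hT1 φ hφ l).1 hl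
    obtain ⟨h3, ⟨σ, hσ, h4⟩, h5⟩ := h1
    have h6 : ¬ Above 2 l := fun h => h3 (h2 l h)
    obtain ⟨h7, h8⟩ := htc l h6
    have h9 := h8 φ (hX φ hφ).1 h5
    rw [hV3, Finset.mem_filter]
    refine ⟨Finset.mem_univ _, h5 _ h7, fun h10 => h4 ?_⟩
    rw [h9 σ hσ, h10, one_pow]
  let Φ : (Gal(QBar/K) →* G) → (Σ n : Finset (Pl K), ((a : Pl K) → a ∈ n → G)) :=
    fun φ => ⟨T φ, fun l _ => φ (t l)⟩
  have hmaps : ∀ φ ∈ X, Φ φ ∈ N.sigma (fun n => n.pi (fun _ => V3)) := by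
    intro φ hφ
    rw [Finset.mem_sigma]
    refine ⟨hTN φ hφ, ?_⟩
    rw [Finset.mem_pi]
    exact fun l hl => htV3 φ hφ l hl
  have hfib : ∀ p ∈ N.sigma (fun n => n.pi (fun _ => V3)),
      (X.filter (fun φ => Φ φ = p)).card ≤ 4 * 8 ^ (D.S0 ∪ R).card * selc K F := by
    intro p _
    refine ub_fib hs hFD (mone_map hi F) Q (D.S0 ∪ R) (fun v hv => Finset.mem_union_left _ (h2 v hv)) _
      (fun φ hφ => ?_) (fun φ hφ φ' hφ' l hl σ hσ => ?_)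
    · have h1 := hX φ (Finset.mem_filter.1 hφ).1
      exact ⟨h1.1, h1.2.2.1⟩
    · obtain ⟨h1, h3⟩ := Finset.mem_filter.1 hφ
      obtain ⟨h1', h3'⟩ := Finset.mem_filter.1 hφ'
      have h4 : Φ φ = Φ φ' := h3.trans h3'.symm
      have h5 : T φ = T φ' := congrArg Sigma.fst h4
      have h6 : ∀ l ∈ T φ, φ (t l) = φ' (t l) := by
        intro l hl
        have h7 : ∀ (p q : Σ n : Finset (Pl K), ((a : Pl K) → a ∈ n → G)), p = q →
            ∀ (h : l ∈ p.1) (h' : l ∈ q.1), p.2 l h = q.2 l h' := by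
          rintro p _ rfl h h'
          rfl
        have h8 : l ∈ T φ' := by
          rw [← h5]
          exact hl
        exact h7 _ _ h4 hl h8
      refine ub_eq Q D.S0 φ₀ φ φ' (hX φ h1).2.2.1 (hX φ' h1').2.2.1 R (T φ) hR (hT1 φ h1)
        (by rw [h5]; exact hT1 φ' h1') (fun l hl s hs' => ?_) l hl σ hσ
      have h8 := (hT1 φ h1 l).1 hl
      have h8' := (hT1 φ' h1' l).1 (h5 ▸ hl)
      have h9 : ¬ Above 2 l := fun h => h8.1 (h2 l h)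
      rw [(htc l h9).2 φ (hX φ h1).1 h8.2.2 s hs', (htc l h9).2 φ' (hX φ' h1').1 h8'.2.2 s hs', h6 l hl]
  have hcard := Finset.card_le_mul_card_image_of_maps_to hmaps _ hfib
  have hsig : ((N.sigma (fun n => n.pi (fun _ => V3))).card : ℝ) ≤ C₁ * nr E ^ η * Z := by
    refine le_trans ?_ hsum
    rw [Finset.card_sigma]
    push_cast
    refine Finset.sum_le_sum fun n _ => ?_
    rw [Finset.card_pi, Finset.prod_const]
    push_cast
    exact pow_le_pow_left₀ (Nat.cast_nonneg _) (by exact_mod_cast hV3c) _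
  have hER2 : nr E ^ η ≤ nr R ^ η := Real.rpow_le_rpow hnrE.le (nr_mono hER) hη.le
  have h8 : ((8 : ℝ)) ^ (D.S0 ∪ R).card ≤ 8 ^ D.S0.card * 8 ^ R.card := by
    rw [← pow_add]
    exact pow_le_pow_right₀ (by norm_num) (Finset.card_union_le _ _)
  have hselc : (0 : ℝ) ≤ (selc K F : ℝ) := Nat.cast_nonneg _
  have hBα : 0 ≤ B ^ α := Real.rpow_nonneg (by linarith) _
  have hRr : nr R ^ (η - (1 + α)) = nr R ^ η * nr R ^ (-(1 + α)) := by
    rw [← Real.rpow_add hnrR]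
    congr 1
  have hRp : 0 < nr R ^ (-(1 + α)) := Real.rpow_pos_of_pos hnrR _
  have hRη : 0 < nr R ^ η := Real.rpow_pos_of_pos hnrR _
  rw [← hα, hRr]
  calc (X.card : ℝ) ≤ ((4 * 8 ^ (D.S0 ∪ R).card * selc K F *
        (N.sigma (fun n => n.pi (fun _ => V3))).card : ℕ) : ℝ) := by exact_mod_cast hcard
    _ = 4 * 8 ^ (D.S0 ∪ R).card * (selc K F : ℝ) *
        ((N.sigma (fun n => n.pi (fun _ => V3))).card : ℝ) := by push_cast; ring
    _ ≤ 4 * (8 ^ D.S0.card * 8 ^ R.card) * (selc K F : ℝ) * (C₁ * nr R ^ η * Z) := by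
        refine mul_le_mul ?_ ?_ (Nat.cast_nonneg _) (by positivity)
        · exact mul_le_mul_of_nonneg_right (mul_le_mul_of_nonneg_left h8 (by norm_num)) hselc
        · exact hsig.trans (mul_le_mul_of_nonneg_right (mul_le_mul_of_nonneg_left hER2 hC₁.le) hZ0)
    _ = 4 * 8 ^ D.S0.card * C₁ * 8 ^ R.card * (selc K F : ℝ) * (nr R ^ η * nr R ^ (-(1 + α))) *
        B ^ α := by
        rw [hZ]
        ring

end H48.KV
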