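import Pool.Agent.H48.KV.AsyB
import Pool.Agent.H48.KV.UbF
import Pool.Agent.H48.KV.SmD
import Pool.Agent.H48.KV.Idx
import Pool.Agent.H38.BB.RdOf

/-!
# [H48 KV FINB] the weights, 80-130 lines. File Pool/Agent/H48/KV/FinB.lean

* `fd_fx`: `F.fixingSubgroup = (k.pi.comp φ₀).ker` (`h.fix`), so `F` is its fixed field (`InfiniteGalois.fixedField_fixingSubgroup`). `selg_fd`: `dif_pos`.
* `fin_wt`: `a = indG G ≥ 1` (`idx_pos`). `hfac`: the primes with `n! ∈ v`, those above 2; `exists_RD_of K Nat.prime_three` (H38/BB/RdOf.lean, `MOne 3 K` by `mone_odd`) gives `D : RD K 3 ω` whose `S0` contains the finite set of the primes over `n!`, over `#G` and above 2. `Q` from `exists_DP` (H63/MC/CLkC.lean). `η = 1/(2a)`, `C` from `ub_one` (UbF.lean) for `η`,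
  `Rf φ` = the finite set of the primes in `RV k Q D.S0 φ` (`ub_fin`, UbE.lean; `∅` if `φ` is not of finite type). `wt φ = C * 8^{#Rf φ} * selg (FX (k.pi.comp φ)) * nr (Rf φ)^(η - (1 + 1/a))`, the exponent is `-1 - 1/(2a)`. The first property: `sm_sum` (SmD.lean) with `q = 8`, `δ = 1/(2a)`, times `C`. The second: `fd_ex` (FldA.lean), `fd_nf`, `fd_fx`, `selg_fd`,
  `ub_one` for `X` = the set `XB k i₀ φ₀ B` as a finite set (`asy_fix`, AsyB.lean), `Set.ncard_eq_toFinset_card`.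
-/

set_option autoImplicit false

open scoped NumberField Classical
open IsDedekindDomain H38.ML H63.MA

noncomputable section

namespace H48.KV

variable {K : IntermediateField ℚ QBar} [NumberField K]

theorem fd_fx {G : Type} [Group G] {k : KV G} {φ₀ : Gal(QBar/K) →* G}
    {F : IntermediateField K QBar} {γ : Gal(QBar/K)} {τ : F ≃ₐ[K] F}
    (h : FD k φ₀ F γ τ) : F = FX (k.pi.comp φ₀) := by
  have h1 : F.fixingSubgroup = (k.pi.comp φ₀).ker := by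
    ext σ
    rw [h.fix, MonoidHom.mem_ker, MonoidHom.comp_apply]
  have h2 : IntermediateField.fixedField F.fixingSubgroup = F :=
    InfiniteGalois.fixedField_fixingSubgroup F
  rw [FX, ← h1, h2]

theorem selg_fd (F : IntermediateField K QBar) [NumberField F] : selg F = selc K F := by
  unfold selg
  rw [dif_pos (inferInstance : NumberField F)]

theorem fin_wt {n : ℕ} {G : Subgroup (Equiv.Perm (Fin n))} (k : KV G) (hn : 2 ≤ n)
    (hG : MulAction.IsPretransitive G (Fin n))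
    (hI : ∀ g : G, g ≠ 1 → ind (g : Equiv.Perm (Fin n)) = indG G → g ∈ k.V)
    (hnil : ∀ _ : k.V.Normal, Group.IsNilpotent (G ⧸ k.V)) {ω : K}
    (hω : IsPrimitiveRoot ω 3) (hi : MOne 2 K) (hcb : H38.WM.CoreBound K) (z : K)
    (hz : IsPrimitiveRoot z (Nat.card G)) (i₀ : Fin n) :
    ∃ (wt : (Gal(QBar/K) →* G) → ℝ), (∀ φ, 0 ≤ wt φ) ∧
      (∃ C : ℝ, ∀ Y : Finset (Gal(QBar/K) →* G),
        (∀ φ ∈ Y, FT φ ∧ Function.Surjective φ) →
        (∀ φ ∈ Y, ∀ φ' ∈ Y, Eqv k φ φ' → φ = φ') → ∑ φ ∈ Y, wt φ ≤ C) ∧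
      ∀ φ₀ : Gal(QBar/K) →* G, FT φ₀ → Function.Surjective φ₀ → ∀ B : ℝ, 1 ≤ B →
        ((XB k i₀ φ₀ B).ncard : ℝ) ≤ wt φ₀ * B ^ (1 / (indG G : ℝ)) := by
  have ha : 0 < indG G := idx_pos hn hG
  have ha' : (0 : ℝ) < indG G := by exact_mod_cast ha
  have hG0 : Nat.card G ≠ 0 := Nat.card_pos.ne'
  obtain ⟨D, hD⟩ := H38.BB.exists_RD_of K Nat.prime_three (mone_odd Nat.prime_three (by norm_num) K) hω
    ((finite_above (K := K) hG0).toFinset ∪ (finite_above (K := K) two_ne_zero).toFinset)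
  have hS : ∀ v : Pl K, ((Nat.card G : ℕ) : 𝓞 K) ∈ v.asIdeal → v ∈ D.S0 := fun v hv =>
    hD v (Finset.mem_union_left _ ((finite_above (K := K) hG0).mem_toFinset.2 hv))
  have h2 : ∀ v : Pl K, Above 2 v → v ∈ D.S0 := fun v hv =>
    hD v (Finset.mem_union_right _ ((finite_above (K := K) two_ne_zero).mem_toFinset.2 hv))
  obtain ⟨Q⟩ := exists_DP K QBar
  obtain ⟨δ, hδ⟩ : ∃ δ : ℝ, δ = 1 / (2 * (indG G : ℝ)) := ⟨_, rfl⟩
  have hδ0 : 0 < δ := by rw [hδ]; positivity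
  obtain ⟨C, hC, hub⟩ := ub_one k hn hG hI hω hi D h2 Q i₀ δ hδ0
  obtain ⟨C2, hsm⟩ := sm_sum k hnil hω hi hcb D.toRD0 z hz hS Q 8 δ (by norm_num) hδ0
  have hexp : δ - (1 + 1 / (indG G : ℝ)) = -1 - δ := by
    rw [hδ]
    field_simp
    ring
  obtain ⟨Rf, hRf⟩ : ∃ Rf : (Gal(QBar/K) →* G) → Finset (Pl K), ∀ φ, FT φ →
      ∀ l, l ∈ Rf φ ↔ l ∈ RV k Q D.S0 φ := by
    refine ⟨fun φ => if h : FT φ then (ub_fin (k := k) Q D.S0 φ h).2.toFinset else ∅, fun φ hφ l => ?_⟩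
    simp only [dif_pos hφ]
    exact Set.Finite.mem_toFinset _
  refine ⟨fun φ => C * ((8 : ℝ) ^ (Rf φ).card * (selg (FX (k.pi.comp φ)) : ℝ) *
    nr (Rf φ) ^ (-1 - δ)), fun φ => ?_, ⟨C * C2, fun Y hY hY' => ?_⟩, ?_⟩
  · have h3 : 0 ≤ nr (Rf φ) := zero_le_one.trans (one_le_nr _)
    have h4 := Real.rpow_nonneg h3 (-1 - δ)
    positivity
  · rw [← Finset.mul_sum]
    refine mul_le_mul_of_nonneg_left ?_ hC.le
    exact hsm Rf Y (fun φ hφ => ⟨(hY φ hφ).1, (hY φ hφ).2, hRf φ (hY φ hφ).1⟩) hY'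
  · intro φ₀ hft hs B hB
    obtain ⟨F, γ, τ, hF⟩ := fd_ex k φ₀ hft hs
    haveI : NumberField F := fd_nf hF
    have hfin := (asy_fix k hn hG hI K hi φ₀ hft hs i₀).1 B
    have h3 := hub φ₀ hft hs F γ τ hF (Rf φ₀) (hRf φ₀ hft) B hB hfin.toFinset
      (fun φ hφ => hfin.mem_toFinset.1 hφ)
    rw [hexp] at h3
    rw [Set.ncard_eq_toFinset_card _ hfin]
    refine h3.trans (le_of_eq ?_)
    have h4 : selg (FX (k.pi.comp φ₀)) = selc K F := by rw [← fd_fx hF, selg_fd]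
    show _ = C * ((8 : ℝ) ^ (Rf φ₀).card * (selg (FX (k.pi.comp φ₀)) : ℝ) *
      nr (Rf φ₀) ^ (-1 - δ)) * B ^ (1 / (indG G : ℝ))
    rw [h4]
    ring

end H48.KV
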