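import Pool.Agent.H48.KV.KumB

/-!
# [H48 KV KUMC] the Kummer class determines the lift up to conjugation by `V`, 80-120 lines. File Pool/Agent/H48/KV/KumC.lean

* `kc_loc` (main step, local form): `D` a subgroup of `Gal(QBar/K)` such that `kk 2 (-1) a σ = 0` for all `σ : Gal(QBar/F)` whose restriction of scalars is in `g D g⁻¹` for some
  `g : Gal(QBar/K)` (any `g`; formulated as: `g⁻¹ σ g ∈ D`). Then `φ` and `φ'` are conjugate by an element of `V` on `D`. Proof: for `δ ∈ D` with `k.pi (φ δ) = 1` let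
  `σ : Gal(QBar/F)` with `σ.restrictScalars K = δ` (`h.fix`, `eqv_pi`). `c = φ δ (φ' δ)⁻¹ ∈ V`; for every `x : G` write `x = φ₀ g` (`φ₀` surjective): `lam (x c x⁻¹) = lam (φ φ'⁻¹ (g δ g⁻¹))`
  (`kc_equi` with `g⁻¹`) `= kk a (g σ g⁻¹) = 0`, so `c = 1` (`k.sep`). Now `kv_conj` (GrpB) for the restrictions of `φ`, `φ'` to `D` (`φ.comp D.subtype`).
* `kc_glo` (K2): `D = ⊤`; the Kummer character of a square is `0`.
* `kc_cj`: the class of `(δ φ δ⁻¹, φ)` is trivial: `lam (δ (φ σ) δ⁻¹ (φ σ)⁻¹)`, `δ ∈ V`, `k.pi (φ σ) = 1`: `δ` commutes with `φ σ` (`k.cen`), so it is `lam 1 = 0` (`kv_lam_one`, `kk` of `1` is `0`).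
-/

set_option autoImplicit false

open scoped NumberField
open IsDedekindDomain H38.ML H63.MA

noncomputable section

namespace H48.KV

variable {K : IntermediateField ℚ QBar} [NumberField K] {G : Type} [Group G] {k : KV G}
  {φ₀ : Gal(QBar/K) →* G} {F : IntermediateField K QBar} [NumberField F] {γ : Gal(QBar/K)}
  {τ : F ≃ₐ[K] F}

theorem kc_loc (hs : Function.Surjective φ₀) (h : FD k φ₀ F γ τ) {φ φ' : Gal(QBar/K) →* G}
    (hφ : Eqv k φ φ₀) (hφ' : Eqv k φ' φ₀) {a : Fˣ} (ha : Kc k F φ φ' a)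
    (D : Subgroup Gal(QBar/K))
    (h0 : ∀ (g : Gal(QBar/K)) (σ : Gal(QBar/F)), g⁻¹ * σ.restrictScalars K * g ∈ D →
      kk 2 (-1 : F) a σ = 0) :
    ∃ δ ∈ k.V, ∀ σ ∈ D, φ σ = δ * φ' σ * δ⁻¹ := by
  have he : Eqv k φ φ' := eqv_trans k hφ (eqv_symm k hφ')
  have hmain : ∀ d : D, k.pi ((φ.comp D.subtype) d) = 1 →
      (φ.comp D.subtype) d = (φ'.comp D.subtype) d := by
    rintro ⟨d, hd⟩ hp
    simp only [MonoidHom.comp_apply, Subgroup.subtype_apply] at hp ⊢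
    have hfix : d ∈ F.fixingSubgroup := by
      rw [h.fix, ← eqv_pi k hφ]
      exact hp
    obtain ⟨σ, hσ⟩ : ∃ σ : Gal(QBar/F), (σ.restrictScalars K : Gal(QBar/K)) = d := by
      refine ⟨IntermediateField.fixingSubgroupEquiv F ⟨d, hfix⟩, ?_⟩
      ext x
      rfl
    have hc : φ d * (φ' d)⁻¹ = 1 := by
      apply k.sep _ (he d)
      intro x
      obtain ⟨u, rfl⟩ := hs x
      obtain ⟨σ', hσ'⟩ := kc_conj_ex h u⁻¹ σ
      have h1 := kc_equi h hφ hφ' u⁻¹ σ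
      have h2 := ha σ'
      rw [h0 u⁻¹⁻¹ σ' (by rw [hσ', hσ]; simpa [mul_assoc] using hd), hσ', h1, hσ, map_inv,
        inv_inv] at h2
      exact h2.symm
    exact mul_inv_eq_one.1 hc
  obtain ⟨δ, hδ, h1⟩ := kv_conj k (φ.comp D.subtype) (φ'.comp D.subtype) (fun d => he d) hmain
  exact ⟨δ, hδ, fun σ hσ => h1 ⟨σ, hσ⟩⟩

theorem kc_glo (hs : Function.Surjective φ₀) (h : FD k φ₀ F γ τ) {φ φ' : Gal(QBar/K) →* G}
    (hφ : Eqv k φ φ₀) (hφ' : Eqv k φ' φ₀) {b : Fˣ} (ha : Kc k F φ φ' (b ^ 2)) :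
    ∃ δ ∈ k.V, φ = (MulAut.conj δ).toMonoidHom.comp φ' := by
  haveI hac : IsAlgClosure F QBar :=
    { isAlgClosed := inferInstance
      isAlgebraic := Algebra.IsAlgebraic.tower_top (K := K) F }
  have hm1 : IsPrimitiveRoot (-1 : F) 2 := IsPrimitiveRoot.neg_one 0 (by norm_num)
  obtain ⟨δ, hδ, h1⟩ := kc_loc hs h hφ hφ' ha ⊤
    (fun g σ _ => (kk_eq_zero_iff Nat.prime_two hm1 (b ^ 2)).2 ⟨b, rfl⟩ σ)
  refine ⟨δ, hδ, MonoidHom.ext fun σ => ?_⟩
  exact h1 σ (Subgroup.mem_top σ)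

theorem kc_cj (h : FD k φ₀ F γ τ) {φ : Gal(QBar/K) →* G} (hφ : Eqv k φ φ₀) {δ : G}
    (hδ : δ ∈ k.V) : Kc k F ((MulAut.conj δ).toMonoidHom.comp φ) φ 1 := by
  haveI hac : IsAlgClosure F QBar :=
    { isAlgClosed := inferInstance
      isAlgebraic := Algebra.IsAlgebraic.tower_top (K := K) F }
  have hm1 : IsPrimitiveRoot (-1 : F) 2 := IsPrimitiveRoot.neg_one 0 (by norm_num)
  intro σ
  have hpi : k.pi (φ (σ.restrictScalars K)) = 1 := by
    rw [eqv_pi k hφ]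
    exact fd_pi h σ
  have h1 := k.cen _ hpi δ hδ
  have h2 : ((MulAut.conj δ).toMonoidHom.comp φ) (σ.restrictScalars K) *
      (φ (σ.restrictScalars K))⁻¹ = 1 := by
    change δ * φ (σ.restrictScalars K) * δ⁻¹ * (φ (σ.restrictScalars K))⁻¹ = 1
    have h3 : φ (σ.restrictScalars K) * δ⁻¹ * (φ (σ.restrictScalars K))⁻¹ = δ⁻¹ := by
      have h4 := congrArg (fun z => z⁻¹) h1
      simpa [mul_assoc] using h4
    calc δ * φ (σ.restrictScalars K) * δ⁻¹ * (φ (σ.restrictScalars K))⁻¹ =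
        δ * (φ (σ.restrictScalars K) * δ⁻¹ * (φ (σ.restrictScalars K))⁻¹) := by group
      _ = 1 := by rw [h3, mul_inv_cancel]
  rw [h2, kv_lam_one]
  exact gkum_one_arg Nat.prime_two hm1 σ

end H48.KV
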