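import Pool.Agent.H48.KV.KumB
import Pool.Agent.H38.ML.KumEx

/-!
# [H48 KV KUMD] every class of square norm occurs, 120-180 lines. File Pool/Agent/H48/KV/KumD.lean

(K3) of think 1068. `H38.ML.factor φ₀ hft` (H38/ML/Factor.lean): `M` finite Galois over `K`, `e : Gal(M/K) →* G` injective with `e (res M σ) = φ₀ σ`. `F ≤ M`: `M.fixingSubgroup ≤ F.fixingSubgroup` (if
`σ` fixes `M` then `φ₀ σ = 1`; `h.fix`; Galois correspondence `IntermediateField.fixingSubgroup_le_iff`-type, `InfiniteGalois.fixedField_fixingSubgroup`). `X = Gal(M/K) ⧸ D`, `D = {g | k.pi (e g) = 1}` (three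
elements; or take `X = Fin 3 / Multiplicative (ZMod 3)` with the action of `g` by multiplication by `k.pi (e g)`, which is easier: `X = Multiplicative (ZMod 3)`, `g • x = k.pi (e g) * x`, via
`MulAction.compHom`). With `X = Multiplicative (ZMod 3)` and `s = k.pi (φ₀ γ)` a generator: `a : X → V`, `a (s^j) = (φ₀ γ)^j w (φ₀ γ)^{-j}` (`j = 0, 1, 2`), that is `a x = y w y⁻¹` for any `y : G` with
`k.pi y = x` (`kv_act`; choose `y` with `k.sj`), `α : X → M`, `α (s^j) = τ^j b` as element of `M` (`b : Fˣ` the given class; `α x = g b` for any `g` with `k.pi (e g) = x`). The group `A = V` as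
a `CommGroup` (`kv_comm`). `exists_kumOut` (H38/ML/KumEx.lean) with `q = 2`, `ζ = -1`, `ρb = e`, `j = k.V.subtype` gives `O : KumOut ..`, `O.ρ σ = (∏ x, a (res σ • x)^{κ σ x}) * φ₀ σ`. Take `φ = O.ρ`:
`FT` is `O.ft`, `Eqv` is clear. For `σ : Gal(QBar/F)`: `res σ • x = x` and `σ (β x) = (-1)^{κ σ x} β x`, so `κ σ x = kk 2 (-1) (tu τ ^ j b) σ` in `ZMod 2` for `x = s^j` (`kk_of_root`), and
`lam (∏ x, a x ^ κ σ x) = ∑ x, lam (a x) κ σ x = kk (τ b) σ + kk (τ² b) σ`, because `lam (a 1) = lam w = 0` and `lam (a s) = lam (a s²) = 1` (`kv_one` for `w`). As `b · τ b · τ² b` is a square (`fd_sq1`) this is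
`kk b σ` (`kk_mul_arg`, characteristic 2). So `Kc k F φ φ₀ b`.
-/

set_option autoImplicit false

open scoped NumberField
open IsDedekindDomain H38.ML H63.MA

noncomputable section

namespace H48.KV

variable {K : IntermediateField ℚ QBar} [NumberField K] {G : Type} [Group G] {k : KV G}
  {φ₀ : Gal(QBar/K) →* G} {F : IntermediateField K QBar} [NumberField F] {γ : Gal(QBar/K)}
  {τ : F ≃ₐ[K] F}

/-- two elements of the Galois group with the same type agree on `F` -/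
theorem kd_agree (h : FD k φ₀ F γ τ) {σ σ' : Gal(QBar/K)} (hσ : k.pi (φ₀ σ) = k.pi (φ₀ σ'))
    (y : F) : σ (y : QBar) = σ' (y : QBar) := by
  have h1 : σ'⁻¹ * σ ∈ F.fixingSubgroup := by
    rw [h.fix, map_mul, map_inv, map_mul, map_inv, hσ, inv_mul_cancel]
  rw [IntermediateField.mem_fixingSubgroup_iff] at h1
  have h2 := h1 (y : QBar) y.2
  rw [AlgEquiv.mul_apply] at h2
  have h3 := congrArg σ' h2
  have h4 : σ' (σ'⁻¹ (σ (y : QBar))) = σ (y : QBar) := σ'.apply_symm_apply _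
  rw [h4] at h3
  exact h3

theorem kd_lam (k : KV G) {ι : Type} (s : Finset ι) (A : Type) [CommGroup A] (j : A →* G)
    (hj : ∀ t, j t ∈ k.V) (a : ι → A) (n : ι → ℕ) :
    k.lam (j (∏ i ∈ s, a i ^ n i)) = ∑ i ∈ s, (n i : ZMod 2) * k.lam (j (a i)) := by
  classical
  have hpow : ∀ (t : A) (m : ℕ), k.lam (j (t ^ m)) = (m : ZMod 2) * k.lam (j t) := by
    intro t m
    induction m with
    | zero =>
      rw [pow_zero, map_one, kv_lam_one, Nat.cast_zero, zero_mul]
    | succ m ih =>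
      rw [pow_succ, map_mul, k.add _ (hj _) _ (hj _), ih]
      push_cast
      ring
  induction s using Finset.induction_on with
  | empty => rw [Finset.prod_empty, Finset.sum_empty, map_one, kv_lam_one]
  | insert i s hi ih =>
    rw [Finset.prod_insert hi, Finset.sum_insert hi, map_mul, k.add _ (hj _) _ (hj _), ih, hpow]

theorem kc_exist (hft : FT φ₀) (hs : Function.Surjective φ₀) (h : FD k φ₀ F γ τ) (b : Fˣ)
    (hb : IsSquare (Algebra.norm K (b : F))) :
    ∃ φ : Gal(QBar/K) →* G, φ ∈ LV k φ₀ ∧ Kc k F φ φ₀ b := by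
  classical
  have hgalK : IsGalois K QBar := IsAlgClosure.isGalois K QBar
  have halg : Algebra.IsAlgebraic F QBar := Algebra.IsAlgebraic.tower_top (K := K) F
  have hcl : IsAlgClosure F QBar := ⟨IsAlgClosure.isAlgClosed K, halg⟩
  have pr2 : IsPrimitiveRoot (-1 : F) 2 := IsPrimitiveRoot.neg_one 0 (by norm_num)
  have pr2K : IsPrimitiveRoot (-1 : K) 2 := IsPrimitiveRoot.neg_one 0 (by norm_num)
  obtain ⟨M, hMf, hMg, e, he, hres⟩ := factor φ₀ hft
  have hMn : Normal K M := hMg.to_normal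
  -- `F` is contained in `M`
  have hFM : F ≤ M := by
    intro x hx
    rw [← InfiniteGalois.fixedField_fixingSubgroup M, IntermediateField.mem_fixedField_iff]
    intro σ hσ
    have h1 : res M σ = 1 := by
      apply AlgEquiv.ext
      intro y
      apply Subtype.ext
      rw [kx_res]
      exact (IntermediateField.mem_fixingSubgroup_iff _ _).1 hσ _ y.2
    have h2 : φ₀ σ = 1 := by rw [← hres, h1, map_one]
    have h3 : σ ∈ F.fixingSubgroup := by rw [h.fix, h2, map_one]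
    exact (IntermediateField.mem_fixingSubgroup_iff _ _).1 h3 x hx
  -- the set of the three types
  let act : MulAction Gal(M/K) (Multiplicative (ZMod 3)) := MulAction.compHom _ (k.pi.comp e)
  have hact : ∀ (g : Gal(M/K)) (x : Multiplicative (ZMod 3)), g • x = k.pi (e g) * x := fun g x => rfl
  let cV : CommGroup k.V := { (inferInstance : Group k.V) with
    mul_comm := fun x y => Subtype.ext (kv_comm k x.2 y.2) }
  obtain ⟨j, hj⟩ : ∃ j : k.V →* G, ∀ t, j t = (t : G) := ⟨k.V.subtype, fun t => rfl⟩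
  have hjV : ∀ t, j t ∈ k.V := fun t => by rw [hj]; exact t.2
  have hA : ∀ t : k.V, t ^ 2 = 1 := by
    intro t
    apply Subtype.ext
    exact kv_sq k t.2
  choose sec hsec using k.sj
  have hlift : ∀ x : Multiplicative (ZMod 3), ∃ σ : Gal(QBar/K), k.pi (φ₀ σ) = x := by
    intro x
    obtain ⟨σ, hσ⟩ := hs (sec x)
    exact ⟨σ, by rw [hσ, hsec]⟩
  choose lf hlf using hlift
  obtain ⟨a, ha⟩ : ∃ a : Multiplicative (ZMod 3) → k.V, ∀ x, (a x : G) = sec x * k.w * (sec x)⁻¹ :=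
    ⟨fun x => ⟨sec x * k.w * (sec x)⁻¹, k.nV.conj_mem _ k.wV _⟩, fun x => rfl⟩
  obtain ⟨α, hα⟩ : ∃ α : Multiplicative (ZMod 3) → M, ∀ x, (α x : QBar) = lf x ((b : F) : QBar) :=
    ⟨fun x => res M (lf x) ⟨((b : F) : QBar), hFM (b : F).2⟩, fun x => kx_res M _ _⟩
  have hα0 : ∀ x, α x ≠ 0 := by
    intro x h0
    have h1 := hα x
    rw [h0] at h1
    have h2 : ((b : F) : QBar) = 0 := by
      apply (lf x).injective
      rw [← h1, map_zero]
      rfl
    exact b.ne_zero (Subtype.ext h2)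
  have hαM : ∀ (g : Gal(M/K)) x, α (g • x) = g (α x) := by
    intro g x
    obtain ⟨σ, rfl⟩ := AlgEquiv.restrictNormalHom_surjective (F := K) (K₁ := M) QBar g
    apply Subtype.ext
    have h1 : ((AlgEquiv.restrictNormalHom M σ (α x) : M) : QBar) = σ (α x : QBar) :=
      kx_res M σ (α x)
    rw [h1, hα, hα]
    refine kd_agree (σ' := σ * lf x) h ?_ (b : F)
    rw [hlf, hact, map_mul, map_mul, hlf]
    have h2 : e (AlgEquiv.restrictNormalHom M σ) = φ₀ σ := hres σ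
    rw [h2]
  have haM : ∀ (g : Gal(M/K)) x, j (a (g • x)) = e g * j (a x) * (e g)⁻¹ := by
    intro g x
    rw [hj, hj, ha, ha]
    have h1 : e g * (sec x * k.w * (sec x)⁻¹) * (e g)⁻¹ = (e g * sec x) * k.w * (e g * sec x)⁻¹ := by
      group
    rw [h1]
    refine kv_act k ?_ k.wV
    rw [hsec, hact, map_mul, hsec]
  obtain ⟨O⟩ := exists_kumOut M e j 2 (by norm_num) (-1) pr2K hA a α hα0 hαM haM
  have hval : ∀ σ, O.ρ σ * (φ₀ σ)⁻¹ = j (∏ x, a (res M σ • x) ^ O.κ σ x) := by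
    intro σ
    rw [O.hρ, hres, mul_inv_cancel_right]
  refine ⟨O.ρ, ⟨O.ft, fun σ => by rw [hval]; exact hjV _⟩, ?_⟩
  intro σ
  obtain ⟨σ', hσ'⟩ : ∃ σ' : Gal(QBar/K), σ' = σ.restrictScalars K := ⟨_, rfl⟩
  have hpi : k.pi (φ₀ σ') = 1 := by rw [hσ']; exact fd_pi h σ
  have hfix : ∀ x : Multiplicative (ZMod 3), res M σ' • x = x := by
    intro x
    rw [hact, hres, hpi, one_mul]
  rw [← hσ', hval, kd_lam k _ _ j hjV]
  simp only [hfix]
  -- the exponents
  have hcl0 := fun (c : Fˣ) (x : Multiplicative (ZMod 3)) (hc : ((c : F) : QBar) = (α x : QBar)) =>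
    kk_of_root Nat.prime_two pr2 c (O.β x) (by rw [O.hβ x, ← hc]; rfl) σ (O.κ σ' x : ℤ) (by
      have h1 := O.hκ σ' x
      rw [hfix] at h1
      have h2 : σ (O.β x) = σ' (O.β x) := by rw [hσ']; rfl
      rw [h2, h1, zpow_natCast, map_neg, map_neg, map_one, map_one])
  have s1 : k.pi (φ₀ γ) ≠ 1 := h.ga
  obtain ⟨s, hs'⟩ : ∃ s, s = k.pi (φ₀ γ) := ⟨_, rfl⟩
  rw [← hs'] at s1
  have huniv : ∀ s : Multiplicative (ZMod 3), s ≠ 1 → (Finset.univ : Finset (Multiplicative (ZMod 3))) =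
      {1, s, s ^ 2} ∧ s ≠ s ^ 2 ∧ 1 ≠ s ^ 2 := by decide
  obtain ⟨hu, hs2, hs3⟩ := huniv s s1
  have hl : ∀ (x : Multiplicative (ZMod 3)) (g : G), k.pi g = x →
      k.lam (j (a x)) = k.lam (g * k.w * g⁻¹) := by
    intro x g hg
    rw [hj, ha, kv_act k (g := sec x) (h := g) (by rw [hsec, hg]) k.wV]
  have l0 : k.lam (j (a 1)) = 0 := by
    rw [hl 1 1 (map_one _), one_mul, inv_one, mul_one, k.lw]
  have hone := kv_one k (g := φ₀ γ) h.ga k.wV k.w1
  have h01 : (0 : ZMod 2) ≠ 1 := by decide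
  have l12 : k.lam (φ₀ γ * k.w * (φ₀ γ)⁻¹) = 1 ∧ k.lam (φ₀ γ ^ 2 * k.w * (φ₀ γ ^ 2)⁻¹) = 1 := by
    rcases hone with ⟨_, h1, h2⟩ | ⟨h1, _⟩ | ⟨h1, _⟩
    · exact ⟨h1, h2⟩
    · rw [k.lw] at h1
      exact (h01 h1).elim
    · rw [k.lw] at h1
      exact (h01 h1).elim
  have l1 : k.lam (j (a s)) = 1 := by
    rw [hl s (φ₀ γ) hs'.symm, l12.1]
  have l2 : k.lam (j (a (s ^ 2))) = 1 := by
    rw [hl (s ^ 2) (φ₀ γ ^ 2) (by rw [map_pow, hs']), l12.2]
  have k1 := hcl0 (tu τ b) s (by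
    rw [hα]
    have h1 : lf s ((b : F) : QBar) = γ ((b : F) : QBar) :=
      kd_agree h (by rw [hlf, hs']) (b : F)
    rw [h1, h.res]
    rfl)
  have k2 := hcl0 (tu τ (tu τ b)) (s ^ 2) (by
    rw [hα]
    have h1 : lf (s ^ 2) ((b : F) : QBar) = (γ * γ) ((b : F) : QBar) :=
      kd_agree h (by rw [hlf, map_mul, map_mul, hs', pow_two]) (b : F)
    rw [h1, AlgEquiv.mul_apply, h.res, h.res]
    rfl)
  rw [hu, Finset.sum_insert (by
      rw [Finset.mem_insert, Finset.mem_singleton, not_or]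
      exact ⟨s1.symm, hs3⟩), Finset.sum_insert (by
      rw [Finset.mem_singleton]
      exact hs2), Finset.sum_singleton, l0, l1, l2, mul_zero, zero_add, mul_one, mul_one]
  rw [Int.cast_natCast] at k1 k2
  rw [← k1, ← k2]
  obtain ⟨c, hc⟩ := fd_sq1 h b hb
  have e1 : kk 2 (-1 : F) (b * tu τ b * tu τ (tu τ b)) σ = 0 := by
    rw [hc, pow_two, kk_mul_arg Nat.prime_two pr2]
    exact CharTwo.add_self_eq_zero _
  rw [kk_mul_arg Nat.prime_two pr2, kk_mul_arg Nat.prime_two pr2, add_assoc] at e1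
  exact CharTwo.add_eq_zero.1 e1

end H48.KV
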