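import Pool.Agent.H48.KV.FinD
import Pool.Agent.H88.A4.Fin1

/-!
The asymptotic of Malle's conjecture (question Q1) for all transitive groups `G`, not nilpotent, with a
normal Klein four subgroup `V` which contains all elements of least index and has a nilpotent quotient
`G / V`; for instance for `A_4` in its regular representation. The definitions used in the statement
are in `Pool/Agent/H38/ML/Spec.lean`.
-/

open H38.ML.Spec

theorem H48.KV.res
    (n : ℕ) (hn : 2 ≤ n) (G : Subgroup (Equiv.Perm (Fin n)))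
    (hG : MulAction.IsPretransitive G (Fin n)) (hnn : ¬ Group.IsNilpotent G)
    (V : Subgroup G) (hV : V.Normal) (h4 : Nat.card V = 4) (h2 : ∀ x ∈ V, x ^ 2 = 1)
    (hnil : Group.IsNilpotent (G ⧸ V))
    (hI : ∀ g : G, g ≠ 1 → ind (g : Equiv.Perm (Fin n)) = indG G → g ∈ V) :
    ∃ K₀ : IntermediateField ℚ (AlgebraicClosure ℚ), NumberField K₀ ∧
      ∀ K : IntermediateField ℚ (AlgebraicClosure ℚ), K₀ ≤ K → ∀ _ : NumberField K,
        betaAll K (AlgebraicClosure ℚ) G = 1 ∧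
        (∀ B : ℝ, nK K (AlgebraicClosure ℚ) G B ≠ ⊤) ∧
        ∃ C : ℝ, 0 < C ∧ Filter.Tendsto
          (fun B : ℝ => ((nK K (AlgebraicClosure ℚ) G B).toNat : ℝ) / B ^ (1 / (indG G : ℝ)))
          Filter.atTop (nhds C) := by
  obtain ⟨K₀, hK₀, h⟩ := H48.KV.kv_main
    (fun K _ ω hω => H88.A4.coreBound K ω hω) hn G hG V hV h4 h2 hnil hnn hI
  obtain ⟨k, hk⟩ := H48.KV.kv_ex V h4 h2 hnil hnn
  have hβ : ∀ K : IntermediateField ℚ (AlgebraicClosure ℚ),
      betaAll K (AlgebraicClosure ℚ) G = 1 := fun K =>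
    H48.KV.fin_beta k hn hG (fun g h1 h2 => hk ▸ hI g h1 h2) K
  refine ⟨K₀, hK₀, fun K hK hKf => ⟨hβ K, ?_⟩⟩
  obtain ⟨C, hC, k, hk, hlim⟩ := h K hK hKf
  refine ⟨fun B => ?_, C, hC, ?_⟩
  · have h := hk B
    exact fun h' => ENat.natCast_ne_top (k B) (h.symm.trans h')
  · refine hlim.congr fun B => ?_
    have h : (nK K (AlgebraicClosure ℚ) G B).toNat = k B :=
      (congrArg ENat.toNat (hk B)).trans (ENat.toNat_natCast _)
    rw [h, hβ K, Nat.sub_self, pow_zero, mul_one]
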