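import Pool.Agent.H48.KV.EnC

/-!
# [H48 KV ASYA] the number of surjective lifts of bounded discriminant, 120-180 lines. File Pool/Agent/H48/KV/AsyA.lean

`a = indG G ≥ 1` (`idx_pos`), `e` from `en_disc` (EnC.lean). For `φ ∈ XB k i₀ φ₀ B`: `φ = δ Φ(u, f) δ⁻¹` with `δ ∈ V`, `u ∈ U`, `f` admissible (`Pa.all`); `Φ u f` is surjective too and has the same discriminant (`dsc_cj`). Let `A` be the set of the triples `(δ, u, f)`, `δ ∈ V`, `u ∈ U`, `f` admissible, `f ≠ ∅`,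
`e u (qf f) * nr f ^ a ≤ B`, that is `nr f ≤ (B / e u (qf f))^(1/a)` (`Real.rpow_natCast`, `Real.le_rpow_inv_iff_of_pos`-type; `nr f = ∏ nm P`, cast). `(δ, u, f) ↦ δ Φ(u, f) δ⁻¹` is injective on `A` (`Pa.inj`, `en_surj`), its image is in `XB` (`en_surj`, `en_disc`, `dsc_cj`; finite type: `Pa.mem`, conjugation;
`eqv_conj`), and the elements of `XB` outside the image are among the at most `4 * #U` homomorphisms `δ Φ(u, ∅) δ⁻¹`. `A` is finite (`finite_nr`), its number of elements is `4 ∑_u ∑_q #{f ∈ AF (..) : f admissible, qf f = q, f ≠ ∅}` (`kv_card`: `#V = 4`; it is best to write `A` as a `Finset`: product of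
`V.toFinset` (`Fintype` from `Nat.card V = 4`) and of the `Finset.sigma` over `u` and `q`), and leaving out the condition `f ≠ ∅` changes this by at most `4 * #U` (only `q = qf ∅ = 0` is concerned). So the constant is `8 * #U`.
-/

set_option autoImplicit false

open scoped NumberField Classical
open IsDedekindDomain H38.ML H63.MA

noncomputable section

namespace H48.KV

variable {n : ℕ} {G : Subgroup (Equiv.Perm (Fin n))} {K : IntermediateField ℚ QBar}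
  [NumberField K] {k : KV G} {φ₀ : Gal(QBar/K) →* G} {F : IntermediateField K QBar}
  [NumberField F] {γ : Gal(QBar/K)} {τ : F ≃ₐ[K] F} {D : RD F 2 (-1 : F)}
  {SK : Finset (Pl K)} {Q : DP K QBar} {U : Finset Fˣ}
  {Φ : Fˣ → Finset (Pl F) → (Gal(QBar/K) →* G)}

private theorem cj_surj {H : Type} [Group H] (δ : G) {φ : H →* G} (h : Function.Surjective φ) :
    Function.Surjective ((MulAut.conj δ).toMonoidHom.comp φ) := by
  intro g
  obtain ⟨σ, hσ⟩ := h (δ⁻¹ * g * δ)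
  refine ⟨σ, ?_⟩
  show δ * φ σ * δ⁻¹ = g
  rw [hσ]
  group

private theorem of_cj_surj {H : Type} [Group H] (δ : G) {φ : H →* G}
    (h : Function.Surjective ((MulAut.conj δ).toMonoidHom.comp φ)) :
    Function.Surjective φ := by
  intro g
  obtain ⟨σ, hσ⟩ := h (δ * g * δ⁻¹)
  refine ⟨σ, ?_⟩
  have h1 : δ * φ σ * δ⁻¹ = δ * g * δ⁻¹ := hσ
  exact mul_left_cancel (mul_right_cancel h1)

private theorem key_le (a : ℕ) (ha : 0 < a) (c B N : ℝ) (hc : 0 < c) (hB : 0 ≤ B) (hN : 0 ≤ N) :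
    c * N ^ a ≤ B ↔ N ≤ (B / c) ^ (1 / (a : ℝ)) := by
  have ha' : (0 : ℝ) < (a : ℝ) := by exact_mod_cast ha
  rw [one_div, Real.le_rpow_inv_iff_of_pos hN (div_nonneg hB hc.le) ha', Real.rpow_natCast,
    le_div_iff₀' hc]

omit [NumberField K] in
private theorem nr_cast (f : Finset (Pl F)) : ((∏ P ∈ f, nm P : ℕ) : ℝ) = nr f := by
  unfold nr
  push_cast
  rfl

/-- the elements of `V` -/
private def VF (k : KV G) : Finset G := (Set.toFinite (k.V : Set G)).toFinset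

private theorem mem_VF {δ : G} : δ ∈ VF k ↔ δ ∈ k.V := by
  unfold VF
  rw [Set.Finite.mem_toFinset]
  rfl

private theorem card_VF : (VF k).card = 4 := by
  rw [← kv_card k]
  unfold VF
  rw [← Set.ncard_eq_toFinset_card]
  rfl

theorem asy_cnt (hn : 2 ≤ n) (hG : MulAction.IsPretransitive G (Fin n))
    (H : Stp n k φ₀ F γ τ D SK Q) (hU : Reps (K := K) D.toRD0 U)
    (Pa : Par k φ₀ τ D.toRD0 U Φ) (i₀ : Fin n) (e : Fˣ → (Fin D.r → ZMod 2) → ℕ)
    (he : ∀ u q, 0 < e u q)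
    (hd : ∀ u ∈ U, ∀ f, Adm (tp τ) D.S0 f → f ≠ ∅ → H38.ML.relDisc K (fieldOf i₀ (Φ u f)) =
      e u (qf D.toRD0 f) * (∏ P ∈ f, nm P) ^ indG G) (B : ℝ) (hB : 1 ≤ B) :
    (XB k i₀ φ₀ B).Finite ∧ |((XB k i₀ φ₀ B).ncard : ℝ) -
      4 * ∑ u ∈ U, ∑ q : Fin D.r → ZMod 2,
        (((AF F ((B / e u q) ^ (1 / (indG G : ℝ)))).filter fun f => Adm (tp τ) D.S0 f ∧
          qf D.toRD0 f = q).card : ℝ)| ≤ 8 * U.card := by
  have ha : 0 < indG G := idx_pos hn hG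
  have hB0 : (0 : ℝ) ≤ B := by linarith
  -- the sets
  set FU : Fˣ → (Fin D.r → ZMod 2) → Finset (Finset (Pl F)) := fun u q =>
    (AF F ((B / e u q) ^ (1 / (indG G : ℝ)))).filter fun f => Adm (tp τ) D.S0 f ∧
          qf D.toRD0 f = q with hFU
  have hmF : ∀ u q f, f ∈ FU u q ↔ nr f ≤ (B / e u q) ^ (1 / (indG G : ℝ)) ∧
      Adm (tp τ) D.S0 f ∧ qf D.toRD0 f = q := by
    intro u q f
    rw [hFU]
    simp only [Finset.mem_filter, mem_AF]
  let GU : Fˣ → Finset (Finset (Pl F)) := fun u => Finset.univ.biUnion (FU u)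
  have hmG : ∀ u f, f ∈ GU u ↔ Adm (tp τ) D.S0 f ∧
      nr f ≤ (B / e u (qf D.toRD0 f)) ^ (1 / (indG G : ℝ)) := by
    intro u f
    constructor
    · intro h
      obtain ⟨q, -, hq⟩ := Finset.mem_biUnion.1 h
      obtain ⟨h1, h2, h3⟩ := (hmF u q f).1 hq
      rw [h3]
      exact ⟨h2, h1⟩
    · rintro ⟨h1, h2⟩
      exact Finset.mem_biUnion.2 ⟨qf D.toRD0 f, Finset.mem_univ _, (hmF u _ f).2 ⟨h2, h1, rfl⟩⟩
  have hcG : ∀ u, (GU u).card = ∑ q, (FU u q).card := by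
    intro u
    refine Finset.card_biUnion ?_
    intro q _ q' _ hqq
    rw [Function.onFun, Finset.disjoint_left]
    intro f h1 h2
    exact hqq (((hmF u q f).1 h1).2.2.symm.trans ((hmF u q' f).1 h2).2.2)
  let W : Finset (Σ _ : Fˣ, Finset (Pl F)) := U.sigma GU
  let A : Finset (G × (Σ _ : Fˣ, Finset (Pl F))) := VF k ×ˢ W
  let E : Finset (G × (Σ _ : Fˣ, Finset (Pl F))) := VF k ×ˢ U.sigma (fun _ => {∅})
  let A' : Finset (G × (Σ _ : Fˣ, Finset (Pl F))) := A.filter (fun x => x.2.2 ≠ ∅)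
  have hcA : A.card = 4 * ∑ u ∈ U, ∑ q, (FU u q).card := by
    show (VF k ×ˢ W).card = _
    rw [Finset.card_product, card_VF, Finset.card_sigma]
    congr 1
    exact Finset.sum_congr rfl fun u _ => hcG u
  have hcE : E.card = 4 * U.card := by
    show (VF k ×ˢ U.sigma (fun _ => {∅})).card = _
    rw [Finset.card_product, card_VF, Finset.card_sigma]
    simp
  have hcA' : A.card ≤ A'.card + E.card := by
    have h1 : A ⊆ A' ∪ E := by
      intro x hx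
      rw [Finset.mem_union]
      by_cases h2 : x.2.2 = ∅
      · right
        obtain ⟨h3, h4⟩ := Finset.mem_product.1 hx
        obtain ⟨h5, -⟩ := Finset.mem_sigma.1 h4
        exact Finset.mem_product.2 ⟨h3, Finset.mem_sigma.2 ⟨h5, Finset.mem_singleton.2 h2⟩⟩
      · left
        exact Finset.mem_filter.2 ⟨hx, h2⟩
    exact (Finset.card_le_card h1).trans (Finset.card_union_le _ _)
  have hcA2 : A'.card ≤ A.card := Finset.card_filter_le _ _
  let Ψ : G × (Σ _ : Fˣ, Finset (Pl F)) → (Gal(QBar/K) →* G) := fun x =>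
    (MulAut.conj x.1).toMonoidHom.comp (Φ x.2.1 x.2.2)
  have hA : ∀ x ∈ A', x.1 ∈ k.V ∧ x.2.1 ∈ U ∧ Adm (tp τ) D.S0 x.2.2 ∧ x.2.2 ≠ ∅ ∧
      nr x.2.2 ≤ (B / e x.2.1 (qf D.toRD0 x.2.2)) ^ (1 / (indG G : ℝ)) := by
    intro x hx
    obtain ⟨h1, h2⟩ := Finset.mem_filter.1 hx
    obtain ⟨h3, h4⟩ := Finset.mem_product.1 h1
    obtain ⟨h5, h6⟩ := Finset.mem_sigma.1 h4
    obtain ⟨h7, h8⟩ := (hmG _ _).1 h6
    exact ⟨mem_VF.1 h3, h5, h7, h2, h8⟩
  have hdB : ∀ u ∈ U, ∀ f, Adm (tp τ) D.S0 f → f ≠ ∅ →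
      ((H38.ML.relDisc K (fieldOf i₀ (Φ u f)) : ℝ) ≤ B ↔
        nr f ≤ (B / e u (qf D.toRD0 f)) ^ (1 / (indG G : ℝ))) := by
    intro u hu f hf hne
    have hc : (0 : ℝ) < (e u (qf D.toRD0 f) : ℝ) := by exact_mod_cast he u _
    rw [hd u hu f hf hne, ← key_le (indG G) ha _ B (nr f) hc hB0 (zero_le_one.trans (one_le_nr f)),
      ← nr_cast]
    push_cast
    exact Iff.rfl
  have hΨ : ∀ x ∈ A', Ψ x ∈ XB k i₀ φ₀ B := by
    intro x hx
    obtain ⟨h1, h2, h3, h4, h5⟩ := hA x hx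
    have hs := en_surj H hU Pa x.2.1 h2 x.2.2 h3 h4
    have hm := Pa.mem x.2.1 h2 x.2.2
    refine ⟨ft_comp _ _ hm.1, cj_surj _ hs, eqv_conj k hm.2 h1, ?_⟩
    show (H38.ML.relDisc K (fieldOf i₀ ((MulAut.conj x.1).toMonoidHom.comp (Φ x.2.1 x.2.2))) : ℝ)
      ≤ B
    rw [dsc_cj hG i₀ _ hs hm.1]
    exact (hdB x.2.1 h2 x.2.2 h3 h4).2 h5
  have hinj : Set.InjOn Ψ A' := by
    intro x hx y hy hxy
    obtain ⟨h1, h2, h3, h4, h5⟩ := hA x hx
    obtain ⟨g1, g2, g3, g4, g5⟩ := hA y hy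
    obtain ⟨e1, e2, e3⟩ := Pa.inj x.1 h1 x.2.1 h2 x.2.2 y.1 g1 y.2.1 g2 y.2.2 h3 g3
      (en_surj H hU Pa x.2.1 h2 x.2.2 h3 h4) hxy
    obtain ⟨x1, x2, x3⟩ := x
    obtain ⟨y1, y2, y3⟩ := y
    simp only at e1 e2 e3
    rw [e1, e2, e3]
  have hsub : XB k i₀ φ₀ B ⊆ ↑(A'.image Ψ ∪ E.image Ψ) := by
    rintro φ ⟨h1, h2, h3, h4⟩
    obtain ⟨δ, hδ, u, hu, f, hf, rfl⟩ := Pa.all φ ⟨h1, h3⟩
    have hs := of_cj_surj δ h2
    have hm := Pa.mem u hu f
    rw [dsc_cj hG i₀ _ hs hm.1] at h4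
    rw [Finset.mem_coe, Finset.mem_union]
    by_cases hne : f = ∅
    · right
      refine Finset.mem_image.2 ⟨(δ, ⟨u, f⟩), ?_, rfl⟩
      exact Finset.mem_product.2 ⟨mem_VF.2 hδ, Finset.mem_sigma.2 ⟨hu, Finset.mem_singleton.2 hne⟩⟩
    · left
      refine Finset.mem_image.2 ⟨(δ, ⟨u, f⟩), ?_, rfl⟩
      refine Finset.mem_filter.2 ⟨Finset.mem_product.2 ⟨mem_VF.2 hδ, Finset.mem_sigma.2 ⟨hu, ?_⟩⟩,
        hne⟩
      exact (hmG u f).2 ⟨hf, (hdB u hu f hf hne).1 h4⟩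
  have hfin : (XB k i₀ φ₀ B).Finite := (Finset.finite_toSet _).subset hsub
  refine ⟨hfin, ?_⟩
  have hup : (XB k i₀ φ₀ B).ncard ≤ A'.card + E.card := by
    have h1 := Set.ncard_le_ncard hsub (Finset.finite_toSet _)
    rw [Set.ncard_coe_finset] at h1
    exact h1.trans ((Finset.card_union_le _ _).trans
      (Nat.add_le_add Finset.card_image_le Finset.card_image_le))
  have hlo : A'.card ≤ (XB k i₀ φ₀ B).ncard := by
    have h1 : (↑(A'.image Ψ) : Set (Gal(QBar/K) →* G)) ⊆ XB k i₀ φ₀ B := by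
      intro φ hφ
      obtain ⟨x, hx, rfl⟩ := Finset.mem_image.1 (Finset.mem_coe.1 hφ)
      exact hΨ x hx
    have h2 := Set.ncard_le_ncard h1 hfin
    rw [Set.ncard_coe_finset, Finset.card_image_of_injOn hinj] at h2
    exact h2
  have e1 : (4 : ℝ) * ∑ u ∈ U, ∑ q : Fin D.r → ZMod 2, ((FU u q).card : ℝ) = (A.card : ℝ) := by
    rw [hcA]
    push_cast
    rfl
  have hup' : ((XB k i₀ φ₀ B).ncard : ℝ) ≤ (A'.card : ℝ) + (E.card : ℝ) := by exact_mod_cast hup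
  have hlo' : (A'.card : ℝ) ≤ ((XB k i₀ φ₀ B).ncard : ℝ) := by exact_mod_cast hlo
  have hcA3 : (A.card : ℝ) ≤ (A'.card : ℝ) + (E.card : ℝ) := by exact_mod_cast hcA'
  have hcA4 : (A'.card : ℝ) ≤ (A.card : ℝ) := by exact_mod_cast hcA2
  have hcE' : (E.card : ℝ) = 4 * (U.card : ℝ) := by
    rw [hcE]
    push_cast
    rfl
  have hU0 : (0 : ℝ) ≤ (U.card : ℝ) := Nat.cast_nonneg _
  rw [e1, abs_le]
  constructor <;> linarith

end H48.KV
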