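import Pool.Agent.H48.KV.Defs
import Pool.Agent.H63.MB.BUe
import Pool.Agent.H63.MA.ALem

/-!
# [H48 KV LIMC] the sets of good primes with a phase, 90-140 lines. File Pool/Agent/H48/KV/LimC.lean

* `lim_good`: if `κ = 0` the phase is `ep p 0 = 1` (`dt` of `0`) and the sum is the number of `m ∈ GF D y` disjoint from `W`, which is `UN D 1 W y` (H63/MB/BDef.lean: `N = 1`, functions `Fin 1 → Finset` = finite sets, `Dj` is trivial), so `un_lim D 1 le_rfl W`
  (H63/MB/BUe.lean) gives the limit (`log y ^ 0 = 1`). If `κ ≠ 0`: `lemA hp hζ D` (H63/MA/ALem.lean) for `E = ∅`, `F = W`, `μ = 0`, `H = 1`: `∑ v ∈ m, fE D ∅ 0 κ v = ∑ v ∈ m, dt κ (D.q v) = dt κ (qf D m)` (`acntb_dt`, H63/MA/ACntB.lean), the sum is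
  `≤ C 2^{#W} y^{1-δ}`, so the quotient by `y` tends to `0`.
* `lim_scale`: `A (y / c) / y = c⁻¹ (A (y / c) / (y / c))`, compose with `y ↦ y / c → ∞`.
* `lim_cau`: `bue_cauchy` (H63/MB/BUe.lean) for the real and for the imaginary part.
* `lim_ws`: `∑_{s ⊆ W} (nr s)⁻¹ = ∏_{v ∈ W} (1 + 1/nm v)` (`Finset.prod_one_add` / `Finset.prod_add`), `1 + x ≤ (1 - x)⁻¹`, `mert_low` (H63/MA/ACntA.lean), see the proof of `un_lim`, `bue_sd_le`.
-/

set_option autoImplicit false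

open scoped NumberField Classical
open IsDedekindDomain H63.MA Filter Topology

noncomputable section

namespace H48.KV

variable {K : Type} [Field K] [NumberField K] {p : ℕ} {ζ : K}

theorem limc_un (D : RD0 K p ζ) (W : Finset (Pl K)) (y : ℝ) :
    UN D 1 W y = (((GF D y).filter (fun m => Disjoint m W)).card : ℝ) := by
  unfold UN
  congr 1
  refine Finset.card_bij' (fun n _ => n 0) (fun m _ => fun _ => m) ?_ ?_ ?_ ?_
  · intro n hn
    rw [Finset.mem_filter, Fintype.mem_piFinset] at hn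
    rw [Finset.mem_filter]
    exact ⟨hn.1 0, hn.2.2.1 0⟩
  · intro m hm
    rw [Finset.mem_filter] at hm
    rw [Finset.mem_filter, Fintype.mem_piFinset]
    refine ⟨fun _ => hm.1, ?_, fun _ => hm.2, ?_⟩
    · intro a a' h
      exact absurd (Subsingleton.elim a a') h
    · rw [Fin.prod_univ_one]
      have h1 := (Finset.mem_filter.1 hm.1).1
      exact mem_AF.1 h1
  · intro n _
    funext i
    rw [Subsingleton.elim i 0]
  · intro m _
    rfl

theorem lim_good (hp : p.Prime) (hζ : IsPrimitiveRoot ζ p) (D : RD K p ζ) (W : Finset (Pl K))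
    (κ : Fin D.r → ZMod p) : ∃ l : ℂ,
      Tendsto (fun y : ℝ => (∑ m ∈ (GF D.toRD0 y).filter (fun m => Disjoint m W),
        ep p (dt κ (qf D.toRD0 m))) / (y : ℂ)) atTop (𝓝 l) := by
  by_cases hκ : κ = 0
  · obtain ⟨u, -, hu⟩ := un_lim D.toRD0 1 le_rfl W
    refine ⟨(u : ℂ), ?_⟩
    have h1 : Tendsto (fun y : ℝ => ((UN D.toRD0 1 W y / (y * Real.log y ^ (1 - 1)) : ℝ) : ℂ))
        atTop (𝓝 (u : ℂ)) := (Complex.continuous_ofReal.tendsto u).comp hu
    refine h1.congr fun y => ?_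
    rw [limc_un]
    have h2 : ∀ m : Finset (Pl K), ep p (dt κ (qf D.toRD0 m)) = 1 := by
      intro m
      have h3 : dt κ (qf D.toRD0 m) = 0 := by
        rw [hκ]
        unfold dt
        simp
      rw [h3]
      unfold ep
      simp
    simp only [h2, Finset.sum_const, nsmul_eq_mul, mul_one]
    push_cast
    simp
  · obtain ⟨C, A, δ, hC, hA, hδ, hδ1, h⟩ := lemA hp hζ D
    refine ⟨0, ?_⟩
    have h1 : ∀ y : ℝ, 1 ≤ y → ‖(∑ m ∈ (GF D.toRD0 y).filter (fun m => Disjoint m W),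
        ep p (dt κ (qf D.toRD0 m))) / (y : ℂ)‖ ≤ C * 2 ^ W.card * y ^ (-δ) := by
      intro y hy
      have hy0 : 0 < y := by linarith
      have h2 := h ∅ W 0 κ (fun _ => 1) (by simp) (Finset.empty_subset _) (by simp)
        (Or.inr ⟨fun _ => rfl, hκ⟩) y hy
      have h3 : ∀ m : Finset (Pl K), ∑ v ∈ m, fE D.toRD0 ∅ 0 κ v = dt κ (qf D.toRD0 m) := by
        intro m
        unfold fE qf
        rw [← acntb_dt]
        simp
      simp only [h3, one_mul] at h2
      have h4 : nr (∅ : Finset (Pl K)) = 1 := by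
        unfold nr
        simp
      rw [h4, Real.one_rpow, mul_one] at h2
      rw [norm_div, Complex.norm_real, Real.norm_eq_abs, abs_of_pos hy0, div_le_iff₀ hy0]
      refine h2.trans (le_of_eq ?_)
      have h5 : y ^ (1 - δ) = y ^ (-δ) * y := by
        rw [show (1 - δ : ℝ) = -δ + 1 by ring, Real.rpow_add hy0, Real.rpow_one]
      rw [h5]
      ring
    have h6 : Tendsto (fun y : ℝ => C * 2 ^ W.card * y ^ (-δ)) atTop (𝓝 0) := by
      have h7 := (tendsto_rpow_neg_atTop hδ).const_mul (C * 2 ^ W.card)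
      rwa [mul_zero] at h7
    refine squeeze_zero_norm' ?_ h6
    filter_upwards [eventually_ge_atTop (1 : ℝ)] with y hy
    exact h1 y hy

theorem lim_scale (A : ℝ → ℂ) (l : ℂ) (c : ℝ) (hc : 0 < c)
    (h : Tendsto (fun y : ℝ => A y / (y : ℂ)) atTop (𝓝 l)) :
    Tendsto (fun y : ℝ => A (y / c) / (y : ℂ)) atTop (𝓝 ((c : ℂ)⁻¹ * l)) := by
  have hdiv : Tendsto (fun y : ℝ => y / c) atTop atTop := tendsto_id.atTop_div_const hc
  have h1 := (h.comp hdiv).const_mul ((c : ℂ)⁻¹)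
  refine h1.congr fun y => ?_
  have hc0 : (c : ℂ) ≠ 0 := by exact_mod_cast hc.ne'
  simp only [Function.comp_apply]
  push_cast
  by_cases hy : (y : ℂ) = 0
  · rw [hy]
    simp
  · field_simp

theorem lim_cau (f : ℝ → ℂ) (h : ∀ ε : ℝ, 0 < ε → ∃ (g : ℝ → ℂ) (l : ℂ),
    Tendsto g atTop (𝓝 l) ∧ ∀ᶠ y in atTop, ‖f y - g y‖ ≤ ε) :
    ∃ u : ℂ, Tendsto f atTop (𝓝 u) := by
  obtain ⟨a, ha⟩ := bue_cauchy (fun y => (f y).re) (by
    intro ε hε
    obtain ⟨g, l, hg, hfg⟩ := h ε hε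
    refine ⟨fun y => (g y).re, l.re, (Complex.continuous_re.tendsto l).comp hg, ?_⟩
    filter_upwards [hfg] with y hy
    rw [← Complex.sub_re]
    exact (Complex.abs_re_le_norm _).trans hy)
  obtain ⟨b, hb⟩ := bue_cauchy (fun y => (f y).im) (by
    intro ε hε
    obtain ⟨g, l, hg, hfg⟩ := h ε hε
    refine ⟨fun y => (g y).im, l.im, (Complex.continuous_im.tendsto l).comp hg, ?_⟩
    filter_upwards [hfg] with y hy
    rw [← Complex.sub_im]
    exact (Complex.abs_im_le_norm _).trans hy)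
  refine ⟨(a : ℂ) + (b : ℂ) * Complex.I, ?_⟩
  have h1 : Tendsto (fun y => (((f y).re : ℝ) : ℂ)) atTop (𝓝 (a : ℂ)) :=
    (Complex.continuous_ofReal.tendsto a).comp ha
  have h2 : Tendsto (fun y => (((f y).im : ℝ) : ℂ)) atTop (𝓝 (b : ℂ)) :=
    (Complex.continuous_ofReal.tendsto b).comp hb
  refine (h1.add (h2.mul_const Complex.I)).congr fun y => ?_
  exact Complex.re_add_im (f y)

theorem lim_ws (K : Type) [Field K] [NumberField K] : ∃ C : ℝ, 0 < C ∧ ∀ T : ℝ, 3 ≤ T →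
    ∀ W : Finset (Pl K), (∀ P ∈ W, (nm P : ℝ) ≤ T) →
      ∑ s ∈ W.powerset, (nr s)⁻¹ ≤ C * Real.log T ^ (3 : ℝ) := by
  obtain ⟨c, hc, hm⟩ := mert_low K
  refine ⟨c⁻¹, inv_pos.2 hc, fun T hT W hW => ?_⟩
  have hl : 0 < Real.log T := Real.log_pos (by linarith)
  have h1 : ∑ s ∈ W.powerset, (nr s)⁻¹ = ∏ v ∈ W, (1 + (nm v : ℝ)⁻¹) := by
    rw [Finset.prod_one_add]
    refine Finset.sum_congr rfl fun s _ => ?_
    unfold nr
    rw [Finset.prod_inv_distrib]
  rw [h1]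
  have h2 : ∏ v ∈ W, (1 + (nm v : ℝ)⁻¹) ≤ ∏ v ∈ W, (1 - (nm v : ℝ)⁻¹)⁻¹ := by
    refine Finset.prod_le_prod (fun v _ => by positivity) fun v _ => ?_
    have h3 := bue_bern 1 (nm v) (one_lt_nm v)
    simpa using h3
  refine h2.trans ?_
  rw [Finset.prod_inv_distrib]
  have h4 := hm T hT W hW
  have h5 : 0 < c * Real.log T ^ (-3 : ℝ) := by positivity
  refine (inv_anti₀ h5 h4).trans (le_of_eq ?_)
  rw [mul_inv, Real.rpow_neg hl.le, inv_inv]

end H48.KV
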