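import Pool.Agent.H48.KV.LimB
import Pool.Agent.H48.KV.LimC

/-!
# [H48 KV LIMD] the limit for admissible sets, 120-180 lines. File Pool/Agent/H48/KV/LimD.lean

* `lim_kap`: let `c f = ep p (dt κ (qf D f))`: multiplicative (`qf` is additive on disjoint unions, `ep_add`), `‖c f‖ = 1` (`ep_norm`). `lim_cau`: given `ε` choose `T ≥ 3` with `A T^{-1/4} (log T)^3 ≤ ε` (`bue_small_T` for `M = 3`, H63/MB/BUe.lean; `A = C₁ C₂` from
  `lim_cmp`, `lim_ws`), `W` = the primes of norm `≤ T` (finite: `acntb_fin`). `g y = (∑_{s} c s * ∑_{m ∈ GF D (y / nr s), m ∩ W = ∅} c m) / y`, `s` in the index set of `lim_dec`; it converges (`lim_good`, `lim_scale`, `tendsto_finset_sum`). By `lim_dec` and `lim_cmp` (for `y / nr s ≥ 0`)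
  `|f y - g y| ≤ ∑_s C₁ T^{-1/4} (y / nr s) / y ≤ C₁ T^{-1/4} C₂ (log T)^3 ≤ ε`.
* `lim_adm`: the number of `f` with `qf D f = q` is `p^{-r} ∑_κ ep p (dt κ (-q)) ∑_f ep p (dt κ (qf D f))` (`alem_orth`, H63/MA/ALem.lean, for `z = qf D f - q`; `dt κ` is additive), so by `lim_kap` it converges after division by `y` as a complex number; take real parts (`Complex.continuous_re`);
  the limit is `≥ 0` (`ge_of_tendsto'`).
-/

set_option autoImplicit false

open scoped NumberField Classical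
open IsDedekindDomain H63.MA Filter Topology

noncomputable section

namespace H48.KV

variable {K : Type} [Field K] [NumberField K] {p : ℕ} {ζ : K}

private theorem dt_add' {r : ℕ} (κ x y : Fin r → ZMod p) : dt κ (x + y) = dt κ x + dt κ y := by
  unfold dt
  rw [← Finset.sum_add_distrib]
  exact Finset.sum_congr rfl fun i _ => by rw [Pi.add_apply, mul_add]

theorem lim_kap (hp : p.Prime) (hζ : IsPrimitiveRoot ζ p) (D : RD K p ζ) (t : Pl K → Pl K)
    (ht : ∀ P, nm (t P) = nm P) (ht3 : ∀ P, t (t (t P)) = P)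
    (hg : ∀ P, D.toRD0.Gd P → t P ≠ P) (κ : Fin D.r → ZMod p) : ∃ l : ℂ,
      Tendsto (fun y : ℝ => (∑ f ∈ (AF K y).filter (fun f => Adm t D.S0 f),
        ep p (dt κ (qf D.toRD0 f))) / (y : ℂ)) atTop (𝓝 l) := by
  obtain ⟨C₁, hC₁, hcmp⟩ := lim_cmp D.toRD0 t ht ht3 hg
  obtain ⟨C₂, hC₂, hws⟩ := lim_ws K
  set c : Finset (Pl K) → ℂ := fun f => ep p (dt κ (qf D.toRD0 f)) with hcdef
  have hc1 : ∀ f, ‖c f‖ = 1 := fun f => ep_norm p _
  have hcm : ∀ s m, Disjoint s m → c (s ∪ m) = c s * c m := by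
    intro s m hsm
    simp only [hcdef]
    rw [← ep_add hp, ← dt_add']
    congr 2
    unfold qf
    exact Finset.sum_union hsm
  apply lim_cau
  intro ε hε
  obtain ⟨T, hT3, hTε⟩ := bue_small_T (C₁ * C₂) 3 ε hε
  set W : Finset (Pl K) := (acntb_fin K T).toFinset with hWdef
  have hW : ∀ P, P ∈ W ↔ (nm P : ℝ) ≤ T := by
    intro P
    rw [hWdef, Set.Finite.mem_toFinset]
    rfl
  obtain ⟨l, hl⟩ := lim_good hp hζ D W κ
  set I : Finset (Finset (Pl K)) := W.powerset.filter (fun s => Adm t D.S0 s) with hI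
  have hnr : ∀ s : Finset (Pl K), 0 < nr s := fun s => lt_of_lt_of_le one_pos (one_le_nr s)
  refine ⟨fun y => (∑ s ∈ I, c s * ∑ m ∈ (GF D.toRD0 (y / nr s)).filter
    (fun m => Disjoint m W), c m) / (y : ℂ), ∑ s ∈ I, c s * (((nr s : ℝ) : ℂ)⁻¹ * l), ?_, ?_⟩
  · have h1 : Tendsto (fun y : ℝ => ∑ s ∈ I, c s * ((∑ m ∈ (GF D.toRD0 (y / nr s)).filter
        (fun m => Disjoint m W), c m) / (y : ℂ))) atTop
        (𝓝 (∑ s ∈ I, c s * (((nr s : ℝ) : ℂ)⁻¹ * l))) := by
      refine tendsto_finsetSum _ fun s _ => ?_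
      exact (lim_scale (fun y => ∑ m ∈ (GF D.toRD0 y).filter (fun m => Disjoint m W), c m)
        l (nr s) (hnr s) hl).const_mul (c s)
    refine h1.congr fun y => ?_
    rw [Finset.sum_div]
    exact Finset.sum_congr rfl fun s _ => (mul_div_assoc _ _ _).symm
  · filter_upwards [eventually_gt_atTop (0 : ℝ)] with y hy
    have hd := lim_dec t ht D.S0 W T hW c hcm y
    have e1 : (∑ f ∈ (AF K y).filter (fun f => Adm t D.S0 f), c f) / (y : ℂ) -
        (∑ s ∈ I, c s * ∑ m ∈ (GF D.toRD0 (y / nr s)).filter (fun m => Disjoint m W), c m) /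
          (y : ℂ) = (∑ s ∈ I, c s * (∑ m ∈ (AF K (y / nr s)).filter
            (fun m => Adm t D.S0 m ∧ Disjoint m W), c m -
            ∑ m ∈ (GF D.toRD0 (y / nr s)).filter (fun m => Disjoint m W), c m)) / (y : ℂ) := by
      rw [hd, ← sub_div, ← Finset.sum_sub_distrib]
      congr 1
      exact Finset.sum_congr rfl fun s _ => by ring
    show ‖(∑ f ∈ (AF K y).filter (fun f => Adm t D.S0 f), c f) / (y : ℂ) -
        (∑ s ∈ I, c s * ∑ m ∈ (GF D.toRD0 (y / nr s)).filter (fun m => Disjoint m W), c m) /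
          (y : ℂ)‖ ≤ ε
    rw [e1, norm_div, Complex.norm_real, Real.norm_eq_abs, abs_of_pos hy, div_le_iff₀ hy]
    have h2 : ‖∑ s ∈ I, c s * (∑ m ∈ (AF K (y / nr s)).filter
            (fun m => Adm t D.S0 m ∧ Disjoint m W), c m -
            ∑ m ∈ (GF D.toRD0 (y / nr s)).filter (fun m => Disjoint m W), c m)‖ ≤
        ∑ s ∈ I, C₁ * T ^ (-(1 / 4) : ℝ) * (y / nr s) := by
      refine norm_sum_le_of_le _ fun s _ => ?_
      rw [norm_mul, hc1, one_mul]
      exact hcmp T W (by linarith) hW c (fun m => (hc1 m).le) (y / nr s)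
        (div_nonneg hy.le (hnr s).le)
    refine h2.trans ?_
    have hTp : 0 < T ^ (-(1 / 4) : ℝ) := Real.rpow_pos_of_pos (by linarith) _
    have h3 : ∑ s ∈ I, C₁ * T ^ (-(1 / 4) : ℝ) * (y / nr s) =
        C₁ * T ^ (-(1 / 4) : ℝ) * y * ∑ s ∈ I, (nr s)⁻¹ := by
      rw [Finset.mul_sum]
      exact Finset.sum_congr rfl fun s _ => by rw [div_eq_mul_inv]; ring
    rw [h3]
    have h4 : ∑ s ∈ I, (nr s)⁻¹ ≤ ∑ s ∈ W.powerset, (nr s)⁻¹ :=
      Finset.sum_le_sum_of_subset_of_nonneg (Finset.filter_subset _ _)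
        fun s _ _ => inv_nonneg.mpr (hnr s).le
    have h5 := h4.trans (hws T hT3 W fun P hP => (hW P).1 hP)
    have h6 : 0 ≤ C₁ * T ^ (-(1 / 4) : ℝ) * y := by positivity
    refine (mul_le_mul_of_nonneg_left h5 h6).trans ?_
    have h7 := mul_le_mul_of_nonneg_right hTε hy.le
    refine le_trans (le_of_eq ?_) h7
    ring

theorem lim_adm (hp : p.Prime) (hζ : IsPrimitiveRoot ζ p) (D : RD K p ζ) (t : Pl K → Pl K)
    (ht : ∀ P, nm (t P) = nm P) (ht3 : ∀ P, t (t (t P)) = P)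
    (hg : ∀ P, D.toRD0.Gd P → t P ≠ P) (q : Fin D.r → ZMod p) : ∃ c : ℝ, 0 ≤ c ∧
      Tendsto (fun y : ℝ => (((AF K y).filter fun f => Adm t D.S0 f ∧
        qf D.toRD0 f = q).card : ℝ) / y) atTop (𝓝 c) := by
  haveI : NeZero p := ⟨hp.ne_zero⟩
  choose l hl using lim_kap hp hζ D t ht ht3 hg
  have hpr : ((p : ℂ) ^ D.r) ≠ 0 := pow_ne_zero _ (Nat.cast_ne_zero.mpr hp.ne_zero)
  -- the identity
  have hid : ∀ y : ℝ, ((((AF K y).filter fun f => Adm t D.S0 f ∧
      qf D.toRD0 f = q).card : ℝ) : ℂ) = ((p : ℂ) ^ D.r)⁻¹ *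
        ∑ κ : Fin D.r → ZMod p, ep p (dt κ (-q)) *
          ∑ f ∈ (AF K y).filter (fun f => Adm t D.S0 f), ep p (dt κ (qf D.toRD0 f)) := by
    intro y
    have e1 : ∑ κ : Fin D.r → ZMod p, ep p (dt κ (-q)) *
          ∑ f ∈ (AF K y).filter (fun f => Adm t D.S0 f), ep p (dt κ (qf D.toRD0 f)) =
        ∑ f ∈ (AF K y).filter (fun f => Adm t D.S0 f),
          ∑ κ : Fin D.r → ZMod p, ep p (dt κ (qf D.toRD0 f - q)) := by
      rw [Finset.sum_comm]
      refine Finset.sum_congr rfl fun κ _ => ?_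
      rw [Finset.mul_sum]
      refine Finset.sum_congr rfl fun f _ => ?_
      rw [← ep_add hp, ← dt_add', sub_eq_neg_add]
    rw [e1]
    have e2 : ∀ f : Finset (Pl K), ∑ κ : Fin D.r → ZMod p, ep p (dt κ (qf D.toRD0 f - q)) =
        if qf D.toRD0 f = q then (p : ℂ) ^ D.r else 0 := by
      intro f
      rw [alem_orth hp]
      by_cases h : qf D.toRD0 f = q
      · rw [if_pos h, if_pos (sub_eq_zero.mpr h)]
      · rw [if_neg h, if_neg fun h' => h (sub_eq_zero.mp h')]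
    simp only [e2]
    rw [← Finset.sum_filter, Finset.sum_const, Finset.filter_filter, nsmul_eq_mul]
    push_cast
    field_simp
  set L : ℂ := ((p : ℂ) ^ D.r)⁻¹ * ∑ κ : Fin D.r → ZMod p, ep p (dt κ (-q)) * l κ with hL
  have hlim : Tendsto (fun y : ℝ => ((p : ℂ) ^ D.r)⁻¹ *
        ∑ κ : Fin D.r → ZMod p, ep p (dt κ (-q)) *
          ((∑ f ∈ (AF K y).filter (fun f => Adm t D.S0 f), ep p (dt κ (qf D.toRD0 f))) / (y : ℂ)))
        atTop (𝓝 L) := by
    refine Tendsto.const_mul _ ?_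
    exact tendsto_finsetSum _ fun κ _ => (hl κ).const_mul _
  have hre : Tendsto (fun y : ℝ => (((AF K y).filter fun f => Adm t D.S0 f ∧
        qf D.toRD0 f = q).card : ℝ) / y) atTop (𝓝 L.re) := by
    refine ((Complex.continuous_re.tendsto L).comp hlim).congr fun y => ?_
    have e3 : ((p : ℂ) ^ D.r)⁻¹ *
        ∑ κ : Fin D.r → ZMod p, ep p (dt κ (-q)) *
          ((∑ f ∈ (AF K y).filter (fun f => Adm t D.S0 f), ep p (dt κ (qf D.toRD0 f))) / (y : ℂ)) =
        (((((AF K y).filter fun f => Adm t D.S0 f ∧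
        qf D.toRD0 f = q).card : ℝ) / y : ℝ) : ℂ) := by
      rw [Complex.ofReal_div, hid y, mul_div_assoc, Finset.sum_div]
      congr 1
      exact Finset.sum_congr rfl fun κ _ => (mul_div_assoc _ _ _).symm
    show (((p : ℂ) ^ D.r)⁻¹ *
        ∑ κ : Fin D.r → ZMod p, ep p (dt κ (-q)) *
          ((∑ f ∈ (AF K y).filter (fun f => Adm t D.S0 f), ep p (dt κ (qf D.toRD0 f))) /
            (y : ℂ))).re = _
    rw [e3, Complex.ofReal_re]
  refine ⟨L.re, ?_, hre⟩
  refine ge_of_tendsto hre ?_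
  filter_upwards [eventually_gt_atTop (0 : ℝ)] with y hy
  positivity

end H48.KV
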