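import Pool.Agent.H48.KV.AsyA
import Pool.Agent.H48.KV.LimD

/-!
# [H48 KV ASYB] the asymptotic number of the lifts of one `φ₀`, 80-120 lines. File Pool/Agent/H48/KV/AsyB.lean

`stp_ex` (Stp.lean; `DP K QBar` is nonempty, see `H38.ML`/H63.MC: choose a prime over every `v`, e.g. `exists_DP`-type lemma or `H63.MA.gloc_over`), `par_reps`, `par_phi` (ParC.lean; `hS` from `stp_tau`), `en_disc`, `asy_cnt`. `lim_adm` (LimD.lean) for the field `F`, `p = 2`, `ζ = -1`, `t = tp τ` (`tp_nm`, `tp_cube`, `stp_gd`) gives for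
every `q` a limit `c q` of `#{f ∈ AF y : ..} / y`. With `y = (B / e)^(1/a)`, `y / B^(1/a) = e^(-1/a)` (`Real.div_rpow`), `y → ∞` as `B → ∞` (`tendsto_rpow_atTop`), so `#{..} / B^(1/a) → c q * e^(-1/a)`; finite sums; the bounded error divided by `B^(1/a)` tends to `0`. The limit is `≥ 0`.
The case `B < 1` for the finiteness: `XB k i₀ φ₀ B ⊆ XB k i₀ φ₀ 1`.
-/

set_option autoImplicit false

open scoped NumberField Classical
open IsDedekindDomain H38.ML H63.MA Filter Topology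

noncomputable section

namespace H48.KV

private theorem asyb_scale (N : ℝ → ℝ) (c α e : ℝ) (hα : 0 < α) (he : 0 < e)
    (h : Tendsto (fun y : ℝ => N y / y) atTop (𝓝 c)) :
    Tendsto (fun B : ℝ => N ((B / e) ^ α) / B ^ α) atTop (𝓝 (c * (1 / e) ^ α)) := by
  have h1 : Tendsto (fun B : ℝ => (B / e) ^ α) atTop atTop :=
    (tendsto_rpow_atTop hα).comp (tendsto_id.atTop_div_const he)
  have h2 := (h.comp h1).mul_const ((1 / e) ^ α)
  refine h2.congr' ?_
  filter_upwards [eventually_gt_atTop 0] with B hB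
  have h3 : (B / e) ^ α = B ^ α * (1 / e) ^ α := by
    rw [← Real.mul_rpow hB.le (by positivity)]
    congr 1
    ring
  have h4 : 0 < B ^ α := Real.rpow_pos_of_pos hB α
  have h5 : 0 < (1 / e) ^ α := Real.rpow_pos_of_pos (by positivity) α
  change N ((B / e) ^ α) / (B / e) ^ α * (1 / e) ^ α = N ((B / e) ^ α) / B ^ α
  have h6 : N ((B / e) ^ α) / (B / e) ^ α = N ((B / e) ^ α) / (B ^ α * (1 / e) ^ α) := by
    rw [← h3]
  rw [h6, div_mul_eq_div_div, div_mul_cancel₀ _ h5.ne']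

theorem asy_fix {n : ℕ} {G : Subgroup (Equiv.Perm (Fin n))} (k : KV G) (hn : 2 ≤ n)
    (hG : MulAction.IsPretransitive G (Fin n))
    (hI : ∀ g : G, g ≠ 1 → ind (g : Equiv.Perm (Fin n)) = indG G → g ∈ k.V)
    (K : IntermediateField ℚ QBar) [NumberField K] (hi : MOne 2 K)
    (φ₀ : Gal(QBar/K) →* G) (hft : FT φ₀) (hs : Function.Surjective φ₀) (i₀ : Fin n) :
    (∀ B : ℝ, (XB k i₀ φ₀ B).Finite) ∧ ∃ c : ℝ, 0 ≤ c ∧
      Tendsto (fun B : ℝ => ((XB k i₀ φ₀ B).ncard : ℝ) / B ^ (1 / (indG G : ℝ))) atTop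
        (𝓝 c) := by
  obtain ⟨Q⟩ := exists_DP K QBar
  obtain ⟨F, hF, γ, τ, D, SK, H⟩ := stp_ex n hn hi hft hs Q
  obtain ⟨U, hU⟩ := par_reps (K := K) D.toRD0
  obtain ⟨Φ, Pa⟩ := par_phi hft hs H.fd D.toRD0 (fun P hP => stp_tau H P hP) U hU
  obtain ⟨e, he, hd⟩ := en_disc hn hG hI H hU Pa i₀
  have hA := fun (B : ℝ) (hB : 1 ≤ B) => asy_cnt hn hG H hU Pa i₀ e he hd B hB
  refine ⟨fun B => ?_, ?_⟩
  · refine (hA (max B 1) (le_max_right _ _)).1.subset ?_
    rintro φ ⟨h1, h2, h3, h4⟩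
    exact ⟨h1, h2, h3, h4.trans (le_max_left _ _)⟩
  have hζ : IsPrimitiveRoot (-1 : F) 2 := IsPrimitiveRoot.neg_one 0 (by norm_num)
  choose c hc0 hc using fun q : Fin D.r → ZMod 2 => lim_adm Nat.prime_two hζ D (tp τ)
    (tp_nm τ) (tp_cube H.fd) (fun P hP => stp_gd H P hP) q
  have ha : 0 < indG G := idx_pos hn hG
  obtain ⟨α, hα⟩ : ∃ α : ℝ, α = 1 / (indG G : ℝ) := ⟨_, rfl⟩
  have hα0 : 0 < α := by
    rw [hα]
    have : (0 : ℝ) < indG G := by exact_mod_cast ha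
    positivity
  rw [← hα]
  rw [← hα] at hA
  have hlim : Tendsto (fun B : ℝ => 4 * ∑ u ∈ U, ∑ q : Fin D.r → ZMod 2,
      (((AF F ((B / e u q) ^ α)).filter fun f => Adm (tp τ) D.S0 f ∧
          qf D.toRD0 f = q).card : ℝ) / B ^ α) atTop
      (𝓝 (4 * ∑ u ∈ U, ∑ q : Fin D.r → ZMod 2, c q * (1 / (e u q : ℝ)) ^ α)) := by
    apply Tendsto.const_mul
    refine tendsto_finsetSum _ fun u _ => tendsto_finsetSum _ fun q _ => ?_
    exact asyb_scale (fun y => (((AF F y).filter fun f => Adm (tp τ) D.S0 f ∧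
      qf D.toRD0 f = q).card : ℝ)) (c q) α (e u q) hα0 (by exact_mod_cast he u q) (hc q)
  refine ⟨4 * ∑ u ∈ U, ∑ q : Fin D.r → ZMod 2, c q * (1 / (e u q : ℝ)) ^ α, ?_, ?_⟩
  · apply mul_nonneg (by norm_num)
    refine Finset.sum_nonneg fun u _ => Finset.sum_nonneg fun q _ => ?_
    have := hc0 q
    positivity
  have hzero : Tendsto (fun B : ℝ => (8 * U.card : ℝ) / B ^ α) atTop (𝓝 0) :=
    tendsto_const_nhds.div_atTop (tendsto_rpow_atTop hα0)
  have hdiff : Tendsto (fun B : ℝ => ((XB k i₀ φ₀ B).ncard : ℝ) / B ^ α -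
      4 * ∑ u ∈ U, ∑ q : Fin D.r → ZMod 2,
      (((AF F ((B / e u q) ^ α)).filter fun f => Adm (tp τ) D.S0 f ∧
          qf D.toRD0 f = q).card : ℝ) / B ^ α) atTop (𝓝 0) := by
    refine squeeze_zero_norm' ?_ hzero
    filter_upwards [eventually_ge_atTop 1] with B hB
    have h1 := (hA B hB).2
    have h2 : 0 < B ^ α := Real.rpow_pos_of_pos (by linarith) α
    have h3 : 4 * ∑ u ∈ U, ∑ q : Fin D.r → ZMod 2,
        (((AF F ((B / e u q) ^ α)).filter fun f => Adm (tp τ) D.S0 f ∧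
          qf D.toRD0 f = q).card : ℝ) / B ^ α = (4 * ∑ u ∈ U, ∑ q : Fin D.r → ZMod 2,
        (((AF F ((B / e u q) ^ α)).filter fun f => Adm (tp τ) D.S0 f ∧
          qf D.toRD0 f = q).card : ℝ)) / B ^ α := by
      rw [mul_div_assoc, Finset.sum_div]
      congr 1
      exact Finset.sum_congr rfl fun u _ => (Finset.sum_div _ _ _).symm
    rw [h3, ← sub_div, Real.norm_eq_abs, abs_div, abs_of_pos h2]
    exact div_le_div_of_nonneg_right h1 h2.le
  have hfin := hdiff.add hlim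
  rw [zero_add] at hfin
  refine hfin.congr fun B => ?_
  ring

end H48.KV
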