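import Pool.Agent.H38.WM.Def
import Pool.Agent.H63.MA.AFin

/-!
# T2 (iii) of W1 (MP_b39724_nt), text: think 1068. Definitions (complete)

* `KV G`: a normal Klein four group `V` of `G`, the homomorphism `pi : G → C₃` through which `G` acts on `V`, a functional `lam` on `V`,
  `w` the element `≠ 1` of `V` with `lam w = 0`.
* `Eqv k φ φ'`: `φ` and `φ'` agree modulo `V`.
* `FD k φ₀ F γ τ`: `F` is the cyclic cubic field of `φ₀`, `γ ∈ Gal(QBar/K)` restricts to the generator `τ` of `Gal(F/K)`.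
* `Kc k F φ φ' a`: `a` is the Kummer class of `lam (φ φ'⁻¹)` on `Gal(QBar/F)`.
* `tu τ`: the action of `τ` on `Fˣ`; `tp τ`: the action of `τ` on the primes of `F`.
* `Adm t S f`: the finite set `f` of primes is admissible. `alf D τ f = ∏ P ∈ f, τ(pi P) τ²(pi P)`.
* `LV k φ₀`: the lifts. `XB`: the surjective lifts of bounded discriminant.
-/

set_option autoImplicit false
set_option linter.dupNamespace false

open scoped NumberField
open IsDedekindDomain H38.ML H63.MA

noncomputable section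

namespace H48.KV

/-- a normal Klein four group with an action of order 3 -/
structure KV (G : Type) [Group G] where
  V : Subgroup G
  nV : V.Normal
  pi : G →* Multiplicative (ZMod 3)
  sj : Function.Surjective pi
  piV : ∀ x ∈ V, pi x = 1
  cen : ∀ g : G, pi g = 1 → ∀ x ∈ V, g * x * g⁻¹ = x
  lam : G → ZMod 2
  add : ∀ x ∈ V, ∀ y ∈ V, lam (x * y) = lam x + lam y
  tr : ∀ g : G, pi g ≠ 1 → ∀ x ∈ V, lam x + lam (g * x * g⁻¹) + lam (g ^ 2 * x * (g ^ 2)⁻¹) = 0
  sep : ∀ x ∈ V, (∀ g : G, lam (g * x * g⁻¹) = 0) → x = 1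
  w : G
  wV : w ∈ V
  w1 : w ≠ 1
  lw : lam w = 0

/-- `φ` and `φ'` agree modulo `V` -/
def Eqv {G : Type} [Group G] (k : KV G) {Γ : Type} [Group Γ] (φ φ' : Γ →* G) : Prop :=
  ∀ σ, φ σ * (φ' σ)⁻¹ ∈ k.V

section fld

variable {K : IntermediateField ℚ QBar} [NumberField K] {G : Type} [Group G]

/-- `F` is the cyclic cubic field of `φ₀` -/
structure FD (k : KV G) (φ₀ : Gal(QBar/K) →* G) (F : IntermediateField K QBar)
    (γ : Gal(QBar/K)) (τ : F ≃ₐ[K] F) : Prop where
  deg : Module.finrank K F = 3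
  gal : IsGalois K F
  fix : ∀ σ : Gal(QBar/K), σ ∈ F.fixingSubgroup ↔ k.pi (φ₀ σ) = 1
  ga : k.pi (φ₀ γ) ≠ 1
  res : ∀ x : F, γ (x : QBar) = ((τ x : F) : QBar)

/-- `a` is the Kummer class of `lam (φ φ'⁻¹)` on `Gal(QBar/F)` -/
def Kc (k : KV G) (F : IntermediateField K QBar) [NumberField F] (φ φ' : Gal(QBar/K) →* G)
    (a : Fˣ) : Prop :=
  ∀ σ : Gal(QBar/F), kk 2 (-1 : F) a σ =
    k.lam (φ (σ.restrictScalars K) * (φ' (σ.restrictScalars K))⁻¹)

end fld

section aut

variable {K : IntermediateField ℚ QBar} {F : IntermediateField K QBar} [NumberField F]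

omit [NumberField F] in
/-- the action on the units -/
def tu (τ : F ≃ₐ[K] F) : Fˣ →* Fˣ := Units.map (τ : F →* F)

/-- the action on the primes -/
def tp (τ : F ≃ₐ[K] F) (P : Pl F) : Pl F where
  asIdeal := P.asIdeal.comap
    (NumberField.RingOfIntegers.mapRingEquiv (τ.symm : F ≃ₐ[K] F).toRingEquiv : 𝓞 F →+* 𝓞 F)
  isPrime := Ideal.IsPrime.comap _
  ne_bot := by
    intro h
    apply P.ne_bot
    rw [eq_bot_iff]
    intro x hx
    set e := NumberField.RingOfIntegers.mapRingEquiv (τ.symm : F ≃ₐ[K] F).toRingEquiv with he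
    have h1 : e.symm x ∈ P.asIdeal.comap (e : 𝓞 F →+* 𝓞 F) := by
      rw [Ideal.mem_comap]
      simpa using hx
    rw [h, Ideal.mem_bot] at h1
    rw [Ideal.mem_bot]
    have h2 := congrArg e h1
    simpa using h2

end aut

section cnt

variable {F : Type} [Field F] [NumberField F]

/-- admissible finite sets of primes: outside `S`, moved by `t`, at most one in every orbit of `t` -/
def Adm (t : Pl F → Pl F) (S : Finset (Pl F)) (f : Finset (Pl F)) : Prop :=
  ∀ P ∈ f, P ∉ S ∧ t P ≠ P ∧ t P ∉ f ∧ t (t P) ∉ f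

end cnt

/-- `∏ P ∈ f, τ(pi P) τ²(pi P)` -/
def alf {K : IntermediateField ℚ QBar} {F : IntermediateField K QBar} [NumberField F]
    (D : RD0 F 2 (-1 : F)) (τ : F ≃ₐ[K] F) (f : Finset (Pl F)) : Fˣ :=
  ∏ P ∈ f, tu τ (D.pi P) * tu τ (tu τ (D.pi P))

section lifts

variable {K : IntermediateField ℚ QBar} [NumberField K]

/-- the lifts of `φ₀` modulo `V` of finite type -/
def LV {G : Type} [Group G] (k : KV G) (φ₀ : Gal(QBar/K) →* G) : Set (Gal(QBar/K) →* G) :=
  {φ | FT φ ∧ Eqv k φ φ₀}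

/-- the primes outside `S` at which `φ` is ramified modulo `V` -/
def RV {G : Type} [Group G] (k : KV G) (Q : DP K QBar) (S : Finset (Pl K))
    (φ : Gal(QBar/K) →* G) : Set (Pl K) :=
  {l | l ∉ S ∧ ∃ σ ∈ (Q.P l).inertia Gal(QBar/K), φ σ ∉ k.V}

/-- the primes outside `S` at which `φ` is ramified, with inertia group mapped to `V` -/
def TV {G : Type} [Group G] (k : KV G) (Q : DP K QBar) (S : Finset (Pl K))
    (φ : Gal(QBar/K) →* G) : Set (Pl K) :=
  {l | l ∉ S ∧ (∃ σ ∈ (Q.P l).inertia Gal(QBar/K), φ σ ≠ 1) ∧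
    ∀ σ ∈ (Q.P l).inertia Gal(QBar/K), φ σ ∈ k.V}

/-- the surjective lifts of discriminant at most `B` -/
def XB {n : ℕ} {G : Subgroup (Equiv.Perm (Fin n))} (k : KV G) (i₀ : Fin n)
    (φ₀ : Gal(QBar/K) →* G) (B : ℝ) : Set (Gal(QBar/K) →* G) :=
  {φ | FT φ ∧ Function.Surjective φ ∧ Eqv k φ φ₀ ∧
    (H38.ML.relDisc K (fieldOf i₀ φ) : ℝ) ≤ B}

end lifts

/-- the number of classes modulo squares in `Sel K F` -/
def selc (K : IntermediateField ℚ QBar) [NumberField K] (F : IntermediateField K QBar)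
    [NumberField F] : ℕ :=
  Nat.card (Quot fun a b : {a : Fˣ // H38.WM.Sel K F a} => ∃ c : Fˣ, a.1 = b.1 * c ^ 2)

end H48.KV
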