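import Pool.Agent.H48.KV.ParB
import Pool.Agent.H48.KV.KumD
import Pool.Agent.H48.KV.KumC

/-!
# [H48 KV PARC] the parametrisation of the lifts, 100-160 lines. File Pool/Agent/H48/KV/ParC.lean

* `par_reps`: `unit_reps` (H63/MA/GUpA.lean) gives a finite set `U₀` of `S0`-units; keep those of square norm (if `x = u y²` with `norm x` a square then `norm u` is a square: `map_mul`, `map_pow`, `norm u ≠ 0`), and choose one
  representative of every class modulo squares (e.g. `U₀.image` of a choice function for the equivalence relation `∃ c, u = u' c²`, `Quotient.out`).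
* `par_phi`: `Φ u f` from `kc_exist` (KumD) for the class `u * alf D τ f` (its norm is a square: `fd_alf`, `map_mul`, `IsSquare.mul`); arbitrary if this is not of square norm.
* `par_all`: `φ ∈ LV k φ₀`: `kc_ex` for `(φ, φ₀)` (`φ₀ ∈ LV k φ₀`: `eqv_refl`) gives `a`, `kc_nrm`, `par_ex`: `a = u₁ * alf D τ f * c ^ 2`, `norm u₁` is a square (quotient of squares), `par_reps`: `u₁ = u y²`. So `(φ, Φ u f)` has the class
  `a * (u alf f)` = a square (`kc_symm`, `kc_mul`; `a * (u alf f) = (..)^2`), `kc_glo` (KumC) gives `δ`.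
* `par_inj`: if `δ Φ(u, f) δ⁻¹ = δ' Φ(u', f') δ'⁻¹` then `Kc (Φ u f) (Φ u' f') 1` up to squares (`kc_cj`, `kc_mul`, `kc_symm`), so by `kc_uni` `u alf f = u' alf f' c²`, `par_uni`: `f = f'`, `u = u'` (representatives), and
  `δ = δ'` by `kv_conj_inj` (GrpB) if `Φ u f` is surjective.

-/

set_option autoImplicit false

open scoped NumberField Classical
open IsDedekindDomain H38.ML H63.MA

noncomputable section

namespace H48.KV

variable {K : IntermediateField ℚ QBar} [NumberField K] {G : Type} [Group G] {k : KV G}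
  {φ₀ : Gal(QBar/K) →* G} {F : IntermediateField K QBar} [NumberField F] {γ : Gal(QBar/K)}
  {τ : F ≃ₐ[K] F}

/-- representatives of the units of square norm modulo squares -/
structure Reps (D : RD0 F 2 (-1 : F)) (U : Finset Fˣ) : Prop where
  unit : ∀ u ∈ U, TUnit D.S0 u
  sq : ∀ u ∈ U, IsSquare (Algebra.norm K (u : F))
  uni : ∀ u ∈ U, ∀ u' ∈ U, (∃ c : Fˣ, u = u' * c ^ 2) → u = u'
  all : ∀ x : Fˣ, TUnit D.S0 x → IsSquare (Algebra.norm K (x : F)) →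
    ∃ u ∈ U, ∃ y : Fˣ, x = u * y ^ 2

/-- the lifts attached to the parameters -/
structure Par (k : KV G) (φ₀ : Gal(QBar/K) →* G) (τ : F ≃ₐ[K] F) (D : RD0 F 2 (-1 : F))
    (U : Finset Fˣ) (Φ : Fˣ → Finset (Pl F) → (Gal(QBar/K) →* G)) : Prop where
  mem : ∀ u ∈ U, ∀ f, Φ u f ∈ LV k φ₀
  kc : ∀ u ∈ U, ∀ f, Kc k F (Φ u f) φ₀ (u * alf D τ f)
  all : ∀ φ ∈ LV k φ₀, ∃ δ ∈ k.V, ∃ u ∈ U, ∃ f, Adm (tp τ) D.S0 f ∧
    φ = (MulAut.conj δ).toMonoidHom.comp (Φ u f)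
  inj : ∀ δ ∈ k.V, ∀ u ∈ U, ∀ f, ∀ δ' ∈ k.V, ∀ u' ∈ U, ∀ f', Adm (tp τ) D.S0 f →
    Adm (tp τ) D.S0 f' → Function.Surjective (Φ u f) →
    (MulAut.conj δ).toMonoidHom.comp (Φ u f) = (MulAut.conj δ').toMonoidHom.comp (Φ u' f') →
      δ = δ' ∧ u = u' ∧ f = f'

private def parcS (F : Type) [Field F] : Setoid Fˣ where
  r u u' := ∃ c : Fˣ, u = u' * c ^ 2
  iseqv :=
    { refl := fun u => ⟨1, by rw [one_pow, mul_one]⟩
      symm := by
        rintro u u' ⟨c, hc⟩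
        refine ⟨c⁻¹, ?_⟩
        rw [hc, inv_pow, mul_inv_cancel_right]
      trans := by
        rintro u u' u'' ⟨c, hc⟩ ⟨c', hc'⟩
        refine ⟨c' * c, ?_⟩
        rw [hc, hc', mul_pow, mul_assoc] }

omit [NumberField K] [NumberField F] in
private theorem parc_sq (u c : Fˣ) (a : Fˣ) (b : Fˣ) (he : a = u * b * c ^ 2)
    (ha : IsSquare (Algebra.norm K (a : F))) (hb : IsSquare (Algebra.norm K (b : F))) :
    IsSquare (Algebra.norm K (u : F)) := by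
  have hnb : Algebra.norm K (b : F) ≠ 0 := (Units.map (Algebra.norm K : F →* K) b).ne_zero
  have hnc : Algebra.norm K (c : F) ≠ 0 := (Units.map (Algebra.norm K : F →* K) c).ne_zero
  have h1 : Algebra.norm K (a : F) =
      Algebra.norm K (u : F) * (Algebra.norm K (b : F) * Algebra.norm K (c : F) ^ 2) := by
    rw [he, Units.val_mul, Units.val_mul, Units.val_pow_eq_pow_val, map_mul, map_mul, map_pow,
      mul_assoc]
  have h2 : Algebra.norm K (u : F) =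
      Algebra.norm K (a : F) / (Algebra.norm K (b : F) * Algebra.norm K (c : F) ^ 2) := by
    rw [h1, mul_div_assoc, div_self (mul_ne_zero hnb (pow_ne_zero 2 hnc)), mul_one]
  rw [h2]
  exact ha.div (hb.mul ⟨Algebra.norm K (c : F), pow_two _⟩)

theorem par_reps (D : RD0 F 2 (-1 : F)) : ∃ U : Finset Fˣ, Reps (K := K) D U := by
  obtain ⟨U₀, hU₀, hall⟩ := unit_reps (K := F) Nat.prime_two D.S0
  obtain ⟨U₁, hU₁⟩ : ∃ U₁ : Finset Fˣ, U₁ =
      U₀.filter fun u : Fˣ => IsSquare (Algebra.norm K (u : F)) := ⟨_, rfl⟩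
  have hex : ∀ c : Quotient (parcS F), ∃ r : Fˣ,
      (∃ u ∈ U₁, (Quotient.mk (parcS F) u) = c) → r ∈ U₁ ∧ Quotient.mk (parcS F) r = c := by
    intro c
    by_cases h : ∃ u ∈ U₁, (Quotient.mk (parcS F) u) = c
    · obtain ⟨u, hu, huc⟩ := h
      exact ⟨u, fun _ => ⟨hu, huc⟩⟩
    · exact ⟨1, fun h' => absurd h' h⟩
  choose r hr using hex
  refine ⟨U₁.image fun u => r (Quotient.mk (parcS F) u), ?_, ?_, ?_, ?_⟩
  · intro u hu
    obtain ⟨v, hv, rfl⟩ := Finset.mem_image.1 hu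
    have h1 := (hr _ ⟨v, hv, rfl⟩).1
    rw [hU₁, Finset.mem_filter] at h1
    exact hU₀ _ h1.1
  · intro u hu
    obtain ⟨v, hv, rfl⟩ := Finset.mem_image.1 hu
    have h1 := (hr _ ⟨v, hv, rfl⟩).1
    rw [hU₁, Finset.mem_filter] at h1
    exact h1.2
  · intro u hu u' hu' huu
    obtain ⟨v, hv, rfl⟩ := Finset.mem_image.1 hu
    obtain ⟨v', hv', rfl⟩ := Finset.mem_image.1 hu'
    have h1 := (hr _ ⟨v, hv, rfl⟩).2
    have h2 := (hr _ ⟨v', hv', rfl⟩).2
    have h3 : Quotient.mk (parcS F) (r (Quotient.mk (parcS F) v)) =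
        Quotient.mk (parcS F) (r (Quotient.mk (parcS F) v')) := Quotient.sound huu
    rw [h1, h2] at h3
    rw [h3]
  · intro x hx hxs
    obtain ⟨u, hu, y, hy⟩ := hall x hx
    have hu1 : u ∈ U₁ := by
      rw [hU₁, Finset.mem_filter]
      refine ⟨hu, parc_sq u y x 1 (by rw [mul_one]; exact hy) hxs ?_⟩
      rw [Units.val_one, map_one]
      exact IsSquare.one
    have h1 := (hr _ ⟨u, hu1, rfl⟩).2
    obtain ⟨c, hc⟩ : ∃ c : Fˣ, u = r (Quotient.mk (parcS F) u) * c ^ 2 :=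
      Quotient.exact h1.symm
    refine ⟨r (Quotient.mk (parcS F) u), Finset.mem_image_of_mem _ hu1, c * y, ?_⟩
    rw [mul_pow, ← mul_assoc, ← hc]
    exact hy

theorem par_phi (hft : FT φ₀) (hs : Function.Surjective φ₀) (h : FD k φ₀ F γ τ)
    (D : RD0 F 2 (-1 : F)) (hS : ∀ P ∈ D.S0, tp τ P ∈ D.S0) (U : Finset Fˣ)
    (hU : Reps (K := K) D U) : ∃ Φ : Fˣ → Finset (Pl F) → (Gal(QBar/K) →* G),
      Par k φ₀ τ D U Φ := by
  have hex : ∀ (u : Fˣ) (f : Finset (Pl F)), ∃ φ : Gal(QBar/K) →* G, u ∈ U →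
      (φ ∈ LV k φ₀ ∧ Kc k F φ φ₀ (u * alf D τ f)) := by
    intro u f
    by_cases hu : u ∈ U
    · obtain ⟨φ, h1, h2⟩ := kc_exist hft hs h (u * alf D τ f) (by
        rw [Units.val_mul, map_mul]
        exact (hU.sq u hu).mul (fd_alf h D f))
      exact ⟨φ, fun _ => ⟨h1, h2⟩⟩
    · exact ⟨φ₀, fun h' => absurd h' hu⟩
  choose Φ hΦ using hex
  have hr : Eqv k φ₀ φ₀ := eqv_refl k φ₀
  refine ⟨Φ, fun u hu f => (hΦ u f hu).1, fun u hu f => (hΦ u f hu).2, ?_, ?_⟩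
  · intro φ hφ
    obtain ⟨a, ha⟩ := kc_ex h hφ (⟨hft, hr⟩ : φ₀ ∈ LV k φ₀)
    have hn := kc_nrm h hφ.2 hr ha
    obtain ⟨f, u₁, c, hf, hu₁, he⟩ := par_ex h D hS a hn
    have hsq : IsSquare (Algebra.norm K (u₁ : F)) := parc_sq u₁ c a _ he hn (fd_alf h D f)
    obtain ⟨u, hu, y, hy⟩ := hU.all u₁ hu₁ hsq
    have he2 : a = u * alf D τ f * (y * c) ^ 2 := by
      rw [he, hy, mul_pow, mul_assoc u (y ^ 2) (alf D τ f), mul_comm (y ^ 2) (alf D τ f),
        ← mul_assoc, ← mul_assoc]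
    rw [he2] at ha
    have ha2 : Kc k F φ φ₀ (u * alf D τ f) := (kc_sqr (y * c)).1 ha
    have h1 := kc_symm h (hΦ u f hu).1.2 hr (hΦ u f hu).2
    have h2 := kc_mul h hφ.2 hr (hΦ u f hu).1.2 ha2 h1
    rw [← pow_two] at h2
    obtain ⟨δ, hδ, h3⟩ := kc_glo hs h hφ.2 (hΦ u f hu).1.2 h2
    exact ⟨δ, hδ, u, hu, f, hf, h3⟩
  · intro δ hδ u hu f δ' hδ' u' hu' f' hf hf' hsu heq
    have e1 := kc_mul h (eqv_conj k (hΦ u f hu).1.2 hδ) (hΦ u f hu).1.2 hr
      (kc_cj h (hΦ u f hu).1.2 hδ) (hΦ u f hu).2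
    have e2 := kc_mul h (eqv_conj k (hΦ u' f' hu').1.2 hδ') (hΦ u' f' hu').1.2 hr
      (kc_cj h (hΦ u' f' hu').1.2 hδ') (hΦ u' f' hu').2
    rw [heq] at e1
    obtain ⟨c, hc⟩ := kc_uni e1 e2
    rw [one_mul, one_mul] at hc
    obtain ⟨hff, c', hc'⟩ := par_uni h D hS f f' hf hf' u u' c (hU.unit u hu) (hU.unit u' hu') hc
    have huu : u = u' := hU.uni u hu u' hu' ⟨c', hc'⟩
    subst hff
    subst huu
    refine ⟨kv_conj_inj k (Φ u f) hsu hδ hδ' (fun σ => ?_), rfl, rfl⟩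
    exact DFunLike.congr_fun heq σ

end H48.KV
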