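import Pool.Agent.H48.KV.Stp
import Pool.Agent.H48.KV.ParC
import Pool.Agent.H48.KV.LocA

/-!
# [H48 KV ENA] ramification of the lifts `Φ u f`, 80-120 lines. File Pool/Agent/H48/KV/EnA.lean

`H : Stp ..` (Stp.lean), `Pa : Par ..` (ParC.lean), `U` with `Reps`, `f` admissible, `u ∈ U`, `φ = Φ u f`; `Kc φ φ₀ (u * alf D τ f)` (`Pa.kc`), `φ₀` is trivial on the inertia groups outside `SK` (`H.ram`).
* `en_V`: `φ σ = φ σ * (φ₀ σ)⁻¹ ∈ V`.
* `en_ram` (⇒): `loc_odd` gives `P'` over `l` with `ord P' (u * alf f)` odd; `P' ∉ D.S0` (`H.sf`: if `P' ∈ D.S0` then `P'` lies over some `v ∈ SK`, `v = l` by `below_unique`), `ord P' u = 0` (`hU.unit`), so by `alf_odd` there is `P ∈ f` with `tp τ P = P'` or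
  `tp τ (tp τ P) = P'`, and `P` lies over `l` (`tp_over`). (⇐) `P ∈ f` over `l`: `P' = tp τ P` lies over `l`, is not in `D.S0`, and has `ord P' (u * alf f) = 1`; if `φ` were trivial on the inertia group at `l` then `φ = φ₀` there and `loc_even` says the order is even: contradiction.
* `en_surj`: `P ∈ f`, `l` the prime below (`exists_below`), `l ∉ SK` (`stp_sk`), `en_ram` gives `σ` in the inertia group with `φ σ ≠ 1`, `φ σ ∈ V` (`en_V`), `kv_surj` (GrpB).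
-/

set_option autoImplicit false

open scoped NumberField Classical
open IsDedekindDomain H38.ML H63.MA

noncomputable section

namespace H48.KV

variable {K : IntermediateField ℚ QBar} [NumberField K] {G : Type} [Group G] {k : KV G}
  {φ₀ : Gal(QBar/K) →* G} {n : ℕ} {F : IntermediateField K QBar} [NumberField F]
  {γ : Gal(QBar/K)} {τ : F ≃ₐ[K] F} {D : RD F 2 (-1 : F)} {SK : Finset (Pl K)}
  {Q : DP K QBar} {U : Finset Fˣ} {Φ : Fˣ → Finset (Pl F) → (Gal(QBar/K) →* G)}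

theorem en_V (H : Stp n k φ₀ F γ τ D SK Q) {φ : Gal(QBar/K) →* G} (he : Eqv k φ φ₀) (l : Pl K)
    (hl : l ∉ SK) (σ : Gal(QBar/K)) (hσ : σ ∈ (Q.P l).inertia Gal(QBar/K)) : φ σ ∈ k.V := by
  have h1 := he σ
  rw [H.ram l hl σ hσ, inv_one, mul_one] at h1
  exact h1

private theorem en_out (H : Stp n k φ₀ F γ τ D SK Q) (l : Pl K) (hl : l ∉ SK) (P : Pl F)
    (hP : Over P l) : P ∉ D.S0 := by
  intro hin
  obtain ⟨v, hv, hov⟩ := (H.sf P).1 hin
  have h1 := below_unique hov hP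
  rw [h1] at hv
  exact hl hv

theorem en_ram (H : Stp n k φ₀ F γ τ D SK Q) (hU : Reps (K := K) D.toRD0 U)
    (Pa : Par k φ₀ τ D.toRD0 U Φ) (u : Fˣ) (hu : u ∈ U) (f : Finset (Pl F))
    (hf : Adm (tp τ) D.S0 f) (l : Pl K) (hl : l ∉ SK) :
    (∃ σ ∈ (Q.P l).inertia Gal(QBar/K), Φ u f σ ≠ 1) ↔ ∃ P ∈ f, Over P l := by
  have hL := Pa.mem u hu f
  have ha := Pa.kc u hu f
  have h2 : ¬ Above 2 l := fun h => hl (H.two l h)
  have hS : ∀ P ∈ D.toRD0.S0, tp τ P ∈ D.toRD0.S0 := fun P hP => stp_tau H P hP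
  constructor
  · intro hr
    obtain ⟨P', hP'l, hodd⟩ := loc_odd H.sj H.fd hL.2 (eqv_refl k φ₀) ha Q l h2 (H.ram l hl) hr
    have hP' := en_out H l hl P' hP'l
    rw [ord_mul, hU.unit u hu P' hP', zero_add, alf_odd H.fd D.toRD0 hS f hf P' hP'] at hodd
    by_cases hex : ∃ P ∈ f, tp τ P = P' ∨ tp τ (tp τ P) = P'
    · obtain ⟨P, hPf, hPR⟩ := hex
      refine ⟨P, hPf, ?_⟩
      rcases hPR with h3 | h3
      · rw [← h3, tp_over] at hP'l
        exact hP'l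
      · rw [← h3, tp_over, tp_over] at hP'l
        exact hP'l
    · rw [if_neg hex] at hodd
      exact absurd hodd (by decide)
  · rintro ⟨P, hPf, hPl⟩
    by_contra hcon
    push Not at hcon
    have hP'l : Over (tp τ P) l := (tp_over τ P l).2 hPl
    have hP' := en_out H l hl _ hP'l
    have hev := loc_even H.fd hL.2 (eqv_refl k φ₀) ha Q (tp τ P) l hP'l h2
      (fun σ hσ => by rw [hcon σ hσ, H.ram l hl σ hσ])
    have hex : ∃ R ∈ f, tp τ R = tp τ P ∨ tp τ (tp τ R) = tp τ P := ⟨P, hPf, Or.inl rfl⟩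
    rw [ord_mul, hU.unit u hu _ hP', zero_add, alf_odd H.fd D.toRD0 hS f hf _ hP',
      if_pos hex] at hev
    exact absurd hev (by decide)

theorem en_surj (H : Stp n k φ₀ F γ τ D SK Q) (hU : Reps (K := K) D.toRD0 U)
    (Pa : Par k φ₀ τ D.toRD0 U Φ) (u : Fˣ) (hu : u ∈ U) (f : Finset (Pl F))
    (hf : Adm (tp τ) D.S0 f) (hne : f ≠ ∅) : Function.Surjective (Φ u f) := by
  obtain ⟨P, hP⟩ := Finset.nonempty_iff_ne_empty.2 hne
  obtain ⟨l, hl⟩ := exists_below (K := K) P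
  have hlS : l ∉ SK := stp_sk H P (hf P hP).1 l hl
  obtain ⟨σ, hσ, hσ1⟩ := (en_ram H hU Pa u hu f hf l hlS).2 ⟨P, hP, hl⟩
  have hL := Pa.mem u hu f
  exact kv_surj k (Φ u f) φ₀ H.sj hL.2 (en_V H hL.2 l hlS σ hσ) hσ1

end H48.KV
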