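import Pool.Agent.H48.KV.KumC
import Pool.Agent.H48.KV.FldC
import Pool.Agent.H63.MC.CLkC

/-!
# [H48 KV LOCB] the same behaviour at a decomposition group, 80-130 lines. File Pool/Agent/H48/KV/LocB.lean

`kc_loc` (KumC.lean) for the subgroup `dec (K := K) (Q.P v)`. Let `g : Gal(QBar/K)`, `σ : Gal(QBar/F)` with `g⁻¹ σ g ∈ dec (Q.P v)`. So `σ` (as an element of `Gal(QBar/K)`) is in `dec 𝔓`, `𝔓 = g • Q.P v`. We need
`kk 2 (-1) (tu τ x * tu τ (tu τ x) * b ^ 2) σ = 0`, that is `kk (tu τ x) σ = 0` and `kk (tu τ (tu τ x)) σ = 0` (`kk_mul_arg`, `kk (b^2) = 0`). By `kc_tau` (and `kc_conj_ex`) `kk (tu τ x) σ = kk x σ'` with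
`σ' = γ⁻¹ σ γ ∈ dec (γ⁻¹ • 𝔓)`, similarly `kk (tu τ (tu τ x)) σ = kk x σ''`, `σ'' = γ⁻² σ γ²`. So it is enough: for every prime `𝔓'` of `𝓞 QBar` over `v` and every `s : Gal(QBar/F)` in its decomposition group
`kk 2 (-1) x s = 0`. `P = 𝔓'.under (𝓞 F)` is a prime of `F` over `v`, so in `D.S0` (`hv`); choose `Q' : DP F QBar` with `Q'.P P = 𝔓'` (`H63.MA.gloc_over` for the other primes, `Function.update`), then
`ps_triv` (H63/MC/CLkC.lean) over the field `F` (`QBar` is an algebraic closure of `F`). (`𝔓'` is not zero: it lies over `v ≠ 0`.)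
-/

set_option autoImplicit false

open scoped NumberField Pointwise
open IsDedekindDomain H38.ML H63.MA

noncomputable section

namespace H48.KV

variable {K : IntermediateField ℚ QBar} [NumberField K] {G : Type} [Group G] {k : KV G}
  {φ₀ : Gal(QBar/K) →* G} {F : IntermediateField K QBar} [NumberField F] {γ : Gal(QBar/K)}
  {τ : F ≃ₐ[K] F}

private theorem locb_key (hi : MOne 2 F) (D : RD0 F 2 (-1 : F)) (x : Fˣ)
    (hx : PS 2 (-1 : F) D.S0 x) (Q : DP K QBar) (v : Pl K)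
    (hv : ∀ P : Pl F, Over P v → P ∈ D.S0) (g : Gal(QBar/K)) (s : Gal(QBar/F))
    (hs : g⁻¹ * s.restrictScalars K * g ∈ dec (K := K) (Q.P v)) : kk 2 (-1 : F) x s = 0 := by
  classical
  haveI hac : IsAlgClosure F QBar :=
    { isAlgClosed := inferInstance
      isAlgebraic := Algebra.IsAlgebraic.tower_top (K := K) F }
  have hm1 : IsPrimitiveRoot (-1 : F) 2 := IsPrimitiveRoot.neg_one 0 (by norm_num)
  haveI := Q.prime v
  let e : 𝓞 QBar →+* 𝓞 QBar := MulSemiringAction.toRingHom Gal(QBar/K) (𝓞 QBar) g⁻¹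
  let B : Ideal (𝓞 QBar) := (Q.P v).comap e
  have hBp : B.IsPrime := Ideal.IsPrime.comap e
  have hmem : ∀ y : 𝓞 QBar, y ∈ B ↔ g⁻¹ • y ∈ Q.P v := fun y => Iff.rfl
  have hK : ∀ a : 𝓞 K, algebraMap (𝓞 K) (𝓞 QBar) a ∈ B ↔ a ∈ v.asIdeal := by
    intro a
    rw [hmem]
    have h1 : g⁻¹ • algebraMap (𝓞 K) (𝓞 QBar) a = algebraMap (𝓞 K) (𝓞 QBar) a := by
      apply Subtype.ext
      exact (g⁻¹ : Gal(QBar/K)).commutes (a : K)
    rw [h1, ← Q.under v]
    exact Iff.rfl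
  have hover : (B.under (𝓞 F)).comap (algebraMap (𝓞 K) (𝓞 F)) = v.asIdeal := by
    ext a
    rw [← hK a]
    exact Iff.rfl
  have hne : B.under (𝓞 F) ≠ ⊥ := by
    intro h
    apply v.ne_bot
    rw [← hover, h, ← RingHom.ker_eq_comap_bot]
    exact (RingHom.injective_iff_ker_eq_bot _).mp
      (NumberField.RingOfIntegers.algebraMap.injective K F)
  let P : Pl F := ⟨B.under (𝓞 F), Ideal.IsPrime.comap _, hne⟩
  have hP : P ∈ D.S0 := hv P hover
  obtain ⟨Q0⟩ := exists_DP F QBar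
  let Q' : DP F QBar :=
    { P := Function.update Q0.P P B
      prime := fun w => by
        by_cases hw : w = P
        · subst hw
          rw [Function.update_self]
          exact hBp
        · rw [Function.update_of_ne hw]
          exact Q0.prime w
      under := fun w => by
        by_cases hw : w = P
        · subst hw
          rw [Function.update_self]
        · rw [Function.update_of_ne hw]
          exact Q0.under w }
  refine ps_triv Nat.prime_two hi hm1 D Q' x hx P hP s ?_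
  have hQ' : Q'.P P = B := by
    change Function.update Q0.P P B P = B
    exact Function.update_self P B Q0.P
  rw [hQ']
  intro y
  rw [hmem, hmem]
  have h2 := hs (g⁻¹ • y)
  rw [← h2]
  have h3 : (g⁻¹ * s.restrictScalars K * g) • (g⁻¹ • y) = g⁻¹ • (s.restrictScalars K • y) := by
    rw [← mul_smul, ← mul_smul]
    congr 1
    group
  rw [h3]
  exact Iff.rfl

theorem loc_dec (hs : Function.Surjective φ₀) (h : FD k φ₀ F γ τ) (hi : MOne 2 F)
    (D : RD0 F 2 (-1 : F)) {φ φ' : Gal(QBar/K) →* G} (hφ : Eqv k φ φ₀) (hφ' : Eqv k φ' φ₀)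
    (x b : Fˣ) (ha : Kc k F φ φ' (tu τ x * tu τ (tu τ x) * b ^ 2))
    (hx : PS 2 (-1 : F) D.S0 x) (Q : DP K QBar) (v : Pl K)
    (hv : ∀ P : Pl F, Over P v → P ∈ D.S0) :
    ∃ δ ∈ k.V, ∀ σ ∈ dec (K := K) (Q.P v), φ σ = δ * φ' σ * δ⁻¹ := by
  haveI hac : IsAlgClosure F QBar :=
    { isAlgClosed := inferInstance
      isAlgebraic := Algebra.IsAlgebraic.tower_top (K := K) F }
  have hm1 : IsPrimitiveRoot (-1 : F) 2 := IsPrimitiveRoot.neg_one 0 (by norm_num)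
  refine kc_loc hs h hφ hφ' ha (dec (K := K) (Q.P v)) fun g σ hσ => ?_
  obtain ⟨σ', hσ'⟩ := kc_conj_ex h γ σ
  obtain ⟨σ'', hσ''⟩ := kc_conj_ex h γ σ'
  have h1 : kk 2 (-1 : F) (tu τ x) σ = 0 := by
    rw [kc_tau h x σ σ' hσ']
    refine locb_key hi D x hx Q v hv (γ⁻¹ * g) σ' ?_
    rw [hσ']
    have h2 : (γ⁻¹ * g)⁻¹ * (γ⁻¹ * σ.restrictScalars K * γ) * (γ⁻¹ * g) =
        g⁻¹ * σ.restrictScalars K * g := by
      group
    rw [h2]
    exact hσ
  have h3 : kk 2 (-1 : F) (tu τ (tu τ x)) σ = 0 := by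
    rw [kc_tau h (tu τ x) σ σ' hσ', kc_tau h x σ' σ'' hσ'']
    refine locb_key hi D x hx Q v hv (γ⁻¹ * (γ⁻¹ * g)) σ'' ?_
    rw [hσ'', hσ']
    have h2 : (γ⁻¹ * (γ⁻¹ * g))⁻¹ * (γ⁻¹ * (γ⁻¹ * σ.restrictScalars K * γ) * γ) *
        (γ⁻¹ * (γ⁻¹ * g)) = g⁻¹ * σ.restrictScalars K * g := by
      group
    rw [h2]
    exact hσ
  have h4 : kk 2 (-1 : F) (b ^ 2) σ = 0 :=
    (kk_eq_zero_iff Nat.prime_two hm1 (b ^ 2)).2 ⟨b, rfl⟩ σ
  rw [kk_mul_arg Nat.prime_two hm1, kk_mul_arg Nat.prime_two hm1, h1, h3, h4, add_zero, add_zero]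

end H48.KV
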