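import Pool.Agent.H48.KV.Stp
import Pool.Agent.H48.KV.ParC
import Pool.Agent.H48.KV.LocB
import Pool.Agent.H63.MA.ADef

/-!
# [H48 KV ENB] equal classes `qf` give equal behaviour over `SK`, 80-120 lines. File Pool/Agent/H48/KV/EnB.lean

`φ = Φ u f`, `φ' = Φ u f'` with `qf D f = qf D f'` (`f, f'` outside `D.S0`). The class of `(φ, φ')` is `a = u alf f * (u alf f')` (`Pa.kc`, `kc_symm`, `kc_mul`). Let `x = pf D f / pf D f'` (`pf D f = ∏ P ∈ f, D.pi P`). Then `alf D τ f = tu τ (pf D f) * tu τ (tu τ (pf D f))`, so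
`a = tu τ x * tu τ (tu τ x) * (u * alf D τ f') ^ 2` (commutative group: `mul_comm`, `map_div`). `x` is `PS 2 (-1) D.S0`: `D.prim_of` for `m = ∑ P ∈ f, single P 1 - ∑ P ∈ f', single P 1 : Pl F →₀ ℤ` (`m v = 0` on `S0`; the class is `qf D f - qf D f' = 0`; the product is
`pf D f / pf D f'`: `Finsupp.prod`, `Finsupp.sum` over indicator functions: it is convenient to prove by induction that for `m = ∑ single` the `prod` and `sum` are those of the sets; `Finsupp.prod_add_index'`, `zpow_add`). `loc_dec` (LocB.lean) with `b = u * alf D τ f'`, `hv` from `H.sf`.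
-/

set_option autoImplicit false

open scoped NumberField Classical
open IsDedekindDomain H38.ML H63.MA

noncomputable section

namespace H48.KV

variable {K : IntermediateField ℚ QBar} [NumberField K] {G : Type} [Group G] {k : KV G}
  {φ₀ : Gal(QBar/K) →* G} {n : ℕ} {F : IntermediateField K QBar} [NumberField F]
  {γ : Gal(QBar/K)} {τ : F ≃ₐ[K] F} {D : RD F 2 (-1 : F)} {SK : Finset (Pl K)}
  {Q : DP K QBar} {U : Finset Fˣ} {Φ : Fˣ → Finset (Pl F) → (Gal(QBar/K) →* G)}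

private theorem en_ind_apply (S : Finset (Pl F)) (f : Finset (Pl F)) (hf : ∀ P ∈ f, P ∉ S)
    (v : Pl F) (hv : v ∈ S) : (∑ P ∈ f, Finsupp.single P (1 : ℤ)) v = 0 := by
  rw [Finsupp.finset_sum_apply]
  refine Finset.sum_eq_zero fun P hP => ?_
  rw [Finsupp.single_apply, if_neg]
  rintro rfl
  exact hf P hP hv

private theorem en_sum (q : Pl F → Fin D.r → ZMod 2) (f : Finset (Pl F)) :
    (∑ P ∈ f, Finsupp.single P (1 : ℤ)).sum (fun v n => (n : ZMod 2) • q v) =
      ∑ P ∈ f, q P := by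
  rw [← Finsupp.sum_finset_sum_index]
  · refine Finset.sum_congr rfl fun P _ => ?_
    rw [Finsupp.sum_single_index]
    · rw [Int.cast_one, one_smul]
    · rw [Int.cast_zero, zero_smul]
  · intro a
    rw [Int.cast_zero, zero_smul]
  · intro a b₁ b₂
    rw [Int.cast_add, add_smul]

private theorem en_prod (g : Pl F → Fˣ) (f : Finset (Pl F)) :
    (∑ P ∈ f, Finsupp.single P (1 : ℤ)).prod (fun v n => g v ^ n) = ∏ P ∈ f, g P := by
  rw [← Finsupp.prod_finset_sum_index]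
  · refine Finset.prod_congr rfl fun P _ => ?_
    rw [Finsupp.prod_single_index]
    · rw [zpow_one]
    · rw [zpow_zero]
  · intro a
    rw [zpow_zero]
  · intro a b₁ b₂
    rw [zpow_add]

theorem en_ps (D : RD F 2 (-1 : F)) (f f' : Finset (Pl F)) (hf : ∀ P ∈ f, P ∉ D.S0)
    (hf' : ∀ P ∈ f', P ∉ D.S0) (hq : qf D.toRD0 f = qf D.toRD0 f') :
    PS 2 (-1 : F) D.S0 (pf D.toRD0 f / pf D.toRD0 f') := by
  obtain ⟨m, hm⟩ : ∃ m : Pl F →₀ ℤ, m + (∑ P ∈ f', Finsupp.single P (1 : ℤ)) =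
      ∑ P ∈ f, Finsupp.single P (1 : ℤ) := ⟨_, sub_add_cancel _ _⟩
  have h1 : ∀ v ∈ D.S0, m v = 0 := by
    intro v hv
    have h := DFunLike.congr_fun hm v
    rw [Finsupp.add_apply, en_ind_apply D.S0 f' hf' v hv, en_ind_apply D.S0 f hf v hv,
      add_zero] at h
    exact h
  have h2 : (m.sum fun v n => (n : ZMod 2) • D.q v) = 0 := by
    have h := congrArg (fun m => m.sum fun v (n : ℤ) => (n : ZMod 2) • D.q v) hm
    rw [Finsupp.sum_add_index' (fun a => by rw [Int.cast_zero, zero_smul])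
      (fun a b₁ b₂ => by rw [Int.cast_add, add_smul]), en_sum, en_sum] at h
    have h' : ∑ P ∈ f, D.q P = ∑ P ∈ f', D.q P := hq
    rw [h'] at h
    exact left_eq_add.1 (by rw [add_comm]; exact h.symm)
  have h3 : (m.prod fun v n => D.pi v ^ n) = pf D.toRD0 f / pf D.toRD0 f' := by
    have h := congrArg (fun m => m.prod fun v (n : ℤ) => D.pi v ^ n) hm
    rw [Finsupp.prod_add_index' (fun a => by rw [zpow_zero])
      (fun a b₁ b₂ => by rw [zpow_add]), en_prod, en_prod] at h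
    exact eq_div_of_mul_eq' h
  have h4 := D.prim_of m h1 h2
  rw [h3] at h4
  exact h4

private theorem en_alf (D : RD0 F 2 (-1 : F)) (τ : F ≃ₐ[K] F) (f : Finset (Pl F)) :
    alf D τ f = tu τ (pf D f) * tu τ (tu τ (pf D f)) := by
  unfold alf pf
  rw [map_prod, map_prod, Finset.prod_mul_distrib]

theorem en_dec (H : Stp n k φ₀ F γ τ D SK Q) (Pa : Par k φ₀ τ D.toRD0 U Φ) (u : Fˣ)
    (hu : u ∈ U) (f f' : Finset (Pl F)) (hf : Adm (tp τ) D.S0 f) (hf' : Adm (tp τ) D.S0 f')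
    (hq : qf D.toRD0 f = qf D.toRD0 f') (v : Pl K) (hv : v ∈ SK) :
    ∃ δ ∈ k.V, ∀ σ ∈ dec (K := K) (Q.P v), Φ u f σ = δ * Φ u f' σ * δ⁻¹ := by
  have h1 := (Pa.mem u hu f).2
  have h2 := (Pa.mem u hu f').2
  have h0 : Eqv k φ₀ φ₀ := eqv_refl k φ₀
  have hk := kc_mul H.fd h1 h0 h2 (Pa.kc u hu f) (kc_symm H.fd h2 h0 (Pa.kc u hu f'))
  have hx := en_ps D f f' (fun P hP => (hf P hP).1) (fun P hP => (hf' P hP).1) hq
  have he : u * alf D.toRD0 τ f * (u * alf D.toRD0 τ f') =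
      tu τ (pf D.toRD0 f / pf D.toRD0 f') * tu τ (tu τ (pf D.toRD0 f / pf D.toRD0 f')) *
        (u * alf D.toRD0 τ f') ^ 2 := by
    rw [map_div, map_div, en_alf D.toRD0 τ f, en_alf D.toRD0 τ f']
    generalize tu τ (pf D.toRD0 f) = a
    generalize tu τ (pf D.toRD0 f') = b
    generalize tu τ a = c
    generalize tu τ b = d
    have e1 : a / b * (c / d) = a * c / (b * d) := div_mul_div_comm _ _ _ _
    have e2 : u * (b * d) * (u * (b * d)) = b * d * (u * (u * (b * d))) := by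
      rw [mul_comm u (b * d), mul_assoc]
    rw [pow_two, e1, e2, ← mul_assoc (a * c / (b * d)) (b * d), div_mul_cancel,
      mul_comm u (a * c), mul_assoc (a * c) u]
  rw [he] at hk
  exact loc_dec H.sj H.fd H.one D.toRD0 h1 h2 _ _ hk hx Q v
    (fun P hP => (H.sf P).2 ⟨v, hv, hP⟩)

end H48.KV
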