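import Pool.Agent.H48.KV.EnA
import Pool.Agent.H48.KV.EnB
import Pool.Agent.H48.KV.Dsc
import Pool.Agent.H48.KV.Idx

/-!
# [H48 KV ENC] the discriminants of the lifts, 90-140 lines. File Pool/Agent/H48/KV/EnC.lean

* `dsc_cj`: `relDisc` of `fieldOf i₀ (δ φ δ⁻¹)` and of `fieldOf i₀ φ` are equal: `qn_rel` (H38/AS/QNk.lean), the fields are isomorphic: `fieldOf i₀ (δ φ δ⁻¹)` is the fixed field of the preimage of the stabiliser of `δ⁻¹ i₀` under `φ`; with `φ σ₀ = δ` it is the image of `fieldOf i₀ φ`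
  under `σ₀` or `σ₀⁻¹` (`qn_mem` in QNk.lean; `IntermediateField.map`, `IntermediateField.equivMap`-type; see `nk2`).
* `en_disc`: take `d` from `dsc_form` (Dsc.lean, `S = SK`, `H.fac`). For `u ∈ U` put `e u q = d (Φ u f)` for any admissible `f ≠ ∅` with `qf D f = q` (`Classical`; `1` if there is none): by the last part of `dsc_form` and `en_dec` (EnB), `en_surj` it does not depend on `f`. The hypothesis of the first part of
  `dsc_form`: for `v ∉ SK` ramified, the inertia group is mapped to `V` (`en_V`), its image is `zpowers x`, `x ∈ V`, `x ≠ 1` (`ine_cyc`, `¬ Above 2 v` from `H.two`), `idx_zp` (`MonoidHom.map`). The set `T` = the primes below the elements of `f` (`f.image` of the prime below; `v ∈ T ↔ v ∉ SK ∧ v ∈ Rm Q φ` by `en_ram` and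
  `stp_sk`; `Rm` is defined by the same condition), `∏ v ∈ T, nm v = ∏ P ∈ f, nm P` by `alf_prod`.
-/

set_option autoImplicit false

open scoped NumberField Classical
open IsDedekindDomain H38.ML H63.MA

noncomputable section

namespace H48.KV

variable {n : ℕ} {G : Subgroup (Equiv.Perm (Fin n))} {K : IntermediateField ℚ QBar}
  [NumberField K] {k : KV G} {φ₀ : Gal(QBar/K) →* G} {F : IntermediateField K QBar}
  [NumberField F] {γ : Gal(QBar/K)} {τ : F ≃ₐ[K] F} {D : RD F 2 (-1 : F)}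
  {SK : Finset (Pl K)} {Q : DP K QBar} {U : Finset Fˣ}
  {Φ : Fˣ → Finset (Pl F) → (Gal(QBar/K) →* G)}

private theorem cj_ft (φ : Gal(QBar/K) →* G) (hft : FT φ) (δ : G) :
    FT ((MulAut.conj δ).toMonoidHom.comp φ) := by
  obtain ⟨E, hE, hle⟩ := hft
  refine ⟨E, hE, fun σ hσ => ?_⟩
  have h1 : φ σ = 1 := hle hσ
  rw [MonoidHom.mem_ker]
  change MulAut.conj δ (φ σ) = 1
  rw [h1, map_one]

theorem dsc_cj (hG : MulAction.IsPretransitive G (Fin n)) (i₀ : Fin n)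
    (φ : Gal(QBar/K) →* G) (hφ : Function.Surjective φ) (hft : FT φ) (δ : G) :
    H38.ML.relDisc K (fieldOf i₀ ((MulAut.conj δ).toMonoidHom.comp φ)) =
      H38.ML.relDisc K (fieldOf i₀ φ) := by
  have hs' : Function.Surjective ((MulAut.conj δ).toMonoidHom.comp φ) :=
    (MulAut.conj δ).surjective.comp hφ
  have hne : Nonempty (fieldOf i₀ φ ≃ₐ[K] fieldOf i₀ ((MulAut.conj δ).toMonoidHom.comp φ)) := by
    obtain ⟨τ, hτ⟩ := H38.AS.qn_map G hG K i₀ φ ((MulAut.conj δ).toMonoidHom.comp φ) hφ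
      (δ : Equiv.Perm (Fin n)) (fun σ => rfl)
    rw [← hτ]
    exact ⟨IntermediateField.intermediateFieldMap τ (fieldOf i₀ φ)⟩
  exact (H38.AS.qn_rel G hG K i₀ φ _ hφ hs' hft (cj_ft φ hft δ) hne).symm

theorem en_disc (hn : 2 ≤ n) (hG : MulAction.IsPretransitive G (Fin n))
    (hI : ∀ g : G, g ≠ 1 → ind (g : Equiv.Perm (Fin n)) = indG G → g ∈ k.V)
    (H : Stp n k φ₀ F γ τ D SK Q) (hU : Reps (K := K) D.toRD0 U)
    (Pa : Par k φ₀ τ D.toRD0 U Φ) (i₀ : Fin n) :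
    ∃ e : Fˣ → (Fin D.r → ZMod 2) → ℕ, (∀ u q, 0 < e u q) ∧
      ∀ u ∈ U, ∀ f, Adm (tp τ) D.S0 f → f ≠ ∅ →
        H38.ML.relDisc K (fieldOf i₀ (Φ u f)) =
          e u (qf D.toRD0 f) * (∏ P ∈ f, nm P) ^ indG G := by
  obtain ⟨d, hd1, hd2⟩ := dsc_form hn G hG K SK H.fac Q i₀
  have hsj : ∀ u ∈ U, ∀ f, Adm (tp τ) D.S0 f → f ≠ ∅ → Function.Surjective (Φ u f) :=
    fun u hu f hf hne => en_surj H hU Pa u hu f hf hne
  have hft : ∀ u ∈ U, ∀ f, FT (Φ u f) := fun u hu f => (Pa.mem u hu f).1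
  have hexp : ∀ u ∈ U, ∀ f, Adm (tp τ) D.S0 f → ∀ v, v ∉ SK → v ∈ H38.WM.Rm Q (Φ u f) →
      n - orbs ((((Q.P v).inertia Gal(QBar/K)).map (Φ u f)).map G.subtype) = H38.ML.indG G := by
    intro u hu f hf v hv hr
    obtain ⟨x, hx, hx1, hxe⟩ := ine_cyc k Q v (fun h2 => hv (H.two v h2)) (Φ u f) (hft u hu f)
      (fun σ hσ => en_V H (Pa.mem u hu f).2 v hv σ hσ) hr
    rw [hxe]
    exact idx_zp k hn hG hI x hx hx1
  have hpos : ∀ u ∈ U, ∀ f, Adm (tp τ) D.S0 f → f ≠ ∅ → 0 < d (Φ u f) := by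
    intro u hu f hf hne
    exact (hd1 (Φ u f) (hsj u hu f hf hne) (hft u hu f) (hexp u hu f hf)).1
  refine ⟨fun u q => if h : u ∈ U ∧ ∃ f, Adm (tp τ) D.S0 f ∧ f ≠ ∅ ∧ qf D.toRD0 f = q then
    d (Φ u h.2.choose) else 1, fun u q => ?_, fun u hu f hf hne => ?_⟩
  · dsimp only
    split_ifs with h
    · exact hpos u h.1 _ h.2.choose_spec.1 h.2.choose_spec.2.1
    · exact one_pos
  · have h : u ∈ U ∧ ∃ f', Adm (tp τ) D.S0 f' ∧ f' ≠ ∅ ∧ qf D.toRD0 f' = qf D.toRD0 f :=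
      ⟨hu, f, hf, hne, rfl⟩
    dsimp only
    rw [dif_pos h]
    obtain ⟨h1, h2, h3⟩ := h.2.choose_spec
    have h4 : d (Φ u h.2.choose) = d (Φ u f) := by
      refine hd2 _ _ (hsj u hu _ h1 h2) (hft u hu _) (hsj u hu f hf hne) (hft u hu f) ?_
      intro v hv
      obtain ⟨δ, -, hδ⟩ := en_dec H Pa u hu h.2.choose f h1 hf h3 v hv
      exact ⟨δ, hδ⟩
    rw [h4]
    choose b hb using fun P : Pl F => exists_below (K := K) P
    have hT : ∀ v, v ∈ f.image b ↔ ∃ P ∈ f, Over P v := by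
      intro v
      rw [Finset.mem_image]
      constructor
      · rintro ⟨P, hP, rfl⟩
        exact ⟨P, hP, hb P⟩
      · rintro ⟨P, hP, hPv⟩
        exact ⟨P, hP, below_unique (hb P) hPv⟩
    have hT' : ∀ v, v ∈ f.image b ↔ v ∉ SK ∧ v ∈ H38.WM.Rm Q (Φ u f) := by
      intro v
      rw [hT]
      constructor
      · rintro ⟨P, hP, hPv⟩
        have hv : v ∉ SK := stp_sk H P (hf P hP).1 v hPv
        exact ⟨hv, (en_ram H hU Pa u hu f hf v hv).2 ⟨P, hP, hPv⟩⟩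
      · rintro ⟨hv, hr⟩
        exact (en_ram H hU Pa u hu f hf v hv).1 hr
    rw [(hd1 (Φ u f) (hsj u hu f hf hne) (hft u hu f) (hexp u hu f hf)).2 _ hT',
      alf_prod H.fd D.S0 f hf _ hT]

end H48.KV
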