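import Pool.Agent.H48.KV.GrpA
import Pool.Agent.H48.KV.Idx
import Pool.Agent.H38.ML.SpecBridge
import Pool.Agent.H36.RT.Final

/-!
# [H48 KV FINA] `β = 1` and the lower bound, 60-100 lines. File Pool/Agent/H48/KV/FinA.lean

* `fin_beta`: the type `{g // g ≠ 1 ∧ ind g = indG G}` of `betaAll` (H38/ML/Spec.lean) is not empty (`idx_pos`/`pidx_pos`, H38/BG/PIdx.lean: an element of least index exists), all its elements are in `V` (`hI`), so conjugate to `k.w` (`kv_psi`), so any two of them are `KConj` (`σ = 1`, `a = 1`, `h = x * g ^ 1 * x⁻¹`); the `Quot` has one element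
  (`Quot.sound`, `Nat.card_eq_one_iff_unique`). `H38.ML.indG G = Spec.indG G` and `ind` likewise are `rfl`.
* `fin_pos`: as in Pool/Agent/Results/MP_b39724_nt/LargeBaseFields.lean (do not import it, copy the proof): `H38.ML.lower_bound hn G hG V ⊥` (`T = V`, `N = ⊥`): `⁅V, V⁆ ≤ ⊥` (`V` is commutative, `kv_comm`), `GoodTower ⊥` (`r = 0`, `L = fun _ => ⊥`), `realizable_of_spec (H36.RT.realizable_all (G ⧸ ⊥))`, `LeastIn G V ⊥` is not empty
  (`orderOf g` is coprime to `Nat.card ⊥ = 1`); `nK_le_spec`, `beta_eq_betaAll`, `fin_beta` (`log B ^ 0 = 1`).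
-/

set_option autoImplicit false

open IsDedekindDomain H38.ML

noncomputable section

namespace H48.KV

variable {n : ℕ} {G : Subgroup (Equiv.Perm (Fin n))} (k : KV G)

theorem fin_beta (hn : 2 ≤ n) (hG : MulAction.IsPretransitive G (Fin n))
    (hI : ∀ g : G, g ≠ 1 → ind (g : Equiv.Perm (Fin n)) = indG G → g ∈ k.V)
    (K : IntermediateField ℚ QBar) : Spec.betaAll K QBar G = 1 := by
  unfold Spec.betaAll
  rw [Nat.card_eq_one_iff_unique]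
  refine ⟨⟨fun a b => ?_⟩, ⟨Quot.mk _ ⟨k.w, k.w1, idx_V k hn hG hI k.w k.wV k.w1⟩⟩⟩
  obtain ⟨⟨x, hx1, hx2⟩, rfl⟩ := Quot.exists_rep a
  obtain ⟨⟨y, hy1, hy2⟩, rfl⟩ := Quot.exists_rep b
  refine Quot.sound ?_
  obtain ⟨g, hg⟩ := kv_psi k (hI x hx1 hx2) hx1
  obtain ⟨h, hh⟩ := kv_psi k (hI y hy1 hy2) hy1
  refine ⟨1, 1, h⁻¹ * g, fun ζ _ => by rw [pow_one]; rfl, ?_⟩
  change y = h⁻¹ * g * x ^ 1 * (h⁻¹ * g)⁻¹
  have h1 : h⁻¹ * g * x ^ 1 * (h⁻¹ * g)⁻¹ = h⁻¹ * (g * x * g⁻¹) * h := by group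
  rw [h1, hg, ← hh]
  group

theorem fin_pos (hn : 2 ≤ n) (hG : MulAction.IsPretransitive G (Fin n))
    (hI : ∀ g : G, g ≠ 1 → ind (g : Equiv.Perm (Fin n)) = indG G → g ∈ k.V) :
    ∃ K₀ : IntermediateField ℚ QBar, NumberField K₀ ∧
      ∀ K : IntermediateField ℚ QBar, K₀ ≤ K → ∀ _ : NumberField K,
        ∃ c : ℝ, 0 < c ∧ ∃ B₀ : ℝ, ∀ B : ℝ, B₀ ≤ B →
          ((⌈c * B ^ (1 / (indG G : ℝ))⌉₊ : ℕ) : ℕ∞) ≤ Spec.nK K QBar G B := by
  have hcop : ∀ g : G, Nat.Coprime (orderOf g) (Nat.card (⊥ : Subgroup G)) := by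
    intro g
    rw [Subgroup.card_bot]
    exact Nat.coprime_one_right _
  have hVV : ⁅k.V, k.V⁆ ≤ (⊥ : Subgroup G) := by
    rw [Subgroup.commutator_le]
    intro x hx y hy
    rw [Subgroup.mem_bot, commutatorElement_eq_one_iff_mul_comm]
    exact kv_comm k hx hy
  have htow : GoodTower (⊥ : Subgroup G) := ⟨0, fun _ => ⊥, rfl, rfl, fun i hi => absurd hi (Nat.not_lt_zero i)⟩
  obtain ⟨K₀, hK₀, h⟩ := H38.ML.lower_bound hn G hG k.V ⊥ k.nV Subgroup.normal_bot hVV htow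
    (H38.ML.realizable_of_spec (H36.RT.realizable_all (G ⧸ (⊥ : Subgroup G))))
    ⟨⟨k.w, k.wV, k.w1, idx_V k hn hG hI k.w k.wV k.w1, hcop k.w⟩⟩
  refine ⟨K₀, NumberField.of_module_finite ℚ K₀, fun K hK hKf => ?_⟩
  obtain ⟨c, hc, B₀, hB⟩ := h K hK hKf.to_finiteDimensional
  refine ⟨c, hc, B₀, fun B hBB => ?_⟩
  have hb : beta G K k.V ⊥ = 1 := by
    rw [H38.ML.beta_eq_betaAll G K k.V ⊥ (fun g hg1 hg2 => ⟨hI g hg1 hg2, hcop g⟩),
      H38.ML.betaAll_eq_spec]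
    exact fin_beta k hn hG hI K
  have h2 := hB B hBB
  rw [hb, Nat.sub_self, pow_zero, mul_one] at h2
  exact h2.trans (H38.ML.nK_le_spec hn G K B)

end H48.KV
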