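import Pool.Agent.H48.KV.FinB

/-!
# [H48 KV FINC] dominated convergence, 100-150 lines (as `fin_lim` in H38/AS/Fin.lean). File Pool/Agent/H48/KV/FinC.lean

`a = indG G`, `wt`, `C` from `fin_wt` (FinB.lean). Index type: `ι = Quotient` of `{φ // FT φ ∧ Function.Surjective φ}` by `Eqv k` (an equivalence relation: `eqv_refl`, `eqv_symm`, `eqv_trans`, GrpB.lean); `r i = (Quotient.out i).1`. For different `i` the `r i` are not `Eqv`. `CS B` = the set of the theorem. Every `φ ∈ CS B` is in `XB k i₀ (r i) B` for exactly one `i`, its class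
(`XB k i₀ (r i) B = {φ ∈ CS B | class of φ = i}`).
* Summability: `∑_{i ∈ I} wt (r i) ≤ C` for all finite `I` (image of `I` under the injective map `r`), so `wt ∘ r` is summable (`summable_of_sum_le`).
* Finiteness: for `B ≥ 1` a class `i` with `XB k i₀ (r i) B ≠ ∅` has `1 ≤ wt (r i) B^(1/a)` (`Set.ncard_pos`, finite by `asy_fix`), and `∑ wt ≤ C`: there are at most `C B^(1/a)` such classes (if there were infinitely many take a finite subset of more than `C B^(1/a)` elements); `CS B` is the finite union of the finite sets `XB k i₀ (r i) B`. For `B < 1`: `CS B ⊆ CS 1`.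
* `ncard (CS B) = ∑' i, ncard (XB k i₀ (r i) B)` (`tsum_eq_sum` over the image of `CS B`, `Finset.card_eq_sum_card_image`, as in `fin_lim`), `tendsto_tsum_of_dominated_convergence` with `asy_fix` for every `r i` and the bound `wt (r i)` for `B ≥ 1`.
-/

set_option autoImplicit false

open scoped NumberField Classical
open IsDedekindDomain H38.ML H63.MA Filter Topology

noncomputable section

namespace H48.KV

/-- the classes modulo `V` -/
private theorem fc_cls {G : Type} [Group G] (k : KV G) (K : IntermediateField ℚ QBar) [NumberField K]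
    (hne : ∃ φ : Gal(QBar/K) →* G, FT φ ∧ Function.Surjective φ) :
    ∃ (ι : Type) (r : ι → (Gal(QBar/K) →* G)) (cl : (Gal(QBar/K) →* G) → ι),
      (∀ i, FT (r i) ∧ Function.Surjective (r i)) ∧ (∀ i j, Eqv k (r i) (r j) → i = j) ∧
        ∀ φ, FT φ → Function.Surjective φ → Eqv k φ (r (cl φ)) := by
  obtain ⟨φ₁, h₁⟩ := hne
  let st : Setoid {φ : Gal(QBar/K) →* G // FT φ ∧ Function.Surjective φ} :=
    ⟨fun a b => Eqv k a.1 b.1, ⟨fun a => eqv_refl k a.1, fun h => eqv_symm k h,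
      fun h h' => eqv_trans k h h'⟩⟩
  refine ⟨Quotient st, fun i => (Quotient.out i).1,
    fun φ => if h : FT φ ∧ Function.Surjective φ then Quotient.mk st ⟨φ, h⟩ else Quotient.mk st ⟨φ₁, h₁⟩,
    fun i => (Quotient.out i).2, fun i j h => ?_, fun φ h1 h2 => ?_⟩
  · rw [← Quotient.out_eq i, ← Quotient.out_eq j]
    exact Quotient.sound h
  · simp only
    rw [dif_pos ⟨h1, h2⟩]
    have h3 : Quotient.mk st (Quotient.out (Quotient.mk st ⟨φ, ⟨h1, h2⟩⟩)) = Quotient.mk st ⟨φ, ⟨h1, h2⟩⟩ :=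
      Quotient.out_eq _
    exact eqv_symm k (Quotient.exact h3)

theorem fin_lim {n : ℕ} {G : Subgroup (Equiv.Perm (Fin n))} (k : KV G) (hn : 2 ≤ n)
    (hG : MulAction.IsPretransitive G (Fin n))
    (hI : ∀ g : G, g ≠ 1 → ind (g : Equiv.Perm (Fin n)) = indG G → g ∈ k.V)
    (hnil : ∀ _ : k.V.Normal, Group.IsNilpotent (G ⧸ k.V)) (K : IntermediateField ℚ QBar)
    [NumberField K] {ω : K} (hω : IsPrimitiveRoot ω 3) (hi : MOne 2 K)
    (hcb : H38.WM.CoreBound K) (z : K) (hz : IsPrimitiveRoot z (Nat.card G)) (i₀ : Fin n) :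
    (∀ B : ℝ, {φ : Gal(QBar/K) →* G | FT φ ∧ Function.Surjective φ ∧
      (H38.ML.relDisc K (fieldOf i₀ φ) : ℝ) ≤ B}.Finite) ∧
    ∃ c : ℝ, Tendsto (fun B : ℝ => (({φ : Gal(QBar/K) →* G | FT φ ∧ Function.Surjective φ ∧
      (H38.ML.relDisc K (fieldOf i₀ φ) : ℝ) ≤ B}.ncard : ℕ) : ℝ) /
        B ^ (1 / (indG G : ℝ))) atTop (𝓝 c) := by
  obtain ⟨CS, hCS⟩ : ∃ CS : ℝ → Set (Gal(QBar/K) →* G), ∀ B, CS B = {φ : Gal(QBar/K) →* G | FT φ ∧
      Function.Surjective φ ∧ (H38.ML.relDisc K (fieldOf i₀ φ) : ℝ) ≤ B} := ⟨_, fun _ => rfl⟩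
  simp only [← hCS]
  have hmem : ∀ B φ, φ ∈ CS B ↔ FT φ ∧ Function.Surjective φ ∧
      (H38.ML.relDisc K (fieldOf i₀ φ) : ℝ) ≤ B := by
    intro B φ
    rw [hCS]
    rfl
  by_cases hne : ∃ φ : Gal(QBar/K) →* G, FT φ ∧ Function.Surjective φ
  swap
  · have h0 : ∀ B, CS B = ∅ := by
      intro B
      rw [Set.eq_empty_iff_forall_notMem]
      intro φ hφ
      rw [hmem] at hφ
      exact hne ⟨φ, hφ.1, hφ.2.1⟩
    refine ⟨fun B => ?_, 0, ?_⟩
    · rw [h0]
      exact Set.finite_empty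
    · simp only [h0, Set.ncard_empty, Nat.cast_zero, zero_div]
      exact tendsto_const_nhds
  obtain ⟨wt, hw0, ⟨C, hC⟩, hwB⟩ := fin_wt k hn hG hI hnil hω hi hcb z hz i₀
  obtain ⟨ι, r, cl, hr, hrE, hcl⟩ := fc_cls k K hne
  have hrinj : Function.Injective r := fun i j h => hrE i j (by
    rw [h]
    exact eqv_refl k _)
  have hXB : ∀ i B, XB k i₀ (r i) B = {φ ∈ CS B | cl φ = i} := by
    intro i B
    ext φ
    constructor
    · rintro ⟨h1, h2, h3, h4⟩
      refine ⟨(hmem B φ).2 ⟨h1, h2, h4⟩, ?_⟩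
      exact hrE _ _ (eqv_trans k (eqv_symm k (hcl φ h1 h2)) h3)
    · rintro ⟨h1, h2⟩
      obtain ⟨h3, h4, h5⟩ := (hmem B φ).1 h1
      refine ⟨h3, h4, ?_, h5⟩
      rw [← h2]
      exact hcl φ h3 h4
  have hsumI : ∀ I : Finset ι, ∑ i ∈ I, wt (r i) ≤ C := by
    intro I
    have h1 := hC (I.image r) (by
      intro φ hφ
      obtain ⟨i, -, rfl⟩ := Finset.mem_image.1 hφ
      exact hr i) (by
      intro φ hφ φ' hφ' h
      obtain ⟨i, -, rfl⟩ := Finset.mem_image.1 hφ
      obtain ⟨j, -, rfl⟩ := Finset.mem_image.1 hφ'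
      rw [hrE i j h])
    rw [Finset.sum_image fun i _ j _ h => hrinj h] at h1
    exact h1
  have hsm : Summable fun i => wt (r i) := summable_of_sum_le (fun i => hw0 (r i)) hsumI
  choose hXf c hc0 hc using fun i => asy_fix k hn hG hI K hi (r i) (hr i).1 (hr i).2 i₀
  -- the sets are finite
  have hfin1 : ∀ B, 1 ≤ B → (CS B).Finite := by
    intro B hB
    have hP : 0 < B ^ (1 / (indG G : ℝ)) := Real.rpow_pos_of_pos (by linarith) _
    have hIc : {i : ι | (XB k i₀ (r i) B).Nonempty}.Finite := by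
      by_contra hinf
      obtain ⟨I, hI1, hI2⟩ := Set.Infinite.exists_subset_card_eq hinf (⌊C * B ^ (1 / (indG G : ℝ))⌋₊ + 1)
      have h1 : (I.card : ℝ) ≤ ∑ i ∈ I, wt (r i) * B ^ (1 / (indG G : ℝ)) := by
        rw [Finset.card_eq_sum_ones, Nat.cast_sum]
        refine Finset.sum_le_sum fun i hi' => ?_
        have h2 : 0 < (XB k i₀ (r i) B).ncard := (Set.ncard_pos (hXf i B)).2 (hI1 hi')
        have h3 := hwB (r i) (hr i).1 (hr i).2 B hB
        have h4 : (1 : ℝ) ≤ ((XB k i₀ (r i) B).ncard : ℝ) := by exact_mod_cast h2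
        rw [Nat.cast_one]
        linarith
      rw [← Finset.sum_mul, hI2] at h1
      have h5 := mul_le_mul_of_nonneg_right (hsumI I) hP.le
      push_cast at h1
      have h6 := Nat.lt_floor_add_one (C * B ^ (1 / (indG G : ℝ)))
      linarith
    refine (hIc.biUnion fun i _ => hXf i B).subset ?_
    intro φ hφ
    have h1 : φ ∈ XB k i₀ (r (cl φ)) B := by
      rw [hXB]
      exact ⟨hφ, rfl⟩
    exact Set.mem_biUnion (show cl φ ∈ {i : ι | (XB k i₀ (r i) B).Nonempty} from ⟨φ, h1⟩) h1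
  have hfin : ∀ B, (CS B).Finite := by
    intro B
    refine (hfin1 (max B 1) (le_max_right _ _)).subset fun φ hφ => ?_
    rw [hmem] at hφ ⊢
    exact ⟨hφ.1, hφ.2.1, hφ.2.2.trans (le_max_left _ _)⟩
  refine ⟨hfin, ?_⟩
  have hsum : ∀ B : ℝ, ((CS B).ncard : ℝ) = ∑' i : ι, ((XB k i₀ (r i) B).ncard : ℝ) := by
    intro B
    rw [tsum_eq_sum (s := (hfin B).toFinset.image cl)]
    · rw [Set.ncard_eq_toFinset_card _ (hfin B), Finset.card_eq_sum_card_image cl]
      push_cast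
      refine Finset.sum_congr rfl fun i _ => ?_
      congr 1
      rw [hXB i, ← Set.ncard_coe_finset]
      congr 1
      ext φ
      simp
    · intro i hi'
      rw [hXB i]
      have : {φ ∈ CS B | cl φ = i} = ∅ := by
        rw [Set.eq_empty_iff_forall_notMem]
        rintro φ ⟨h1, h2⟩
        apply hi'
        rw [Finset.mem_image]
        exact ⟨φ, (hfin B).mem_toFinset.2 h1, h2⟩
      rw [this, Set.ncard_empty, Nat.cast_zero]
  refine ⟨∑' i, c i, ?_⟩
  have hdom := tendsto_tsum_of_dominated_convergence (𝓕 := (atTop : Filter ℝ))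
    (f := fun B i => ((XB k i₀ (r i) B).ncard : ℝ) / B ^ (1 / (indG G : ℝ))) (g := c)
    (bound := fun i => wt (r i)) hsm (fun i => hc i) (by
      filter_upwards [eventually_ge_atTop (1 : ℝ)] with B hB i
      have hP : 0 < B ^ (1 / (indG G : ℝ)) := Real.rpow_pos_of_pos (by linarith) _
      rw [Real.norm_of_nonneg (div_nonneg (Nat.cast_nonneg _) hP.le), div_le_iff₀ hP]
      exact hwB (r i) (hr i).1 (hr i).2 B hB)
  refine hdom.congr fun B => ?_
  rw [hsum B, tsum_div_const]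

end H48.KV
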