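import Pool.Agent.H48.KV.Defs

/-!
# [H48 KV GRPC] existence of the data `KV G`, 90-150 lines, pure group theory. File Pool/Agent/H48/KV/GrpC.lean

`V` normal of order 4 and exponent 2 in the finite group `G`, `G / V` nilpotent, `G` not nilpotent. Conjugation `α : G →* MulAut V`. `MulAut V` acts faithfully on the
three elements `≠ 1` of `V`, so it has at most 6 elements. `V ≤ ker α` (`V` is commutative: exponent 2). Claim: there is `g₀` such that `g₀` fixes no element `≠ 1` of `V`: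
otherwise every `α g` fixes some `x ≠ 1`, so it is `1` or a transposition of the three elements `≠ 1`, in particular `α g ^ 2 = 1` for all `g`, the range `R` of `α` is commutative of
exponent 2, and a subgroup of `S_3` of exponent 2 has at most 2 elements, so a common fixed element `x ≠ 1` exists: `{1, x}` is central in `G`, `V / {1, x}` has order 2 and is central in
`G / {1, x}`, so `G` is nilpotent (`Group.isNilpotent_of_ker_le_center` or `Subgroup` versions, twice; `isNilpotent_of_...quotient by central`): contradiction.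
The range of `α` is a quotient of the nilpotent group `G / V` (`V ≤ ker α`), so it is nilpotent; it contains an element of order 3 (`α g₀` permutes the three elements without
fixed point, so it is a 3-cycle). If it contained an element of order 2 as well it would be all of `S_3`, which is not nilpotent (an element of order 2 and one of order 3 commute in a
finite nilpotent group; in `S_3` they do not: directly, if `s` fixes `x ≠ 1`, `s ≠ 1`, and `s` commutes with `α g₀` then `s` fixes all conjugates of `x`, that is all of `V`). So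
every `α g` is `1`, `α g₀` or `α g₀ ^ 2`. Define `pi g = ofAdd j` where `α g = α g₀ ^ j`, `j : ZMod 3`. `w` = any element `≠ 1` of `V`,
`lam x = 0` if `x = 1` or `x = w`, and `1` otherwise. `cen`: `pi g = 1` means `α g = 1`. `tr`: for `x ≠ 1` the elements `x, g x g⁻¹, g² x g⁻²` are the three elements `≠ 1`.
`sep`: if `x ≠ 1` then `w ≠ g x g⁻¹` for some `g` (a conjugate different from `w` and `1`). `add`: 16 cases (`V` has the elements `1, w, w', w w'`).
-/

set_option autoImplicit false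

noncomputable section

namespace H48.KV

private theorem D1 : ∀ ρ : Equiv.Perm (Fin 3), ρ ^ 3 = 1 → ∀ i, ρ i = i + ρ 0 := by decide

private theorem D2 : ∀ ρ : Equiv.Perm (Fin 3), ρ ^ 3 = 1 → ρ ≠ 1 → ∀ i, ρ i ≠ i := by decide

private theorem D3 : ∀ ρ : Equiv.Perm (Fin 3), ρ ^ 2 = 1 ∨ ρ ^ 3 = 1 := by decide

private theorem D4 : ∀ σ τ : Equiv.Perm (Fin 3), (σ ^ 3 = 1 ∧ σ ≠ 1) → (τ ^ 2 = 1 ∧ τ ≠ 1) →
    ∀ z : Equiv.Perm (Fin 3), (z * σ = σ * z ∧ z * τ = τ * z) → z = 1 := by decide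

private theorem D5 : ∀ τ : Equiv.Perm (Fin 3), τ ^ 2 = 1 → ∃ i, τ i = i := by decide

private theorem D6 : ∀ ρ τ : Equiv.Perm (Fin 3), ρ ^ 2 = 1 → τ ^ 2 = 1 → ρ ≠ 1 → τ ≠ 1 → ρ ≠ τ →
    (ρ * τ) ^ 2 ≠ 1 := by decide

section

variable {G : Type} [Group G]

private theorem ex_psi [Finite G] (V : Subgroup G) [hV : V.Normal] (h4 : Nat.card V = 4) :
    ∃ (e : {x : V // x ≠ 1} ≃ Fin 3) (ψ : G →* Equiv.Perm (Fin 3)),
      ∀ g y, ((e.symm (ψ g (e y))).1 : G) = g * (y.1 : G) * g⁻¹ := by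
  classical
  have hc : Nat.card {x : V // x ≠ 1} = 3 := by
    have h1 : Nat.card {x : V // x = 1} + Nat.card {x : V // x ≠ 1} = Nat.card V := by
      rw [← Nat.card_sum]
      exact Nat.card_congr (Equiv.sumCompl fun x : V => x = 1)
    have h2 : Nat.card {x : V // x = 1} = 1 := by
      have : Unique {x : V // x = 1} := ⟨⟨⟨1, rfl⟩⟩, fun x => Subtype.ext x.2⟩
      exact Nat.card_unique
    omega
  obtain ⟨e⟩ : Nonempty ({x : V // x ≠ 1} ≃ Fin 3) := ⟨Finite.equivFinOfCardEq hc⟩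
  let β : MulAut V →* Equiv.Perm {x : V // x ≠ 1} :=
    { toFun := fun φ => φ.toEquiv.subtypeEquiv fun a => by
        show a ≠ 1 ↔ φ a ≠ 1
        rw [Ne, Ne, EmbeddingLike.map_eq_one_iff]
      map_one' := by
        ext x
        rfl
      map_mul' := fun φ φ' => by
        ext x
        rfl }
  refine ⟨e, (e.permCongrHom.toMonoidHom.comp β).comp MulAut.conjNormal, fun g y => ?_⟩
  have h1 : ((e.permCongrHom.toMonoidHom.comp β).comp MulAut.conjNormal) g (e y) =
      e (β (MulAut.conjNormal g) y) := by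
    show e (β (MulAut.conjNormal g) (e.symm (e y))) = _
    rw [Equiv.symm_apply_apply]
  rw [h1, Equiv.symm_apply_apply]
  show ((MulAut.conjNormal g y.1 : V) : G) = _
  rw [MulAut.conjNormal_apply]

private theorem sub_two {V : Type} [Group V] (h4 : Nat.card V = 4) (h2 : ∀ x : V, x ^ 2 = 1) (w : V)
    (hw : w ≠ 1) : ∃ H : Subgroup V, H.index = 2 ∧ ∀ y, y ∈ H ↔ y = 1 ∨ y = w := by
  classical
  have hww : w * w = 1 := by
    rw [← pow_two]
    exact h2 w
  let H : Subgroup V :=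
    { carrier := {1, w}
      mul_mem' := by
        rintro a b (rfl | rfl) (rfl | rfl)
        · left; exact mul_one 1
        · right; exact one_mul _
        · right; exact mul_one _
        · left; exact hww
      one_mem' := Or.inl rfl
      inv_mem' := by
        rintro a (rfl | rfl)
        · left; exact inv_one
        · right; exact inv_eq_of_mul_eq_one_left hww }
  have hH : ∀ y, y ∈ H ↔ y = 1 ∨ y = w := fun y => Iff.rfl
  refine ⟨H, ?_, hH⟩
  have hc : Nat.card H = 2 := by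
    have h1 : Nat.card H = Set.ncard ({1, w} : Set V) := rfl
    rw [h1, Set.ncard_pair (Ne.symm hw)]
  have h3 := H.card_mul_index
  rw [hc, h4] at h3
  omega

private theorem nil_of_fix [Finite G] (V : Subgroup G) [hV : V.Normal]
    (h4 : Nat.card V = 4) (h2 : ∀ x ∈ V, x ^ 2 = 1) (hn : Group.IsNilpotent (G ⧸ V))
    {x : G} (hx : x ∈ V) (hx1 : x ≠ 1) (hfix : ∀ g : G, g * x * g⁻¹ = x) :
    Group.IsNilpotent G := by
  classical
  obtain ⟨H, hH, hm⟩ := sub_two h4 (fun y : V => Subtype.ext (h2 y y.2)) ⟨x, hx⟩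
    (fun h => hx1 (congrArg Subtype.val h))
  have hxc : x ∈ Subgroup.center G := by
    rw [Subgroup.mem_center_iff]
    intro g
    have h := hfix g
    calc g * x = g * x * g⁻¹ * g := by group
      _ = x * g := by rw [h]
  let Z : Subgroup G := H.map V.subtype
  have hZm : ∀ z, z ∈ Z ↔ z = 1 ∨ z = x := by
    intro z
    constructor
    · rintro ⟨y, hy, rfl⟩
      rcases (hm y).1 hy with rfl | rfl
      · left; rfl
      · right; rfl
    · rintro (rfl | rfl)
      · exact Z.one_mem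
      · exact ⟨⟨z, hx⟩, (hm _).2 (Or.inr rfl), rfl⟩
  have hZc : Z ≤ Subgroup.center G := by
    intro z hz
    rcases (hZm z).1 hz with rfl | rfl
    · exact (Subgroup.center G).one_mem
    · exact hxc
  have hZn : Z.Normal := ⟨fun z hz g => by
    have h := Subgroup.mem_center_iff.1 (hZc hz) g
    rw [h, mul_assoc, mul_inv_cancel, mul_one]
    exact hz⟩
  have hZV : Z ≤ V := by
    intro z hz
    rcases (hZm z).1 hz with rfl | rfl
    · exact V.one_mem
    · exact hx
  let f : G ⧸ Z →* G ⧸ V := QuotientGroup.map Z V (MonoidHom.id G) hZV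
  have hker : f.ker ≤ Subgroup.center (G ⧸ Z) := by
    intro q hq
    obtain ⟨v, rfl⟩ := QuotientGroup.mk_surjective q
    have hv : v ∈ V := by
      have h : f (v : G ⧸ Z) = ((v : G) : G ⧸ V) := rfl
      rw [MonoidHom.mem_ker, h, QuotientGroup.eq_one_iff] at hq
      exact hq
    rw [Subgroup.mem_center_iff]
    intro r
    obtain ⟨g, rfl⟩ := QuotientGroup.mk_surjective r
    rw [← QuotientGroup.mk_mul, ← QuotientGroup.mk_mul, QuotientGroup.eq]
    have h5 : (g * v)⁻¹ * (v * g) = (g⁻¹ * v * g)⁻¹ ^ 1 * (g⁻¹ * v * g) *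
        (v⁻¹ * (g⁻¹ * v * g)) := by group
    have hgv : g⁻¹ * v * g ∈ V := by
      have h := hV.conj_mem v hv g⁻¹
      rwa [inv_inv] at h
    have h6 : (g * v)⁻¹ * (v * g) = v⁻¹ * (g⁻¹ * v * g) := by group
    rw [h6]
    refine ⟨(⟨v, hv⟩ : V)⁻¹ * ⟨g⁻¹ * v * g, hgv⟩, ?_, rfl⟩
    have h7 := Subgroup.mul_mem_iff_of_index_two hH (a := (⟨v, hv⟩ : V)⁻¹)
      (b := ⟨g⁻¹ * v * g, hgv⟩)
    refine h7.2 ?_
    rw [inv_mem_iff, hm, hm]
    constructor
    · rintro (h | h)
      · left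
        have h8 : v = 1 := congrArg Subtype.val h
        apply Subtype.ext
        show g⁻¹ * v * g = 1
        rw [h8]
        group
      · right
        have h8 : v = x := congrArg Subtype.val h
        apply Subtype.ext
        show g⁻¹ * v * g = x
        have h9 := hfix g⁻¹
        rw [inv_inv] at h9
        rw [h8, h9]
    · rintro (h | h)
      · left
        have h8 : g⁻¹ * v * g = 1 := congrArg Subtype.val h
        apply Subtype.ext
        show v = 1
        calc v = g * (g⁻¹ * v * g) * g⁻¹ := by group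
          _ = 1 := by rw [h8]; group
      · right
        have h8 : g⁻¹ * v * g = x := congrArg Subtype.val h
        apply Subtype.ext
        show v = x
        calc v = g * (g⁻¹ * v * g) * g⁻¹ := by group
          _ = x := by rw [h8, hfix]
  have := hn
  have h10 : Group.IsNilpotent (G ⧸ Z) := Subgroup.isNilpotent_of_ker_le_center f hker
  refine Subgroup.isNilpotent_of_ker_le_center (QuotientGroup.mk' Z) ?_
  rw [QuotientGroup.ker_mk']
  exact hZc

private theorem no_fix_iff (V : Subgroup G) (e : {x : V // x ≠ 1} ≃ Fin 3)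
    (ψ : G →* Equiv.Perm (Fin 3))
    (hψ : ∀ g y, ((e.symm (ψ g (e y))).1 : G) = g * (y.1 : G) * g⁻¹) (g : G)
    (y : {x : V // x ≠ 1}) : ψ g (e y) = e y ↔ g * (y.1 : G) * g⁻¹ = y.1 := by
  constructor
  · intro h
    rw [← hψ, h, Equiv.symm_apply_apply]
  · intro h
    have h1 : e.symm (ψ g (e y)) = y := by
      apply Subtype.ext
      apply Subtype.ext
      rw [hψ, h]
    exact e.symm_apply_eq.1 h1

end

theorem kv_ex {G : Type} [Group G] [Finite G] (V : Subgroup G) [hV : V.Normal]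
    (h4 : Nat.card V = 4) (h2 : ∀ x ∈ V, x ^ 2 = 1) (hn : Group.IsNilpotent (G ⧸ V))
    (hnn : ¬ Group.IsNilpotent G) : ∃ k : KV G, k.V = V := by
  classical
  obtain ⟨e, ψ, hψ⟩ := ex_psi V h4
  have hsq : ∀ x ∈ V, x * x = 1 := fun x hx => by
    rw [← pow_two]
    exact h2 x hx
  have hinv : ∀ x ∈ V, x⁻¹ = x := fun x hx => inv_eq_of_mul_eq_one_left (hsq x hx)
  have hcomm : ∀ x ∈ V, ∀ y ∈ V, x * y = y * x := by
    intro x hx y hy
    have h := hinv _ (V.mul_mem hx hy)
    rw [mul_inv_rev, hinv x hx, hinv y hy] at h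
    exact h.symm
  have hfix := no_fix_iff V e ψ hψ
  have htriv : ∀ g, ψ g = 1 → ∀ x ∈ V, g * x * g⁻¹ = x := by
    intro g hg x hx
    by_cases hx1 : x = 1
    · rw [hx1]
      group
    · have h := (hfix g ⟨⟨x, hx⟩, fun h => hx1 (congrArg Subtype.val h)⟩).1 (by rw [hg]; rfl)
      exact h
  have hVk : V ≤ ψ.ker := by
    intro v hv
    rw [MonoidHom.mem_ker]
    ext1 i
    obtain ⟨y, rfl⟩ := e.surjective i
    show ψ v (e y) = e y
    rw [hfix, hcomm v hv _ y.1.2, mul_assoc, mul_inv_cancel, mul_one]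
  have hRn : Group.IsNilpotent ψ.range := by
    have := hn
    let f : G ⧸ V →* ψ.range := QuotientGroup.lift V ψ.rangeRestrict (by
      intro v hv
      apply Subtype.ext
      exact hVk hv)
    refine Group.nilpotent_of_surjective f ?_
    rintro ⟨_, g, rfl⟩
    exact ⟨(g : G ⧸ V), rfl⟩
  -- no order 3 leads to a fixed point
  have hex : ∃ g₀, (ψ g₀) ^ 3 = 1 ∧ ψ g₀ ≠ 1 := by
    by_contra hno
    push Not at hno
    have hall : ∀ g, (ψ g) ^ 2 = 1 := by
      intro g
      rcases D3 (ψ g) with h | h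
      · exact h
      · rw [hno g h]
        exact one_pow 2
    obtain ⟨i, hi⟩ : ∃ i, ∀ g, ψ g i = i := by
      by_cases ht : ∀ g, ψ g = 1
      · exact ⟨0, fun g => by rw [ht]; rfl⟩
      · push Not at ht
        obtain ⟨τ, hτ⟩ := ht
        obtain ⟨i, hi⟩ := D5 _ (hall τ)
        refine ⟨i, fun g => ?_⟩
        by_cases h1 : ψ g = 1
        · rw [h1]
          rfl
        by_cases h3 : ψ g = ψ τ
        · rw [h3, hi]
        · exfalso
          apply D6 _ _ (hall g) (hall τ) h1 hτ h3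
          rw [← map_mul]
          exact hall _
    refine hnn (nil_of_fix V h4 h2 hn (x := ((e.symm i).1 : G)) (e.symm i).1.2
      (fun h => (e.symm i).2 (Subtype.ext h)) fun g => ?_)
    refine (hfix g (e.symm i)).1 ?_
    rw [Equiv.apply_symm_apply, hi]
  obtain ⟨g₀, hg3, hg1⟩ := hex
  have hno2 : ∀ g, (ψ g) ^ 2 = 1 → ψ g = 1 := by
    intro g hg
    by_contra hg'
    have : Nontrivial ψ.range := ⟨⟨⟨ψ g₀, g₀, rfl⟩, 1, fun h => hg1 (congrArg Subtype.val h)⟩⟩
    have hcb := Group.IsNilpotent.center_ne_bot (G := ψ.range)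
    obtain ⟨⟨z, hz⟩, hz1⟩ := Subgroup.ne_bot_iff_exists_ne_one.1 hcb
    rw [Subgroup.mem_center_iff] at hz
    have e1 := congrArg Subtype.val (hz ⟨ψ g₀, g₀, rfl⟩)
    have e2 := congrArg Subtype.val (hz ⟨ψ g, g, rfl⟩)
    have e3 := D4 _ _ ⟨hg3, hg1⟩ ⟨hg, hg'⟩ z.1 ⟨e1.symm, e2.symm⟩
    exact hz1 (Subtype.ext (Subtype.ext e3))
  have hR3 : ∀ g, (ψ g) ^ 3 = 1 := by
    intro g
    rcases D3 (ψ g) with h | h
    · rw [hno2 g h]
      exact one_pow 3
    · exact h
  let pi : G →* Multiplicative (ZMod 3) :=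
    { toFun := fun g => Multiplicative.ofAdd (ψ g 0 : ZMod 3)
      map_one' := by
        rw [map_one]
        rfl
      map_mul' := fun g h => by
        rw [map_mul]
        show Multiplicative.ofAdd ((ψ g (ψ h 0) : Fin 3) : ZMod 3) = _
        rw [D1 (ψ g) (hR3 g) (ψ h 0), ← ofAdd_add]
        congr 1
        exact add_comm _ _ }
  have hpi : ∀ g, pi g = 1 ↔ ψ g = 1 := by
    intro g
    constructor
    · intro h
      have h0 : ψ g 0 = 0 := h
      ext1 i
      rw [D1 _ (hR3 g) i, h0, add_zero]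
      rfl
    · intro h
      show Multiplicative.ofAdd (ψ g 0 : ZMod 3) = 1
      rw [h]
      rfl
  have hnf : ∀ g, ψ g ≠ 1 → ∀ x ∈ V, g * x * g⁻¹ = x → x = 1 := by
    intro g hg x hx h
    by_contra hx1
    have h3 := (hfix g ⟨⟨x, hx⟩, fun h => hx1 (congrArg Subtype.val h)⟩).2 h
    exact D2 _ (hR3 g) hg _ h3
  have hne : ∃ w : V, w ≠ 1 := ⟨(e.symm 0).1, (e.symm 0).2⟩
  obtain ⟨w, hw⟩ := hne
  obtain ⟨H, hH, hm⟩ := sub_two h4 (fun y : V => Subtype.ext (h2 y y.2)) w hw
  have hlam : ∃ lam : G → ZMod 2, ∀ x (hx : x ∈ V), lam x = if (⟨x, hx⟩ : V) ∈ H then 0 else 1 :=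
    ⟨fun x => if hx : x ∈ V then (if (⟨x, hx⟩ : V) ∈ H then 0 else 1) else 0,
      fun x hx => dif_pos hx⟩
  obtain ⟨lam, hl⟩ := hlam
  have hadd : ∀ x ∈ V, ∀ y ∈ V, lam (x * y) = lam x + lam y := by
    intro x hx y hy
    have h := Subgroup.mul_mem_iff_of_index_two hH (a := (⟨x, hx⟩ : V)) (b := ⟨y, hy⟩)
    have h' : (⟨x * y, V.mul_mem hx hy⟩ : V) ∈ H ↔ ((⟨x, hx⟩ : V) ∈ H ↔ (⟨y, hy⟩ : V) ∈ H) := h
    rw [hl _ (V.mul_mem hx hy), hl x hx, hl y hy]
    by_cases h1 : (⟨x, hx⟩ : V) ∈ H <;> by_cases h3 : (⟨y, hy⟩ : V) ∈ H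
    · rw [if_pos (h'.2 (iff_of_true h1 h3)), if_pos h1, if_pos h3]
      rfl
    · rw [if_neg (fun h4 => h3 ((h'.1 h4).1 h1)), if_pos h1, if_neg h3]
      rfl
    · rw [if_neg (fun h4 => h1 ((h'.1 h4).2 h3)), if_neg h1, if_pos h3]
      rfl
    · rw [if_pos (h'.2 (iff_of_false h1 h3)), if_neg h1, if_neg h3]
      rfl
  have hl1 : lam 1 = 0 := by
    rw [hl 1 V.one_mem, if_pos]
    exact H.one_mem
  have hcj : ∀ (g : G), ∀ x ∈ V, g * x * g⁻¹ ∈ V := fun g x hx => hV.conj_mem x hx g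
  have htr : ∀ g : G, ψ g ≠ 1 → ∀ x ∈ V,
      lam x + lam (g * x * g⁻¹) + lam (g ^ 2 * x * (g ^ 2)⁻¹) = 0 := by
    intro g hg x hx
    have h5 := hcj g x hx
    have h6 := hcj (g ^ 2) x hx
    have h7 := hcj (g ^ 3) x hx
    have h8 : x * (g * x * g⁻¹) * (g ^ 2 * x * (g ^ 2)⁻¹) = 1 := by
      refine hnf g hg _ (V.mul_mem (V.mul_mem hx h5) h6) ?_
      have e1 : g * (x * (g * x * g⁻¹) * (g ^ 2 * x * (g ^ 2)⁻¹)) * g⁻¹ =
          (g * x * g⁻¹) * (g ^ 2 * x * (g ^ 2)⁻¹) * (g ^ 3 * x * (g ^ 3)⁻¹) := by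
        rw [pow_succ g 2, pow_two]
        group
      have e2 : g ^ 3 * x * (g ^ 3)⁻¹ = x := htriv _ (by rw [map_pow]; exact hR3 g) x hx
      rw [e1, e2, hcomm _ (V.mul_mem h5 h6) _ hx]
      exact (mul_assoc _ _ _).symm
    rw [← hadd _ hx _ h5, ← hadd _ (V.mul_mem hx h5) _ h6, h8, hl1]
  have hHx : ∀ x (hx : x ∈ V), lam x = 0 → x = 1 ∨ x = w := by
    intro x hx h
    rw [hl x hx] at h
    by_cases h1 : (⟨x, hx⟩ : V) ∈ H
    · rcases (hm _).1 h1 with h3 | h3
      · left
        exact congrArg Subtype.val h3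
      · right
        exact congrArg Subtype.val h3
    · rw [if_neg h1] at h
      exact absurd h (by decide)
  refine ⟨{ V := V, nV := hV, pi := pi, sj := ?_, piV := ?_, cen := ?_, lam := lam, add := hadd,
            tr := ?_, sep := ?_, w := w, wV := w.2, w1 := fun h => hw (Subtype.ext h), lw := ?_ }, rfl⟩
  · have hz : ∀ a : Multiplicative (ZMod 3), a ≠ 1 → ∀ b, b = 1 ∨ b = a ∨ b = a ^ 2 := by decide
    intro b
    have hg0 : pi g₀ ≠ 1 := fun h => hg1 ((hpi _).1 h)
    rcases hz _ hg0 b with h | h | h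
    · exact ⟨1, by rw [map_one, h]⟩
    · exact ⟨g₀, h.symm⟩
    · exact ⟨g₀ ^ 2, by rw [map_pow, h]⟩
  · intro x hx
    exact (hpi x).2 (hVk hx)
  · intro g hg x hx
    exact htriv g ((hpi g).1 hg) x hx
  · intro g hg x hx
    exact htr g (fun h => hg ((hpi g).2 h)) x hx
  · intro x hx h
    by_contra hx1
    have hc1 : ∀ g : G, g * x * g⁻¹ = w := by
      intro g
      rcases hHx _ (hcj g x hx) (h g) with h3 | h3
      · exfalso
        apply hx1
        calc x = g⁻¹ * (g * x * g⁻¹) * g := by group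
          _ = 1 := by rw [h3]; group
      · exact h3
    have hxw := hc1 1
    rw [one_mul, inv_one, mul_one] at hxw
    have h5 := hc1 g₀
    rw [← hxw] at h5
    exact hx1 (hnf g₀ hg1 x hx h5)
  · rw [hl _ w.2, if_pos]
    exact (hm _).2 (Or.inr rfl)

end H48.KV
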