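import Pool.Agent.H48.KV.FinA
import Pool.Agent.H48.KV.FinC
import Pool.Agent.H48.KV.GrpC
import Pool.Agent.H38.AS.QNk
import Pool.Agent.H38.BG.AKn

/-!
# [H48 KV FIND] the final theorem, 80-120 lines (as `fin_gen` in H38/AS/Fin.lean). File Pool/Agent/H48/KV/FinD.lean

`kv_ex` (GrpC.lean) gives `k` with `k.V = V` (`subst`). `K₀ = K₁ ⊔ K₂`, `K₁` from `akn G` (H38/BG/AKn.lean: a primitive root of unity `z` of order `#G` and `i` with `i^2 = -1` in `K`, so `MOne 2 K`), `K₂` from `fin_pos` (FinA.lean). `3 ∣ #G` (`k.pi` is surjective onto a group of order 3: `Subgroup.card_dvd_of_surjective` or similar), so `ω = z ^ (#G / 3)` is a primitive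
cube root of unity (`IsPrimitiveRoot.pow`). `hcb K ω hω`. `i₀ = ⟨0, _⟩`. `fin_lim` (FinC.lean), `nk2 G hG` (H38/AS/QNk.lean), `fin_beta` (`log ^ 0 = 1`), positivity by `fin_pos`, all as in the proof of `fin_gen` in Pool/Agent/H38/AS/Fin.lean.
-/

set_option autoImplicit false

open scoped NumberField Classical
open IsDedekindDomain H38.ML H63.MA Filter Topology

noncomputable section

namespace H48.KV

theorem kv_main
    (hcb : ∀ (K : IntermediateField ℚ QBar) (_ : NumberField K) (ω : K),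
      IsPrimitiveRoot ω 3 → H38.WM.CoreBound K)
    {n : ℕ} (hn : 2 ≤ n) (G : Subgroup (Equiv.Perm (Fin n)))
    (hG : MulAction.IsPretransitive G (Fin n)) (V : Subgroup G) (hV : V.Normal)
    (h4 : Nat.card V = 4) (h2 : ∀ x ∈ V, x ^ 2 = 1) (hnil : Group.IsNilpotent (G ⧸ V))
    (hnn : ¬ Group.IsNilpotent G)
    (hI : ∀ g : G, g ≠ 1 → ind (g : Equiv.Perm (Fin n)) = indG G → g ∈ V) :
    ∃ K₀ : IntermediateField ℚ QBar, NumberField K₀ ∧
      ∀ K : IntermediateField ℚ QBar, K₀ ≤ K → ∀ _ : NumberField K,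
        ∃ C : ℝ, 0 < C ∧ ∃ k : ℝ → ℕ, (∀ B : ℝ, Spec.nK K QBar G B = (k B : ℕ∞)) ∧
          Tendsto (fun B : ℝ => (k B : ℝ) /
            (B ^ (1 / (Spec.indG G : ℝ)) * Real.log B ^ (Spec.betaAll K QBar G - 1)))
            atTop (𝓝 C) := by
  have := hV
  obtain ⟨k, hk⟩ := kv_ex V h4 h2 hnil hnn
  subst hk
  obtain ⟨ha, -, -, -, -⟩ := H38.BG.pidx_pos hn G hG
  have hcardpos : 0 < Nat.card G := Nat.card_pos
  have h3 : 3 ∣ Nat.card G := by
    have h5 := Subgroup.card_dvd_of_surjective k.pi k.sj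
    rwa [Nat.card_eq_fintype_card (α := Multiplicative (ZMod 3)), Fintype.card_multiplicative,
      ZMod.card] at h5
  have i₀ : Fin n := ⟨0, by omega⟩
  obtain ⟨c₀, hc₀, hnk⟩ := H38.AS.nk2 G hG
  obtain ⟨K₁, hK₁, hK1⟩ := H38.BG.akn G
  obtain ⟨K₂, hK₂, hK2⟩ := fin_pos k hn hG hI
  have : FiniteDimensional ℚ K₁ := hK₁.to_finiteDimensional
  have : FiniteDimensional ℚ K₂ := hK₂.to_finiteDimensional
  refine ⟨K₁ ⊔ K₂, numberField_of_finite _, fun K hKK hKf => ?_⟩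
  obtain ⟨-, ⟨z, hz⟩, i, hi⟩ := hK1 K (le_sup_left.trans hKK) hKf
  obtain ⟨c₁, hc₁, B₀, hlow⟩ := hK2 K (le_sup_right.trans hKK) hKf
  obtain ⟨r, hr⟩ := h3
  have hω : IsPrimitiveRoot (z ^ r) 3 := hz.pow hcardpos (by rw [hr]; ring)
  obtain ⟨hfin, c, hcl⟩ := fin_lim k hn hG hI (fun _ => hnil) K hω ⟨i, hi⟩
    (hcb K hKf (z ^ r) hω) z hz i₀
  have hβ := fin_beta k hn hG hI K
  have hkk : ∀ B : ℝ, ∃ k' : ℕ, Spec.nK K QBar G B = (k' : ℕ∞) ∧
      k' * c₀ = ({φ : Gal(QBar/K) →* G | FT φ ∧ Function.Surjective φ ∧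
        (H38.ML.relDisc K (fieldOf i₀ φ) : ℝ) ≤ B}).ncard := fun B => hnk K hKf i₀ B (hfin B)
  choose k' hk1 hk2 using hkk
  have hc₀R : (0 : ℝ) < (c₀ : ℝ) := by exact_mod_cast hc₀
  have hlim : Tendsto (fun B : ℝ => (k' B : ℝ) /
        (B ^ (1 / (Spec.indG G : ℝ)) * Real.log B ^ (Spec.betaAll K QBar G - 1)))
        atTop (𝓝 (c / (c₀ : ℝ))) := by
    refine (hcl.div_const (c₀ : ℝ)).congr fun B => ?_
    rw [← hk2 B, hβ]
    push_cast
    have : H38.ML.indG G = Spec.indG G := rfl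
    rw [this, pow_zero, mul_one]
    field_simp
  refine ⟨c / (c₀ : ℝ), ?_, k', hk1, hlim⟩
  refine lt_of_lt_of_le hc₁ (ge_of_tendsto hlim ?_)
  filter_upwards [eventually_ge_atTop B₀, eventually_gt_atTop 1] with B hB hB1
  have h1 := hlow B hB
  rw [hk1 B] at h1
  have h2 : (⌈c₁ * B ^ (1 / (indG G : ℝ))⌉₊ : ℕ) ≤ k' B := by exact_mod_cast h1
  have h3 : c₁ * B ^ (1 / (indG G : ℝ)) ≤ (k' B : ℝ) :=
    (Nat.le_ceil _).trans (by exact_mod_cast h2)
  rw [hβ, pow_zero, mul_one]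
  have hP : 0 < B ^ (1 / (Spec.indG G : ℝ)) := Real.rpow_pos_of_pos (by linarith) _
  rw [le_div_iff₀ hP]
  exact h3

end H48.KV
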