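import Pool.Agent.H48.KV.GrpB
import Pool.Agent.H38.ML.Factor

/-!
# [H48 KV FLDA] the cyclic cubic field of a homomorphism, 80-120 lines. File Pool/Agent/H48/KV/FldA.lean

* `fd_ex`: `U = ker (k.pi ∘ φ₀)`, `F = IntermediateField.fixedField U`. `H38.ML.fixing_fixedField` (H38/ML/Factor.lean): `F.fixingSubgroup = U`, `F` finite over `K`. `U` is normal, so
  `F/K` is Galois (`InfiniteGalois.normal_iff_isGalois`, see the proof of `factor` in the same file). `finrank K F = 3`: the index of `U` is 3 (`k.sj`, `φ₀` surjective);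
  `Gal(F/K)` is the quotient of `Gal(QBar/K)` by `F.fixingSubgroup` (`IntermediateField.restrictNormalHom_ker`, `AlgEquiv.restrictNormalHom_surjective`,
  `IsGalois.card_aut_eq_finrank`; see H38/WM/Nsq.lean, EvR.lean for similar arguments). `γ` with `k.pi (φ₀ γ) ≠ 1` (`k.sj`), `τ = γ.restrictNormal F`
  (`AlgEquiv.restrictNormal_commutes`).
* `fd_eqv`: `FD` only depends on `k.pi ∘ φ₀` (`eqv_pi`).
* `fd_cube`: `γ³` is in `F.fixingSubgroup` (`Multiplicative (ZMod 3)` has exponent 3), apply `fd.res` three times.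
* `fd_pi`: an automorphism of `QBar/F` restricts to an element of `F.fixingSubgroup`.
-/

set_option autoImplicit false

open scoped NumberField
open IsDedekindDomain H38.ML H63.MA

noncomputable section

namespace H48.KV

variable {K : IntermediateField ℚ QBar} [NumberField K] {G : Type} [Group G] (k : KV G)

theorem fd_ex (φ₀ : Gal(QBar/K) →* G) (hft : FT φ₀) (hs : Function.Surjective φ₀) :
    ∃ (F : IntermediateField K QBar) (γ : Gal(QBar/K)) (τ : F ≃ₐ[K] F), FD k φ₀ F γ τ := by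
  obtain ⟨M, hfd, hgal, e, he, hρ⟩ := factor (k.pi.comp φ₀) (ft_comp k.pi φ₀ hft)
  have hsurj : Function.Surjective e := by
    intro x
    obtain ⟨g, hg⟩ := k.sj x
    obtain ⟨σ, hσ⟩ := hs g
    refine ⟨res M σ, ?_⟩
    rw [hρ, MonoidHom.comp_apply, hσ, hg]
  have hcard : Nat.card Gal(M/K) = 3 := by
    rw [Nat.card_congr (Equiv.ofBijective e ⟨he, hsurj⟩), Nat.card_eq_fintype_card]
    rfl
  obtain ⟨g, hg⟩ := k.sj (Multiplicative.ofAdd 1)
  obtain ⟨γ, hγ⟩ := hs g
  have hne1 : (Multiplicative.ofAdd (1 : ZMod 3)) ≠ 1 := by decide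
  refine ⟨M, γ, AlgEquiv.restrictNormal γ M, ?_, hgal, fun σ => ?_, ?_, fun x => ?_⟩
  · rw [← IsGalois.card_aut_eq_finrank, hcard]
  · rw [← IntermediateField.restrictNormalHom_ker M, MonoidHom.mem_ker]
    have h1 : e (res M σ) = k.pi (φ₀ σ) := by rw [hρ, MonoidHom.comp_apply]
    rw [← h1]
    constructor
    · intro h2
      have h3 : res M σ = 1 := h2
      rw [h3, map_one]
    · intro h2
      exact he (by rw [h2, map_one])
  · rw [hγ, hg]
    exact hne1
  · exact (AlgEquiv.restrictNormal_commutes γ M x).symm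

variable {k}

theorem fd_nf {φ₀ : Gal(QBar/K) →* G} {F : IntermediateField K QBar} {γ : Gal(QBar/K)}
    {τ : F ≃ₐ[K] F} (h : FD k φ₀ F γ τ) : NumberField F := by
  have hfd : FiniteDimensional K F := by
    apply FiniteDimensional.of_finrank_pos
    rw [h.deg]
    norm_num
  exact NumberField.of_module_finite K F

theorem fd_eqv {φ₀ φ : Gal(QBar/K) →* G} {F : IntermediateField K QBar} {γ : Gal(QBar/K)}
    {τ : F ≃ₐ[K] F} (h : FD k φ₀ F γ τ) (he : Eqv k φ φ₀) : FD k φ F γ τ where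
  deg := h.deg
  gal := h.gal
  fix σ := by rw [h.fix, eqv_pi k he]
  ga := by rw [eqv_pi k he]; exact h.ga
  res := h.res

theorem fd_cube {φ₀ : Gal(QBar/K) →* G} {F : IntermediateField K QBar} {γ : Gal(QBar/K)}
    {τ : F ≃ₐ[K] F} (h : FD k φ₀ F γ τ) (x : F) : τ (τ (τ x)) = x := by
  have h1 : γ ^ 3 ∈ F.fixingSubgroup := by
    rw [h.fix, map_pow, map_pow]
    have : ∀ y : Multiplicative (ZMod 3), y ^ 3 = 1 := by decide
    exact this _
  rw [IntermediateField.mem_fixingSubgroup_iff] at h1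
  apply Subtype.ext
  rw [← h.res, ← h.res, ← h.res]
  have h2 := h1 (x : QBar) x.2
  rw [pow_succ, pow_two] at h2
  exact h2

theorem fd_pi {φ₀ : Gal(QBar/K) →* G} {F : IntermediateField K QBar} {γ : Gal(QBar/K)}
    {τ : F ≃ₐ[K] F} (h : FD k φ₀ F γ τ) (σ : Gal(QBar/F)) :
    k.pi (φ₀ (σ.restrictScalars K)) = 1 := by
  rw [← h.fix, IntermediateField.mem_fixingSubgroup_iff]
  intro x hx
  exact σ.commutes ⟨x, hx⟩

end H48.KV
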