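import Pool.Agent.H48.KV.FldA

/-!
# [H48 KV FLDB] norms in the cyclic cubic field, 60-100 lines. File Pool/Agent/H48/KV/FldB.lean

* `fd_norm`: `Algebra.norm_eq_prod_automorphisms` (`IsGalois K F` from `h.gal`; `FiniteDimensional` from `h.deg`), and the automorphisms of `F/K` are `1, τ, τ²`: they are pairwise
  different (`τ ≠ 1`: otherwise `γ ∈ F.fixingSubgroup`, but `h.ga`; `τ² ≠ 1` because `τ³ = 1`, `fd_cube`), and there are `finrank K F = 3` of them (`IsGalois.card_aut_eq_finrank`).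
* `fd_sq1`: if `norm a = c²` then `a · τ a · τ² a` is the square of the image of `c`.
* `fd_sq2`: if `a · τ a · τ² a = b²` with `b ∈ Fˣ`, `n = norm a ∈ K`, then `n³ = norm (algebraMap n) = norm (b²) = (norm b)²`, so `n = (norm b / n)²`. (See the end of H38/WM/Nsq.lean.)
* `fd_alf`: `a = alf D τ f = c (τ c)⁻¹ ...`: with `c = ∏ P ∈ f, D.pi P` one has `alf D τ f = τ c · τ² c`, so `a · τ a · τ² a = (c · τ c · τ² c)²` (`fd_cube`), use `fd_sq2`.
-/

set_option autoImplicit false

open scoped NumberField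
open IsDedekindDomain H38.ML H63.MA

noncomputable section

namespace H48.KV

variable {K : IntermediateField ℚ QBar} [NumberField K] {G : Type} [Group G] {k : KV G}
  {φ₀ : Gal(QBar/K) →* G} {F : IntermediateField K QBar} {γ : Gal(QBar/K)} {τ : F ≃ₐ[K] F}

private theorem fdb_ne (h : FD k φ₀ F γ τ) : ∃ y : F, τ y ≠ y := by
  by_contra hno
  push Not at hno
  refine h.ga ((h.fix γ).1 ?_)
  rw [IntermediateField.mem_fixingSubgroup_iff]
  intro x hx
  have h1 := h.res ⟨x, hx⟩
  rw [hno] at h1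
  exact h1

theorem fd_norm (h : FD k φ₀ F γ τ) (x : F) :
    algebraMap K F (Algebra.norm K x) = x * τ x * τ (τ x) := by
  classical
  haveI := h.gal
  haveI : FiniteDimensional K F := Module.finite_of_finrank_pos (by rw [h.deg]; norm_num)
  obtain ⟨y, hy⟩ := fdb_ne h
  have h3 := fd_cube h y
  have e1 : (1 : F ≃ₐ[K] F) ≠ τ := by
    intro e
    apply hy
    rw [← e]
    rfl
  have e2 : (1 : F ≃ₐ[K] F) ≠ τ * τ := by
    intro e
    apply hy
    have h4 : τ (τ (τ y)) = τ y := by
      have h5 : τ (τ (τ y)) = (τ * τ) (τ y) := rfl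
      rw [h5, ← e]
      rfl
    rw [← h4, h3]
  have e3 : τ ≠ τ * τ := by
    intro e
    apply hy
    have h4 : τ y = τ (τ y) := by
      conv_lhs => rw [e]
      rfl
    exact (τ.injective h4).symm
  have hcard : Fintype.card (F ≃ₐ[K] F) = 3 := by
    rw [← Nat.card_eq_fintype_card, IsGalois.card_aut_eq_finrank, h.deg]
  have hu : ({1, τ, τ * τ} : Finset (F ≃ₐ[K] F)) = Finset.univ := by
    apply Finset.eq_univ_of_card
    rw [hcard, Finset.card_insert_of_notMem, Finset.card_insert_of_notMem, Finset.card_singleton]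
    · rw [Finset.mem_singleton]
      exact e3
    · rw [Finset.mem_insert, Finset.mem_singleton]
      rintro (e | e)
      · exact e1 e
      · exact e2 e
  rw [Algebra.norm_eq_prod_automorphisms, ← hu, Finset.prod_insert, Finset.prod_insert,
    Finset.prod_singleton]
  · change x * (τ x * τ (τ x)) = _
    ring
  · rw [Finset.mem_singleton]
    exact e3
  · rw [Finset.mem_insert, Finset.mem_singleton]
    rintro (e | e)
    · exact e1 e
    · exact e2 e

theorem fd_sq1 (h : FD k φ₀ F γ τ) (a : Fˣ) (hn : IsSquare (Algebra.norm K (a : F))) :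
    ∃ b : Fˣ, a * tu τ a * tu τ (tu τ a) = b ^ 2 := by
  obtain ⟨c, hc⟩ := hn
  have h1 := fd_norm h (a : F)
  rw [hc, map_mul] at h1
  have h2 : (a : F) * τ a * τ (τ a) ≠ 0 := by
    refine mul_ne_zero (mul_ne_zero a.ne_zero ?_) ?_
    · exact (map_ne_zero τ).2 a.ne_zero
    · exact (map_ne_zero τ).2 ((map_ne_zero τ).2 a.ne_zero)
  have h3 : algebraMap K F c ≠ 0 := by
    intro h4
    rw [h4, mul_zero] at h1
    exact h2 h1.symm
  refine ⟨Units.mk0 _ h3, Units.ext ?_⟩
  change (a : F) * τ a * τ (τ a) = (algebraMap K F c) ^ 2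
  rw [← h1, sq]

theorem fd_sq2 (h : FD k φ₀ F γ τ) (a b : Fˣ) (hb : a * tu τ a * tu τ (tu τ a) = b ^ 2) :
    IsSquare (Algebra.norm K (a : F)) := by
  haveI : FiniteDimensional K F := Module.finite_of_finrank_pos (by rw [h.deg]; norm_num)
  have h1 := fd_norm h (a : F)
  have h2 : (a : F) * τ a * τ (τ a) = (b : F) ^ 2 := congrArg Units.val hb
  rw [h2] at h1
  have h3 : (Algebra.norm K (a : F)) ^ 3 = (Algebra.norm K (b : F)) ^ 2 := by
    have h4 := congrArg (Algebra.norm K) h1
    rw [Algebra.norm_algebraMap, h.deg, map_pow] at h4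
    exact h4
  have h5 : Algebra.norm K (a : F) ≠ 0 := by
    rw [Algebra.norm_ne_zero_iff]
    exact a.ne_zero
  refine ⟨Algebra.norm K (b : F) / Algebra.norm K (a : F), ?_⟩
  field_simp
  rw [← h3]

theorem tu_cube (h : FD k φ₀ F γ τ) (a : Fˣ) : tu τ (tu τ (tu τ a)) = a :=
  Units.ext (fd_cube h (a : F))

theorem fd_alf [NumberField F] (h : FD k φ₀ F γ τ) (D : RD0 F 2 (-1 : F)) (f : Finset (Pl F)) :
    IsSquare (Algebra.norm K ((alf D τ f : Fˣ) : F)) := by
  have h1 : alf D τ f = tu τ (∏ P ∈ f, D.pi P) * tu τ (tu τ (∏ P ∈ f, D.pi P)) := by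
    unfold alf
    rw [Finset.prod_mul_distrib, map_prod, map_prod]
  set c := ∏ P ∈ f, D.pi P with hc
  refine fd_sq2 h _ (c * tu τ c * tu τ (tu τ c)) ?_
  rw [h1]
  simp only [map_mul, tu_cube h, sq]
  ac_rfl

end H48.KV
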