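import Pool.Agent.H48.KV.Defs

/-!
# [H48 KV GRPA] a Klein four group with an action of order 3, 90-140 lines, pure group theory. File Pool/Agent/H48/KV/GrpA.lean

`k : KV G` (Defs.lean). All elements of `ZMod 2`: `decide`-type facts (`a + a = 0`, `a = 0 ∨ a = 1`).
* `kv_lam_one`: `k.add 1 1`. `kv_sq`: `k.sep (x ^ 2)`: `g x² g⁻¹ = (g x g⁻¹)²`, `lam = 2 lam = 0` by `k.add` (`k.nV.conj_mem`).
* `kv_comm`: `k.sep (x y x⁻¹ y⁻¹)`; `lam (z⁻¹) = lam z` because `z⁻¹ = z`.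
* `kv_act`: `g⁻¹ h` has `pi = 1`, `k.cen`.
* `kv_fix`: `tr` gives `3 lam x = 0`, so `lam x = 0` (`g² x g⁻² = x`). For every `h`: `pi h ∈ {1, pi g, pi g²}` (`Multiplicative (ZMod 3)` has three
  elements, `pi g ≠ 1`), so `h x h⁻¹ = x` by `kv_act`; `sep`.
* `kv_one`: by `tr` the three values in `ZMod 2` have sum `0`; if all are `0` then `lam (h x h⁻¹) = 0` for all `h` (`kv_act`), so `x = 1`.
* `kv_w`: `kv_one` for `x` and for `k.w`: `lam (x w) = 0` and `lam (g x w g⁻¹) = 1 + 1 = 0`, so `x w = 1` by `kv_one`, `x = w`.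
* `kv_card`: `V = {1, w, g w g⁻¹, g² w g⁻²}` for any `g` with `pi g ≠ 1` (`k.sj`): for `x ≠ 1` exactly one of the three conjugates has `lam = 0`, it is `w`.
* `kv_psi`: for `x ∈ V`, `x ≠ 1` there is `g` with `g x g⁻¹ = w`.
-/

set_option autoImplicit false

noncomputable section

namespace H48.KV

variable {G : Type} [Group G] (k : KV G)

private theorem z2 (a : ZMod 2) : a + a = 0 := by
  revert a
  decide

private theorem z3 (a b : Multiplicative (ZMod 3)) (h : a ≠ 1) : b = 1 ∨ b = a ∨ b = a ^ 2 := by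
  revert a b
  decide

private theorem three {g : G} (hg : k.pi g ≠ 1) (h : G) :
    k.pi h = k.pi 1 ∨ k.pi h = k.pi g ∨ k.pi h = k.pi (g ^ 2) := by
  rw [map_one, map_pow]
  exact z3 _ _ hg

private theorem ex_g : ∃ g : G, k.pi g ≠ 1 := by
  obtain ⟨g, hg⟩ := k.sj (Multiplicative.ofAdd 1)
  refine ⟨g, ?_⟩
  rw [hg]
  decide

theorem kv_lam_one : k.lam 1 = 0 := by
  have h := k.add 1 k.V.one_mem 1 k.V.one_mem
  rw [mul_one] at h
  rw [h]
  exact z2 _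

private theorem mem_conj {x : G} (hx : x ∈ k.V) (g : G) : g * x * g⁻¹ ∈ k.V :=
  k.nV.conj_mem x hx g

theorem kv_sq {x : G} (hx : x ∈ k.V) : x ^ 2 = 1 := by
  refine k.sep _ (k.V.pow_mem hx 2) fun g => ?_
  have h : g * x ^ 2 * g⁻¹ = (g * x * g⁻¹) * (g * x * g⁻¹) := by
    rw [pow_two]
    group
  rw [h, k.add _ (mem_conj k hx g) _ (mem_conj k hx g)]
  exact z2 _

private theorem lam_inv {x : G} (hx : x ∈ k.V) : k.lam x⁻¹ = k.lam x := by
  have h : x⁻¹ = x := by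
    have h2 := kv_sq k hx
    rw [pow_two] at h2
    exact inv_eq_of_mul_eq_one_left h2
  rw [h]

theorem kv_comm {x y : G} (hx : x ∈ k.V) (hy : y ∈ k.V) : x * y = y * x := by
  have h : x * y * x⁻¹ * y⁻¹ = 1 := by
    refine k.sep _ (k.V.mul_mem (k.V.mul_mem (k.V.mul_mem hx hy) (k.V.inv_mem hx))
      (k.V.inv_mem hy)) fun g => ?_
    have h : g * (x * y * x⁻¹ * y⁻¹) * g⁻¹ =
        (g * x * g⁻¹) * (g * y * g⁻¹) * (g * x * g⁻¹)⁻¹ * (g * y * g⁻¹)⁻¹ := by group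
    have hX := mem_conj k hx g
    have hY := mem_conj k hy g
    rw [h, k.add _ (k.V.mul_mem (k.V.mul_mem hX hY) (k.V.inv_mem hX)) _ (k.V.inv_mem hY),
      k.add _ (k.V.mul_mem hX hY) _ (k.V.inv_mem hX), k.add _ hX _ hY, lam_inv k hX, lam_inv k hY]
    generalize k.lam (g * x * g⁻¹) = a
    generalize k.lam (g * y * g⁻¹) = b
    revert a b
    decide
  have h2 : x * y * x⁻¹ * y⁻¹ * (y * x) = y * x := by rw [h, one_mul]
  rw [← h2]
  group

theorem kv_act {g h x : G} (hgh : k.pi g = k.pi h) (hx : x ∈ k.V) :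
    g * x * g⁻¹ = h * x * h⁻¹ := by
  have h1 : k.pi (h⁻¹ * g) = 1 := by rw [map_mul, map_inv, hgh, inv_mul_cancel]
  have h2 := k.cen _ h1 x hx
  have h3 : g * x * g⁻¹ = h * (h⁻¹ * g * x * (h⁻¹ * g)⁻¹) * h⁻¹ := by group
  rw [h3, h2]

theorem kv_fix {g x : G} (hg : k.pi g ≠ 1) (hx : x ∈ k.V) (h : g * x * g⁻¹ = x) : x = 1 := by
  have h2 : g ^ 2 * x * (g ^ 2)⁻¹ = x := by
    have h3 : g ^ 2 * x * (g ^ 2)⁻¹ = g * (g * x * g⁻¹) * g⁻¹ := by
      rw [pow_two]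
      group
    rw [h3, h, h]
  have ht := k.tr g hg x hx
  rw [h, h2, z2, zero_add] at ht
  refine k.sep x hx fun m => ?_
  rcases three k hg m with hm | hm | hm
  · rw [kv_act k hm hx, one_mul, inv_one, mul_one, ht]
  · rw [kv_act k hm hx, h, ht]
  · rw [kv_act k hm hx, h2, ht]

theorem kv_one {g x : G} (hg : k.pi g ≠ 1) (hx : x ∈ k.V) (h : x ≠ 1) :
    (k.lam x = 0 ∧ k.lam (g * x * g⁻¹) = 1 ∧ k.lam (g ^ 2 * x * (g ^ 2)⁻¹) = 1) ∨
      (k.lam x = 1 ∧ k.lam (g * x * g⁻¹) = 0 ∧ k.lam (g ^ 2 * x * (g ^ 2)⁻¹) = 1) ∨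
      (k.lam x = 1 ∧ k.lam (g * x * g⁻¹) = 1 ∧ k.lam (g ^ 2 * x * (g ^ 2)⁻¹) = 0) := by
  have ht := k.tr g hg x hx
  have hno : ¬ (k.lam x = 0 ∧ k.lam (g * x * g⁻¹) = 0 ∧ k.lam (g ^ 2 * x * (g ^ 2)⁻¹) = 0) := by
    rintro ⟨h0, h1, h2⟩
    refine h (k.sep x hx fun m => ?_)
    rcases three k hg m with hm | hm | hm
    · rw [kv_act k hm hx, one_mul, inv_one, mul_one, h0]
    · rw [kv_act k hm hx, h1]
    · rw [kv_act k hm hx, h2]
  generalize k.lam x = a at *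
  generalize k.lam (g * x * g⁻¹) = b at *
  generalize k.lam (g ^ 2 * x * (g ^ 2)⁻¹) = c at *
  clear hx h hg
  revert a b c
  decide

theorem kv_w {x : G} (hx : x ∈ k.V) (h : x ≠ 1) (h0 : k.lam x = 0) : x = k.w := by
  obtain ⟨g, hg⟩ := ex_g k
  have h01 : (0 : ZMod 2) ≠ 1 := by decide
  have hc : ∀ y ∈ k.V, y ≠ 1 → k.lam y = 0 →
      k.lam (g * y * g⁻¹) = 1 ∧ k.lam (g ^ 2 * y * (g ^ 2)⁻¹) = 1 := by
    intro y hy hy1 hy0
    rcases kv_one k hg hy hy1 with ⟨_, h2, h3⟩ | ⟨h1, _⟩ | ⟨h1, _⟩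
    · exact ⟨h2, h3⟩
    · exact absurd (hy0.symm.trans h1) h01
    · exact absurd (hy0.symm.trans h1) h01
  obtain ⟨hx1, hx2⟩ := hc x hx h h0
  obtain ⟨hw1, hw2⟩ := hc k.w k.wV k.w1 k.lw
  have hxw : x * k.w = 1 := by
    by_contra hne
    have e1 : k.lam (x * k.w) = 0 := by
      rw [k.add _ hx _ k.wV, h0, k.lw, add_zero]
    obtain ⟨e2, _⟩ := hc _ (k.V.mul_mem hx k.wV) hne e1
    have e3 : g * (x * k.w) * g⁻¹ = (g * x * g⁻¹) * (g * k.w * g⁻¹) := by group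
    rw [e3, k.add _ (mem_conj k hx g) _ (mem_conj k k.wV g), hx1, hw1, z2] at e2
    exact h01 e2
  have hw : k.w * k.w = 1 := by
    rw [← pow_two]
    exact kv_sq k k.wV
  calc x = x * (k.w * k.w) := by rw [hw, mul_one]
    _ = x * k.w * k.w := by rw [mul_assoc]
    _ = k.w := by rw [hxw, one_mul]

private theorem conj_ne {x : G} (h : x ≠ 1) (g : G) : g * x * g⁻¹ ≠ 1 := by
  intro h1
  apply h
  have h2 : x = g⁻¹ * (g * x * g⁻¹) * g := by group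
  rw [h2, h1]
  group

theorem kv_psi {x : G} (hx : x ∈ k.V) (h : x ≠ 1) : ∃ g : G, g * x * g⁻¹ = k.w := by
  obtain ⟨g, hg⟩ := ex_g k
  rcases kv_one k hg hx h with ⟨h1, _⟩ | ⟨_, h1, _⟩ | ⟨_, _, h1⟩
  · refine ⟨1, ?_⟩
    rw [one_mul, inv_one, mul_one]
    exact kv_w k hx h h1
  · exact ⟨g, kv_w k (mem_conj k hx g) (conj_ne h g) h1⟩
  · exact ⟨g ^ 2, kv_w k (mem_conj k hx _) (conj_ne h _) h1⟩

theorem kv_card : Nat.card k.V = 4 := by
  obtain ⟨g, hg⟩ := ex_g k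
  let f : k.V → ZMod 2 × ZMod 2 := fun x => (k.lam x, k.lam (g * x * g⁻¹))
  have hinj : Function.Injective f := by
    intro x y hxy
    have h1 : k.lam (x : G) = k.lam (y : G) := congrArg Prod.fst hxy
    have h2 : k.lam (g * (x : G) * g⁻¹) = k.lam (g * (y : G) * g⁻¹) := congrArg Prod.snd hxy
    have hz : (x : G) * (y : G) = 1 := by
      by_contra hne
      have hm := k.V.mul_mem x.2 y.2
      have e1 : k.lam ((x : G) * y) = 0 := by
        rw [k.add _ x.2 _ y.2, h1, z2]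
      have e2 : k.lam (g * ((x : G) * y) * g⁻¹) = 0 := by
        have e3 : g * ((x : G) * y) * g⁻¹ = (g * x * g⁻¹) * (g * y * g⁻¹) := by group
        rw [e3, k.add _ (mem_conj k x.2 g) _ (mem_conj k y.2 g), h2, z2]
      have h01 : (0 : ZMod 2) ≠ 1 := by decide
      rcases kv_one k hg hm hne with ⟨_, h3, _⟩ | ⟨h3, _⟩ | ⟨h3, _⟩
      · exact h01 (e2.symm.trans h3)
      · exact h01 (e1.symm.trans h3)
      · exact h01 (e1.symm.trans h3)
    have hy2 : (y : G) * y = 1 := by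
      rw [← pow_two]
      exact kv_sq k y.2
    apply Subtype.ext
    calc (x : G) = x * (y * y) := by rw [hy2, mul_one]
      _ = x * y * y := by rw [mul_assoc]
      _ = y := by rw [hz, one_mul]
  have hsurj : Function.Surjective f := by
    obtain ⟨hw1, hw2⟩ : k.lam (g * k.w * g⁻¹) = 1 ∧ k.lam (g ^ 2 * k.w * (g ^ 2)⁻¹) = 1 := by
      have h01 : (0 : ZMod 2) ≠ 1 := by decide
      rcases kv_one k hg k.wV k.w1 with ⟨_, h2, h3⟩ | ⟨h1, _⟩ | ⟨h1, _⟩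
      · exact ⟨h2, h3⟩
      · exact absurd (k.lw.symm.trans h1) h01
      · exact absurd (k.lw.symm.trans h1) h01
    have hg3 : k.pi (g ^ 3) = k.pi 1 := by
      rw [map_pow, map_one]
      generalize k.pi g = a
      revert a
      decide
    have v1 : f ⟨1, k.V.one_mem⟩ = (0, 0) := by
      show (k.lam 1, k.lam (g * 1 * g⁻¹)) = _
      rw [mul_one, mul_inv_cancel, kv_lam_one]
    have v2 : f ⟨k.w, k.wV⟩ = (0, 1) := by
      show (k.lam k.w, k.lam (g * k.w * g⁻¹)) = _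
      rw [k.lw, hw1]
    have v3 : f ⟨g * k.w * g⁻¹, mem_conj k k.wV g⟩ = (1, 1) := by
      show (k.lam (g * k.w * g⁻¹), k.lam (g * (g * k.w * g⁻¹) * g⁻¹)) = _
      have e : g * (g * k.w * g⁻¹) * g⁻¹ = g ^ 2 * k.w * (g ^ 2)⁻¹ := by
        rw [pow_two]
        group
      rw [e, hw1, hw2]
    have v4 : f ⟨g ^ 2 * k.w * (g ^ 2)⁻¹, mem_conj k k.wV _⟩ = (1, 0) := by
      show (k.lam (g ^ 2 * k.w * (g ^ 2)⁻¹), k.lam (g * (g ^ 2 * k.w * (g ^ 2)⁻¹) * g⁻¹)) = _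
      have e : g * (g ^ 2 * k.w * (g ^ 2)⁻¹) * g⁻¹ = g ^ 3 * k.w * (g ^ 3)⁻¹ := by group
      rw [e, kv_act k hg3 k.wV, one_mul, inv_one, mul_one, k.lw, hw2]
    rintro ⟨a, b⟩
    have hall : ∀ a b : ZMod 2, ((a, b) : ZMod 2 × ZMod 2) = (0, 0) ∨ (a, b) = (0, 1) ∨
        (a, b) = (1, 1) ∨ (a, b) = (1, 0) := by decide
    rcases hall a b with h | h | h | h
    · exact ⟨_, v1.trans h.symm⟩
    · exact ⟨_, v2.trans h.symm⟩
    · exact ⟨_, v3.trans h.symm⟩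
    · exact ⟨_, v4.trans h.symm⟩
  rw [Nat.card_eq_of_bijective f ⟨hinj, hsurj⟩, Nat.card_eq_fintype_card]
  rfl

end H48.KV
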