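import Pool.Agent.H48.KV.FldB
import Pool.Agent.H63.MA.GKus

/-!
# [H48 KV KUMA] the Kummer class of the difference of two lifts, 80-130 lines. File Pool/Agent/H48/KV/KumA.lean

`QBar` is an algebraic closure of `F` (`Algebra.IsAlgebraic.tower_top`), see the beginning of the proof of `psa` in H38/WM/Psa.lean; `-1` is a primitive square root of unity in `F`.
* `kc_add`: for `σ, σ' : Gal(QBar/F)`: `c σ = φ σ (φ' σ)⁻¹ ∈ V`, `c (σ σ') = c σ · (φ' σ) c σ' (φ' σ)⁻¹ = c σ · c σ'` by `k.cen`, since `k.pi (φ' σ) = 1` (`fd_pi`, `eqv_pi`).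
* `kc_ex` (K0): `σ ↦ lam (c σ)` is a character of finite type of `Gal(QBar/F)` (finite level of `φ` and `φ'`: take the compositum with `F`, as in Psa.lean), `kc_all` for `p = 2`.
* `kc_mul`: `c_{φ φ''} = c_{φ φ'} · c_{φ' φ''}`, `k.add`, `kk_mul_arg`. `kc_symm`: `c_{φ' φ} = (c_{φ φ'})⁻¹ = c_{φ φ'}` (`kv_sq`). `kc_sqr`: `kk (b ^ 2) = 2 kk b = 0` in `ZMod 2` (`kk_mul_arg`).
* `kc_uni`: `kk 2 (-1) (a / b) = 0` on all of `Gal(QBar/F)`, so `a / b` is a square (`kk_eq_zero_iff`).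
-/

set_option autoImplicit false

open scoped NumberField
open IsDedekindDomain H38.ML H63.MA

noncomputable section

namespace H48.KV

variable {K : IntermediateField ℚ QBar} [NumberField K] {G : Type} [Group G] {k : KV G}
  {φ₀ : Gal(QBar/K) →* G} {F : IntermediateField K QBar} [NumberField F] {γ : Gal(QBar/K)}
  {τ : F ≃ₐ[K] F}

private theorem qcl : IsAlgClosure F QBar := by
  have halg : Algebra.IsAlgebraic F QBar := Algebra.IsAlgebraic.tower_top (K := K) F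
  exact ⟨IsAlgClosure.isAlgClosed K, halg⟩

private theorem pr2 : IsPrimitiveRoot (-1 : F) 2 := IsPrimitiveRoot.neg_one 0 (by norm_num)

private theorem add2 (x : ZMod 2) : x + x = 0 := by
  revert x
  decide

theorem kc_add (h : FD k φ₀ F γ τ) {φ φ' : Gal(QBar/K) →* G} (hφ : Eqv k φ φ₀)
    (hφ' : Eqv k φ' φ₀) (σ σ' : Gal(QBar/F)) :
    φ ((σ * σ').restrictScalars K) * (φ' ((σ * σ').restrictScalars K))⁻¹ =
      φ (σ.restrictScalars K) * (φ' (σ.restrictScalars K))⁻¹ *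
        (φ (σ'.restrictScalars K) * (φ' (σ'.restrictScalars K))⁻¹) := by
  have hr : (σ * σ').restrictScalars K = σ.restrictScalars K * σ'.restrictScalars K := rfl
  have h1 : k.pi (φ' (σ.restrictScalars K)) = 1 := by
    rw [eqv_pi k hφ', fd_pi h]
  have h2 : φ (σ'.restrictScalars K) * (φ' (σ'.restrictScalars K))⁻¹ ∈ k.V :=
    eqv_trans k hφ (eqv_symm k hφ') (σ'.restrictScalars K)
  have h3 := k.cen _ h1 _ h2
  rw [hr, map_mul, map_mul]
  conv_rhs => rw [← h3]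
  group

theorem kc_ex (h : FD k φ₀ F γ τ) {φ φ' : Gal(QBar/K) →* G} (hφ : φ ∈ LV k φ₀)
    (hφ' : φ' ∈ LV k φ₀) : ∃ a : Fˣ, Kc k F φ φ' a := by
  have hcl : IsAlgClosure F QBar := qcl
  obtain ⟨χ, hχ⟩ : ∃ χ : Gal(QBar/F) →* Multiplicative (ZMod 2),
      ∀ σ, χ σ = Multiplicative.ofAdd
        (k.lam (φ (σ.restrictScalars K) * (φ' (σ.restrictScalars K))⁻¹)) := by
    refine ⟨⟨⟨fun σ => Multiplicative.ofAdd
      (k.lam (φ (σ.restrictScalars K) * (φ' (σ.restrictScalars K))⁻¹)), ?_⟩, ?_⟩,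
      fun σ => rfl⟩
    · have h1 : (1 : Gal(QBar/F)).restrictScalars K = 1 := rfl
      rw [h1, map_one, map_one, inv_one, mul_one, kv_lam_one]
      rfl
    · intro σ τ'
      show Multiplicative.ofAdd (k.lam (φ ((σ * τ').restrictScalars K) *
        (φ' ((σ * τ').restrictScalars K))⁻¹)) = _
      rw [kc_add h hφ.2 hφ'.2, k.add _ (eqv_trans k hφ.2 (eqv_symm k hφ'.2) _) _
        (eqv_trans k hφ.2 (eqv_symm k hφ'.2) _)]
      rfl
  have hFT : FT χ := by
    obtain ⟨E, hE1, hE2⟩ := hφ.1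
    obtain ⟨E', hE1', hE2'⟩ := hφ'.1
    have hF : FiniteDimensional K F := FiniteDimensional.of_finrank_pos (by rw [h.deg]; norm_num)
    have hle : F ≤ F ⊔ (E ⊔ E') := le_sup_left
    have hfs0 : FiniteDimensional K (E ⊔ E' : IntermediateField K QBar) :=
      IntermediateField.finiteDimensional_sup E E'
    have hfs : FiniteDimensional K (F ⊔ (E ⊔ E') : IntermediateField K QBar) :=
      IntermediateField.finiteDimensional_sup F (E ⊔ E')
    refine ⟨IntermediateField.extendScalars hle, ?_, ?_⟩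
    · have h1 : FiniteDimensional K (IntermediateField.extendScalars hle) := hfs
      exact FiniteDimensional.right K F _
    · intro τ' hτ
      rw [IntermediateField.mem_fixingSubgroup_iff] at hτ
      have h1 : τ'.restrictScalars K ∈ E.fixingSubgroup := by
        rw [IntermediateField.mem_fixingSubgroup_iff]
        intro x hx
        refine hτ x ?_
        rw [IntermediateField.mem_extendScalars]
        exact (le_sup_right : E ⊔ E' ≤ F ⊔ (E ⊔ E')) ((le_sup_left : E ≤ E ⊔ E') hx)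
      have h1' : τ'.restrictScalars K ∈ E'.fixingSubgroup := by
        rw [IntermediateField.mem_fixingSubgroup_iff]
        intro x hx
        refine hτ x ?_
        rw [IntermediateField.mem_extendScalars]
        exact (le_sup_right : E ⊔ E' ≤ F ⊔ (E ⊔ E')) ((le_sup_right : E' ≤ E ⊔ E') hx)
      have h2 : φ (τ'.restrictScalars K) = 1 := hE2 h1
      have h2' : φ' (τ'.restrictScalars K) = 1 := hE2' h1'
      show χ τ' = 1
      rw [hχ, h2, h2', inv_one, mul_one, kv_lam_one]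
      rfl
  obtain ⟨a, ha⟩ := kc_all (K := F) (Ω := QBar) Nat.prime_two pr2 χ hFT
  refine ⟨a, fun σ => ?_⟩
  show Multiplicative.toAdd (kc 2 (-1 : F) QBar a σ) = _
  rw [← ha, hχ]
  rfl

theorem kc_mul (h : FD k φ₀ F γ τ) {φ φ' φ'' : Gal(QBar/K) →* G} (hφ : Eqv k φ φ₀)
    (hφ' : Eqv k φ' φ₀) (hφ'' : Eqv k φ'' φ₀) {a b : Fˣ} (ha : Kc k F φ φ' a)
    (hb : Kc k F φ' φ'' b) : Kc k F φ φ'' (a * b) := by
  have hcl : IsAlgClosure F QBar := qcl
  intro σ
  rw [kk_mul_arg Nat.prime_two pr2, ha σ, hb σ, ← k.add _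
    (eqv_trans k hφ (eqv_symm k hφ') _) _ (eqv_trans k hφ' (eqv_symm k hφ'') _)]
  congr 1
  group

theorem kc_symm (h : FD k φ₀ F γ τ) {φ φ' : Gal(QBar/K) →* G} (hφ : Eqv k φ φ₀)
    (hφ' : Eqv k φ' φ₀) {a : Fˣ} (ha : Kc k F φ φ' a) : Kc k F φ' φ a := by
  intro σ
  have h1 : φ (σ.restrictScalars K) * (φ' (σ.restrictScalars K))⁻¹ ∈ k.V :=
    eqv_trans k hφ (eqv_symm k hφ') _
  have h2 := kv_sq k h1
  rw [ha σ]
  congr 1
  have h3 : φ' (σ.restrictScalars K) * (φ (σ.restrictScalars K))⁻¹ =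
      (φ (σ.restrictScalars K) * (φ' (σ.restrictScalars K))⁻¹)⁻¹ := by group
  rw [h3]
  rw [pow_two] at h2
  exact eq_inv_of_mul_eq_one_left h2

theorem kc_sqr {φ φ' : Gal(QBar/K) →* G} {a : Fˣ} (b : Fˣ) :
    Kc k F φ φ' (a * b ^ 2) ↔ Kc k F φ φ' a := by
  have hcl : IsAlgClosure F QBar := qcl
  have h1 : ∀ σ : Gal(QBar/F), kk 2 (-1 : F) (a * b ^ 2) σ = kk 2 (-1 : F) a σ := by
    intro σ
    rw [kk_mul_arg Nat.prime_two pr2, pow_two, kk_mul_arg Nat.prime_two pr2, add2, add_zero]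
  unfold Kc
  simp only [h1]

theorem kc_uni {φ φ' : Gal(QBar/K) →* G} {a b : Fˣ} (ha : Kc k F φ φ' a)
    (hb : Kc k F φ φ' b) : ∃ c : Fˣ, a = b * c ^ 2 := by
  have hcl : IsAlgClosure F QBar := qcl
  have h1 : ∀ σ : Gal(QBar/F), kk 2 (-1 : F) (a * b) σ = 0 := by
    intro σ
    rw [kk_mul_arg Nat.prime_two pr2, ha σ, hb σ, add2]
  obtain ⟨y, hy⟩ := (kk_eq_zero_iff Nat.prime_two pr2 (a * b)).1 h1
  refine ⟨y * b⁻¹, ?_⟩
  rw [mul_pow, hy]
  rw [pow_two, mul_comm a b, mul_assoc b a, mul_comm a, ← mul_assoc, ← mul_assoc, ← mul_assoc]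
  simp [mul_assoc, mul_comm, mul_left_comm]

end H48.KV
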