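import Pool.Agent.H48.KV.KumA

/-!
# [H48 KV KUMB] equivariance of the Kummer class, the norm is a square, 100-160 lines. File Pool/Agent/H48/KV/KumB.lean

`QBar` is an algebraic closure of `F`, see H38/WM/Psa.lean, Nsq.lean (the proof of `nsq` is similar).
* `kc_conj_ex`: `g⁻¹ σ g` fixes `F` because `k.pi (φ₀ (g⁻¹ σ g)) = k.pi (φ₀ σ) = 1` (`h.fix`, `fd_pi`; `IntermediateField.fixingSubgroupEquiv`).
* `kc_tau`: `kk_root`, `kk_of_root` (H63/MA/GKum.lean): if `B² = a` in `QBar` then `(γ B)² = γ a = τ a` (`h.res`), and `σ (γ B) = γ (σ' B) = γ ((-1)^j B) = (-1)^j γ B`.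
* `kc_equi`: expand `φ (g⁻¹ σ g)`: with `z = φ g (φ' g)⁻¹ ∈ V`, `c = φ σ (φ' σ)⁻¹ ∈ V`: the left side is `(φ g)⁻¹ φ σ (φ g) (φ' g)⁻¹ (φ' σ)⁻¹ φ' g`; `φ g = z φ' g`, `V` is commutative (`kv_comm`), elements with
  `pi = 1` (such as `φ' σ`) commute with `V` (`k.cen`); conjugation of `c` by `(φ g)⁻¹` and by `(φ₀ g)⁻¹` agree (`kv_act`, `eqv_pi`).
* `kc_nrm` (K1): by `kc_tau` (twice: `σ' = γ⁻¹ σ γ`, `σ'' = γ⁻² σ γ²` from `kc_conj_ex`) and `kc_equi` the Kummer character of `a · τ a · τ² a` at `σ` is `lam c + lam (g⁻¹ c g) + lam (g⁻² c g²)`,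
  `g = φ₀ γ`, `c = φ σ (φ' σ)⁻¹`, which is `0` by `k.tr g⁻¹` (`k.pi g ≠ 1`), so it is a square (`kk_eq_zero_iff`), and `fd_sq2`.
-/

set_option autoImplicit false

open scoped NumberField
open IsDedekindDomain H38.ML H63.MA

noncomputable section

namespace H48.KV

variable {K : IntermediateField ℚ QBar} [NumberField K] {G : Type} [Group G] {k : KV G}
  {φ₀ : Gal(QBar/K) →* G} {F : IntermediateField K QBar} [NumberField F] {γ : Gal(QBar/K)}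
  {τ : F ≃ₐ[K] F}

omit [NumberField K] in
private theorem act_conj (γ : Gal(QBar/K)) (σ σ' : Gal(QBar/F))
    (hσ : (σ'.restrictScalars K : Gal(QBar/K)) = γ⁻¹ * σ.restrictScalars K * γ) (B : QBar) :
    σ (γ B) = γ (σ' B) := by
  have h3 : (σ.restrictScalars K : Gal(QBar/K)) * γ = γ * σ'.restrictScalars K := by
    rw [hσ]
    group
  exact congrArg (fun u : Gal(QBar/K) => u B) h3

private theorem grp1 {G : Type} [Group G] (A A' S S' : G) (h2 : S' * (A * A'⁻¹) * S'⁻¹ = A * A'⁻¹) :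
    A⁻¹ * S * A * (A'⁻¹ * S' * A')⁻¹ = A⁻¹ * (S * S'⁻¹) * A := by
  have h3 : A * A'⁻¹ * S'⁻¹ = S'⁻¹ * (A * A'⁻¹) := by
    calc A * A'⁻¹ * S'⁻¹ = S'⁻¹ * (S' * (A * A'⁻¹) * S'⁻¹) := by group
      _ = S'⁻¹ * (A * A'⁻¹) := by rw [h2]
  calc A⁻¹ * S * A * (A'⁻¹ * S' * A')⁻¹ = A⁻¹ * S * (A * A'⁻¹ * S'⁻¹) * A' := by group
    _ = A⁻¹ * S * (S'⁻¹ * (A * A'⁻¹)) * A' := by rw [h3]
    _ = A⁻¹ * (S * S'⁻¹) * A := by group

private theorem grp2 {G : Type} [Group G] (g c : G) :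
    g⁻¹ * (g⁻¹ * c * g) * g = g⁻¹ ^ 2 * c * (g⁻¹ ^ 2)⁻¹ := by
  rw [pow_two, mul_inv_rev, inv_inv]
  simp only [mul_assoc]

theorem kc_tau (h : FD k φ₀ F γ τ) (a : Fˣ) (σ σ' : Gal(QBar/F))
    (hσ : (σ'.restrictScalars K : Gal(QBar/K)) = γ⁻¹ * σ.restrictScalars K * γ) :
    kk 2 (-1 : F) (tu τ a) σ = kk 2 (-1 : F) a σ' := by
  have hac : IsAlgClosure F QBar :=
    { isAlgClosed := inferInstance
      isAlgebraic := Algebra.IsAlgebraic.tower_top (K := K) F }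
  obtain ⟨B, hB⟩ := gkum_root (K := F) (Ω := QBar) Nat.prime_two a
  have hm1 : IsPrimitiveRoot (-1 : F) 2 := IsPrimitiveRoot.neg_one 0 (by norm_num)
  have h1 := kk_root Nat.prime_two hm1 a B hB σ'
  have h2 : (γ B) ^ 2 = algebraMap F QBar ((tu τ a : Fˣ) : F) := by
    rw [← map_pow, hB]
    exact h.res (a : F)
  have h3 : σ (γ B) = algebraMap F QBar (-1 : F) ^ (((kk 2 (-1 : F) a σ').val : ℕ) : ℤ) * γ B := by
    rw [act_conj γ σ σ' hσ B, h1, map_mul, zpow_natCast, map_neg, map_one, map_pow, map_neg,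
      map_one]
  have h4 := kk_of_root Nat.prime_two hm1 (tu τ a) (γ B) h2 σ _ h3
  rw [h4]
  exact gkum_val Nat.prime_two _

theorem kc_conj_ex (h : FD k φ₀ F γ τ) (g : Gal(QBar/K)) (σ : Gal(QBar/F)) :
    ∃ σ' : Gal(QBar/F), (σ'.restrictScalars K : Gal(QBar/K)) = g⁻¹ * σ.restrictScalars K * g := by
  have hmem : g⁻¹ * σ.restrictScalars K * g ∈ F.fixingSubgroup := by
    rw [h.fix]
    simp only [map_mul, map_inv]
    rw [fd_pi h σ, mul_one, inv_mul_cancel]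
  refine ⟨IntermediateField.fixingSubgroupEquiv F ⟨_, hmem⟩, ?_⟩
  ext x
  rfl

theorem kc_equi (h : FD k φ₀ F γ τ) {φ φ' : Gal(QBar/K) →* G} (hφ : Eqv k φ φ₀)
    (hφ' : Eqv k φ' φ₀) (g : Gal(QBar/K)) (σ : Gal(QBar/F)) :
    φ (g⁻¹ * σ.restrictScalars K * g) * (φ' (g⁻¹ * σ.restrictScalars K * g))⁻¹ =
      (φ₀ g)⁻¹ * (φ (σ.restrictScalars K) * (φ' (σ.restrictScalars K))⁻¹) * φ₀ g := by
  have he : Eqv k φ φ' := eqv_trans k hφ (eqv_symm k hφ')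
  have hz := he g
  have hc := he (σ.restrictScalars K)
  have hp' : k.pi (φ' (σ.restrictScalars K)) = 1 := by
    rw [eqv_pi k hφ', fd_pi h σ]
  have hpg : k.pi (φ g)⁻¹ = k.pi (φ₀ g)⁻¹ := by
    rw [map_inv, map_inv, eqv_pi k hφ]
  have h1 := kv_act k hpg hc
  rw [inv_inv, inv_inv] at h1
  rw [← h1]
  have h2 := k.cen _ hp' _ hz
  simp only [map_mul, map_inv]
  exact grp1 _ _ _ _ h2

theorem kc_nrm (h : FD k φ₀ F γ τ) {φ φ' : Gal(QBar/K) →* G} (hφ : Eqv k φ φ₀)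
    (hφ' : Eqv k φ' φ₀) {a : Fˣ} (ha : Kc k F φ φ' a) : IsSquare (Algebra.norm K (a : F)) := by
  have hac : IsAlgClosure F QBar :=
    { isAlgClosed := inferInstance
      isAlgebraic := Algebra.IsAlgebraic.tower_top (K := K) F }
  have hm1 : IsPrimitiveRoot (-1 : F) 2 := IsPrimitiveRoot.neg_one 0 (by norm_num)
  have he : Eqv k φ φ' := eqv_trans k hφ (eqv_symm k hφ')
  have hz : ∀ σ : Gal(QBar/F), kk 2 (-1 : F) (a * tu τ a * tu τ (tu τ a)) σ = 0 := by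
    intro σ
    obtain ⟨σ', hσ'⟩ := kc_conj_ex h γ σ
    obtain ⟨σ'', hσ''⟩ := kc_conj_ex h γ σ'
    rw [kk_mul_arg Nat.prime_two hm1, kk_mul_arg Nat.prime_two hm1, kc_tau h (tu τ a) σ σ' hσ',
      kc_tau h a σ σ' hσ', kc_tau h a σ' σ'' hσ'', ha σ, ha σ', ha σ'']
    have e2 : φ (σ''.restrictScalars K) * (φ' (σ''.restrictScalars K))⁻¹ =
        (φ₀ γ)⁻¹ * (φ (σ'.restrictScalars K) * (φ' (σ'.restrictScalars K))⁻¹) * φ₀ γ := by
      rw [hσ'']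
      exact kc_equi h hφ hφ' γ σ'
    have e1 : φ (σ'.restrictScalars K) * (φ' (σ'.restrictScalars K))⁻¹ =
        (φ₀ γ)⁻¹ * (φ (σ.restrictScalars K) * (φ' (σ.restrictScalars K))⁻¹) * φ₀ γ := by
      rw [hσ']
      exact kc_equi h hφ hφ' γ σ
    have hg : k.pi (φ₀ γ)⁻¹ ≠ 1 := by
      rw [map_inv]
      intro h0
      exact h.ga (inv_eq_one.1 h0)
    have h3 := k.tr (φ₀ γ)⁻¹ hg _ (he (σ.restrictScalars K))
    rw [e2, e1, grp2, ← h3, inv_inv]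
  obtain ⟨y, hy⟩ := (kk_eq_zero_iff Nat.prime_two hm1 _).1 hz
  exact fd_sq2 h a y hy.symm

end H48.KV
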