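import Pool.Agent.H63.MA.AFin
import Pool.Agent.H63.MA.PZb

/-!
# [H48 KV LIMA] counting finite sets of primes, tails, 110-170 lines. File Pool/Agent/H48/KV/LimA.lean

`AF K y` = finite sets of primes of norm `≤ y` (H63/MA/AFin.lean); `1 ≤ nr n` (`one_le_nr`).
* `lim_af`: `af_card` for `y ≥ 1`; for `y < 1` the set is empty.
* `lim_sub`: `m ↦ m \ a` is injective on `{m | a ⊆ m}` and `nr (m \ a) = nr m / nr a` (`nr_union`), so the number is at most `#AF K (y / nr a) ≤ C (y / nr a)`.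
* `lim_tail`: `t` preserves norms. A set `m` in the filter contains `P` with `T < nm P` and (a) `nm P` not prime or (b) `{P, t P} ⊆ m`, `t P ≠ P`, or (c) `{P, t (t P)} ⊆ m`, `t (t P) ≠ P`. For given `P` (there are finitely many `P`
  with `nm P ≤ y`: `finite_nr` for the sets `{P}`) their number is by `lim_sub` at most `C y / nm P` in case (a) and `C y / (nm P)²` in the cases (b), (c) (`nr {P, t P} = (nm P)²`). For `T < nm P`, `T ≥ 1`: `1 / nm P ≤ T^{-1/4} (nm P)^{-3/4}` and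
  `1 / (nm P)² ≤ T^{-1/4} (nm P)^{-7/4}`. The sums over `P` converge: `deg_summable K (σ := 3/4)`, `pz_summable K (s := 7/4)` (H63/MA/PZb.lean), `Summable.sum_le_tsum`.
-/

set_option autoImplicit false

open scoped NumberField Classical
open IsDedekindDomain H63.MA

noncomputable section

namespace H48.KV

variable (K : Type) [Field K] [NumberField K]

theorem lim_af : ∃ C : ℝ, 0 < C ∧ ∀ y : ℝ, 0 ≤ y → ((AF K y).card : ℝ) ≤ C * y := by
  obtain ⟨C, hC, h⟩ := af_card K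
  refine ⟨C, hC, fun y hy => ?_⟩
  by_cases h1 : 1 ≤ y
  · exact h y h1
  · have h2 : AF K y = ∅ := by
      apply Finset.eq_empty_of_forall_notMem
      intro m hm
      exact h1 ((one_le_nr m).trans (mem_AF.1 hm))
    rw [h2, Finset.card_empty, Nat.cast_zero]
    positivity

theorem lim_sub : ∃ C : ℝ, 0 < C ∧ ∀ (a : Finset (Pl K)) (y : ℝ), 0 ≤ y →
    (((AF K y).filter fun m => a ⊆ m).card : ℝ) ≤ C * (y / nr a) := by
  obtain ⟨C, hC, h⟩ := lim_af K
  refine ⟨C, hC, fun a y hy => ?_⟩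
  have hpos : 0 < nr a := lt_of_lt_of_le one_pos (one_le_nr a)
  refine le_trans ?_ (h (y / nr a) (by positivity))
  rw [Nat.cast_le]
  apply Finset.card_le_card_of_injOn (fun m => m \ a)
  · intro m hm
    have hm' := Finset.mem_filter.1 (Finset.mem_coe.1 hm)
    refine Finset.mem_coe.2 (mem_AF.2 ?_)
    rw [le_div_iff₀ hpos, ← nr_union Finset.sdiff_disjoint, Finset.sdiff_union_of_subset hm'.2]
    exact mem_AF.1 hm'.1
  · intro m hm m' hm' heq
    have h1 := Finset.mem_filter.1 (Finset.mem_coe.1 hm)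
    have h2 := Finset.mem_filter.1 (Finset.mem_coe.1 hm')
    have h3 : m \ a = m' \ a := heq
    rw [← Finset.sdiff_union_of_subset h1.2, h3, Finset.sdiff_union_of_subset h2.2]

variable {K} in
private theorem lima_pow (P : Pl K) (T e : ℝ) (hT : 1 ≤ T) (hP : T < (nm P : ℝ)) :
    (nm P : ℝ) ^ (-(1 / 4) - e : ℝ) ≤ T ^ (-(1 / 4) : ℝ) * (nm P : ℝ) ^ (-e) := by
  have hN : (0 : ℝ) < nm P := by linarith
  have hT0 : 0 < T := by linarith
  rw [sub_eq_add_neg, Real.rpow_add hN]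
  apply mul_le_mul_of_nonneg_right _ (Real.rpow_nonneg hN.le _)
  exact Real.rpow_le_rpow_of_nonpos hT0 hP.le (by norm_num)

theorem lim_tail (t : Pl K → Pl K) (ht : ∀ P, nm (t P) = nm P) :
    ∃ C : ℝ, 0 < C ∧ ∀ T y : ℝ, 1 ≤ T → 0 ≤ y →
      (((AF K y).filter fun m => ∃ P ∈ m, T < (nm P : ℝ) ∧ (¬ (nm P).Prime ∨
        (t P ≠ P ∧ t P ∈ m) ∨ (t (t P) ≠ P ∧ t (t P) ∈ m))).card : ℝ) ≤
      C * T ^ (-(1 / 4) : ℝ) * y := by
  obtain ⟨C, hC, h⟩ := lim_sub K
  obtain ⟨I1, hI1⟩ : ∃ I1 : Pl K → ℝ, I1 = fun v : Pl K =>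
      Set.indicator {v : Pl K | ¬ (nm v).Prime} (fun v => (nm v : ℝ) ^ (-(3 / 4) : ℝ)) v := ⟨_, rfl⟩
  obtain ⟨I2, hI2⟩ : ∃ I2 : Pl K → ℝ, I2 = fun v : Pl K => (nm v : ℝ) ^ (-(7 / 4) : ℝ) := ⟨_, rfl⟩
  have s1 : Summable I1 := by
    rw [hI1]
    exact deg_summable K (by norm_num)
  have s2 : Summable I2 := by
    rw [hI2]
    exact pz_summable K (by norm_num)
  have n1 : ∀ v, 0 ≤ I1 v := by
    intro v
    rw [hI1]
    exact Set.indicator_nonneg (fun v _ => pzb_nonneg v _) v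
  have n2 : ∀ v, 0 ≤ I2 v := by
    intro v
    rw [hI2]
    exact pzb_nonneg v _
  have hS1 : 0 ≤ ∑' v, I1 v := tsum_nonneg n1
  have hS2 : 0 ≤ ∑' v, I2 v := tsum_nonneg n2
  refine ⟨C * ((∑' v, I1 v) + 2 * ∑' v, I2 v) + 1, by positivity, fun T y hT hy => ?_⟩
  have hT0 : 0 < T := by linarith
  have hTp : 0 ≤ T ^ (-(1 / 4) : ℝ) := Real.rpow_nonneg hT0.le _
  let A : Pl K → Finset (Finset (Pl K)) := fun P =>
    if ¬ (nm P).Prime then (AF K y).filter fun m => {P} ⊆ m else ∅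
  let B1 : Pl K → Finset (Finset (Pl K)) := fun P =>
    if t P ≠ P then (AF K y).filter fun m => {P, t P} ⊆ m else ∅
  let B2 : Pl K → Finset (Finset (Pl K)) := fun P =>
    if t (t P) ≠ P then (AF K y).filter fun m => {P, t (t P)} ⊆ m else ∅
  let Pf : Finset (Pl K) := ((AF K y).biUnion id).filter fun P => T < (nm P : ℝ)
  have hsub : ((AF K y).filter fun m => ∃ P ∈ m, T < (nm P : ℝ) ∧ (¬ (nm P).Prime ∨
        (t P ≠ P ∧ t P ∈ m) ∨ (t (t P) ≠ P ∧ t (t P) ∈ m))) ⊆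
      Pf.biUnion fun P => A P ∪ (B1 P ∪ B2 P) := by
    intro m hm
    obtain ⟨hm1, P, hP, hTP, hor⟩ := Finset.mem_filter.1 hm
    refine Finset.mem_biUnion.2 ⟨P, Finset.mem_filter.2 ⟨Finset.mem_biUnion.2 ⟨m, hm1, hP⟩, hTP⟩, ?_⟩
    rcases hor with h1 | ⟨h1, h2⟩ | ⟨h1, h2⟩
    · apply Finset.mem_union_left
      simp only [A, if_pos h1]
      exact Finset.mem_filter.2 ⟨hm1, Finset.singleton_subset_iff.2 hP⟩
    · apply Finset.mem_union_right
      apply Finset.mem_union_left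
      simp only [B1, if_pos h1]
      refine Finset.mem_filter.2 ⟨hm1, ?_⟩
      rw [Finset.insert_subset_iff, Finset.singleton_subset_iff]
      exact ⟨hP, h2⟩
    · apply Finset.mem_union_right
      apply Finset.mem_union_right
      simp only [B2, if_pos h1]
      refine Finset.mem_filter.2 ⟨hm1, ?_⟩
      rw [Finset.insert_subset_iff, Finset.singleton_subset_iff]
      exact ⟨hP, h2⟩
  have hcard : ∀ P ∈ Pf, ((A P ∪ (B1 P ∪ B2 P)).card : ℝ) ≤
      C * y * T ^ (-(1 / 4) : ℝ) * (I1 P + 2 * I2 P) := by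
    intro P hP
    have hTP : T < (nm P : ℝ) := (Finset.mem_filter.1 hP).2
    have hN : (0 : ℝ) < nm P := by linarith
    have c1 : ((A P ∪ (B1 P ∪ B2 P)).card : ℝ) ≤ (A P).card + ((B1 P).card + (B2 P).card) := by
      have h1 := Finset.card_union_le (A P) (B1 P ∪ B2 P)
      have h2 := Finset.card_union_le (B1 P) (B2 P)
      exact_mod_cast h1.trans (Nat.add_le_add_left h2 _)
    have cA : ((A P).card : ℝ) ≤ C * y * T ^ (-(1 / 4) : ℝ) * I1 P := by
      by_cases h1 : ¬ (nm P).Prime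
      · have e1 : I1 P = (nm P : ℝ) ^ (-(3 / 4) : ℝ) := by
          rw [hI1]
          exact Set.indicator_of_mem (s := {v : Pl K | ¬ (nm v).Prime}) h1 _
        have h2 := h {P} y hy
        have e2 : nr ({P} : Finset (Pl K)) = nm P := by
          unfold nr
          rw [Finset.prod_singleton]
        rw [e2] at h2
        simp only [A, if_pos h1]
        refine h2.trans ?_
        have h3 := lima_pow P T (3 / 4) hT hTP
        have e3 : (nm P : ℝ) ^ (-(1 / 4) - 3 / 4 : ℝ) = (nm P : ℝ)⁻¹ := by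
          rw [← Real.rpow_neg_one]
          norm_num
        rw [e3] at h3
        rw [e1, div_eq_mul_inv]
        calc C * (y * (nm P : ℝ)⁻¹) = C * y * (nm P : ℝ)⁻¹ := by ring
          _ ≤ C * y * (T ^ (-(1 / 4) : ℝ) * (nm P : ℝ) ^ (-(3 / 4) : ℝ)) :=
              mul_le_mul_of_nonneg_left h3 (by positivity)
          _ = _ := by ring
      · simp only [A, if_neg h1, Finset.card_empty, Nat.cast_zero]
        have := n1 P
        positivity
    have cB : ∀ R : Pl K, nm R = nm P → R ≠ P →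
        (((AF K y).filter fun m => {P, R} ⊆ m).card : ℝ) ≤ C * y * T ^ (-(1 / 4) : ℝ) * I2 P := by
      intro R hR hne
      have h2 := h {P, R} y hy
      have e2 : nr ({P, R} : Finset (Pl K)) = (nm P : ℝ) ^ 2 := by
        unfold nr
        rw [Finset.prod_pair hne.symm, hR, sq]
      rw [e2] at h2
      refine h2.trans ?_
      have h3 := lima_pow P T (7 / 4) hT hTP
      have e3 : (nm P : ℝ) ^ (-(1 / 4) - 7 / 4 : ℝ) = ((nm P : ℝ) ^ 2)⁻¹ := by
        rw [← Real.rpow_natCast (nm P : ℝ) 2, ← Real.rpow_neg hN.le]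
        norm_num
      rw [e3] at h3
      rw [hI2, div_eq_mul_inv]
      calc C * (y * ((nm P : ℝ) ^ 2)⁻¹) = C * y * ((nm P : ℝ) ^ 2)⁻¹ := by ring
        _ ≤ C * y * (T ^ (-(1 / 4) : ℝ) * (nm P : ℝ) ^ (-(7 / 4) : ℝ)) :=
            mul_le_mul_of_nonneg_left h3 (by positivity)
        _ = _ := by ring
    have n3 : 0 ≤ C * y * T ^ (-(1 / 4) : ℝ) * I2 P := by
      have := n2 P
      positivity
    have cB1 : ((B1 P).card : ℝ) ≤ C * y * T ^ (-(1 / 4) : ℝ) * I2 P := by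
      by_cases h1 : t P ≠ P
      · simp only [B1, if_pos h1]
        exact cB (t P) (ht P) h1
      · simp only [B1, if_neg h1, Finset.card_empty, Nat.cast_zero]
        exact n3
    have cB2 : ((B2 P).card : ℝ) ≤ C * y * T ^ (-(1 / 4) : ℝ) * I2 P := by
      by_cases h1 : t (t P) ≠ P
      · simp only [B2, if_pos h1]
        exact cB (t (t P)) (by rw [ht, ht]) h1
      · simp only [B2, if_neg h1, Finset.card_empty, Nat.cast_zero]
        exact n3
    calc ((A P ∪ (B1 P ∪ B2 P)).card : ℝ) ≤ (A P).card + ((B1 P).card + (B2 P).card) := c1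
      _ ≤ C * y * T ^ (-(1 / 4) : ℝ) * I1 P + (C * y * T ^ (-(1 / 4) : ℝ) * I2 P +
          C * y * T ^ (-(1 / 4) : ℝ) * I2 P) := add_le_add cA (add_le_add cB1 cB2)
      _ = _ := by ring
  have hsum : ∑ P ∈ Pf, (I1 P + 2 * I2 P) ≤ (∑' v, I1 v) + 2 * ∑' v, I2 v := by
    rw [Finset.sum_add_distrib, ← Finset.mul_sum]
    have h1 := s1.sum_le_tsum Pf (fun v _ => n1 v)
    have h2 := s2.sum_le_tsum Pf (fun v _ => n2 v)
    linarith
  have hc0 : (((AF K y).filter fun m => ∃ P ∈ m, T < (nm P : ℝ) ∧ (¬ (nm P).Prime ∨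
        (t P ≠ P ∧ t P ∈ m) ∨ (t (t P) ≠ P ∧ t (t P) ∈ m))).card : ℝ) ≤
      ∑ P ∈ Pf, ((A P ∪ (B1 P ∪ B2 P)).card : ℝ) := by
    have h1 := (Finset.card_le_card hsub).trans
      (Finset.card_biUnion_le (s := Pf) (t := fun P => A P ∪ (B1 P ∪ B2 P)))
    exact_mod_cast h1
  calc _ ≤ ∑ P ∈ Pf, ((A P ∪ (B1 P ∪ B2 P)).card : ℝ) := hc0
    _ ≤ ∑ P ∈ Pf, C * y * T ^ (-(1 / 4) : ℝ) * (I1 P + 2 * I2 P) := Finset.sum_le_sum hcard
    _ = C * y * T ^ (-(1 / 4) : ℝ) * ∑ P ∈ Pf, (I1 P + 2 * I2 P) := by rw [← Finset.mul_sum]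
    _ ≤ C * y * T ^ (-(1 / 4) : ℝ) * ((∑' v, I1 v) + 2 * ∑' v, I2 v) :=
        mul_le_mul_of_nonneg_left hsum (by positivity)
    _ = C * ((∑' v, I1 v) + 2 * ∑' v, I2 v) * T ^ (-(1 / 4) : ℝ) * y := by ring
    _ ≤ (C * ((∑' v, I1 v) + 2 * ∑' v, I2 v) + 1) * T ^ (-(1 / 4) : ℝ) * y := by
        apply mul_le_mul_of_nonneg_right _ hy
        apply mul_le_mul_of_nonneg_right _ hTp
        linarith

end H48.KV
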