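import Pool.Agent.H48.KV.Defs
import Pool.Agent.H48.KV.LimA
import Pool.Agent.H63.MA.ADef

/-!
# [H48 KV LIMB] admissible sets: decomposition at `T`, comparison with all sets of good primes, 100-160 lines. File Pool/Agent/H48/KV/LimB.lean

`Adm t S f` (Defs.lean): every `P ∈ f` is outside `S`, `t P ≠ P`, `t P ∉ f`, `t (t P) ∉ f`. `t` preserves norms and `t³ = 1`. `c` multiplicative for disjoint unions.
* `adm_split`: `W` is stable under `t` (norm `≤ T`): for `P ∈ f ∩ W` also `t P ∈ W`. So `f` is admissible iff `f ∩ W` and `f \ W` are.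
* `lim_dec`: `f ↦ (f ∩ W, f \ W)` is a bijection from the admissible sets of norm `≤ y` to the pairs `(s, m)`, `s ⊆ W`, `m ∩ W = ∅`, both admissible, `nr s * nr m ≤ y` (`nr_union`). `Finset.sum_sigma'`, `Finset.sum_nbij'` (see `un_dec` in
  H63/MB/BUd.lean for the same kind of argument).
* `lim_cmp`: `|c| ≤ 1`. The two sets of `m` (admissible and disjoint from `W`; sets of good primes disjoint from `W`) differ only by sets of the filter of `lim_tail`: if `m` is admissible and not all its primes are good, some `P ∈ m` (`P ∉ S0`,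
  `P ∉ W`, so `T < nm P`) has norm not prime. If all primes of `m` are good and `m` is not admissible, some `P ∈ m` has `t P ∈ m` (and `t P ≠ P` by `hg`) or `t (t P) ∈ m` (`t (t P) ≠ P`, otherwise `t P = t (t (t P)) = P`). The difference of the sums is bounded by
  the number of elements of the symmetric difference.
-/

set_option autoImplicit false

open scoped NumberField Classical
open IsDedekindDomain H63.MA

noncomputable section

namespace H48.KV

variable {K : Type} [Field K] [NumberField K] {p : ℕ} {ζ : K}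

theorem adm_split (t : Pl K → Pl K) (ht : ∀ P, nm (t P) = nm P) (S W : Finset (Pl K)) (T : ℝ)
    (hW : ∀ P, P ∈ W ↔ (nm P : ℝ) ≤ T) (f : Finset (Pl K)) :
    Adm t S f ↔ Adm t S (f ∩ W) ∧ Adm t S (f \ W) := by
  have htW : ∀ P, t P ∈ W ↔ P ∈ W := by
    intro P
    rw [hW, hW, ht]
  constructor
  · intro h
    refine ⟨fun P hP => ?_, fun P hP => ?_⟩
    · obtain ⟨h1, h2, h3, h4⟩ := h P (Finset.mem_inter.1 hP).1
      exact ⟨h1, h2, fun h5 => h3 (Finset.mem_inter.1 h5).1, fun h5 => h4 (Finset.mem_inter.1 h5).1⟩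
    · obtain ⟨h1, h2, h3, h4⟩ := h P (Finset.mem_sdiff.1 hP).1
      exact ⟨h1, h2, fun h5 => h3 (Finset.mem_sdiff.1 h5).1, fun h5 => h4 (Finset.mem_sdiff.1 h5).1⟩
  · rintro ⟨ha, hb⟩ P hP
    by_cases hPW : P ∈ W
    · obtain ⟨h1, h2, h3, h4⟩ := ha P (Finset.mem_inter.2 ⟨hP, hPW⟩)
      exact ⟨h1, h2, fun h5 => h3 (Finset.mem_inter.2 ⟨h5, (htW P).2 hPW⟩),
        fun h5 => h4 (Finset.mem_inter.2 ⟨h5, (htW _).2 ((htW P).2 hPW)⟩)⟩
    · obtain ⟨h1, h2, h3, h4⟩ := hb P (Finset.mem_sdiff.2 ⟨hP, hPW⟩)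
      exact ⟨h1, h2, fun h5 => h3 (Finset.mem_sdiff.2 ⟨h5, fun h6 => hPW ((htW P).1 h6)⟩),
        fun h5 => h4 (Finset.mem_sdiff.2 ⟨h5, fun h6 => hPW ((htW P).1 ((htW _).1 h6))⟩)⟩

theorem lim_dec (t : Pl K → Pl K) (ht : ∀ P, nm (t P) = nm P) (S W : Finset (Pl K)) (T : ℝ)
    (hW : ∀ P, P ∈ W ↔ (nm P : ℝ) ≤ T) (c : Finset (Pl K) → ℂ)
    (hc : ∀ s m, Disjoint s m → c (s ∪ m) = c s * c m) (y : ℝ) :
    ∑ f ∈ (AF K y).filter (fun f => Adm t S f), c f =
      ∑ s ∈ W.powerset.filter (fun s => Adm t S s), c s *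
        ∑ m ∈ (AF K (y / nr s)).filter (fun m => Adm t S m ∧ Disjoint m W), c m := by
  rw [Finset.sum_congr rfl fun s _ => Finset.mul_sum _ _ (c s), Finset.sum_sigma']
  symm
  have hint : ∀ s m : Finset (Pl K), s ⊆ W → Disjoint m W → (s ∪ m) ∩ W = s := by
    intro s m hs hm
    rw [Finset.union_inter_distrib_right, Finset.inter_eq_left.2 hs,
      Finset.disjoint_iff_inter_eq_empty.1 hm, Finset.union_empty]
  have hsdf : ∀ s m : Finset (Pl K), s ⊆ W → Disjoint m W → (s ∪ m) \ W = m := by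
    intro s m hs hm
    rw [Finset.union_sdiff_distrib, Finset.sdiff_eq_empty_iff_subset.2 hs, Finset.empty_union,
      Finset.sdiff_eq_self_of_disjoint hm]
  have hun : ∀ f : Finset (Pl K), f ∩ W ∪ f \ W = f := by
    intro f
    rw [Finset.union_comm]
    exact Finset.sdiff_union_inter f W
  have hdj : ∀ f : Finset (Pl K), Disjoint (f ∩ W) (f \ W) := fun f =>
    Finset.disjoint_of_subset_left Finset.inter_subset_right Finset.disjoint_sdiff
  refine Finset.sum_nbij' (fun q => q.1 ∪ q.2) (fun f => ⟨f ∩ W, f \ W⟩) ?_ ?_ ?_ ?_ ?_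
  · rintro ⟨s, m⟩ h
    rw [Finset.mem_sigma, Finset.mem_filter, Finset.mem_filter, Finset.mem_powerset, mem_AF] at h
    obtain ⟨⟨h1, h2⟩, h3, h4, h5⟩ := h
    rw [Finset.mem_filter, mem_AF]
    have hd : Disjoint s m := Finset.disjoint_of_subset_left h1 h5.symm
    refine ⟨?_, ?_⟩
    · show nr (s ∪ m) ≤ y
      rw [nr_union hd, mul_comm]
      exact (le_div_iff₀ (lt_of_lt_of_le one_pos (one_le_nr s))).1 h3
    · show Adm t S (s ∪ m)
      rw [adm_split t ht S W T hW, hint s m h1 h5, hsdf s m h1 h5]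
      exact ⟨h2, h4⟩
  · intro f h
    rw [Finset.mem_filter, mem_AF, adm_split t ht S W T hW] at h
    obtain ⟨h1, h2, h3⟩ := h
    rw [Finset.mem_sigma, Finset.mem_filter, Finset.mem_filter, Finset.mem_powerset, mem_AF]
    refine ⟨⟨Finset.inter_subset_right, h2⟩, ?_, h3, Finset.sdiff_disjoint⟩
    show nr (f \ W) ≤ y / nr (f ∩ W)
    rw [le_div_iff₀ (lt_of_lt_of_le one_pos (one_le_nr _)), mul_comm, ← nr_union (hdj f), hun f]
    exact h1
  · rintro ⟨s, m⟩ h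
    rw [Finset.mem_sigma, Finset.mem_filter, Finset.mem_filter, Finset.mem_powerset] at h
    obtain ⟨⟨h1, h2⟩, h3, h4, h5⟩ := h
    show (⟨(s ∪ m) ∩ W, (s ∪ m) \ W⟩ : (_ : Finset (Pl K)) × Finset (Pl K)) = ⟨s, m⟩
    rw [hint s m h1 h5, hsdf s m h1 h5]
  · intro f _
    exact hun f
  · rintro ⟨s, m⟩ h
    rw [Finset.mem_sigma, Finset.mem_filter, Finset.mem_filter, Finset.mem_powerset] at h
    obtain ⟨⟨h1, h2⟩, h3, h4, h5⟩ := h
    exact (hc s m (Finset.disjoint_of_subset_left h1 h5.symm)).symm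

theorem lim_cmp (D : RD0 K p ζ) (t : Pl K → Pl K) (ht : ∀ P, nm (t P) = nm P)
    (ht3 : ∀ P, t (t (t P)) = P) (hg : ∀ P, D.Gd P → t P ≠ P) :
    ∃ C : ℝ, 0 < C ∧ ∀ (T : ℝ) (W : Finset (Pl K)), 1 ≤ T → (∀ P, P ∈ W ↔ (nm P : ℝ) ≤ T) →
      ∀ (c : Finset (Pl K) → ℂ), (∀ m, ‖c m‖ ≤ 1) → ∀ y : ℝ, 0 ≤ y →
        ‖∑ m ∈ (AF K y).filter (fun m => Adm t D.S0 m ∧ Disjoint m W), c m -
          ∑ m ∈ (GF D y).filter (fun m => Disjoint m W), c m‖ ≤ C * T ^ (-(1 / 4) : ℝ) * y := by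
  obtain ⟨C, hC, h⟩ := lim_tail K t ht
  refine ⟨2 * C, by positivity, fun T W hT hW c hc y hy => ?_⟩
  set A := (AF K y).filter (fun m => Adm t D.S0 m ∧ Disjoint m W) with hA
  set B := (GF D y).filter (fun m => Disjoint m W) with hB
  set E := (AF K y).filter fun m => ∃ P ∈ m, T < (nm P : ℝ) ∧ (¬ (nm P).Prime ∨
        (t P ≠ P ∧ t P ∈ m) ∨ (t (t P) ≠ P ∧ t (t P) ∈ m)) with hE
  have hT' : ∀ m : Finset (Pl K), Disjoint m W → ∀ P ∈ m, T < (nm P : ℝ) := by
    intro m hm P hP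
    refine lt_of_not_ge fun h1 => ?_
    exact Finset.disjoint_left.1 hm hP ((hW P).2 h1)
  have hAB : A \ B ⊆ E := by
    intro m hm
    rw [Finset.mem_sdiff, hA, hB, Finset.mem_filter, Finset.mem_filter] at hm
    obtain ⟨⟨h1, h2, h3⟩, h4⟩ := hm
    have h5 : ∃ P ∈ m, ¬ D.Gd P := by
      by_contra h6
      push Not at h6
      refine h4 ⟨?_, h3⟩
      unfold GF
      rw [Finset.mem_filter]
      exact ⟨h1, h6⟩
    obtain ⟨P, hP, hPg⟩ := h5
    rw [hE, Finset.mem_filter]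
    exact ⟨h1, P, hP, hT' m h3 P hP, Or.inl fun h6 => hPg ⟨(h2 P hP).1, h6⟩⟩
  have hBA : B \ A ⊆ E := by
    intro m hm
    rw [Finset.mem_sdiff, hA, hB, Finset.mem_filter, Finset.mem_filter] at hm
    obtain ⟨⟨h1, h3⟩, h4⟩ := hm
    unfold GF at h1
    rw [Finset.mem_filter] at h1
    obtain ⟨h1, h2⟩ := h1
    have h5 : ¬ Adm t D.S0 m := fun h6 => h4 ⟨h1, h6, h3⟩
    unfold Adm at h5
    push Not at h5
    obtain ⟨P, hP, hPt⟩ := h5
    have hg1 : t P ≠ P := hg P (h2 P hP)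
    have hg2 : t (t P) ≠ P := by
      intro h6
      apply hg1
      have h7 := ht3 P
      rw [h6] at h7
      exact h7
    rw [hE, Finset.mem_filter]
    refine ⟨h1, P, hP, hT' m h3 P hP, Or.inr ?_⟩
    by_cases h6 : t P ∈ m
    · exact Or.inl ⟨hg1, h6⟩
    · exact Or.inr ⟨hg2, hPt (h2 P hP).1 hg1 h6⟩
  have hcard : ∀ F : Finset (Finset (Pl K)), F ⊆ E → ‖∑ m ∈ F, c m‖ ≤ C * T ^ (-(1 / 4) : ℝ) * y := by
    intro F hF
    refine (norm_sum_le_of_le F fun m _ => hc m).trans ?_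
    rw [Finset.sum_const, nsmul_eq_mul, mul_one]
    refine le_trans ?_ (h T y hT hy)
    exact_mod_cast Finset.card_le_card hF
  rw [← Finset.sum_sdiff_sub_sum_sdiff]
  refine (norm_sub_le _ _).trans ((add_le_add (hcard _ hAB) (hcard _ hBA)).trans (le_of_eq ?_))
  ring

end H48.KV
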