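import Pool.Agent.H48.KV.FldC
import Pool.Agent.H63.MA.GUpA

/-!
# [H48 KV PARA] the orders of `alf D τ f`, 90-140 lines. File Pool/Agent/H48/KV/ParA.lean

`D.S0` is stable under `tp τ` (hypothesis `hS`; because `tp_cube` its complement is stable too). `D.pi P` has order 1 at `P` and order 0 at the other primes outside `S0` (`D.pi_self`, `D.pi_ne`), so `tu τ (D.pi P)` has order 1 at
`tp τ P` and 0 at the other primes outside `S0` (`tp_ord`).
* `alf_ord`: `ord_prod`, `ord_mul`; the two indicator functions are never both 1 for the same `P ∈ f` (`tp τ P = tp τ (tp τ P)` implies `P = tp τ P` by injectivity: apply `tp τ` twice and `tp_cube`).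
* `alf_odd`: for admissible `f` at most one term of the sum `∑ P ∈ f, ..` is not 0: if `P, P' ∈ f` and `R ∈ {tp τ P, tp τ² P} ∩ {tp τ P', tp τ² P'}` then `P' ∈ {P, tp τ P, tp τ² P}`, so `P' = P`.
* `alf_below`: `Over P l`, `Over P' l` with `P, P' ∈ f`: `tp_tr` and admissibility give `P = P'`. `alf_prod`: `∏ P ∈ f, nm P = ∏ v ∈ T, nm v` by the bijection `P ↦` the prime below (`exists_below`), `tp_deg`.
-/

set_option autoImplicit false

open scoped NumberField Classical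
open IsDedekindDomain H38.ML H63.MA

noncomputable section

namespace H48.KV

variable {K : IntermediateField ℚ QBar} [NumberField K] {G : Type} [Group G] {k : KV G}
  {φ₀ : Gal(QBar/K) →* G} {F : IntermediateField K QBar} [NumberField F] {γ : Gal(QBar/K)}
  {τ : F ≃ₐ[K] F}

theorem tp_inj (h : FD k φ₀ F γ τ) : Function.Injective (tp τ) := by
  intro P P' hPP
  rw [← tp_cube h P, ← tp_cube h P', hPP]

theorem tp_S0 (h : FD k φ₀ F γ τ) (S : Finset (Pl F)) (hS : ∀ P ∈ S, tp τ P ∈ S) (P : Pl F) :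
    tp τ P ∈ S ↔ P ∈ S := by
  refine ⟨fun h1 => ?_, fun h1 => hS P h1⟩
  have h2 := hS _ (hS _ h1)
  rwa [tp_cube h P] at h2

private theorem para_pi (D : RD0 F 2 (-1 : F)) (P R : Pl F) (hP : P ∉ D.S0) (hR : R ∉ D.S0) :
    ord R (D.pi P) = if P = R then (1 : ℤ) else 0 := by
  split_ifs with h1
  · rw [← h1, D.pi_self P hP]
  · exact D.pi_ne P R hP hR (fun h2 => h1 h2.symm)

private theorem para_tu (h : FD k φ₀ F γ τ) (R : Pl F) (x : Fˣ) :
    ord R (tu τ x) = ord (tp τ (tp τ R)) x := by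
  rw [← tp_ord τ (tp τ (tp τ R)) x, tp_cube h R]

private theorem para_one (h : FD k φ₀ F γ τ) (P R : Pl F) :
    P = tp τ (tp τ R) ↔ tp τ P = R := by
  constructor
  · rintro rfl
    exact tp_cube h R
  · rintro rfl
    exact (tp_cube h P).symm

theorem alf_ord (h : FD k φ₀ F γ τ) (D : RD0 F 2 (-1 : F)) (hS : ∀ P ∈ D.S0, tp τ P ∈ D.S0)
    (f : Finset (Pl F)) (hf : ∀ P ∈ f, P ∉ D.S0 ∧ tp τ P ≠ P) (R : Pl F) (hR : R ∉ D.S0) :
    ord R (alf D τ f) = ∑ P ∈ f, if tp τ P = R ∨ tp τ (tp τ P) = R then (1 : ℤ) else 0 := by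
  unfold alf
  rw [ord_prod]
  refine Finset.sum_congr rfl fun P hP => ?_
  obtain ⟨h1, h2⟩ := hf P hP
  have hR1 : tp τ (tp τ R) ∉ D.S0 := by
    rw [tp_S0 h D.S0 hS, tp_S0 h D.S0 hS]
    exact hR
  have hR2 : tp τ (tp τ (tp τ (tp τ R))) ∉ D.S0 := by
    rw [tp_S0 h D.S0 hS, tp_S0 h D.S0 hS]
    exact hR1
  rw [ord_mul, para_tu h R (D.pi P), para_tu h R (tu τ (D.pi P)), para_tu h _ (D.pi P),
    para_pi D P _ h1 hR1, para_pi D P _ h1 hR2]
  have e1 : (P = tp τ (tp τ R)) ↔ tp τ P = R := para_one h P R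
  have e2 : (P = tp τ (tp τ (tp τ (tp τ R)))) ↔ tp τ (tp τ P) = R := by
    rw [para_one h P (tp τ (tp τ R)), para_one h (tp τ P) R]
  by_cases h3 : tp τ P = R
  · have h4 : ¬ tp τ (tp τ P) = R := by
      intro h5
      exact h2 (tp_inj h (h5.trans h3.symm))
    rw [if_pos (e1.2 h3), if_neg (fun h5 => h4 (e2.1 h5)), if_pos (Or.inl h3), add_zero]
  · by_cases h4 : tp τ (tp τ P) = R
    · rw [if_neg (fun h5 => h3 (e1.1 h5)), if_pos (e2.2 h4), if_pos (Or.inr h4), zero_add]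
    · rw [if_neg (fun h5 => h3 (e1.1 h5)), if_neg (fun h5 => h4 (e2.1 h5)),
        if_neg (fun h5 => h5.elim h3 h4), add_zero]

private theorem para_same (h : FD k φ₀ F γ τ) (S f : Finset (Pl F)) (hf : Adm (tp τ) S f)
    (P P' : Pl F) (hP : P ∈ f) (hP' : P' ∈ f)
    (ho : P' = P ∨ P' = tp τ P ∨ P' = tp τ (tp τ P)) : P' = P := by
  obtain ⟨-, -, h1, h2⟩ := hf P hP
  rcases ho with h3 | h3 | h3
  · exact h3
  · exact absurd (h3 ▸ hP') h1
  · exact absurd (h3 ▸ hP') h2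

theorem alf_odd (h : FD k φ₀ F γ τ) (D : RD0 F 2 (-1 : F)) (hS : ∀ P ∈ D.S0, tp τ P ∈ D.S0)
    (f : Finset (Pl F)) (hf : Adm (tp τ) D.S0 f) (R : Pl F) (hR : R ∉ D.S0) :
    ord R (alf D τ f) = if ∃ P ∈ f, tp τ P = R ∨ tp τ (tp τ P) = R then (1 : ℤ) else 0 := by
  rw [alf_ord h D hS f (fun P hP => ⟨(hf P hP).1, (hf P hP).2.1⟩) R hR]
  split_ifs with hex
  · obtain ⟨P, hP, hPR⟩ := hex
    rw [Finset.sum_eq_single P]
    · rw [if_pos hPR]
    · intro P' hP' hne
      apply if_neg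
      intro hPR'
      apply hne
      apply para_same h D.S0 f hf P P' hP hP'
      rcases hPR with h1 | h1 <;> rcases hPR' with h2 | h2
      · exact Or.inl (tp_inj h (h2.trans h1.symm))
      · refine Or.inr (Or.inr ?_)
        have h3 : tp τ P' = P := tp_inj h (h2.trans h1.symm)
        rw [← h3, tp_cube h P']
      · refine Or.inr (Or.inl ?_)
        exact tp_inj h (h2.trans h1.symm)
      · exact Or.inl (tp_inj h (tp_inj h (h2.trans h1.symm)))
    · intro h1
      exact absurd hP h1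
  · apply Finset.sum_eq_zero
    intro P hP
    exact if_neg fun h1 => hex ⟨P, hP, h1⟩

private theorem para_below (h : FD k φ₀ F γ τ) (S f : Finset (Pl F)) (hf : Adm (tp τ) S f)
    (P P' : Pl F) (hP : P ∈ f) (hP' : P' ∈ f) (l : Pl K) (h1 : Over P l) (h2 : Over P' l) :
    P' = P :=
  para_same h S f hf P P' hP hP' (tp_tr h P P' l h1 h2)

theorem alf_prod (h : FD k φ₀ F γ τ) (S : Finset (Pl F)) (f : Finset (Pl F))
    (hf : Adm (tp τ) S f) (T : Finset (Pl K)) (hT : ∀ v, v ∈ T ↔ ∃ P ∈ f, Over P v) :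
    ∏ v ∈ T, nm v = ∏ P ∈ f, nm P := by
  choose b hb using fun P : Pl F => exists_below (K := K) P
  symm
  refine Finset.prod_bij (fun P _ => b P) ?_ ?_ ?_ ?_
  · intro P hP
    exact (hT _).2 ⟨P, hP, hb P⟩
  · intro P hP P' hP' hPP
    have h1 : Over P (b P') := by
      rw [← hPP]
      exact hb P
    exact (para_below h S f hf P P' hP hP' (b P') h1 (hb P')).symm
  · intro v hv
    obtain ⟨P, hP, hPv⟩ := (hT v).1 hv
    exact ⟨P, hP, below_unique (hb P) hPv⟩
  · intro P hP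
    exact tp_deg h P (b P) (hb P) (hf P hP).2.1

end H48.KV
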