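import Pool.Agent.H48.KV.ParA

/-!
# [H48 KV PARB] every class of square norm is `u · alf f`, uniquely, 100-150 lines. File Pool/Agent/H48/KV/ParB.lean

* `par_sum`: the order of `a · τ a · τ² a = b²` (`fd_sq1`) at `tp τ (tp τ P)`... : `ord P a + ord (tp τ P) a + ord (tp τ (tp τ P)) a` is even: apply `ord (tp τ (tp τ P))` to the equation, `tp_ord`:
  `ord (tp τ R) (tu τ x) = ord R x`; the three terms are `ord (tp τ² P) a`, `ord (tp τ P) a`, `ord P a`.
* `par_ex`: `f = {P ∉ S0 : ord P a even, ord (tp τ P) a odd}` (finite: `ord (tp τ P) a ≠ 0`, `finite_ord`, `tp_inj`). Admissible: `ord (tp τ P) a` is odd, so `tp τ P ≠ P` and `tp τ P ∉ f`; by `par_sum` `ord (tp τ² P) a` is odd, so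
  `tp τ² P ∉ f`. For every `R ∉ S0`: `ord R a` and `ord R (alf D τ f)` have the same parity (`alf_odd`; cases: by `par_sum` for the orbit of `R` either all three orders are even (if `tp τ R = R`: `3 ord` even) or exactly
  two are odd; then exactly one `P` of the orbit is in `f`). So `a / alf D τ f` has even order at all `R ∉ S0`, `unit_of_ord` (H63/MA/GUpA.lean) gives `u * c ^ 2`.
* `par_uni`: the parities of the orders of `alf D τ f` determine `f` (`P ∈ f` iff `ord P` even and `ord (tp τ P)` odd); then `u = u' c²`.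
-/

set_option autoImplicit false

open scoped NumberField Classical
open IsDedekindDomain H38.ML H63.MA

noncomputable section

namespace H48.KV

variable {K : IntermediateField ℚ QBar} [NumberField K] {G : Type} [Group G] {k : KV G}
  {φ₀ : Gal(QBar/K) →* G} {F : IntermediateField K QBar} [NumberField F] {γ : Gal(QBar/K)}
  {τ : F ≃ₐ[K] F}

private theorem parb_tu (h : FD k φ₀ F γ τ) (R : Pl F) (x : Fˣ) :
    ord R (tu τ x) = ord (tp τ (tp τ R)) x := by
  rw [← tp_ord τ (tp τ (tp τ R)) x, tp_cube h R]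

theorem par_sum (h : FD k φ₀ F γ τ) (a : Fˣ) (ha : IsSquare (Algebra.norm K (a : F)))
    (P : Pl F) : Even (ord P a + ord (tp τ P) a + ord (tp τ (tp τ P)) a) := by
  obtain ⟨b, hb⟩ := fd_sq1 h a ha
  have h1 := congrArg (ord P) hb
  rw [ord_mul, ord_mul, ord_pow, parb_tu h P a, parb_tu h P (tu τ a),
    parb_tu h (tp τ (tp τ P)) a, tp_cube h (tp τ P)] at h1
  refine ⟨ord P b, ?_⟩
  push_cast at h1
  linarith

private theorem parb_iff (h : FD k φ₀ F γ τ) (D : RD0 F 2 (-1 : F))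
    (hS : ∀ P ∈ D.S0, tp τ P ∈ D.S0) (a : Fˣ) (ha : IsSquare (Algebra.norm K (a : F)))
    (f : Finset (Pl F))
    (hf : ∀ P, P ∈ f ↔ P ∉ D.S0 ∧ Even (ord P a) ∧ Odd (ord (tp τ P) a)) (R : Pl F)
    (hR : R ∉ D.S0) :
    (∃ P ∈ f, tp τ P = R ∨ tp τ (tp τ P) = R) ↔ Odd (ord R a) := by
  constructor
  · rintro ⟨P, hP, rfl | rfl⟩
    · exact ((hf P).1 hP).2.2
    · obtain ⟨-, h1, h2⟩ := (hf P).1 hP
      have h3 := par_sum h a ha P
      rw [Int.even_add, Int.even_add] at h3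
      rw [← Int.not_even_iff_odd] at h2 ⊢
      tauto
  · intro hodd
    have hR1 : tp τ R ∉ D.S0 := by
      rw [tp_S0 h D.S0 hS]
      exact hR
    have hR2 : tp τ (tp τ R) ∉ D.S0 := by
      rw [tp_S0 h D.S0 hS]
      exact hR1
    have h3 := par_sum h a ha R
    rw [Int.even_add, Int.even_add] at h3
    by_cases h4 : Even (ord (tp τ (tp τ R)) a)
    · refine ⟨tp τ (tp τ R), (hf _).2 ⟨hR2, h4, ?_⟩, Or.inl (tp_cube h R)⟩
      rw [tp_cube h R]
      exact hodd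
    · refine ⟨tp τ R, (hf _).2 ⟨hR1, ?_, ?_⟩, Or.inr (tp_cube h R)⟩
      · rw [← Int.not_even_iff_odd] at hodd
        tauto
      · exact Int.not_even_iff_odd.1 h4

theorem par_ex (h : FD k φ₀ F γ τ) (D : RD0 F 2 (-1 : F)) (hS : ∀ P ∈ D.S0, tp τ P ∈ D.S0)
    (a : Fˣ) (ha : IsSquare (Algebra.norm K (a : F))) :
    ∃ (f : Finset (Pl F)) (u c : Fˣ), Adm (tp τ) D.S0 f ∧ TUnit D.S0 u ∧
      a = u * alf D τ f * c ^ 2 := by
  have hfin : {P : Pl F | P ∉ D.S0 ∧ Even (ord P a) ∧ Odd (ord (tp τ P) a)}.Finite := by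
    refine ((finite_ord a).preimage ((tp_inj h).injOn)).subset ?_
    rintro P ⟨-, -, h1⟩
    change ord (tp τ P) a ≠ 0
    intro h2
    rw [h2] at h1
    exact absurd h1 (by decide)
  have hf : ∀ P, P ∈ hfin.toFinset ↔ P ∉ D.S0 ∧ Even (ord P a) ∧ Odd (ord (tp τ P) a) := by
    intro P
    rw [Set.Finite.mem_toFinset]
    exact Iff.rfl
  have hadm : Adm (tp τ) D.S0 hfin.toFinset := by
    intro P hP
    obtain ⟨h1, h2, h3⟩ := (hf P).1 hP
    refine ⟨h1, ?_, ?_, ?_⟩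
    · intro h4
      rw [h4, ← Int.not_even_iff_odd] at h3
      exact h3 h2
    · intro h4
      rw [← Int.not_even_iff_odd] at h3
      exact h3 ((hf _).1 h4).2.1
    · intro h4
      have h5 := ((hf _).1 h4).2.1
      have h6 := par_sum h a ha P
      rw [Int.even_add, Int.even_add] at h6
      rw [← Int.not_even_iff_odd] at h3
      tauto
  have hev : ∀ v, v ∉ D.S0 → ((2 : ℕ) : ℤ) ∣ ord v (a * (alf D τ hfin.toFinset)⁻¹) := by
    intro R hR
    have h1 := alf_odd h D hS _ hadm R hR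
    have h2 := parb_iff h D hS a ha _ hf R hR
    rw [ord_mul, ord_inv, h1]
    by_cases h3 : Odd (ord R a)
    · rw [if_pos (h2.2 h3)]
      obtain ⟨m, hm⟩ := h3
      refine ⟨m, ?_⟩
      push_cast
      linarith
    · rw [if_neg (fun h4 => h3 (h2.1 h4))]
      obtain ⟨m, hm⟩ := Int.not_odd_iff_even.1 h3
      refine ⟨m, ?_⟩
      push_cast
      linarith
  obtain ⟨u, y, hu, hy⟩ := unit_of_ord Nat.prime_two D _ hev
  refine ⟨hfin.toFinset, u, y, hadm, hu, ?_⟩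
  calc a = a * (alf D τ hfin.toFinset)⁻¹ * alf D τ hfin.toFinset :=
        (inv_mul_cancel_right a _).symm
    _ = u * y ^ 2 * alf D τ hfin.toFinset := by rw [hy]
    _ = u * alf D τ hfin.toFinset * y ^ 2 := mul_right_comm u (y ^ 2) _

private theorem parb_mem (h : FD k φ₀ F γ τ) (S f : Finset (Pl F)) (hf : Adm (tp τ) S f)
    (P : Pl F) : P ∈ f ↔ P ∉ S ∧ ¬ (∃ Q ∈ f, tp τ Q = P ∨ tp τ (tp τ Q) = P) ∧
      ∃ Q ∈ f, tp τ Q = tp τ P ∨ tp τ (tp τ Q) = tp τ P := by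
  constructor
  · intro hP
    refine ⟨(hf P hP).1, ?_, P, hP, Or.inl rfl⟩
    rintro ⟨Q, hQ, rfl | rfl⟩
    · exact (hf Q hQ).2.2.1 hP
    · exact (hf Q hQ).2.2.2 hP
  · rintro ⟨-, h1, Q, hQ, h2 | h2⟩
    · rw [← tp_inj h h2]
      exact hQ
    · exact absurd ⟨Q, hQ, Or.inl (tp_inj h h2)⟩ h1

theorem par_uni (h : FD k φ₀ F γ τ) (D : RD0 F 2 (-1 : F)) (hS : ∀ P ∈ D.S0, tp τ P ∈ D.S0)
    (f f' : Finset (Pl F)) (hf : Adm (tp τ) D.S0 f) (hf' : Adm (tp τ) D.S0 f') (u u' c : Fˣ)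
    (hu : TUnit D.S0 u) (hu' : TUnit D.S0 u')
    (he : u * alf D τ f = u' * alf D τ f' * c ^ 2) :
    f = f' ∧ ∃ c' : Fˣ, u = u' * c' ^ 2 := by
  have hE : ∀ R, R ∉ D.S0 → ((∃ P ∈ f, tp τ P = R ∨ tp τ (tp τ P) = R) ↔
      ∃ P ∈ f', tp τ P = R ∨ tp τ (tp τ P) = R) := by
    intro R hR
    have h1 := congrArg (ord R) he
    rw [ord_mul, ord_mul, ord_mul, ord_pow, hu R hR, hu' R hR, alf_odd h D hS f hf R hR,
      alf_odd h D hS f' hf' R hR] at h1
    push_cast at h1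
    constructor
    · intro h2
      by_contra h3
      rw [if_pos h2, if_neg h3] at h1
      omega
    · intro h2
      by_contra h3
      rw [if_pos h2, if_neg h3] at h1
      omega
  have hff : f = f' := by
    ext P
    rw [parb_mem h D.S0 f hf P, parb_mem h D.S0 f' hf' P]
    constructor
    · rintro ⟨h1, h2, h3⟩
      have h4 : tp τ P ∉ D.S0 := by
        rw [tp_S0 h D.S0 hS]
        exact h1
      exact ⟨h1, fun h5 => h2 ((hE P h1).2 h5), (hE _ h4).1 h3⟩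
    · rintro ⟨h1, h2, h3⟩
      have h4 : tp τ P ∉ D.S0 := by
        rw [tp_S0 h D.S0 hS]
        exact h1
      exact ⟨h1, fun h5 => h2 ((hE P h1).1 h5), (hE _ h4).2 h3⟩
  refine ⟨hff, c, ?_⟩
  rw [hff] at he
  have h1 : u * alf D τ f' = u' * c ^ 2 * alf D τ f' := by
    rw [he, mul_right_comm]
  exact mul_right_cancel h1

end H48.KV
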