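import Pool.Agent.H48.KV.Defs

/-!
# T2 (iii): more definitions (complete)

`FX χ`: the fixed field of the kernel of a character of order 3. `selg F`: `selc K F` if `F` is a number field. `RC`: the primes outside `S` at which `χ` is ramified.
-/

set_option autoImplicit false

open scoped NumberField
open IsDedekindDomain H38.ML H63.MA

noncomputable section

namespace H48.KV

variable {K : IntermediateField ℚ QBar} [NumberField K]

omit [NumberField K] in
/-- the fixed field of the kernel of a character -/
def FX (χ : Gal(QBar/K) →* Multiplicative (ZMod 3)) : IntermediateField K QBar :=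
  IntermediateField.fixedField χ.ker

open Classical in
/-- `selc K F`, for any intermediate field -/
def selg (F : IntermediateField K QBar) : ℕ :=
  if h : NumberField F then @selc K _ F h else 0

/-- the primes outside `S` at which `χ` is ramified -/
def RC (Q : DP K QBar) (S : Finset (Pl K)) (χ : Gal(QBar/K) →* Multiplicative (ZMod 3)) :
    Set (Pl K) :=
  {l | l ∉ S ∧ ∃ σ ∈ (Q.P l).inertia Gal(QBar/K), χ σ ≠ 1}

end H48.KV
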