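import Pool.Agent.H48.KV.Defs
import Pool.Agent.H38.AS.PDef
import Pool.Agent.H38.BG.TCyc
import Pool.Agent.H63.BU.UGsr
import Pool.Agent.H63.BU.UInr

/-!
# [H48 KV SMA] homomorphisms to a nilpotent group with given ramification, 80-120 lines. File Pool/Agent/H48/KV/SmA.lean

`lds_of` (H38/AS/PDef.lean) gives `L : LDs D QBar` with `LQ L Q` (the primes of `L` are those of `Q`; so `inr L v = (Q.P v).inertia Gal(QBar/K)` for `v ∉ S0`, `inr` by `dif_pos`). `C` from `ugsr D L N hN z hz hS H hnil hH` (H63/BU/UGsr.lean).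
Given `R`, `Rs`: `ψ : Γ →* (↥Rs → H)`, `ψ σ = fun φ => φ.1 σ` (`Pi.monoidHom`), of finite type (the supremum of the finitely many fields: `Finset.induction`, or `IntermediateField.finiteDimensional_iSup_of_finite`). For `v ∈ R`, `v ∉ S0`: the order of `ψ(I_v)` divides `(#H)^{#Rs}`, so it is not in `v` (otherwise `#H ∈ v` (prime ideal), `N ∈ v`, `v ∈ S0`), and `cyc`
(H38/BG/TCyc.lean) gives `s v ∈ I_v` with `ψ τ ∈ zpowers (ψ (s v))` for all `τ ∈ I_v`. Let `x φ : ↥R → H`, `x φ v = φ (s v)` (`1` if `v ∈ S0`). If `x φ = x φ'` then for `τ ∈ I_v`: `φ τ = φ (s v)^j = φ' (s v)^j = φ' τ` with the same integer `j`. So the fibres of `x` satisfy the hypothesis of `ugsr` (outside `R` both are trivial), they have at most `C` elements, and there are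
`(#H)^{#R}` values (`Nat.card_fun`, `Finset.card_le_mul_card_image`).
-/

set_option autoImplicit false

open scoped NumberField Classical
open IsDedekindDomain H38.ML H63.MA

noncomputable section

namespace H48.KV

theorem sm_nil {K : IntermediateField ℚ QBar} [NumberField K] {p : ℕ} (hp : p.Prime) {ζ : K}
    (hζ : IsPrimitiveRoot ζ p) (D : RD0 K p ζ) (N : ℕ) (hN : 0 < N) (z : K)
    (hz : IsPrimitiveRoot z N)
    (hS : ∀ v : Pl K, ((N : ℕ) : 𝓞 K) ∈ v.asIdeal → v ∈ D.S0) (Q : DP K QBar)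
    (H : Type) [Group H] [Finite H] (hnil : Group.IsNilpotent H) (hH : Nat.card H ∣ N) :
    ∃ C : ℕ, ∀ (R : Finset (Pl K)) (Rs : Finset (Gal(QBar/K) →* H)),
      (∀ φ ∈ Rs, FT φ ∧ ∀ v, v ∉ D.S0 → v ∉ R → ∀ σ ∈ (Q.P v).inertia Gal(QBar/K), φ σ = 1) →
        Rs.card ≤ C * Nat.card H ^ R.card := by
  obtain ⟨L, hL⟩ := H38.AS.lds_of hp hζ D Q
  obtain ⟨C, hC⟩ := H63.BU.ugsr D L N hN z hz hS H hnil hH
  have hS' : ∀ v : Pl K, ((Nat.card H : ℕ) : 𝓞 K) ∈ v.asIdeal → v ∈ D.S0 := by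
    intro v hv
    apply hS
    obtain ⟨c, hc⟩ := hH
    rw [hc, Nat.cast_mul]
    exact v.asIdeal.mul_mem_right _ hv
  have hfin : Fintype H := Fintype.ofFinite H
  refine ⟨C, fun R Rs hRs => ?_⟩
  have h1 := fun v => H63.BU.uinr_cyc L (Nat.card H) hS' (H := H) rfl Rs
    (fun φ hφ => (hRs φ hφ).1) v
  choose τ hτ hτ2 using h1
  have hfib : ∀ b ∈ (Finset.univ : Finset (↥R → H)),
      (Rs.filter fun φ => (fun v : ↥R => φ (τ v.1)) = b).card ≤ C := by
    intro b _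
    refine hC _ (fun φ hφ => (hRs φ (Finset.mem_filter.1 hφ).1).1) ?_
    intro φ hφ φ' hφ' v hv σ hσ
    rw [Finset.mem_filter] at hφ hφ'
    have hρ : (fun v : ↥R => φ (τ v.1)) = fun v : ↥R => φ' (τ v.1) := hφ.2.trans hφ'.2.symm
    by_cases hvR : v ∈ R
    · obtain ⟨k, hk⟩ := hτ2 v σ hσ
      have h2 : φ (τ v) = φ' (τ v) := congrFun hρ ⟨v, hvR⟩
      rw [hk φ hφ.1, hk φ' hφ'.1, h2]
    · have hσ' : σ ∈ (Q.P v).inertia Gal(QBar/K) := by
        unfold H38.BG.inr at hσ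
        rw [dif_pos hv, hL v hv] at hσ
        exact hσ
      rw [(hRs φ hφ.1).2 v hv hvR σ hσ', (hRs φ' hφ'.1).2 v hv hvR σ hσ']
  have h2 := Finset.card_le_mul_card_image_of_maps_to
    (f := fun φ : Gal(QBar/K) →* H => fun v : ↥R => φ (τ v.1))
    (fun φ _ => Finset.mem_univ _) C hfib
  rw [Finset.card_univ, Fintype.card_fun, Fintype.card_coe] at h2
  rw [Nat.card_eq_fintype_card]
  exact h2

end H48.KV
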