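import Pool.Agent.H48.KV.ParA
import Pool.Agent.H48.KV.Rdx
import Pool.Agent.H38.WM.RmF

/-!
# [H48 KV STP] the setup for a fixed `φ₀`, 80-130 lines. File Pool/Agent/H48/KV/Stp.lean

* `stp_ex`: `fd_ex` gives `F, γ, τ`; `rdx F Nat.prime_two` (`MOne 2 F` from `mone_map hi F`; `-1` is a primitive square root of unity in `F`) gives the finite set `T` of primes of `F`. `SK` = the primes `v` of `K` with `n! ∈ v` (finitely many: `n! ≠ 0`,
  `HeightOneSpectrum` finiteness as in `H38/ML`, `Ideal.finite_factors`-type; e.g. `finite_ord` for the unit `n!`), the primes above 2 (`2 ≤ n`: also over `n!`), the primes ramified in `φ₀` (`H38.WM.rmF`), the primes below `T` (`exists_below`), and the finite set `SK'` given. `S1` = the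
  primes of `F` over `SK` (finite: `over_finite`), it contains `T`; `rdx` gives `D` with `D.S0 = S1`.
* `stp_tau`: `tp_over`. `stp_gd`: `P` good, `l` the prime below (`exists_below`), `l ∉ SK`; if `tp τ P = P` then `tp_fix` (`k.pi (φ₀ σ) = k.pi 1 = 1` on the inertia group) says that `nm P` is not prime, contradiction.
* `stp_sk`: for `f` with `P ∉ D.S0` for `P ∈ f`: the prime below is not in `SK`.
-/

set_option autoImplicit false

open scoped NumberField
open IsDedekindDomain H38.ML H63.MA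

noncomputable section

namespace H48.KV

/-- the setup for the count of the lifts of one `φ₀` -/
structure Stp {K : IntermediateField ℚ QBar} [NumberField K] {G : Type} [Group G] (n : ℕ)
    (k : KV G) (φ₀ : Gal(QBar/K) →* G) (F : IntermediateField K QBar) [NumberField F]
    (γ : Gal(QBar/K)) (τ : F ≃ₐ[K] F) (D : RD F 2 (-1 : F)) (SK : Finset (Pl K))
    (Q : DP K QBar) : Prop where
  ft : FT φ₀
  sj : Function.Surjective φ₀
  fd : FD k φ₀ F γ τ
  fac : ∀ v : Pl K, ((n.factorial : ℕ) : 𝓞 K) ∈ v.asIdeal → v ∈ SK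
  two : ∀ v : Pl K, Above 2 v → v ∈ SK
  ram : ∀ v, v ∉ SK → ∀ σ ∈ (Q.P v).inertia Gal(QBar/K), φ₀ σ = 1
  sf : ∀ P : Pl F, P ∈ D.S0 ↔ ∃ v ∈ SK, Over P v
  one : MOne 2 F

variable {K : IntermediateField ℚ QBar} [NumberField K] {G : Type} [Group G] {k : KV G}
  {φ₀ : Gal(QBar/K) →* G}

theorem stp_ex (n : ℕ) (hn : 2 ≤ n) (hi : MOne 2 K) (hft : FT φ₀) (hs : Function.Surjective φ₀)
    (Q : DP K QBar) : ∃ (F : IntermediateField K QBar) (_ : NumberField F) (γ : Gal(QBar/K))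
      (τ : F ≃ₐ[K] F) (D : RD F 2 (-1 : F)) (SK : Finset (Pl K)),
      Stp n k φ₀ F γ τ D SK Q := by
  classical
  obtain ⟨F, γ, τ, hfd⟩ := fd_ex k φ₀ hft hs
  have hnf : NumberField F := fd_nf hfd
  have hone : MOne 2 F := mone_map hi F
  obtain ⟨T, -, -, hT⟩ := rdx F Nat.prime_two hone
    (IsPrimitiveRoot.neg_one 0 (by norm_num) : IsPrimitiveRoot (-1 : F) 2)
  have h1 : {v : Pl K | Above n.factorial v}.Finite := finite_above (Nat.factorial_ne_zero n)
  have h2 : {v : Pl K | Above 2 v}.Finite := finite_above two_ne_zero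
  have h3 : (H38.WM.Rm Q φ₀).Finite := H38.WM.rmF Q φ₀ hft
  obtain ⟨SK, hSK⟩ : ∃ SK : Finset (Pl K), SK = h1.toFinset ∪ h2.toFinset ∪ h3.toFinset ∪
      T.image (fun w => (exists_below (K := K) w).choose) := ⟨_, rfl⟩
  obtain ⟨S1, hS1⟩ : ∃ S1 : Finset (Pl F), S1 = SK.biUnion fun v =>
      (over_finite (L := F) v).toFinset := ⟨_, rfl⟩
  have hmem : ∀ P : Pl F, P ∈ S1 ↔ ∃ v ∈ SK, Over P v := by
    intro P
    rw [hS1, Finset.mem_biUnion]
    simp only [Set.Finite.mem_toFinset, Set.mem_ofPred_eq]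
  obtain ⟨D, hD⟩ := hT S1 (fun w hw => (hmem w).2
    ⟨_, by
      rw [hSK]
      exact Finset.mem_union_right _ (Finset.mem_image_of_mem _ hw),
      (exists_below (K := K) w).choose_spec⟩)
  refine ⟨F, hnf, γ, τ, D, SK, hft, hs, hfd, fun v hv => ?_, fun v hv => ?_, fun v hv σ hσ => ?_,
    fun P => ?_, hone⟩
  · rw [hSK]
    exact Finset.mem_union_left _ (Finset.mem_union_left _ (Finset.mem_union_left _
      (h1.mem_toFinset.2 hv)))
  · rw [hSK]
    exact Finset.mem_union_left _ (Finset.mem_union_left _ (Finset.mem_union_right _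
      (h2.mem_toFinset.2 hv)))
  · by_contra hne
    apply hv
    rw [hSK]
    exact Finset.mem_union_left _ (Finset.mem_union_right _ (h3.mem_toFinset.2 ⟨σ, hσ, hne⟩))
  · rw [hD]
    exact hmem P

variable {n : ℕ} {F : IntermediateField K QBar} [NumberField F] {γ : Gal(QBar/K)}
  {τ : F ≃ₐ[K] F} {D : RD F 2 (-1 : F)} {SK : Finset (Pl K)} {Q : DP K QBar}

theorem stp_tau (h : Stp n k φ₀ F γ τ D SK Q) (P : Pl F) (hP : P ∈ D.S0) : tp τ P ∈ D.S0 := by
  obtain ⟨v, hv, hPv⟩ := (h.sf P).1 hP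
  exact (h.sf _).2 ⟨v, hv, (tp_over τ P v).2 hPv⟩

theorem stp_gd (h : Stp n k φ₀ F γ τ D SK Q) (P : Pl F) (hP : D.toRD0.Gd P) : tp τ P ≠ P := by
  intro he
  obtain ⟨l, hl⟩ := exists_below (K := K) P
  have h1 : l ∉ SK := fun h2 => hP.1 ((h.sf P).2 ⟨l, h2, hl⟩)
  refine tp_fix h.fd Q P l hl (fun σ hσ => ?_) he hP.2
  rw [h.ram l h1 σ hσ, map_one]

theorem stp_sk (h : Stp n k φ₀ F γ τ D SK Q) (P : Pl F) (hP : P ∉ D.S0) (l : Pl K)
    (hl : Over P l) : l ∉ SK := by
  exact fun h2 => hP ((h.sf P).2 ⟨l, h2, hl⟩)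

end H48.KV
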