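import Pool.Agent.H38.BB.CUbt

/-!
# [H48 KV UBA] sets of primes at which `y` is a local cube, weighted with `3 ^ #n`, 70-110 lines. File Pool/Agent/H48/KV/UbA.lean

`ub_good`: `H38.BB.ubt` (H38/BB/CUbt.lean) for `m = 1`, `N = 1`, `Δ 0 = ⊤`, `b = fun _ => y` (`BS2` is `hE`, `hy`). `tw D 1 ⊤ b v = 3` if `D.LL v y = 0` and `0` otherwise (`dt δ (fun _ => x) = δ 0 * x`, `δ` arbitrary; `Nat.card ⊤ = 3`: `Fin 1 → ZMod 3`), so `∏ v ∈ n, tw v = 3 ^ #n` if all `D.LL v y = 0` and the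
product is `≥ 0` always (`Finset.sum_le_sum_of_subset_of_nonneg`). `bp (fun _ => y) δ = y ^ (δ 0).val`: `y` and `y²` are not cubes (if `y² = z³` then `y = (y / z)³`... `y = y³ / y² = (y / z)^3`). `(1 + log Y)^0 = 1`. `IsPow p x` is `∃ z, x = z ^ p` (or similar; H63/MA/Base).
-/

set_option autoImplicit false

open scoped NumberField Classical
open IsDedekindDomain H63.MA

noncomputable section

namespace H48.KV

variable {K : Type} [Field K] [NumberField K] {ω : K}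

private theorem uba_card :
    (Nat.card (⊤ : Submodule (ZMod 3) (Fin 1 → ZMod 3)) : ℝ) = 3 := by
  have h : Nat.card (⊤ : Submodule (ZMod 3) (Fin 1 → ZMod 3)) = 3 := by
    rw [Nat.card_congr (Submodule.topEquiv (R := ZMod 3) (M := Fin 1 → ZMod 3)).toEquiv,
      Nat.card_eq_fintype_card]
    simp [ZMod.card]
  rw [h]
  norm_num

omit [NumberField K] in
private theorem uba_pow {y : Kˣ} (hne : ¬ IsPow 3 y) (δ : Fin 1 → ZMod 3) (hδ : δ ≠ 0) :
    ¬ IsPow 3 (bp (fun _ : Fin 1 => y) δ) := by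
  have h1 : bp (fun _ : Fin 1 => y) δ = y ^ (δ 0).val := by
    simp [bp]
  rw [h1]
  have h2 : δ 0 ≠ 0 := by
    intro h
    apply hδ
    funext k
    rw [Subsingleton.elim k 0, h]
    rfl
  have h3 : (δ 0).val ≠ 0 := by
    rw [Ne, ZMod.val_eq_zero]
    exact h2
  have h4 : (δ 0).val < 3 := ZMod.val_lt _
  rintro ⟨z, hz⟩
  have h5 : (δ 0).val = 1 ∨ (δ 0).val = 2 := by omega
  rcases h5 with h5 | h5
  · rw [h5, pow_one] at hz
    exact hne ⟨z, hz⟩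
  · rw [h5] at hz
    refine hne ⟨y / z, ?_⟩
    rw [div_pow, hz, pow_succ, mul_comm, mul_div_assoc, div_self', mul_one]

theorem ub_good (hω : IsPrimitiveRoot ω 3) (D : RD K 3 ω) (η : ℝ) (hη : 0 < η) :
    ∃ C : ℝ, 0 < C ∧ ∀ (y : Kˣ) (E : Finset (Pl K)), (∀ v ∈ E, v ∉ D.S0) →
      (∀ v, v ∉ D.S0 → v ∉ E → ord v y = 0) → ¬ IsPow 3 y → ∀ Y : ℝ, 1 ≤ Y →
        ∑ n ∈ (GF D.toRD0 Y).filter (fun n => Disjoint n E ∧ ∀ v ∈ n, D.LL v y = 0),
          (3 : ℝ) ^ n.card ≤ C * nr E ^ η * Y := by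
  obtain ⟨C, hC, h⟩ := H38.BB.ubt Nat.prime_three hω D 1 1 le_rfl (fun _ => ⊤) η hη
  refine ⟨C, hC, fun y E hE hy hne Y hY => ?_⟩
  have h1 := h (fun _ => y) E ⟨hE, fun _ v hv hvE => hy v hv hvE⟩
    (fun _ δ _ hδ => uba_pow hne δ hδ) Y hY
  rw [Nat.sub_self, pow_zero, mul_one] at h1
  refine le_trans ?_ h1
  have htw0 : ∀ v, 0 ≤ H38.BB.tw D.toRD0 1 (fun _ => ⊤) (fun _ : Fin 1 => y) v := by
    intro v
    unfold H38.BB.tw
    refine Finset.sum_nonneg fun i _ => ?_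
    split_ifs
    · exact Nat.cast_nonneg _
    · exact le_rfl
  have htw : ∀ v, D.LL v y = 0 →
      H38.BB.tw D.toRD0 1 (fun _ => ⊤) (fun _ : Fin 1 => y) v = 3 := by
    intro v hv
    unfold H38.BB.tw
    rw [Fin.sum_univ_one, if_pos]
    · exact uba_card
    · intro δ _
      simp [dt, hv]
  have h2 : ∑ n ∈ (GF D.toRD0 Y).filter (fun n => Disjoint n E ∧ ∀ v ∈ n, D.LL v y = 0),
      (3 : ℝ) ^ n.card =
      ∑ n ∈ (GF D.toRD0 Y).filter (fun n => Disjoint n E ∧ ∀ v ∈ n, D.LL v y = 0),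
        ∏ v ∈ n, H38.BB.tw D.toRD0 1 (fun _ => ⊤) (fun _ : Fin 1 => y) v := by
    refine Finset.sum_congr rfl fun n hn => ?_
    have h3 := (Finset.mem_filter.1 hn).2.2
    rw [Finset.prod_congr rfl fun v hv => htw v (h3 v hv), Finset.prod_const]
  rw [h2]
  refine Finset.sum_le_sum_of_subset_of_nonneg ?_ fun n _ _ => Finset.prod_nonneg fun v _ => htw0 v
  intro n hn
  rw [Finset.mem_filter] at hn ⊢
  exact ⟨hn.1, hn.2.1⟩

end H48.KV
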