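import Pool.Agent.H48.KV.UbA
import Pool.Agent.H63.MA.PZb

/-!
# [H48 KV UBB] adding the primes of non-prime norm, 90-140 lines. File Pool/Agent/H48/KV/UbB.lean

* `ub_np`: `∑_{m} 3^{#m} / nr m` over a finite set of finite sets `m` of primes of non-prime norm is at most `∏_{v} (1 + 3 / nm v) ≤ exp (∑_v 3 / nm v)`, the product and the sum over the union `V` of the `m` (`Finset.prod_one_add` or `Finset.prod_add`, `Real.add_one_le_exp`); `∑_{v ∈ V} 1/nm v ≤ ∑'` of the series `deg_summable K (σ := 1)` (H63/MA/PZb.lean).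
* `ub_all`: `n = n₁ ∪ n₂`, `n₁` the primes of prime norm (`n₁ ∈ GF D (Y / nr n₂)`, `D.Gd v` is `v ∉ S0 ∧ (nm v).Prime`), `n₂` the others; `3^{#n} = 3^{#n₁} 3^{#n₂}`, `nr n = nr n₁ nr n₂`. For given `n₂` (with `nr n₂ ≤ Y`) the sum over `n₁` is at most `C (nr E)^η Y / nr n₂` (`ub_good`, `Y / nr n₂ ≥ 1`); then `ub_np`. Formally: the map
  `n ↦ (n₂, n₁)` is injective into the sigma type; `Finset.sum_fiberwise`-type decomposition by `n₂` (`Finset.sum_fiberwise_of_maps_to` for the image of `n ↦ n₂`), every fibre is compared with the sum of `ub_good` by `Finset.sum_le_sum_of_injOn`/`Finset.sum_nbij`.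
-/

set_option autoImplicit false

open scoped NumberField Classical
open IsDedekindDomain H63.MA

noncomputable section

namespace H48.KV

private theorem term_eq {K : Type} [Field K] [NumberField K] (m : Finset (Pl K)) :
    (3 : ℝ) ^ m.card * (nr m)⁻¹ = ∏ v ∈ m, (3 * (nm v : ℝ)⁻¹) := by
  rw [Finset.prod_mul_distrib, Finset.prod_const, nr, Finset.prod_inv_distrib]

theorem ub_np (K : Type) [Field K] [NumberField K] : ∃ C : ℝ, 0 < C ∧
    ∀ M : Finset (Finset (Pl K)), (∀ m ∈ M, ∀ v ∈ m, ¬ (nm v).Prime) →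
      ∑ m ∈ M, (3 : ℝ) ^ m.card * (nr m)⁻¹ ≤ C := by
  have hsum := deg_summable K (σ := 1) (by norm_num)
  refine ⟨Real.exp (3 * ∑' v : Pl K, Set.indicator {v : Pl K | ¬ (nm v).Prime}
    (fun v => (nm v : ℝ) ^ (-(1 : ℝ))) v), Real.exp_pos _, ?_⟩
  intro M hM
  set V : Finset (Pl K) := M.biUnion id with hV
  have hMV : M ⊆ V.powerset := by
    intro m hm
    rw [Finset.mem_powerset]
    intro v hv
    exact Finset.mem_biUnion.2 ⟨m, hm, hv⟩
  have hVp : ∀ v ∈ V, ¬ (nm v).Prime := by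
    intro v hv
    obtain ⟨m, hm, hvm⟩ := Finset.mem_biUnion.1 hv
    exact hM m hm v hvm
  have hnn : ∀ v : Pl K, (0 : ℝ) ≤ 3 * (nm v : ℝ)⁻¹ := fun v => by positivity
  calc ∑ m ∈ M, (3 : ℝ) ^ m.card * (nr m)⁻¹
      = ∑ m ∈ M, ∏ v ∈ m, (3 * (nm v : ℝ)⁻¹) := Finset.sum_congr rfl fun m _ => term_eq m
    _ ≤ ∑ m ∈ V.powerset, ∏ v ∈ m, (3 * (nm v : ℝ)⁻¹) :=
        Finset.sum_le_sum_of_subset_of_nonneg hMV fun m _ _ => Finset.prod_nonneg fun v _ => hnn v
    _ = ∏ v ∈ V, (1 + 3 * (nm v : ℝ)⁻¹) := (Finset.prod_one_add _).symm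
    _ ≤ ∏ v ∈ V, Real.exp (3 * (nm v : ℝ)⁻¹) := by
        refine Finset.prod_le_prod (fun v _ => by have := hnn v; positivity) fun v _ => ?_
        rw [add_comm]
        exact Real.add_one_le_exp _
    _ = Real.exp (∑ v ∈ V, 3 * (nm v : ℝ)⁻¹) := (Real.exp_sum _ _).symm
    _ ≤ _ := by
        apply Real.exp_le_exp.2
        rw [← Finset.mul_sum]
        apply mul_le_mul_of_nonneg_left _ (by norm_num)
        have h1 : ∑ v ∈ V, ((nm v : ℝ)⁻¹) = ∑ v ∈ V, Set.indicator {v : Pl K | ¬ (nm v).Prime}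
            (fun v => (nm v : ℝ) ^ (-(1 : ℝ))) v := by
          refine Finset.sum_congr rfl fun v hv => ?_
          have hmem : v ∈ {v : Pl K | ¬ (nm v).Prime} := hVp v hv
          rw [Set.indicator_of_mem hmem, Real.rpow_neg_one]
        rw [h1]
        exact hsum.sum_le_tsum _ fun v _ => Set.indicator_nonneg (fun v _ => by positivity) v

variable {K : Type} [Field K] [NumberField K] {ω : K}

theorem ub_all (hω : IsPrimitiveRoot ω 3) (D : RD K 3 ω) (η : ℝ) (hη : 0 < η) :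
    ∃ C : ℝ, 0 < C ∧ ∀ (y : Kˣ) (E : Finset (Pl K)), (∀ v ∈ E, v ∉ D.S0) →
      (∀ v, v ∉ D.S0 → v ∉ E → ord v y = 0) → ¬ IsPow 3 y → ∀ Y : ℝ, 0 ≤ Y →
        ∑ n ∈ (AF K Y).filter (fun n => (∀ v ∈ n, v ∉ D.S0) ∧ Disjoint n E ∧
          ∀ v ∈ n, D.LL v y = 0), (3 : ℝ) ^ n.card ≤ C * nr E ^ η * Y := by
  obtain ⟨C1, hC1, hgood⟩ := ub_good hω D η hη
  obtain ⟨C2, hC2, hnp⟩ := ub_np K
  refine ⟨C1 * C2, mul_pos hC1 hC2, ?_⟩
  intro y E hE hy hpow Y hY
  have hnrE : (0 : ℝ) ≤ nr E ^ η :=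
    Real.rpow_nonneg (zero_le_one.trans (one_le_nr E)) _
  set F := (AF K Y).filter (fun n => (∀ v ∈ n, v ∉ D.S0) ∧ Disjoint n E ∧
    ∀ v ∈ n, D.LL v y = 0) with hF
  set g : Finset (Pl K) → Finset (Pl K) := fun n => n.filter (fun v => ¬ (nm v).Prime) with hg
  set p : Finset (Pl K) → Finset (Pl K) := fun n => n.filter (fun v => (nm v).Prime) with hp
  have hcard : ∀ n : Finset (Pl K), n.card = (g n).card + (p n).card := by
    intro n
    rw [add_comm]
    exact (Finset.card_filter_add_card_filter_not (s := n) (fun v => (nm v).Prime)).symm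
  have hnr : ∀ n : Finset (Pl K), nr n = nr (p n) * nr (g n) := by
    intro n
    unfold nr
    exact (Finset.prod_filter_mul_prod_filter_not n (fun v => (nm v).Prime) _).symm
  have hrec : ∀ n : Finset (Pl K), n = p n ∪ g n := by
    intro n
    exact (Finset.filter_union_filter_not_eq (fun v => (nm v).Prime) n).symm
  have hfib : ∀ n2 ∈ F.image g, ∑ n ∈ F.filter (fun n => g n = n2), (3 : ℝ) ^ n.card ≤
      C1 * nr E ^ η * Y * ((3 : ℝ) ^ n2.card * (nr n2)⁻¹) := by
    intro n2 hn2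
    obtain ⟨n0, hn0, hgn0⟩ := Finset.mem_image.1 hn2
    have hn2pos : 0 < nr n2 := lt_of_lt_of_le one_pos (one_le_nr n2)
    have hY1 : 1 ≤ Y / nr n2 := by
      rw [le_div_iff₀ hn2pos, one_mul]
      have h1 : nr n0 ≤ Y := mem_AF.1 (Finset.mem_filter.1 hn0).1
      have h2 : nr n2 ≤ nr n0 := by
        rw [← hgn0]
        exact nr_mono (Finset.filter_subset _ _)
      exact h2.trans h1
    have hG := hgood y E hE hy hpow (Y / nr n2) hY1
    set G := (GF D.toRD0 (Y / nr n2)).filter (fun n => Disjoint n E ∧ ∀ v ∈ n, D.LL v y = 0)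
      with hGdef
    have hmap : ∀ n ∈ F.filter (fun n => g n = n2), p n ∈ G := by
      intro n hn
      obtain ⟨hnF, hgn⟩ := Finset.mem_filter.1 hn
      obtain ⟨hnA, h1, h2, h3⟩ := Finset.mem_filter.1 hnF
      have hsub : p n ⊆ n := Finset.filter_subset _ _
      refine Finset.mem_filter.2 ⟨Finset.mem_filter.2 ⟨mem_AF.2 ?_, ?_⟩, ?_, ?_⟩
      · rw [le_div_iff₀ hn2pos, ← hgn, ← hnr]
        exact mem_AF.1 hnA
      · intro v hv
        exact ⟨h1 v (hsub hv), (Finset.mem_filter.1 hv).2⟩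
      · exact Finset.disjoint_of_subset_left hsub h2
      · intro v hv
        exact h3 v (hsub hv)
    have hinj : Set.InjOn p (F.filter (fun n => g n = n2)) := by
      intro a ha b hb hab
      have ha' := (Finset.mem_filter.1 ha).2
      have hb' := (Finset.mem_filter.1 hb).2
      rw [hrec a, hrec b, hab, ha', hb']
    calc ∑ n ∈ F.filter (fun n => g n = n2), (3 : ℝ) ^ n.card
        = ∑ n ∈ F.filter (fun n => g n = n2), (3 : ℝ) ^ n2.card * (3 : ℝ) ^ (p n).card := by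
          refine Finset.sum_congr rfl fun n hn => ?_
          rw [hcard n, (Finset.mem_filter.1 hn).2, pow_add]
      _ = (3 : ℝ) ^ n2.card * ∑ n ∈ F.filter (fun n => g n = n2), (3 : ℝ) ^ (p n).card :=
          (Finset.mul_sum _ _ _).symm
      _ = (3 : ℝ) ^ n2.card * ∑ n1 ∈ (F.filter (fun n => g n = n2)).image p,
            (3 : ℝ) ^ n1.card := by
          rw [Finset.sum_image hinj]
      _ ≤ (3 : ℝ) ^ n2.card * ∑ n1 ∈ G, (3 : ℝ) ^ n1.card := by
          apply mul_le_mul_of_nonneg_left _ (by positivity)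
          apply Finset.sum_le_sum_of_subset_of_nonneg
          · intro z hz
            obtain ⟨n, hn, rfl⟩ := Finset.mem_image.1 hz
            exact hmap n hn
          · intro _ _ _
            positivity
      _ ≤ (3 : ℝ) ^ n2.card * (C1 * nr E ^ η * (Y / nr n2)) :=
          mul_le_mul_of_nonneg_left hG (by positivity)
      _ = C1 * nr E ^ η * Y * ((3 : ℝ) ^ n2.card * (nr n2)⁻¹) := by
          rw [div_eq_mul_inv]
          ring
  rw [← Finset.sum_fiberwise_of_maps_to (s := F) (t := F.image g) (g := g)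
    (fun n hn => Finset.mem_image_of_mem g hn)]
  calc ∑ n2 ∈ F.image g, ∑ n ∈ F.filter (fun n => g n = n2), (3 : ℝ) ^ n.card
      ≤ ∑ n2 ∈ F.image g, C1 * nr E ^ η * Y * ((3 : ℝ) ^ n2.card * (nr n2)⁻¹) :=
        Finset.sum_le_sum hfib
    _ = C1 * nr E ^ η * Y * ∑ n2 ∈ F.image g, ((3 : ℝ) ^ n2.card * (nr n2)⁻¹) :=
        (Finset.mul_sum _ _ _).symm
    _ ≤ C1 * nr E ^ η * Y * C2 := by
        apply mul_le_mul_of_nonneg_left _ (by positivity)
        apply hnp
        intro m hm v hv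
        obtain ⟨n, _, rfl⟩ := Finset.mem_image.1 hm
        exact (Finset.mem_filter.1 hv).2
    _ = C1 * C2 * nr E ^ η * Y := by ring

end H48.KV
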