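import Pool.Agent.H48.KV.GrpB
import Pool.Agent.H48.KV.FldA
import Pool.Agent.H63.MC.CDef
import Pool.Agent.H38.BG.TTam
import Pool.Agent.H63.BU.UOrd

/-!
# [H48 KV UBC] the element `y` with `F = K(y^{1/3})`; `V`-ramified primes split in `F`, 110-170 lines. File Pool/Agent/H48/KV/UbC.lean

* `ubc_y`: `kc_all` (H63/MA/GKus.lean, `p = 3`) for the character `χ = k.pi ∘ φ₀ : Γ → Multiplicative (ZMod 3)` gives `y'` with `kk 3 ω y' σ = toAdd (χ σ)`. Put `y = y' * ∏_{v ∉ S0, ord v y' ≠ 0} (D.pi v)^(-3 ⌊ord v y' / 3⌋)` (finite product: `finite_ord`): `kk` does not change (`kk_mul_arg`, `3 = 0` in `ZMod 3`), and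
  `ord v y ∈ {0, 1, 2}` for `v ∉ S0` (`D.pi_self`, `D.pi_ne`, as `ukum_ordE` in H63/BU/UKum.lean). `¬ IsPow 3 y`: otherwise `kk 3 ω y = 0` (`kk_eq_zero_iff`), but `χ ≠ 1` (`φ₀` and `k.pi` are surjective). Last clause: if `v ∉ S0` and `ord v y ≠ 0` then `(ord v y : ZMod 3) ≠ 0`; with `π = D.pi v`, `L : LD 3 ω QBar v π`, `L.P = Q.P v`
  (`H63.BU.uord_at`), `kk 3 ω y L.t = ord v y` (`ld_kk_t`), so `k.pi (φ₀ L.t) ≠ 1`, and `L.t` is in the inertia group.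
* `ubc_pi`: choose `π` with `ord v π = 1` (`exists_unif`), `L : LD 2 (-1) QBar v π`, `L.P = Q.P v` (`uord_at`; `v` not above 2). For `s` in the inertia group `φ s = φ L.t ^ (kk 2 (-1) π s).val` (`tm`, H38/BG/TTam.lean; `φ s ^ 2 = 1` by `kv_sq`), so `φ L.t ≠ 1` (otherwise `φ` is trivial on the inertia group). For `g` in the decomposition group
  `g L.t g⁻¹` is in the inertia group (the inertia group is normal in the decomposition group: `s • x - x ∈ P` for all `x`), and `kk 2 (-1) π (g L.t g⁻¹) = kk 2 (-1) π L.t` (`kk` is additive in `σ`: `kc` is a homomorphism into a commutative group), so `φ g * φ L.t * (φ g)⁻¹ = φ L.t`. If `k.pi (φ g) ≠ 1` then `φ L.t = 1` by `kv_fix`: contradiction.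
* `ubc_LL`: `gfrob_ex` (H63/MA/GFrob.lean) for `P = Q.P v` gives a Frobenius element `g`, it is in `dec (Q.P v)` (`x ∈ P` implies `g x ∈ P`; if `g x ∈ P` then `x ^ nm v ∈ P`, `P` is prime). `kk 3 ω y g = toAdd (k.pi (φ₀ g)) = 0` (`ubc_pi`, `eqv_pi`), and `gfrob_unit`: `kk 3 ω y g = lg 3 ω v y` since `ord v y = 0`. `LL v y = lg (y * pi^0)`.
-/

set_option autoImplicit false

open scoped NumberField Classical Pointwise
open IsDedekindDomain H38.ML H63.MA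

noncomputable section

namespace H48.KV

variable {K : IntermediateField ℚ QBar} [NumberField K] {G : Type} [Group G] [Finite G]
  {k : KV G} {ω : K}

/-- normal in the decomposition group -/
private theorem ubc_conj (P : Ideal (𝓞 QBar)) (g t : Gal(QBar/K)) (hg : g ∈ dec (K := K) P)
    (ht : t ∈ P.inertia Gal(QBar/K)) : g * t * g⁻¹ ∈ P.inertia Gal(QBar/K) := by
  intro x
  have h1 : t • (g⁻¹ • x) - g⁻¹ • x ∈ P := ht (g⁻¹ • x)
  have h2 := (hg (t • (g⁻¹ • x) - g⁻¹ • x)).2 h1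
  rw [smul_sub, smul_inv_smul, ← mul_smul, ← mul_smul] at h2
  exact h2

theorem ubc_y (hω : IsPrimitiveRoot ω 3) (D : RD0 K 3 ω) (Q : DP K QBar)
    (φ₀ : Gal(QBar/K) →* G) (hft : FT φ₀) (hs : Function.Surjective φ₀) :
    ∃ y : Kˣ, ¬ IsPow 3 y ∧
      (∀ σ : Gal(QBar/K), kk 3 ω y σ = Multiplicative.toAdd (k.pi (φ₀ σ))) ∧
      {v : Pl K | v ∉ D.S0 ∧ ord v y ≠ 0}.Finite ∧
      ∀ v, v ∉ D.S0 → ord v y ≠ 0 →
        ∃ σ ∈ (Q.P v).inertia Gal(QBar/K), k.pi (φ₀ σ) ≠ 1 := by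
  obtain ⟨y', hy'⟩ := kc_all Nat.prime_three hω (k.pi.comp φ₀) (ft_comp k.pi φ₀ hft)
  have hk' : ∀ σ : Gal(QBar/K), kk 3 ω y' σ = Multiplicative.toAdd (k.pi (φ₀ σ)) := by
    intro σ
    unfold kk
    rw [← hy']
    rfl
  let E : Finset (Pl K) := (finite_ord y').toFinset.filter fun v => v ∉ D.S0
  have hE : ∀ v, v ∈ E ↔ ord v y' ≠ 0 ∧ v ∉ D.S0 := by
    intro v
    simp only [E, Finset.mem_filter, Set.Finite.mem_toFinset]
    rfl
  let z : Kˣ := ∏ w ∈ E, D.pi w ^ (-(ord w y' / 3))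
  have hz : ∀ v, v ∉ D.S0 → ord v z = -(ord v y' / 3) := by
    intro v hv
    simp only [z]
    rw [ord_prod]
    by_cases h : v ∈ E
    · rw [Finset.sum_eq_single v]
      · rw [ord_zpow, D.pi_self v hv, mul_one]
      · intro w hw hne
        rw [ord_zpow, D.pi_ne w v ((hE w).1 hw).2 hv (Ne.symm hne), mul_zero]
      · intro h'
        exact absurd h h'
    · have h0 : ord v y' = 0 := by
        by_contra h1
        exact h ((hE v).2 ⟨h1, hv⟩)
      rw [h0, Finset.sum_eq_zero]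
      · norm_num
      · intro w hw
        have hne : v ≠ w := by
          rintro rfl
          exact h hw
        rw [ord_zpow, D.pi_ne w v ((hE w).1 hw).2 hv hne, mul_zero]
  have hord : ∀ v, v ∉ D.S0 → ord v (y' * z ^ 3) = ord v y' % 3 := by
    intro v hv
    rw [ord_mul, ord_pow, hz v hv]
    push_cast
    omega
  have hk : ∀ σ : Gal(QBar/K), kk 3 ω (y' * z ^ 3) σ = Multiplicative.toAdd (k.pi (φ₀ σ)) := by
    intro σ
    rw [kk_mul_arg Nat.prime_three hω, hk' σ,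
      (kk_eq_zero_iff Nat.prime_three hω (z ^ 3)).2 ⟨z, rfl⟩ σ, add_zero]
  refine ⟨y' * z ^ 3, fun hp => ?_, hk, (finite_ord (y' * z ^ 3)).subset fun v hv => hv.2,
    fun v hv h0 => ?_⟩
  · obtain ⟨g, hg⟩ := k.sj (Multiplicative.ofAdd 1)
    obtain ⟨σ, rfl⟩ := hs g
    have h1 := (kk_eq_zero_iff Nat.prime_three hω (y' * z ^ 3)).2 hp σ
    rw [hk σ, hg, toAdd_ofAdd] at h1
    exact absurd h1 (by decide)
  · have hab : ¬ Above 3 v := fun h => hv (D.above v h)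
    obtain ⟨L, hL⟩ := H63.BU.uord_at QBar Nat.prime_three hω hab (D.pi_self v hv) (Q.P v)
      (Q.prime v) (Q.under v)
    refine ⟨L.t, ?_, fun h => ?_⟩
    · rw [← hL]
      exact L.ht
    · have h1 := ld_kk_t Nat.prime_three hω hab (D.pi_self v hv) L (y' * z ^ 3)
      rw [hk, h, toAdd_one, eq_comm, ZMod.intCast_zmod_eq_zero_iff_dvd] at h1
      rw [hord v hv] at h1 h0
      omega

theorem ubc_pi (Q : DP K QBar) (v : Pl K) (h2 : ¬ Above 2 v) (φ : Gal(QBar/K) →* G)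
    (hft : FT φ) (hV : ∀ σ ∈ (Q.P v).inertia Gal(QBar/K), φ σ ∈ k.V)
    (hr : ∃ σ ∈ (Q.P v).inertia Gal(QBar/K), φ σ ≠ 1) (g : Gal(QBar/K))
    (hg : g ∈ dec (K := K) (Q.P v)) : k.pi (φ g) = 1 := by
  have hm : IsPrimitiveRoot (-1 : K) 2 := IsPrimitiveRoot.neg_one 0 (by norm_num)
  obtain ⟨π, hπ⟩ := exists_unif v
  obtain ⟨L, hL⟩ := H63.BU.uord_at QBar Nat.prime_two hm h2 hπ (Q.P v) (Q.prime v) (Q.under v)
  have htm : ∀ τ ∈ (Q.P v).inertia Gal(QBar/K),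
      φ τ = φ L.t ^ (kk 2 (-1 : K) π τ).val := by
    intro τ hτ
    refine H38.BG.tm Nat.prime_two hm h2 hπ L φ hft (fun σ hσ => ?_) τ (by rw [hL]; exact hτ)
    rw [hL] at hσ
    exact kv_sq k (hV σ hσ)
  have ht : L.t ∈ (Q.P v).inertia Gal(QBar/K) := by
    rw [← hL]
    exact L.ht
  have hkk : kk 2 (-1 : K) π (g * L.t * g⁻¹) = kk 2 (-1 : K) π L.t := by
    have h1 : kk 2 (-1 : K) π g + kk 2 (-1 : K) π g⁻¹ = 0 := by
      rw [← kk_mul, mul_inv_cancel, kk_one]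
    rw [kk_mul, kk_mul, add_right_comm, h1, zero_add]
  by_contra h
  obtain ⟨σ, hσ, hσ1⟩ := hr
  apply hσ1
  have h3 : φ L.t = 1 := by
    apply kv_fix k h (hV _ ht)
    rw [← map_inv, ← map_mul, ← map_mul, htm _ (ubc_conj (Q.P v) g L.t hg ht), hkk,
      ← htm _ ht]
  rw [htm σ hσ, h3, one_pow]

theorem ubc_LL (hω : IsPrimitiveRoot ω 3) (D : RD0 K 3 ω) (Q : DP K QBar)
    (φ₀ φ : Gal(QBar/K) →* G) (he : Eqv k φ φ₀) (hft : FT φ) (y : Kˣ)
    (hy : ∀ σ : Gal(QBar/K), kk 3 ω y σ = Multiplicative.toAdd (k.pi (φ₀ σ))) (v : Pl K)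
    (hv : v ∉ D.S0) (h0 : ord v y = 0) (h2 : ¬ Above 2 v)
    (hV : ∀ σ ∈ (Q.P v).inertia Gal(QBar/K), φ σ ∈ k.V)
    (hr : ∃ σ ∈ (Q.P v).inertia Gal(QBar/K), φ σ ≠ 1) : D.LL v y = 0 := by
  have hab : ¬ Above 3 v := fun h => hv (D.above v h)
  obtain ⟨g, hg⟩ := gfrob_ex (Q.P v) (Q.prime v) (Q.under v)
  have hnm : nm v ≠ 0 := (Nat.lt_trans Nat.zero_lt_one (one_lt_nm v)).ne'
  have hdec : g ∈ dec (K := K) (Q.P v) := by
    intro x
    constructor
    · intro hx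
      have h1 := (Q.P v).sub_mem hx (hg x)
      rw [sub_sub_cancel] at h1
      exact (Q.prime v).mem_of_pow_mem _ h1
    · intro hx
      have h1 := (Q.P v).add_mem (hg x) ((Q.P v).pow_mem_of_mem hx _ (Nat.pos_of_ne_zero hnm))
      rwa [sub_add_cancel] at h1
  have h1 : kk 3 ω y g = 0 := by
    rw [hy, ← eqv_pi k he, ubc_pi Q v h2 φ hft hV hr g hdec, toAdd_one]
  have h3 := gfrob_unit Nat.prime_three hω hab (Q.P v) (Q.prime v) (Q.under v) g hg y h0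
  unfold RD0.LL
  rw [h0, neg_zero, zpow_zero, mul_one, ← h3, h1]

end H48.KV
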